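import Pool.Agent.Lib.ZP.ArchRep
import Pool.Agent.Lib.Z579.E6U1
import Pool.Agent.Lib.Z579.E6U24
import Pool.Agent.Lib.Z579.E6U3

/-!
# Certificate for `{7, 9, 11, 13}`, scale 24
-/

set_option autoImplicit false

open Real Finset Set

namespace Z579

namespace Num

open Arch EM

set_option maxRecDepth 100000

/-- parameters of the reference configuration -/
noncomputable def PZ7 : Par :=
  { r := 4, q := 10, al := 24, t1 := 10, tau := 18, eps := 21, mu := 100, c1 := 14 / 5,
    c2 := 19 / 10, d := 9 / 10 }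

def DZ7 : Dat :=
  { l := -181859
    sL := [234598, 174823, 132908, 98809, 70354, 46564, 26958, 11376, 0, 0, 0, 2484, 1275, 0, 0,
      0, 0, 0]
    sR := [174823, 132908, 98809, 70354, 46564, 26958, 11377, 0, 0, 0, 3036, 1396, 0, 0, 0, 0, 0,
      15]
    eL := [622585, 608144, 598848, 592281, 587720, 584846, 583528, 583753, 585639, 589425,
      598602, 607849, 613815, 618923, 623719, 628511, 633567, 639169]
    eR := [607684, 598750, 592242, 587702, 584841, 583532, 583773, 585695, 589699, 597201,
      607849, 613817, 618927, 623727, 628527, 633606, 639355, 646817]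
    fL := [647743, 650824, 654093, 657536, 661137, 664874, 668728, 672681, 676718, 680828,
      685005, 689245, 693551, 697925, 702379, 706925, 711584, 716384, 721371, 726614, 732213]
    fR := [650824, 654091, 657534, 661134, 664872, 668726, 672679, 676716, 680827, 685004,
      689245, 693550, 697926, 702380, 706926, 711586, 716388, 721379, 726633, 732301, 738856] }

private lemma lineZ7_0 : allB 20 (fun j => chkLineL [16, 18, 20, 22, 24] 24 10 18 21 28 19 9 10 (-181859) (0 + j)) = true := by
  decide +kernel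

private lemma lineZ7_1 : allB 20 (fun j => chkLineL [16, 18, 20, 22, 24] 24 10 18 21 28 19 9 10 (-181859) (20 + j)) = true := by
  decide +kernel

private lemma lineZ7_2 : allB 20 (fun j => chkLineL [16, 18, 20, 22, 24] 24 10 18 21 28 19 9 10 (-181859) (40 + j)) = true := by
  decide +kernel

private lemma lineZ7_3 : allB 20 (fun j => chkLineL [16, 18, 20, 22, 24] 24 10 18 21 28 19 9 10 (-181859) (60 + j)) = true := by
  decide +kernel

private lemma lineZ7_4 : allB 16 (fun j => chkLineL [16, 18, 20, 22, 24] 24 10 18 21 28 19 9 10 (-181859) (80 + j)) = true := by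
  decide +kernel

private lemma siteZ7 : allB 18 (fun i => chkSiteL [16, 18, 20, 22, 24] 24 10 18 21 28 19 9 10 DZ7 i) = true := by
  decide +kernel

private lemma esZ7 : allB 18 (fun i => chkS 24 10 18 21 28 19 9 10 DZ7 i) = true := by
  decide +kernel

private lemma elZ7 : allB 21 (fun i => chkL 24 10 18 21 28 19 9 10 DZ7 i) = true := by
  decide +kernel

private lemma totZ7 : totZ 4 100 10 18 21 28 19 9 10 DZ7 ≤ 2000 * 10 * (-78125) := by
  decide +kernel

lemma okZ7 : (PZ7).Ok := by
  constructor <;> norm_num [PZ7]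

theorem certZ7 : Nonempty (CertL PZ7 {16, 18, 20, 22, 24} (-78125 : ℤ)) := by
  refine mk_certL PZ7 okZ7 {16, 18, 20, 22, 24} [16, 18, 20, 22, 24] (by intro f; simp) (C1 := 28) (C2 := 19) (Dd := 9) (den := 10) (by norm_num)
    (by norm_num [PZ7]) (by norm_num [PZ7]) (by norm_num [PZ7]) DZ7 96 (-78125) (by norm_num [PZ7])
    (by norm_num [PZ7]) ?_ ?_ ?_ ?_ ?_
  · intro j hj
    rcases lt_or_ge j 20 with h | h
    · obtain ⟨i, rfl⟩ : ∃ i, j = 0 + i := ⟨j - 0, by omega⟩
      exact allB_spec lineZ7_0 i (by omega)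
    rcases lt_or_ge j 40 with h | h
    · obtain ⟨i, rfl⟩ : ∃ i, j = 20 + i := ⟨j - 20, by omega⟩
      exact allB_spec lineZ7_1 i (by omega)
    rcases lt_or_ge j 60 with h | h
    · obtain ⟨i, rfl⟩ : ∃ i, j = 40 + i := ⟨j - 40, by omega⟩
      exact allB_spec lineZ7_2 i (by omega)
    rcases lt_or_ge j 80 with h | h
    · obtain ⟨i, rfl⟩ : ∃ i, j = 60 + i := ⟨j - 60, by omega⟩
      exact allB_spec lineZ7_3 i (by omega)
    obtain ⟨i, rfl⟩ : ∃ i, j = 80 + i := ⟨j - 80, by omega⟩
    exact allB_spec lineZ7_4 i (by omega)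
  · exact fun i hi => allB_spec siteZ7 i hi
  · exact fun i hi => allB_spec esZ7 i hi
  · exact fun i hi => allB_spec elZ7 i hi
  · exact totZ7

end Num

end Z579
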