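import Pool.Agent.Lib.ZSA.GNumB

/-!
# Certificate for `{9, ..., 19}`, scale 24
-/

set_option autoImplicit false

open Real Finset Set

namespace Z579

namespace Num

open Arch EM

set_option maxRecDepth 100000

/-- parameters of the reference configuration -/
def PZ9 : PB :=
  { r := 6, al := 24, tau := 22, eps := 28, mu := 133, den := 16,
    sb := [(8, 48), (11, 20), (15, 16), (22, 26)], lb := [(4, 3), (20, 6), (28, 8)] }

def DZ9 : Dat :=
  { l := -211866
    sL := [268386, 192629, 139545, 96985, 62367, 34641, 13534, 0, 919, 488, 0, 0, 0, 0, 0, 0, 0,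
      0, 0, 0, 0, 0]
    sR := [192630, 139546, 96985, 62368, 34641, 13534, 0, 0, 1080, 0, 0, 0, 0, 0, 0, 70, 0, 0, 0,
      0, 0, 53]
    eL := [831847, 811760, 799317, 791017, 785839, 783394, 783613, 786652, 796219, 806638,
      814403, 823647, 832552, 839924, 847078, 855587, 863732, 870442, 876684, 882750, 888868,
      895276]
    eR := [811089, 799177, 790964, 785822, 783404, 783668, 786945, 794724, 806661, 814525,
      823023, 832558, 839944, 847176, 855087, 863733, 870445, 876691, 882763, 888902, 895435,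
      903251]
    fL := [904021, 906746, 909816, 913235, 917218, 921388, 925496, 929683, 933963, 938336,
      942798, 947343, 951969, 956675, 961463, 966337, 971310, 976397, 981630, 987052, 993140,
      999192, 1004768, 1010204, 1015585, 1020968, 1026412, 1031984]
    fR := [906746, 909819, 913252, 917122, 921385, 925493, 929681, 933961, 938335, 942796,
      947342, 951968, 956674, 961462, 966337, 971311, 976400, 981638, 987088, 992952, 999192,
      1004768, 1010205, 1015587, 1020972, 1026422, 1032032, 1038075] }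

private lemma lineZ9_0 : allB 12 (fun j => chkLineB [16, 17, 18, 19, 20, 21, 22] 24 22 16
    [(8, 48), (11, 20), (15, 16), (22, 26)] [(4, 3), (20, 6), (28, 8)] (-211866) (0 + j)) = true := by
  decide +kernel

private lemma lineZ9_1 : allB 12 (fun j => chkLineB [16, 17, 18, 19, 20, 21, 22] 24 22 16
    [(8, 48), (11, 20), (15, 16), (22, 26)] [(4, 3), (20, 6), (28, 8)] (-211866) (12 + j)) = true := by
  decide +kernel

private lemma lineZ9_2 : allB 12 (fun j => chkLineB [16, 17, 18, 19, 20, 21, 22] 24 22 16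
    [(8, 48), (11, 20), (15, 16), (22, 26)] [(4, 3), (20, 6), (28, 8)] (-211866) (24 + j)) = true := by
  decide +kernel

private lemma lineZ9_3 : allB 12 (fun j => chkLineB [16, 17, 18, 19, 20, 21, 22] 24 22 16
    [(8, 48), (11, 20), (15, 16), (22, 26)] [(4, 3), (20, 6), (28, 8)] (-211866) (36 + j)) = true := by
  decide +kernel

private lemma lineZ9_4 : allB 12 (fun j => chkLineB [16, 17, 18, 19, 20, 21, 22] 24 22 16
    [(8, 48), (11, 20), (15, 16), (22, 26)] [(4, 3), (20, 6), (28, 8)] (-211866) (48 + j)) = true := by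
  decide +kernel

private lemma lineZ9_5 : allB 12 (fun j => chkLineB [16, 17, 18, 19, 20, 21, 22] 24 22 16
    [(8, 48), (11, 20), (15, 16), (22, 26)] [(4, 3), (20, 6), (28, 8)] (-211866) (60 + j)) = true := by
  decide +kernel

private lemma lineZ9_6 : allB 12 (fun j => chkLineB [16, 17, 18, 19, 20, 21, 22] 24 22 16
    [(8, 48), (11, 20), (15, 16), (22, 26)] [(4, 3), (20, 6), (28, 8)] (-211866) (72 + j)) = true := by
  decide +kernel

private lemma lineZ9_7 : allB 12 (fun j => chkLineB [16, 17, 18, 19, 20, 21, 22] 24 22 16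
    [(8, 48), (11, 20), (15, 16), (22, 26)] [(4, 3), (20, 6), (28, 8)] (-211866) (84 + j)) = true := by
  decide +kernel

private lemma lineZ9_8 : allB 12 (fun j => chkLineB [16, 17, 18, 19, 20, 21, 22] 24 22 16
    [(8, 48), (11, 20), (15, 16), (22, 26)] [(4, 3), (20, 6), (28, 8)] (-211866) (96 + j)) = true := by
  decide +kernel

private lemma lineZ9_9 : allB 12 (fun j => chkLineB [16, 17, 18, 19, 20, 21, 22] 24 22 16
    [(8, 48), (11, 20), (15, 16), (22, 26)] [(4, 3), (20, 6), (28, 8)] (-211866) (108 + j)) = true := by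
  decide +kernel

private lemma lineZ9_10 : allB 1 (fun j => chkLineB [16, 17, 18, 19, 20, 21, 22] 24 22 16
    [(8, 48), (11, 20), (15, 16), (22, 26)] [(4, 3), (20, 6), (28, 8)] (-211866) (120 + j)) = true := by
  decide +kernel

private lemma siteZ9 : allB 22 (fun i => chkSiteB [16, 17, 18, 19, 20, 21, 22] 24 22 16
    [(8, 48), (11, 20), (15, 16), (22, 26)] [(4, 3), (20, 6), (28, 8)] DZ9 i) = true := by
  decide +kernel

private lemma esZ9 : allB 22 (fun i => chkSB 24 22 16
    [(8, 48), (11, 20), (15, 16), (22, 26)] [(4, 3), (20, 6), (28, 8)] DZ9 i) = true := by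
  decide +kernel

private lemma elZ9 : allB 28 (fun i => chkLB 24 22 16
    [(8, 48), (11, 20), (15, 16), (22, 26)] [(4, 3), (20, 6), (28, 8)] DZ9 i) = true := by
  decide +kernel

private lemma totZ9 : totB 6 133 22 16
    [(8, 48), (11, 20), (15, 16), (22, 26)] [(4, 3), (20, 6), (28, 8)] DZ9 ≤ 2000 * 16 * (-137924) := by
  decide +kernel

lemma okZ9 : (PZ9).Ok := by
  constructor <;> simp [PZ9, LS] <;> norm_num

theorem certZ9 : Nonempty (CertB PZ9 {16, 17, 18, 19, 20, 21, 22} (-137924 : ℤ)) := by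
  refine mk_certB PZ9 okZ9 {16, 17, 18, 19, 20, 21, 22} [16, 17, 18, 19, 20, 21, 22] (by
      intro f; simp [Finset.sum_insert, add_assoc]) DZ9 121 (-137924) (by simp [PZ9])
    (by simp [PZ9, LS]; norm_num) ?_ ?_ ?_ ?_ ?_
  · intro j hj
    rcases lt_or_ge j 12 with h | h
    · obtain ⟨i, rfl⟩ : ∃ i, j = 0 + i := ⟨j - 0, by omega⟩
      exact allB_spec lineZ9_0 i (by omega)
    rcases lt_or_ge j 24 with h | h
    · obtain ⟨i, rfl⟩ : ∃ i, j = 12 + i := ⟨j - 12, by omega⟩
      exact allB_spec lineZ9_1 i (by omega)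
    rcases lt_or_ge j 36 with h | h
    · obtain ⟨i, rfl⟩ : ∃ i, j = 24 + i := ⟨j - 24, by omega⟩
      exact allB_spec lineZ9_2 i (by omega)
    rcases lt_or_ge j 48 with h | h
    · obtain ⟨i, rfl⟩ : ∃ i, j = 36 + i := ⟨j - 36, by omega⟩
      exact allB_spec lineZ9_3 i (by omega)
    rcases lt_or_ge j 60 with h | h
    · obtain ⟨i, rfl⟩ : ∃ i, j = 48 + i := ⟨j - 48, by omega⟩
      exact allB_spec lineZ9_4 i (by omega)
    rcases lt_or_ge j 72 with h | h
    · obtain ⟨i, rfl⟩ : ∃ i, j = 60 + i := ⟨j - 60, by omega⟩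
      exact allB_spec lineZ9_5 i (by omega)
    rcases lt_or_ge j 84 with h | h
    · obtain ⟨i, rfl⟩ : ∃ i, j = 72 + i := ⟨j - 72, by omega⟩
      exact allB_spec lineZ9_6 i (by omega)
    rcases lt_or_ge j 96 with h | h
    · obtain ⟨i, rfl⟩ : ∃ i, j = 84 + i := ⟨j - 84, by omega⟩
      exact allB_spec lineZ9_7 i (by omega)
    rcases lt_or_ge j 108 with h | h
    · obtain ⟨i, rfl⟩ : ∃ i, j = 96 + i := ⟨j - 96, by omega⟩
      exact allB_spec lineZ9_8 i (by omega)
    rcases lt_or_ge j 120 with h | h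
    · obtain ⟨i, rfl⟩ : ∃ i, j = 108 + i := ⟨j - 108, by omega⟩
      exact allB_spec lineZ9_9 i (by omega)
    obtain ⟨i, rfl⟩ : ∃ i, j = 120 + i := ⟨j - 120, by omega⟩
    exact allB_spec lineZ9_10 i (by omega)
  · exact fun i hi => allB_spec siteZ9 i hi
  · exact fun i hi => allB_spec esZ9 i hi
  · exact fun i hi => allB_spec elZ9 i hi
  · exact totZ9

end Num

end Z579
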