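import Pool.Agent.Lib.ZP.Defs
import Pool.Agent.Lib.ZSA.GNum

/-!
# Mixed representation of the functional of a pole profile
-/

open MeasureTheory Filter Topology Polynomial Finset Z579

namespace ZP

open Z579.EM

/-- the polynomial `YY` at `v^2` over the complex numbers -/
noncomputable def YC (P : Pf) (k : ℕ) (v : ℂ) : ℂ :=
  ∏ i ∈ P.Lv, ∏ w ∈ Finset.Ioc (i * k) (P.al * k), ((v - (w : ℂ)) * (v + (w : ℂ)))

lemma aeval_YY (P : Pf) (k : ℕ) (v : ℂ) : Polynomial.aeval (v ^ 2) (YY P k) = YC P k v := by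
  unfold YY YC
  rw [map_prod]
  refine Finset.prod_congr rfl fun i _ => ?_
  rw [map_prod]
  refine Finset.prod_congr rfl fun w _ => ?_
  rw [map_sub, aeval_X, aeval_C]
  have : (algebraMap ℚ ℂ) (((w : ℤ) : ℚ) ^ 2) = (w : ℂ) ^ 2 := by
    rw [map_pow, eq_ratCast]
    push_cast
    rfl
  rw [this]
  ring

/-- splitting the product over the poles -/
lemma prod_pc_split (B A : ℕ) (h : B ≤ A) (v : ℂ) :
    ∏ w ∈ pc (A + 1), (v + (w : ℂ)) = (∏ w ∈ pc (B + 1), (v + (w : ℂ))) *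
      ∏ w ∈ Finset.Ioc B A, ((v - (w : ℂ)) * (v + (w : ℂ))) := by
  induction A, h using Nat.le_induction with
  | base => simp
  | succ A hA ih =>
    have e1 : Finset.Ioc B (A + 1) = insert (A + 1) (Finset.Ioc B A) := by
      ext x; simp only [Finset.mem_Ioc, Finset.mem_insert]; omega
    have e2 : pc (A + 1 + 1) = insert (-((A : ℤ) + 1)) (insert ((A : ℤ) + 1) (pc (A + 1))) := by
      ext x
      simp only [mem_pc, Finset.mem_insert]
      push_cast
      omega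
    rw [e1, Finset.prod_insert (by simp), e2, Finset.prod_insert (by
      simp only [mem_pc, Finset.mem_insert]; push_cast; omega), Finset.prod_insert (by
      simp only [mem_pc]; push_cast; omega), ih]
    push_cast
    ring

lemma prod_all (P : Pf) (hP : P.Ok) (k : ℕ) (v : ℂ) :
    (∏ w ∈ pc (P.al * k + 1), (v + (w : ℂ))) ^ P.q =
      (∏ i ∈ P.Lv, (∏ w ∈ pc (i * k + 1), (v + (w : ℂ))) ^ 2) * YC P k v ^ 2 := by
  have h1 : (∏ w ∈ pc (P.al * k + 1), (v + (w : ℂ))) ^ P.q =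
      ∏ i ∈ P.Lv, (∏ w ∈ pc (P.al * k + 1), (v + (w : ℂ))) ^ 2 := by
    rw [Finset.prod_const, ← pow_mul, Pf.q]
  have h2 : YC P k v ^ 2 = ∏ i ∈ P.Lv, (∏ w ∈ Finset.Ioc (i * k) (P.al * k),
      ((v - (w : ℂ)) * (v + (w : ℂ)))) ^ 2 := by
    rw [YC, Finset.prod_pow]
  rw [h1, h2, ← Finset.prod_mul_distrib]
  refine Finset.prod_congr rfl fun i hi => ?_
  rw [prod_pc_split (i * k) (P.al * k) (Nat.mul_le_mul_right k (hP.le i hi)), mul_pow]

lemma Rlev_eq (P : Pf) (hP : P.Ok) (k : ℕ) {v : ℂ} (h : YC P k v ≠ 0) :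
    Rc P.q 0 (P.al * k + 1) (P.al * k + 1) v * YC P k v ^ 2 = Rlev P.Lv k v := by
  unfold Rc Rlev
  rw [pow_zero, mul_one, prod_all P hP k v, div_mul_eq_mul_div]
  by_cases h0 : ∏ i ∈ P.Lv, (∏ w ∈ pc (i * k + 1), (v + (w : ℂ))) ^ 2 = 0
  · rw [h0]; simp
  · field_simp

lemma YC_ne (P : Pf) (k : ℕ) {v : ℂ} (h : ((P.al * k : ℕ) : ℝ) < v.re) : YC P k v ≠ 0 := by
  unfold YC
  rw [Finset.prod_ne_zero_iff]
  intro i _
  rw [Finset.prod_ne_zero_iff]
  intro w hw
  rw [Finset.mem_Ioc] at hw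
  have hw' : (w : ℝ) ≤ ((P.al * k : ℕ) : ℝ) := by exact_mod_cast hw.2
  have hw0 : (0 : ℝ) ≤ w := Nat.cast_nonneg w
  refine mul_ne_zero ?_ ?_
  · intro h0
    have := congrArg Complex.re h0
    rw [Complex.sub_re, Complex.natCast_re, Complex.zero_re] at this
    linarith
  · intro h0
    have := congrArg Complex.re h0
    rw [Complex.add_re, Complex.natCast_re, Complex.zero_re] at this
    linarith

/-- power series of the profile at the sites -/
noncomputable def SP (P : Pf) (k t : ℕ) : PowerSeries ℂ :=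
  RS P.q 0 (P.al * k + 1) (P.al * k + 1) t *
    evS (((P.al * k + 1 : ℕ) : ℂ) + t) ((YY P k ^ 2).map (algebraMap ℚ ℂ))

lemma map_Tser (q B a b t : ℕ) (G : ℚ[X]) :
    PowerSeries.map (algebraMap ℚ ℂ) (Tser q B a b ((a : ℤ) + t) G) =
      RS q B a b t * evS ((a : ℂ) + t) (G.map (algebraMap ℚ ℂ)) := by
  rw [Tser, map_mul, RS, evS]
  congr 1
  have h := Polynomial.map_aeval_eq_aeval_map (φ := algebraMap ℚ ℂ)
    (ψ := PowerSeries.map (algebraMap ℚ ℂ)) (by
      ext x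
      simp) G (lin ((a : ℤ) + t) ^ 2)
  rw [h, map_pow, map_lin]
  push_cast
  rfl

lemma siteG_eq (P : Pf) (k t j : ℕ) :
    siteG P.r (P.al * k + 1) (SP P k) t (X ^ j) =
      ((PowerSeries.coeff P.r (Tser P.q 0 (P.al * k + 1) (P.al * k + 1)
        (((P.al * k + 1 : ℕ) : ℤ) + t) (YY P k ^ 2 * X ^ j)) : ℚ) : ℂ) := by
  have h : SP P k t * evS (((P.al * k + 1 : ℕ) : ℂ) + t) (X ^ j) =
      PowerSeries.map (algebraMap ℚ ℂ) (Tser P.q 0 (P.al * k + 1) (P.al * k + 1)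
        (((P.al * k + 1 : ℕ) : ℤ) + t) (YY P k ^ 2 * X ^ j)) := by
    rw [map_Tser, SP, mul_assoc, ← evS_mul]
    congr 2
    rw [Polynomial.map_mul, Polynomial.map_pow, Polynomial.map_pow, Polynomial.map_X]
  rw [siteG, h, PowerSeries.coeff_map]
  rfl

lemma lineG_eq (P : Pf) (hP : P.Ok) (k T j : ℕ) (hT : 1 ≤ T) (y : ℝ) :
    lineG P.r (P.al * k + 1) T (Rlev P.Lv k) (X ^ j) y =
      lineInt P.r P.q 0 (P.al * k + 1) (P.al * k + 1) T (YY P k ^ 2 * X ^ j) y := by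
  have hT' : (1 : ℝ) ≤ T := by exact_mod_cast hT
  have hre : ((P.al * k : ℕ) : ℝ) < (((P.al * k + 1 : ℕ) : ℂ) + T + tt y).re := by
    have := pos_line_re (P.al * k + 1) T y
    rw [pos_line] at this
    rw [this]
    push_cast
    linarith
  rw [lineG, lineInt, ← Rlev_eq P hP k (YC_ne P k hre), map_mul, map_pow, map_pow, aeval_X,
    aeval_YY, eval_pow, eval_X]
  ring

lemma natDegree_YY_le (P : Pf) (k : ℕ) :
    (YY P k).natDegree ≤ ∑ i ∈ P.Lv, (P.al * k - i * k) := by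
  unfold YY
  refine (Polynomial.natDegree_prod_le _ _).trans (Finset.sum_le_sum fun i _ => ?_)
  refine (Polynomial.natDegree_prod_le _ _).trans ?_
  refine (Finset.sum_le_card_nsmul _ _ 1 fun w _ => ?_).trans (le_of_eq ?_)
  · rw [Polynomial.natDegree_X_sub_C]
  · rw [Nat.card_Ioc, smul_eq_mul, mul_one]

lemma deg_bound (P : Pf) (hP : P.Ok) (k j : ℕ) (hk : 1 ≤ k) (hj : j ≤ 2 * (P.mu * k) - 2) :
    2 * (YY P k ^ 2 * X ^ j).natDegree + 3 ≤ P.q * (2 * (P.al * k + 1) - 1) := by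
  have h1 := natDegree_YY_le P k
  have h2 : (YY P k ^ 2 * X ^ j).natDegree ≤ 2 * (YY P k).natDegree + j := by
    refine (Polynomial.natDegree_mul_le).trans ?_
    rw [Polynomial.natDegree_X_pow]
    have := Polynomial.natDegree_pow_le (p := YY P k) (n := 2)
    omega
  have h3 : ∑ i ∈ P.Lv, (P.al * k - i * k) + P.mu * k = P.Lv.card * (P.al * k) := by
    rw [Pf.mu, Finset.sum_mul, ← Finset.sum_add_distrib, Finset.card_eq_sum_ones, Finset.sum_mul]
    refine Finset.sum_congr rfl fun i hi => ?_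
    have := Nat.mul_le_mul_right k (hP.le i hi)
    omega
  have hc : 1 ≤ P.Lv.card := Finset.card_pos.2 hP.ne
  have hmu : 1 ≤ P.mu * k := by
    obtain ⟨i, hi⟩ := hP.ne
    have h5 : i ≤ P.mu := by
      rw [Pf.mu]
      exact Finset.single_le_sum (f := fun i => i) (fun _ _ => Nat.zero_le _) hi
    have h6 := hP.gt _ hi
    have : 1 ≤ P.mu := by omega
    exact Nat.mul_pos this hk
  have h4 : P.q * (2 * (P.al * k + 1) - 1) = 4 * (P.Lv.card * (P.al * k)) + 2 * P.Lv.card := by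
    have e : 2 * (P.al * k + 1) - 1 = 2 * (P.al * k) + 1 := by omega
    rw [e, Pf.q]
    ring
  rw [h4]
  omega

lemma PG_YC (P : Pf) (k T : ℕ) :
    PG fun y => ‖YC P k (pos (P.al * k + 1) T (Sum.inr y))‖ := by
  have h : (fun y => ‖YC P k (pos (P.al * k + 1) T (Sum.inr y))‖) = fun y =>
      ∏ i ∈ P.Lv, ∏ w ∈ Finset.Ioc (i * k) (P.al * k),
        (‖pos (P.al * k + 1) T (Sum.inr y) - (w : ℂ)‖ *
          ‖pos (P.al * k + 1) T (Sum.inr y) + (w : ℂ)‖) := by
    funext y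
    rw [YC, norm_prod]
    refine Finset.prod_congr rfl fun i _ => ?_
    rw [norm_prod]
    exact Finset.prod_congr rfl fun w _ => norm_mul _ _
  rw [h]
  exact PG.prod _ _ fun i _ => PG.prod _ _ fun w _ => (PG_norm_sub _ _ _).mul (PG_norm_add _ _ _)

/-- majorant of the polynomial part -/
lemma Maj_YY (P : Pf) (k t : ℕ) :
    Maj ‖YC P k (((P.al * k + 1 : ℕ) : ℂ) + t)‖ (2 * ∑ i ∈ P.Lv, ((P.al * k - i * k : ℕ) : ℝ))
      (evS (((P.al * k + 1 : ℕ) : ℂ) + t) ((YY P k).map (algebraMap ℚ ℂ))) := by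
  set c : ℂ := ((P.al * k + 1 : ℕ) : ℂ) + t with hc
  have e1 : evS c ((YY P k).map (algebraMap ℚ ℂ)) = ∏ i ∈ P.Lv, ∏ w ∈ Finset.Ioc (i * k)
      (P.al * k), (linC (c - w) * linC (c + w)) := by
    rw [YY, evS, Polynomial.map_prod, map_prod]
    refine Finset.prod_congr rfl fun i _ => ?_
    rw [Polynomial.map_prod, map_prod]
    refine Finset.prod_congr rfl fun w _ => ?_
    rw [← evS_factor, evS]
    congr 1
    rw [Polynomial.map_sub, Polynomial.map_X, Polynomial.map_C]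
    congr 2
    rw [map_pow, eq_ratCast]
    push_cast
    rfl
  have hw : ∀ w : ℕ, w ≤ P.al * k → Maj (‖c - w‖ * ‖c + w‖) (1 + 1)
      (linC (c - w) * linC (c + w)) := by
    intro w hw
    have hw' : (w : ℝ) ≤ ((P.al * k : ℕ) : ℝ) := by exact_mod_cast hw
    have hw0 : (0 : ℝ) ≤ w := Nat.cast_nonneg w
    have ht0 : (0 : ℝ) ≤ t := Nat.cast_nonneg t
    have hcre : c.re = ((P.al * k : ℕ) : ℝ) + 1 + t := by
      rw [hc, Complex.add_re, Complex.natCast_re, Complex.natCast_re]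
      push_cast
      ring
    refine (Maj.linC zero_le_one ?_).mul (Maj.linC zero_le_one ?_)
    · rw [mul_one]
      refine le_trans ?_ (Complex.re_le_norm _)
      rw [Complex.sub_re, Complex.natCast_re, hcre]
      linarith
    · rw [mul_one]
      refine le_trans ?_ (Complex.re_le_norm _)
      rw [Complex.add_re, Complex.natCast_re, hcre]
      linarith
  rw [e1]
  have h2 := Maj.prod P.Lv (fun i => ∏ w ∈ Finset.Ioc (i * k) (P.al * k),
      (linC (c - w) * linC (c + w)))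
    (fun i => ∏ w ∈ Finset.Ioc (i * k) (P.al * k), (‖c - w‖ * ‖c + w‖))
    (fun i => ∑ w ∈ Finset.Ioc (i * k) (P.al * k), (1 + 1 : ℝ)) (fun i _ =>
      Maj.prod _ _ _ _ fun w hw' => hw w (Finset.mem_Ioc.1 hw').2)
  refine h2.mono (le_of_eq ?_) (le_of_eq ?_)
  · rw [YC, norm_prod]
    refine Finset.prod_congr rfl fun i _ => ?_
    rw [norm_prod]
    exact Finset.prod_congr rfl fun w _ => (norm_mul _ _).symm
  · rw [Finset.mul_sum]
    refine Finset.sum_congr rfl fun i _ => ?_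
    rw [Finset.sum_const, Nat.card_Ioc, nsmul_eq_mul]
    ring

/-- constant of the majorant -/
def DQ (P : Pf) : ℕ := 1 + P.q * (2 * P.al + 1) + 4 * (P.Lv.card * P.al)

/-- the mixed representation -/
theorem rep (P : Pf) (hP : P.Ok) {k tau : ℕ} (hk : 1 ≤ k) (htau : 1 ≤ tau) {z : ℕ → ℚ}
    (hz : IsZ P.r P.q z) :
    Rep P.r (P.al * k + 1) (tau * k) (2 * (P.mu * k) - 2) (DQ P * k) (Rlev P.Lv k) (SP P k)
      (fun j => ((LP P k (wt P.r (aa P k) 1 z) (X ^ j) : ℚ) : ℂ)) := by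
  have hT : 1 ≤ tau * k := Nat.mul_pos htau hk
  have hq : Even P.q := ⟨P.Lv.card, by rw [Pf.q]; ring⟩
  have ha : 1 ≤ P.al * k + 1 := by omega
  have hfun : ∀ j, lineG P.r (P.al * k + 1) (tau * k) (Rlev P.Lv k) (X ^ j) = fun y =>
      lineInt P.r P.q 0 (P.al * k + 1) (P.al * k + 1) (tau * k) (YY P k ^ 2 * X ^ j) y :=
    fun j => funext fun y => lineG_eq P hP k (tau * k) j hT y
  have hdeg : ∀ j ≤ 2 * (P.mu * k) - 2, 2 * 0 * (P.al * k + 1 - (P.al * k + 1)) +
      2 * (YY P k ^ 2 * X ^ j).natDegree + 3 ≤ P.q * (2 * (P.al * k + 1) - 1) := by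
    intro j hj
    have := deg_bound P hP k j hk hj
    omega
  refine ⟨fun j hj => ?_, fun j hj => ?_, fun t ht => ?_, ?_⟩
  · rw [hfun]
    exact integrable_lineInt hP.r2 ha le_rfl _ (by have := hdeg j hj; omega) _
  · have h1 := m1T (q := P.q) (B := 0) (a := P.al * k + 1) (b := P.al * k + 1)
      (YY P k ^ 2 * X ^ j) hP.er hP.r2 hq ha le_rfl (hdeg j hj) hz (tau * k)
    have e : LP P k (wt P.r (aa P k) 1 z) (X ^ j) = Lw P.r P.q 0 (P.al * k + 1) (P.al * k + 1)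
        (wt P.r (P.al * k + 1) 1 z) (YY P k ^ 2 * X ^ j) := rfl
    have hfj := hfun j
    rw [e, h1, hfj]
    congr 1
    push_cast
    refine Finset.sum_congr rfl fun t _ => ?_
    rw [siteG_eq]
    push_cast
    rfl
  · have hre : ((P.al * k : ℕ) : ℝ) < (((P.al * k + 1 : ℕ) : ℂ) + t).re := by
      rw [Complex.add_re, Complex.natCast_re, Complex.natCast_re]
      push_cast
      have : (0 : ℝ) ≤ t := Nat.cast_nonneg t
      linarith
    have h1 := Maj_RS (q := P.q) (B := 0) (a := P.al * k + 1) (b := P.al * k + 1) (t := t) ha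
      le_rfl (by omega)
    have h2 := (Maj_YY P k t).pow 2
    have h3 := h1.mul h2
    have e1 : evS (((P.al * k + 1 : ℕ) : ℂ) + t) ((YY P k).map (algebraMap ℚ ℂ)) ^ 2 =
        evS (((P.al * k + 1 : ℕ) : ℂ) + t) ((YY P k ^ 2).map (algebraMap ℚ ℂ)) := by
      rw [Polynomial.map_pow, evS, evS, map_pow]
    rw [e1] at h3
    refine h3.mono (le_of_eq ?_) ?_
    · rw [← Rlev_eq P hP k (YC_ne P k hre), norm_mul, norm_pow]
    · have hk1 : (1 : ℝ) ≤ k := by exact_mod_cast hk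
      have h4 : ∑ i ∈ P.Lv, ((P.al * k - i * k : ℕ) : ℝ) ≤ P.Lv.card * (P.al * k) := by
        refine (Finset.sum_le_card_nsmul _ _ ((P.al : ℝ) * k) fun i hi => ?_).trans (le_of_eq ?_)
        · have : ((P.al * k - i * k : ℕ) : ℝ) ≤ ((P.al * k : ℕ) : ℝ) := by
            exact_mod_cast Nat.sub_le _ _
          push_cast at this
          exact this
        · rw [nsmul_eq_mul]
      have h5 : (0 : ℝ) ≤ P.q := Nat.cast_nonneg _
      rw [DQ]
      push_cast
      nlinarith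
  · have h1 := (PG_Rc (q := P.q) (B := 0) (b := P.al * k + 1) ha (tau * k)).mul
      ((PG_YC P k (tau * k)).pow 2)
    refine h1.of_le fun y => le_of_eq ?_
    congr 1
    have hT' : (1 : ℝ) ≤ ((tau * k : ℕ) : ℝ) := by exact_mod_cast hT
    have hre : ((P.al * k : ℕ) : ℝ) < (pos (P.al * k + 1) (tau * k) (Sum.inr y)).re := by
      rw [pos_line_re]
      push_cast at hT' ⊢
      linarith
    rw [← Rlev_eq P hP k (YC_ne P k hre), norm_mul, norm_pow]

end ZP
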