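import Pool.Agent.Lib.ZP.Defs

/-!
# Truncated costs for the classes with two members: definitions and statements

For a prime `a ≤ p < 2a` a class modulo `p` (up to sign) with two members has an outer member
`d ∈ [(p+1)/2, a-1]` of pole order `eo d` and an inner member `p - d` of pole order
`eo (p - d) ≥ eo d`.  Only the slots `eo d + eo (p-d) + r - 2 j` with `j < eo d + r + 1` occur.
-/

open Polynomial Finset Z579

namespace ZP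

/-- pole order at `± d` -/
def eo (P : Pf) (k d : ℕ) : ℕ := 2 * (P.Lv.filter (fun i => d ≤ i * k)).card

/-- pole order at `± d` for `(s - 1) k < d ≤ s k` -/
def Ee (P : Pf) (s : ℕ) : ℕ := 2 * (P.Lv.filter (fun i => s ≤ i)).card

/-- truncated cost of a class with two members of orders `x`, `y`, multiplier `l` -/
def cst (r l x y : ℕ) : ℕ := ∑ j ∈ Finset.range (min x y + r + 1), (x + y + r - (2 * j + l))

/-- sum of the costs of the types with `s + s' = n` -/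
def WW (P : Pf) (l n : ℕ) : ℕ :=
  ∑ s ∈ Finset.Icc (n - P.al) P.al, cst P.r l (Ee P s) (Ee P (n - s))

/-- `p ≥ a`: truncated class bound -/
def ClassT (P : Pf) : Prop := ∀ (p k m l Q : ℕ) (z : ℕ → ℚ),
  p.Prime → p ≠ 2 → 2 * aa P k ≤ p ^ 2 → aa P k ≤ p → (∀ s, VG p 0 ((Q : ℚ) * z s)) →
  VG p (-((l : ℝ) * m + ∑ d ∈ Finset.Icc ((p + 1) / 2) (P.al * k),
    (cst P.r l (eo P k d) (eo P k (p - d)) : ℝ)))
    (hank (LP P k (wt P.r (aa P k) Q z)) m)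

/-- counting, exact -/
def CntT (P : Pf) : Prop := ∀ (l p k j : ℕ), p.Prime → p ≠ 2 → P.al ≤ j → j < 2 * P.al →
  j * k < p → p ≤ (j + 1) * k → aa P k ≤ p →
  2 * (∑ d ∈ Finset.Icc ((p + 1) / 2) (P.al * k), (cst P.r l (eo P k d) (eo P k (p - d)) : ℝ)) =
    ((p : ℝ) - j * k - 1) * WW P l (j + 2) + ((j + 1) * k + 1 - (p : ℝ)) * WW P l (j + 1)

/-- the constant of the `p`-adic total with truncated costs; `Ls j` is the multiplier used for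
`j k < p ≤ (j+1) k` -/
noncomputable def PPT (P : Pf) (th T : ℕ) (Ls : ℕ → ℕ) (c : ℝ) : ℝ :=
  2 * (P.mu : ℝ) ^ 2 * (Real.log th - c) + (P.r + 1) * P.mu * P.al + (P.h : ℝ) ^ 2 * th ^ 2 / 16 +
    F3 P T th P.al + ∑ j ∈ Finset.Ico P.al (2 * P.al),
      ((Ls j : ℝ) * P.mu + ((WW P (Ls j) (j + 1) : ℝ) + WW P (Ls j) (j + 2)) / 4)

/-- the `p`-adic total -/
def PSumT (P : Pf) (th T : ℕ) (Ls : ℕ → ℕ) : Prop := ∀ c : ℝ, EM.MertensUB c →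
  ∀ C δ : ℝ, 0 ≤ C → 0 < δ → ∃ k0 : ℕ, ∀ k : ℕ, k0 ≤ k → ∀ β : ℕ → ℝ,
  (∀ p : ℕ, p.Prime → p ^ 2 < 2 * aa P k →
    β p ≤ (2 * (P.mu : ℝ) ^ 2 * (k : ℝ) ^ 2 + 4 * P.h * P.mu * k) / ((p : ℝ) - 1) +
      C * (1 + Nat.log p (2 * (aa P k + aa P k + P.mu * k))) * (P.mu * k)) →
  (∀ p : ℕ, p.Prime → 2 * aa P k ≤ p ^ 2 → p ≤ th * k →
    β p ≤ (P.r + 1) * (P.mu * k) + (4 * (P.mu : ℝ) * k + 2 * P.h) ^ 2 / (8 * p) +
      (P.h : ℝ) ^ 2 / 8 * p + 1 / 8 * ((4 * (P.mu : ℝ) * k + 2 * P.h) / p + 2 * P.h) ^ 2) →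
  (∀ p : ℕ, p.Prime → th * k < p → p ≤ aa P k →
    β p ≤ (P.r + 1) * (P.mu * k) + k * f3 P T (p / k) + C) →
  (∀ j ∈ Finset.Ico P.al (2 * P.al), ∀ p : ℕ, p.Prime → aa P k < p → j * k < p →
    p ≤ (j + 1) * k →
    β p ≤ (Ls j : ℝ) * (P.mu * k) + (((p : ℝ) - j * k) * WW P (Ls j) (j + 2) +
      ((j + 1) * k - (p : ℝ)) * WW P (Ls j) (j + 1)) / 2 + C) →
  (∀ p : ℕ, p.Prime → 2 * P.al * k < p → p ≤ 2 * aa P k → β p ≤ C) →
  ∑ p ∈ (Finset.Icc 1 (2 * aa P k)).filter Nat.Prime, β p * Real.log p ≤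
    (k : ℝ) ^ 2 * (2 * (P.mu : ℝ) ^ 2 * Real.log k + PPT P th T Ls c + δ)

/-- the profile for `{9, 11, 13, 15, 17, 19}` -/
def P9 : Pf := ⟨6, 24, {16, 17, 18, 19, 20, 21, 22}⟩

/-- the multipliers for `P9` -/
def Ls9 (j : ℕ) : ℕ := if j = 24 then 6 else if j = 25 then 4 else if j = 26 then 2 else 0

example : ∑ j ∈ Finset.Ico P9.al (2 * P9.al), (4 * (Ls9 j * P9.mu) + (WW P9 (Ls9 j) (j + 1) +
    WW P9 (Ls9 j) (j + 2))) = 4 * 22921 := by decide +kernel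

end ZP
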