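import Pool.Agent.Lib.ZP.ArchCert9
import Pool.Agent.Lib.ZP.ArchRep
import Pool.Agent.Lib.ZP.ArchFin
import Pool.Agent.Lib.ZP.TDefs
import Pool.Agent.Lib.ZSA.GBlk2

/-!
# The archimedean bound for pole profiles, reference configurations with several blocks
-/

open Finset Z579

namespace ZP

open Z579.EM

/-- archimedean bound from a numerical certificate with several blocks -/
theorem archP_ofB (P : Pf) (hP : P.Ok) (Q : PB) (hQ : Q.Ok) (h1 : Q.r = P.r) (h2 : Q.al = P.al)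
    (h3 : Q.mu = P.mu) {A0 : ℝ} (c : CertB Q P.Lv A0) : ArchP P A0 := by
  intro δ hδ
  obtain ⟨k0, hk0⟩ := archTot_blk u1 u2 u3 u4 hQ (fun i hi => h2 ▸ hP.le i hi) (DQ P) c δ hδ
  refine ⟨max k0 1, fun k hk z hz => ?_⟩
  have hk1 : 1 ≤ k := (le_max_right _ _).trans hk
  have hr := rep P hP hk1 (tau := Q.tau) (by have := hQ.tau2; omega) hz
  have h := hk0 k ((le_max_left _ _).trans hk) (LP P k (wt P.r (aa P k) 1 z)) (SP P k) (by
    rw [h1, h2, h3]
    exact hr)
  rw [h3] at h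
  refine h.trans (le_of_eq ?_)
  rw [NL_eq]
  congr 1
  ring

lemma ok9 : P9.Ok where
  er := by show Even 6; decide
  r2 := by show 2 ≤ 6; decide
  eal := by show Even 24; decide
  ne := ⟨16, by show (16 : ℕ) ∈ ({16, 17, 18, 19, 20, 21, 22} : Finset ℕ); decide⟩
  le := by show ∀ i ∈ ({16, 17, 18, 19, 20, 21, 22} : Finset ℕ), i ≤ 24; decide
  gt := by show ∀ i ∈ ({16, 17, 18, 19, 20, 21, 22} : Finset ℕ), 24 < 2 * i; decide

/-- archimedean bound for `{9, 11, 13, 15, 17, 19}` -/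
theorem archP9 : ArchP P9 (-137924) := by
  obtain ⟨c⟩ := Num.certZ9
  have h := archP_ofB P9 ok9 Num.PZ9 Num.okZ9 rfl rfl (by decide) (A0 := ((-137924 : ℤ) : ℝ)) c
  push_cast at h
  exact h

end ZP
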