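import Pool.Agent.Lib.ZP.YW
import Pool.Agent.Lib.Z579.M6

/-!
# Class bounds

PROOF of `classA`.  Port of `m4a` and of the first step of `m6a` (Z579/M4, M6).  For a prime
`p ≠ 2`, exponents `N` and an integer polynomial `G₀`:
`VG p t (LP P k ω (∏ c ∈ Ip p, (X - c^2)^(N c) * G₀))` if `t ≤ N c - SS c - r` for all `c ∈ Ip p`
for which some `u ∈ pc a` has `p ∣ u - c`:  `LP P k ω G = Lw r q 0 a a ω (YY^2 * G)`,
`Lw_apply`, for each pole `u` with class `c` (`exists_class`) multiply the weights of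
`base_WA` (`Scl(c) + q`, with `Scl(c) = - q cnt(c)` because `oc a a = ∅`, `oc_self` in M6z, or
`B = 0`), of `(YY_WA_one)^2` (`2 h cnt(c) - SS(c) = q cnt(c) - SS(c)`), of `poly_WA_one` (`N c`) and of
`ω u i` (`-(i + r)`).  Then `m5a` with `I = Ip p`, `x c = c^2`, `e c = SS c + r`
(the conclusion of `m5a` is `VG p (-(l m + 1/4 ∑ (e c + 1 - l)^2))`).

PROOF of `classB`.  Port of `m4b` and `m6_two`: poles alone in their class contribute integral
terms (`base_WA_zero`, `YY_WA_zero`, `poly_WA_zero`), the others as above; `m5b` with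
`J = (Ip p).filter (2 ≤ cnt ..)`.

PROOF of `classC`.  Port of `m6d` with the extra factor `YY_WA_zero`.
-/

open Polynomial Finset Z579

namespace ZP

section
variable {p : ℕ} [hp : Fact p.Prime]

/-- the contribution of one pole, slope one -/
private lemma term_one {P : Pf} (hP : P.Ok) {k : ℕ} {u c : ℤ} {i : ℕ} (hsq : 2 * aa P k ≤ p ^ 2)
    {ω : ℤ → ℕ → ℚ} {N : ℤ → ℕ} {G₀ : ℤ[X]} (hu : u ∈ pc (aa P k)) (hi : i ≤ P.q)
    (hc : c ∈ Ip p) (huc : (p : ℤ) ∣ u - c ∨ (p : ℤ) ∣ u + c)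
    (hω : VG p (-((i : ℝ) + P.r)) (ω u i)) :
    VG p ((N c : ℝ) - SS P k p c - P.r)
      (((Nat.choose (i + P.r - 1) P.r : ℚ) * ω u i) * Acoef P.q 0 (aa P k) (aa P k) u i
        (YY P k ^ 2 * ((∏ c ∈ Ip p, (X - Polynomial.C ((c : ℚ) ^ 2)) ^ (N c)) *
          G₀.map (Int.castRingHom ℚ)))) := by
  have h1 := base_WA (p := p) (q := P.q) (B := 0) (le_refl (aa P k)) (by omega) hu
  rw [Scl_class huc] at h1
  have h2 := poly_WA_one (p := p) (N := N) (G₀ := G₀) hc huc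
  have h3 := (YY_WA_one (p := p) hP (k := k) huc).pow 2
  have h4 := (h1.mul (h3.mul h2)) (P.q - i)
  rw [← map_pow, ← map_mul] at h4
  have h5 := ((VG.nat (p := p) (Nat.choose (i + P.r - 1) P.r)).mul hω).mul h4
  rw [Acoef_apply]
  refine VG.mono h5 (le_of_eq ?_)
  rw [Nat.cast_sub hi, Scl_eq]
  have h6 : (P.q : ℝ) = 2 * P.h := by
    rw [Pf.q, Pf.h]
    push_cast
    ring
  push_cast
  rw [h6]
  ring

/-- the contribution of a pole alone in its class -/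
private lemma term_zero {P : Pf} {k : ℕ} {u : ℤ} {i : ℕ}
    {ω : ℤ → ℕ → ℚ} {N : ℤ → ℕ} {G₀ : ℤ[X]}
    (hone : ∀ w ∈ pc (aa P k), (p : ℤ) ∣ w - u → w = u)
    (hω : VG p 0 (ω u i)) :
    VG p 0 (((Nat.choose (i + P.r - 1) P.r : ℚ) * ω u i) * Acoef P.q 0 (aa P k) (aa P k) u i
        (YY P k ^ 2 * ((∏ c ∈ Ip p, (X - Polynomial.C ((c : ℚ) ^ 2)) ^ (N c)) *
          G₀.map (Int.castRingHom ℚ)))) := by
  have h1 := base_WA_zero (p := p) (q := P.q) (B := 0) (b := aa P k) hone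
  have h2 := poly_WA_zero (p := p) (p' := Ip p) (N := N) (G₀ := G₀) (u := u) (le_refl (0 : ℝ))
  have h3 := (YY_WA_zero (p := p) P (le_refl (0 : ℝ)) k u).pow 2
  have h4 := (h1.mul (h3.mul h2)) (P.q - i)
  rw [← map_pow, ← map_mul] at h4
  have h5 := ((VG.nat (p := p) (Nat.choose (i + P.r - 1) P.r)).mul hω).mul h4
  rw [Acoef_apply]
  refine VG.mono h5 (le_of_eq ?_)
  push_cast
  ring

end

private lemma m4aP {P : Pf} (hP : P.Ok) {p k : ℕ} (ω : ℤ → ℕ → ℚ) (N : ℤ → ℕ) (G₀ : ℤ[X]) (t : ℝ)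
    (hp : p.Prime) (hp2 : p ≠ 2) (hsq : 2 * aa P k ≤ p ^ 2)
    (hω : ∀ u ∈ pc (aa P k), ∀ i : ℕ, 1 ≤ i → i ≤ P.q → VG p (-((i : ℝ) + P.r)) (ω u i))
    (ht : ∀ c ∈ Ip p, t ≤ (N c : ℝ) - SS P k p c - P.r) :
    VG p t (LP P k ω ((∏ c ∈ Ip p, (X - Polynomial.C ((c : ℚ) ^ 2)) ^ (N c)) *
      G₀.map (Int.castRingHom ℚ))) := by
  have := Fact.mk hp
  rw [LP_apply, Lw_apply]
  refine VG.sum fun u hu => VG.sum fun i hi => ?_
  rw [Finset.mem_Icc] at hi
  obtain ⟨c, hc, huc⟩ := exists_class hp hp2 u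
  exact VG.mono (term_one hP hsq hu hi.2 hc huc (hω u hu i hi.1 hi.2)) (ht c hc)

private lemma m4bP {P : Pf} (hP : P.Ok) {p k : ℕ} (ω : ℤ → ℕ → ℚ) (N : ℤ → ℕ) (G₀ : ℤ[X]) (t : ℝ)
    (hp : p.Prime) (hp2 : p ≠ 2) (hsq : 2 * aa P k ≤ p ^ 2)
    (hω : ∀ u ∈ pc (aa P k), ∀ i : ℕ, 1 ≤ i → i ≤ P.q → VG p (-((i : ℝ) + P.r)) (ω u i))
    (hω0 : ∀ u ∈ pc (aa P k), u + aa P k - 1 < p → ∀ i : ℕ, 1 ≤ i → i ≤ P.q → VG p 0 (ω u i))
    (ht0 : t ≤ 0)
    (ht : ∀ c ∈ Ip p, 2 ≤ cnt p (pc (aa P k)) c → t ≤ (N c : ℝ) - SS P k p c - P.r) :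
    VG p t (LP P k ω ((∏ c ∈ Ip p, (X - Polynomial.C ((c : ℚ) ^ 2)) ^ (N c)) *
      G₀.map (Int.castRingHom ℚ))) := by
  have := Fact.mk hp
  rw [LP_apply, Lw_apply]
  refine VG.sum fun u hu => VG.sum fun i hi => ?_
  rw [Finset.mem_Icc] at hi
  by_cases hone : ∀ w ∈ pc (aa P k), (p : ℤ) ∣ w - u → w = u
  · have hlt : u + aa P k - 1 < p := by
      by_contra h
      push Not at h
      have hp0 : (0 : ℤ) < p := by exact_mod_cast hp.pos
      have hu' : 1 - (aa P k : ℤ) ≤ u ∧ u ≤ (aa P k : ℤ) - 1 := by simpa [pc] using hu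
      have h1 : u - p ∈ pc (aa P k) := by
        rw [pc, Finset.mem_Icc]; omega
      have h2 := hone (u - p) h1 (by simp)
      omega
    exact VG.mono (term_zero hone (hω0 u hu hlt i hi.1 hi.2)) ht0
  · push Not at hone
    obtain ⟨w, hw, hwu, hne⟩ := hone
    obtain ⟨c, hc, huc⟩ := exists_class hp hp2 u
    have hcard : 2 ≤ cnt p (pc (aa P k)) c := by
      have h0 : 2 ≤ cnt p (pc (aa P k)) u := by
        have : 1 < cnt p (pc (aa P k)) u := by
          rw [cnt, Finset.one_lt_card]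
          exact ⟨w, by rw [Finset.mem_filter]; exact ⟨hw, hwu⟩, u,
            by rw [Finset.mem_filter]; exact ⟨hu, by simp⟩, hne⟩
        exact this
      have h1 : cnt p (pc (aa P k)) u = cnt p (pc (aa P k)) c := by
        rcases huc with h | h
        · exact cnt_congr h
        · have h' : (p : ℤ) ∣ u - (-c) := by simpa using h
          rw [cnt_congr h', cnt_neg (fun w hw => pc_neg hw)]
      rw [h1] at h0
      exact h0
    exact VG.mono (term_one hP hsq hu hi.2 hc huc (hω u hu i hi.1 hi.2)) (ht c hc hcard)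

theorem classA {P : Pf} (hP : P.Ok) : ClassA P := by
  intro p k m ω l hp hp2 hsq hω
  have hI : (Ip p).Nonempty := ⟨0, Finset.mem_Icc.2 ⟨le_refl _, Int.natCast_nonneg _⟩⟩
  refine m5a p (LP P k ω) (Ip p) (fun c => (c : ℚ) ^ 2) (fun c => (SS P k p c : ℝ) + P.r) m l hp
    hI ?_
  intro N t ht
  have h2 := m4aP hP ω N 1 t hp hp2 hsq hω (fun c hc => by
    have := ht c hc
    linarith)
  simpa using h2

theorem classB {P : Pf} (hP : P.Ok) : ClassB P := by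
  intro p k m ω l hp hp2 hsq _ hl hω hω'
  refine m5b p (LP P k ω) ((Ip p).filter (fun c => 2 ≤ cnt p (pc (aa P k)) c))
    (fun c => (c : ℚ) ^ 2) (fun c => (SS P k p c : ℝ) + P.r) m l hp hl ?_
  intro N n t ht h
  have h2 := m4bP hP ω
    (fun c => if 2 ≤ cnt p (pc (aa P k)) c then N c else 0) (X ^ n) t hp hp2 hsq hω hω' ht (by
      intro c hc hc2
      simp only [if_pos hc2]
      have := h c (Finset.mem_filter.2 ⟨hc, hc2⟩)
      linarith)
  have h3 : (∏ c ∈ Ip p, (X - Polynomial.C ((c : ℚ) ^ 2)) ^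
      (if 2 ≤ cnt p (pc (aa P k)) c then N c else 0)) * (X ^ n : ℤ[X]).map (Int.castRingHom ℚ) =
      (∏ c ∈ (Ip p).filter (fun c => 2 ≤ cnt p (pc (aa P k)) c),
        (X - Polynomial.C ((c : ℚ) ^ 2)) ^ (N c)) * X ^ n := by
    rw [Finset.prod_filter, Polynomial.map_pow, Polynomial.map_X]
    congr 1
    refine Finset.prod_congr rfl fun c _ => ?_
    split_ifs <;> simp
  rw [h3] at h2
  exact h2

theorem classC {P : Pf} (hP : P.Ok) : ClassC P := by
  intro p k m ω hp hap hω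
  have := Fact.mk hp
  have h : VG p (∑ i : Fin m, (0 : ℝ) + ∑ j : Fin m, (0 : ℝ)) (hank (LP P k ω) m) := by
    rw [hank]
    refine VG.det fun i j => ?_
    rw [Matrix.of_apply, LP_apply, Lw_apply]
    refine VG.sum fun u hu => VG.sum fun n hn => ?_
    rw [Finset.mem_Icc] at hn
    have hone : ∀ w ∈ pc (aa P k), (p : ℤ) ∣ w - u → w = u := by
      intro w hw hd
      have hu' : 1 - (aa P k : ℤ) ≤ u ∧ u ≤ (aa P k : ℤ) - 1 := by simpa [pc] using hu
      have hw' : 1 - (aa P k : ℤ) ≤ w ∧ w ≤ (aa P k : ℤ) - 1 := by simpa [pc] using hw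
      have h1 := Int.eq_zero_of_abs_lt_dvd hd (by rw [abs_lt]; omega)
      omega
    have h1 := base_WA_zero (p := p) (q := P.q) (B := 0) (b := aa P k) hone
    have h2 := WA.aeval_int (p := p) (le_refl (0 : ℝ)) (-u) (X ^ ((i : ℕ) + (j : ℕ)))
    rw [Polynomial.map_pow, Polynomial.map_X] at h2
    have h3 := (YY_WA_zero (p := p) P (le_refl (0 : ℝ)) k u).pow 2
    have h4 := (h1.mul (h3.mul h2)) (P.q - n)
    rw [← map_pow, ← map_mul] at h4
    have h5 := ((VG.nat (p := p) (Nat.choose (n + P.r - 1) P.r)).mul (hω u hu n hn.1 hn.2)).mul h4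
    rw [Acoef_apply]
    refine VG.mono h5 (le_of_eq ?_)
    push_cast
    ring
  simpa using h

end ZP
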