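import Pool.Agent.Lib.ZP.Defs
import Pool.Agent.Lib.Z579.M6

/-!
# Counting, crude form

PROOF.  `SS` is even in `c` (`cnt_neg`), so `∑_{Ip} SS^2 = 1/2 (∑_{Rp} SS^2 + SS(0)^2)` (`sum_Ip`, M6).
Write `cnt p (pc (i k + 1)) c = (2 i k + 1)/p + d_i(c)` (`pc_eq_fc`).  `∑_{Rp} cnt = 2 i k + 1` (`sum_cnt`),
`∑_{Rp} d_i^2 ≤ p/4` (`disc_sq` with `b = i k + 1`), `|d_i| ≤ 1` (`disc_abs`).  With
`S = ∑_{i} (2 i k + 1) = 2 mu k + h` and `D = ∑_i d_i`: `SS = 2 (S/p + D)`, `∑_{Rp} D = 0`,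
`D^2 ≤ h ∑ d_i^2` (`Finset.sq_sum_le_card_mul_sum_sq` / `inner_mul_le_norm_mul_norm`), so
`∑_{Rp} SS^2 = 4 S^2/p + 4 ∑ D^2 ≤ (4 mu k + 2 h)^2/p + h^2 p`, and `SS(0) ≤ 2 (S/p + h)`.
-/

open Polynomial Finset Z579

namespace ZP

/-- discrepancy of one level -/
private noncomputable def dv (k p i : ℕ) (c : ℤ) : ℝ :=
  (cnt p (fc (i * k + 1)) c : ℝ) - (2 * ((i * k + 1 : ℕ) : ℝ) - 1) / p

theorem cntII {P : Pf} (hP : P.Ok) : CntII P := by
  classical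
  have _ := hP
  intro p k hp hp2
  have hp0 : (0 : ℝ) < p := by exact_mod_cast hp.pos
  set S : ℝ := 2 * (P.mu : ℝ) * k + P.h with hS
  have hS0 : 0 ≤ S := by positivity
  set D : ℤ → ℝ := fun c => ∑ i ∈ P.Lv, dv k p i c with hD
  have hSsum : ∑ i ∈ P.Lv, (2 * ((i * k + 1 : ℕ) : ℝ) - 1) = S := by
    have h1 : ∀ i ∈ P.Lv, (2 * ((i * k + 1 : ℕ) : ℝ) - 1) = 2 * k * (i : ℝ) + 1 := by
      intro i _
      push_cast
      ring
    rw [Finset.sum_congr rfl h1, Finset.sum_add_distrib, ← Finset.mul_sum, Finset.sum_const,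
      nsmul_eq_mul, mul_one, hS, Pf.h, Pf.mu]
    push_cast
    ring
  -- the sum of the orders
  have hSS : ∀ c, (SS P k p c : ℝ) = 2 * (S / p + D c) := by
    intro c
    have h1 : D c = ∑ i ∈ P.Lv, (cnt p (pc (i * k + 1)) c : ℝ) - S / p := by
      simp only [hD, dv]
      rw [Finset.sum_sub_distrib, ← Finset.sum_div, hSsum]
      congr 1
      exact Finset.sum_congr rfl fun i _ => by rw [pc_eq_fc]
    rw [h1, SS]
    push_cast
    ring
  have heven : ∀ c, (SS P k p (-c) : ℝ) ^ 2 = (SS P k p c : ℝ) ^ 2 := by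
    intro c
    have h1 : SS P k p (-c) = SS P k p c := by
      unfold SS
      congr 1
      refine Finset.sum_congr rfl fun i _ => ?_
      exact cnt_neg (fun w hw => pc_neg hw) c
    rw [h1]
  have hfold := sum_Ip p (fun c => (SS P k p c : ℝ) ^ 2) heven
  rw [hfold]
  -- the sum of the discrepancies
  have hD0 : ∑ c ∈ Rp p, D c = 0 := by
    simp only [hD]
    rw [Finset.sum_comm]
    refine Finset.sum_eq_zero fun i _ => ?_
    simp only [dv]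
    rw [Finset.sum_sub_distrib, Finset.sum_const, card_Rp hp hp2, nsmul_eq_mul,
      mul_div_cancel₀ _ hp0.ne']
    have h1 := sum_cnt hp hp2 (fc (i * k + 1))
    rw [card_fc (by omega)] at h1
    have h2 : (∑ c ∈ Rp p, (cnt p (fc (i * k + 1)) c : ℝ)) = ((2 * (i * k + 1) - 1 : ℕ) : ℝ) := by
      rw [← h1]
      push_cast
      rfl
    rw [h2, Nat.cast_sub (by omega)]
    push_cast
    ring
  have hD2 : ∑ c ∈ Rp p, D c ^ 2 ≤ (P.h : ℝ) ^ 2 * p / 4 := by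
    have h1 : ∀ c ∈ Rp p, D c ^ 2 ≤ (P.h : ℝ) * ∑ i ∈ P.Lv, dv k p i c ^ 2 := by
      intro c _
      simp only [hD]
      exact sq_sum_le_card_mul_sum_sq
    refine (Finset.sum_le_sum h1).trans ?_
    rw [← Finset.mul_sum, Finset.sum_comm]
    have h2 : ∑ i ∈ P.Lv, ∑ c ∈ Rp p, dv k p i c ^ 2 ≤ ∑ _i ∈ P.Lv, (p : ℝ) / 4 :=
      Finset.sum_le_sum fun i _ => disc_sq hp hp2 (b := i * k + 1) (by omega)
    rw [Finset.sum_const, nsmul_eq_mul] at h2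
    have h3 : (0 : ℝ) ≤ (P.h : ℝ) := Nat.cast_nonneg _
    refine (mul_le_mul_of_nonneg_left h2 h3).trans (le_of_eq ?_)
    rw [Pf.h]
    ring
  -- the sum over all residues
  have hR : ∑ c ∈ Rp p, (SS P k p c : ℝ) ^ 2 ≤ (4 * (P.mu : ℝ) * k + 2 * P.h) ^ 2 / p
      + (P.h : ℝ) ^ 2 * p := by
    have h1 : ∀ c ∈ Rp p, (SS P k p c : ℝ) ^ 2 =
        4 * (S / p) ^ 2 + 8 * (S / p) * D c + 4 * D c ^ 2 := by
      intro c _
      rw [hSS]
      ring
    have h2 : (p : ℝ) * (4 * (S / p) ^ 2) = (4 * (P.mu : ℝ) * k + 2 * P.h) ^ 2 / p := by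
      rw [hS]
      field_simp
      ring
    have h3 : ∑ c ∈ Rp p, (SS P k p c : ℝ) ^ 2 =
        (p : ℝ) * (4 * (S / p) ^ 2) + 8 * (S / p) * ∑ c ∈ Rp p, D c +
          4 * ∑ c ∈ Rp p, D c ^ 2 := by
      rw [Finset.sum_congr rfl h1, Finset.sum_add_distrib, Finset.sum_add_distrib,
        Finset.sum_const, card_Rp hp hp2, nsmul_eq_mul, Finset.mul_sum, Finset.mul_sum]
    rw [h3, h2, hD0]
    linarith
  -- the class of zero
  have h0 : (SS P k p 0 : ℝ) ^ 2 ≤ ((4 * (P.mu : ℝ) * k + 2 * P.h) / p + 2 * P.h) ^ 2 := by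
    have h1 : D 0 ≤ P.h := by
      simp only [hD]
      have h2 : ∑ i ∈ P.Lv, dv k p i 0 ≤ ∑ _i ∈ P.Lv, (1 : ℝ) := by
        refine Finset.sum_le_sum fun i _ => ?_
        exact (abs_le.1 (disc_abs hp.pos (b := i * k + 1) (by omega) 0)).2
      rw [Finset.sum_const, nsmul_eq_mul, mul_one] at h2
      exact h2
    refine pow_le_pow_left₀ (Nat.cast_nonneg _) ?_ 2
    rw [hSS]
    have h2 : (4 * (P.mu : ℝ) * k + 2 * P.h) / p = 2 * (S / p) := by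
      rw [hS]
      ring
    rw [h2]
    linarith
  linarith

end ZP
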