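import Pool.Agent.Lib.ZP.Defs
import Pool.Agent.Lib.Z579.M6

/-!
# Counting, exact overlaps
-/

open Polynomial Finset Z579

namespace ZP

lemma sum_cnt_mul {p : ℕ} (hp : p.Prime) (hp2 : p ≠ 2) (A B : Finset ℤ) :
    ∑ c ∈ Rp p, cnt p A c * cnt p B c =
      ((A ×ˢ B).filter fun x => (p : ℤ) ∣ x.1 - x.2).card := by
  have h1 : ∀ c, cnt p A c * cnt p B c =
      ∑ x ∈ A ×ˢ B, if (p : ℤ) ∣ x.1 - c ∧ (p : ℤ) ∣ x.2 - c then 1 else 0 := by
    intro c
    unfold cnt
    rw [← Finset.card_product, ← Finset.filter_product, Finset.card_filter]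
  simp_rw [h1]
  rw [Finset.sum_comm, Finset.card_filter]
  refine Finset.sum_congr rfl fun x _ => ?_
  split_ifs with h
  · rw [← Finset.card_filter, ← rep_unique hp hp2 x.1]
    congr 1
    refine Finset.filter_congr fun c _ => ?_
    constructor
    · exact fun h' => h'.1
    · intro h'
      refine ⟨h', ?_⟩
      have := dvd_sub h' h
      have e : x.1 - c - (x.1 - x.2) = x.2 - c := by ring
      rwa [e] at this
  · apply Finset.sum_eq_zero
    intro c _
    rw [if_neg]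
    rintro ⟨h1, h2⟩
    apply h
    have := dvd_sub h1 h2
    have e : x.1 - c - (x.2 - c) = x.1 - x.2 := by ring
    rwa [e] at this

private lemma cnt3_card_Icc (a b : ℤ) :
    (((Finset.Icc a b).card : ℕ) : ℝ) ≤ max 0 ((b : ℝ) + 1 - a) := by
  rw [Int.card_Icc]
  rcases le_total 0 (b + 1 - a) with h | h
  · have h1 : (((b + 1 - a).toNat : ℤ) : ℝ) = ((b + 1 - a : ℤ) : ℝ) := by rw [Int.toNat_of_nonneg h]
    have h2 : (((b + 1 - a).toNat : ℕ) : ℝ) = (b : ℝ) + 1 - a := by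
      have : (((b + 1 - a).toNat : ℤ) : ℝ) = (((b + 1 - a).toNat : ℕ) : ℝ) := by norm_cast
      rw [← this, h1]
      push_cast
      ring
    rw [h2]
    exact le_max_right _ _
  · rw [Int.toNat_of_nonpos h]
    simp

lemma ov_le {p x y T : ℕ} (hp : 0 < p) (hT : x + y < (T + 1) * p) :
    (((((pc (x + 1)) ×ˢ (pc (y + 1))).filter fun w => (p : ℤ) ∣ w.1 - w.2).card : ℕ) : ℝ) ≤
      2 * ((min x y : ℕ) : ℝ) + 1 +
        2 * ∑ t ∈ Finset.Icc 1 T, max 0 ((x : ℝ) + y + 1 - t * p) := by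
  classical
  set Z : Finset (ℤ × ℤ) :=
    (Finset.Icc (-((min x y : ℕ) : ℤ)) ((min x y : ℕ) : ℤ)).image (fun v => (v, v)) with hZ
  set Pt : ℕ → Finset (ℤ × ℤ) := fun t =>
    (Finset.Icc (-(y : ℤ)) ((x : ℤ) - t * p)).image (fun v => (v + t * p, v)) with hPt
  set Nt : ℕ → Finset (ℤ × ℤ) := fun t =>
    (Finset.Icc (-(x : ℤ) + t * p) (y : ℤ)).image (fun v => (v - t * p, v)) with hNt
  have hsub : (((pc (x + 1)) ×ˢ (pc (y + 1))).filter fun w => (p : ℤ) ∣ w.1 - w.2) ⊆
      (Z ∪ (Finset.Icc 1 T).biUnion Pt) ∪ (Finset.Icc 1 T).biUnion Nt := by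
    rintro ⟨u, v⟩ hw
    rw [Finset.mem_filter, Finset.mem_product] at hw
    obtain ⟨⟨hu, hv⟩, hd⟩ := hw
    simp only [pc, Finset.mem_Icc] at hu hv
    push_cast at hu hv
    obtain ⟨t, ht⟩ := hd
    simp only at ht
    have hp' : (0 : ℤ) < p := by exact_mod_cast hp
    have hT' : (x : ℤ) + y < (T + 1) * p := by exact_mod_cast hT
    rcases lt_trichotomy t 0 with h | h | h
    · -- negative
      have ht1 : 1 ≤ (-t).toNat := by omega
      have htT : (-t).toNat ≤ T := by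
        by_contra hc
        have h1 : (T : ℤ) + 1 ≤ -t := by omega
        have h2 : ((T : ℤ) + 1) * p ≤ (-t) * p := mul_le_mul_of_nonneg_right h1 hp'.le
        have h3 : (-t) * p = v - u := by linarith [ht, mul_comm (p : ℤ) t]
        omega
      refine Finset.mem_union_right _ (Finset.mem_biUnion.2 ⟨(-t).toNat, ?_, ?_⟩)
      · exact Finset.mem_Icc.2 ⟨ht1, htT⟩
      · simp only [hNt, Finset.mem_image, Finset.mem_Icc]
        have h4 : (((-t).toNat : ℕ) : ℤ) = -t := Int.toNat_of_nonneg (by omega)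
        have h3 : (-t) * p = v - u := by linarith [ht, mul_comm (p : ℤ) t]
        refine ⟨v, ⟨?_, ?_⟩, ?_⟩
        · rw [h4, h3]; omega
        · omega
        · rw [h4, h3]
          ext <;> simp
    · subst h
      refine Finset.mem_union_left _ (Finset.mem_union_left _ ?_)
      simp only [hZ, Finset.mem_image, Finset.mem_Icc]
      have huv : u = v := by
        rw [mul_zero] at ht
        linarith
      subst huv
      refine ⟨u, ⟨?_, ?_⟩, rfl⟩
      · push_cast
        omega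
      · push_cast
        omega
    · have ht1 : 1 ≤ t.toNat := by omega
      have htT : t.toNat ≤ T := by
        by_contra hc
        have h1 : (T : ℤ) + 1 ≤ t := by omega
        have h2 : ((T : ℤ) + 1) * p ≤ t * p := mul_le_mul_of_nonneg_right h1 hp'.le
        have h3 : t * p = u - v := by linarith [ht, mul_comm (p : ℤ) t]
        omega
      refine Finset.mem_union_left _ (Finset.mem_union_right _
        (Finset.mem_biUnion.2 ⟨t.toNat, ?_, ?_⟩))
      · exact Finset.mem_Icc.2 ⟨ht1, htT⟩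
      · simp only [hPt, Finset.mem_image, Finset.mem_Icc]
        have h4 : ((t.toNat : ℕ) : ℤ) = t := Int.toNat_of_nonneg (by omega)
        have h3 : t * p = u - v := by linarith [ht, mul_comm (p : ℤ) t]
        refine ⟨v, ⟨?_, ?_⟩, ?_⟩
        · omega
        · rw [h4, h3]; omega
        · rw [h4, h3]
          ext <;> simp
  have hcard := Finset.card_le_card hsub
  have h1 : ((((Z ∪ (Finset.Icc 1 T).biUnion Pt) ∪ (Finset.Icc 1 T).biUnion Nt).card : ℕ) : ℝ) ≤
      (Z.card : ℝ) + (∑ t ∈ Finset.Icc 1 T, ((Pt t).card : ℝ)) +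
        ∑ t ∈ Finset.Icc 1 T, ((Nt t).card : ℝ) := by
    have h2 := Finset.card_union_le (Z ∪ (Finset.Icc 1 T).biUnion Pt) ((Finset.Icc 1 T).biUnion Nt)
    have h3 := Finset.card_union_le Z ((Finset.Icc 1 T).biUnion Pt)
    have h4 : ((Finset.Icc 1 T).biUnion Pt).card ≤ ∑ t ∈ Finset.Icc 1 T, (Pt t).card :=
      Finset.card_biUnion_le
    have h5 : ((Finset.Icc 1 T).biUnion Nt).card ≤ ∑ t ∈ Finset.Icc 1 T, (Nt t).card :=
      Finset.card_biUnion_le
    have h6 : ((Z ∪ (Finset.Icc 1 T).biUnion Pt) ∪ (Finset.Icc 1 T).biUnion Nt).card ≤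
      Z.card + (∑ t ∈ Finset.Icc 1 T, (Pt t).card) + ∑ t ∈ Finset.Icc 1 T, (Nt t).card := by omega
    calc _ ≤ ((Z.card + (∑ t ∈ Finset.Icc 1 T, (Pt t).card) +
        ∑ t ∈ Finset.Icc 1 T, (Nt t).card : ℕ) : ℝ) := by exact_mod_cast h6
      _ = _ := by push_cast; ring
  have hZc : (Z.card : ℝ) ≤ 2 * ((min x y : ℕ) : ℝ) + 1 := by
    have h2 : Z.card ≤ 2 * (min x y) + 1 := by
      refine Finset.card_image_le.trans ?_
      rw [Int.card_Icc]
      omega
    calc (Z.card : ℝ) ≤ ((2 * (min x y) + 1 : ℕ) : ℝ) := by exact_mod_cast h2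
      _ = _ := by push_cast; ring
  have hPc : ∀ t ∈ Finset.Icc 1 T, ((Pt t).card : ℝ) ≤ max 0 ((x : ℝ) + y + 1 - t * p) := by
    intro t _
    have h2 : ((Pt t).card : ℝ) ≤ ((Finset.Icc (-(y : ℤ)) ((x : ℤ) - t * p)).card : ℝ) :=
      Nat.cast_le.2 Finset.card_image_le
    refine h2.trans ((cnt3_card_Icc _ _).trans (le_of_eq ?_))
    congr 1
    push_cast
    ring
  have hNc : ∀ t ∈ Finset.Icc 1 T, ((Nt t).card : ℝ) ≤ max 0 ((x : ℝ) + y + 1 - t * p) := by
    intro t _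
    have h2 : ((Nt t).card : ℝ) ≤ ((Finset.Icc (-(x : ℤ) + t * p) (y : ℤ)).card : ℝ) :=
      Nat.cast_le.2 Finset.card_image_le
    refine h2.trans ((cnt3_card_Icc _ _).trans (le_of_eq ?_))
    congr 1
    push_cast
    ring
  calc _ ≤ ((((Z ∪ (Finset.Icc 1 T).biUnion Pt) ∪ (Finset.Icc 1 T).biUnion Nt).card : ℕ) : ℝ) := by
        exact_mod_cast hcard
    _ ≤ _ := h1
    _ ≤ (2 * ((min x y : ℕ) : ℝ) + 1) + (∑ t ∈ Finset.Icc 1 T, max 0 ((x : ℝ) + y + 1 - t * p)) +
        ∑ t ∈ Finset.Icc 1 T, max 0 ((x : ℝ) + y + 1 - t * p) :=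
      add_le_add (add_le_add hZc (Finset.sum_le_sum hPc)) (Finset.sum_le_sum hNc)
    _ = _ := by ring

theorem cntIII {P : Pf} (hP : P.Ok) {th T : ℕ} (hth : 1 ≤ th) (hT : 2 * P.al ≤ (T + 1) * th) :
    CntIII P th T := by
  have hal0 : (0 : ℝ) ≤ P.al := Nat.cast_nonneg _
  have hh0 : (0 : ℝ) ≤ P.h := Nat.cast_nonneg _
  refine ⟨(P.h : ℝ) ^ 2 * (1 / 2 + T + 2 * P.al) + (2 * P.h * (2 * P.al + 2)) ^ 2 / 8,
    by positivity, ?_⟩
  intro p k hp hp2 hk hthk
  have hp0 : (0 : ℝ) < p := by exact_mod_cast hp.pos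
  have hk0 : (0 : ℝ) < k := by exact_mod_cast hk
  have hkp : k ≤ p := (Nat.le_mul_of_pos_left k hth).trans hthk
  have hkpr : (k : ℝ) ≤ p := by exact_mod_cast hkp
  have hp1 : (1 : ℝ) ≤ p := by exact_mod_cast hp.one_lt.le
  -- folding
  have heven : ∀ c, (SS P k p (-c) : ℝ) = SS P k p c := by
    intro c
    unfold SS
    congr 2
    refine Finset.sum_congr rfl fun i _ => ?_
    exact cnt_neg (fun w hw => pc_neg hw) c
  have hfold := sum_Ip p (fun c => (SS P k p c : ℝ) ^ 2) (fun c => by rw [heven])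
  rw [hfold]
  -- the main sum
  have hmain : ∑ c ∈ Rp p, (SS P k p c : ℝ) ^ 2 =
      4 * ∑ i ∈ P.Lv, ∑ j ∈ P.Lv,
        (((((pc (i * k + 1)) ×ˢ (pc (j * k + 1))).filter
          fun w => (p : ℤ) ∣ w.1 - w.2).card : ℕ) : ℝ) := by
    have h1 : ∀ c ∈ Rp p, (SS P k p c : ℝ) ^ 2 = 4 * ∑ i ∈ P.Lv, ∑ j ∈ P.Lv,
        ((cnt p (pc (i * k + 1)) c * cnt p (pc (j * k + 1)) c : ℕ) : ℝ) := by
      intro c _
      unfold SS
      push_cast
      rw [mul_pow, sq (∑ i ∈ P.Lv, (cnt p (pc (i * k + 1)) c : ℝ)), Finset.sum_mul_sum]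
      norm_num
    rw [Finset.sum_congr rfl h1, ← Finset.mul_sum, Finset.sum_comm]
    congr 1
    refine Finset.sum_congr rfl fun i _ => ?_
    rw [Finset.sum_comm]
    refine Finset.sum_congr rfl fun j _ => ?_
    rw [← Nat.cast_sum, sum_cnt_mul hp hp2]
  have hov : ∀ i ∈ P.Lv, ∀ j ∈ P.Lv,
      (((((pc (i * k + 1)) ×ˢ (pc (j * k + 1))).filter
          fun w => (p : ℤ) ∣ w.1 - w.2).card : ℕ) : ℝ) ≤
        2 * (k * ((((min i j : ℕ) : ℝ) + ∑ t ∈ Finset.Icc 1 T,
          max 0 ((i : ℝ) + j - t * (p / k)))) + (1 / 2 + T + 2 * P.al)) := by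
    intro i hi j hj
    have hile := hP.le i hi
    have hjle := hP.le j hj
    have hijr : (i : ℝ) + j ≤ 2 * P.al := by
      have : i + j ≤ 2 * P.al := by omega
      exact_mod_cast this
    have hlt : i * k + j * k < (T + 2 * P.al + 1) * p := by
      have h1 : (i + j) * k ≤ (2 * P.al) * p := Nat.mul_le_mul (by omega) hkp
      have h2 : 0 < (T + 1) * p := Nat.mul_pos (by omega) hp.pos
      calc i * k + j * k = (i + j) * k := by ring
        _ ≤ (2 * P.al) * p := h1
        _ < (2 * P.al) * p + (T + 1) * p := by omega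
        _ = _ := by ring
    refine (ov_le hp.pos hlt).trans ?_
    have hmin : ((min (i * k) (j * k) : ℕ) : ℝ) = k * ((min i j : ℕ) : ℝ) := by
      rw [Nat.mul_min_mul_right, Nat.cast_mul, mul_comm]
    rw [hmin]
    have hsplit : ∑ t ∈ Finset.Icc 1 (T + 2 * P.al), max 0 (((i * k : ℕ) : ℝ) + ((j * k : ℕ) : ℝ) + 1 - t * p) ≤
        (∑ t ∈ Finset.Icc 1 T, (k * max 0 ((i : ℝ) + j - t * (p / k)) + 1)) + 2 * P.al := by
      have h1 : Finset.Icc 1 (T + 2 * P.al) = Finset.Icc 1 T ∪ Finset.Ioc T (T + 2 * P.al) := by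
        ext t
        simp only [Finset.mem_Icc, Finset.mem_union, Finset.mem_Ioc]
        omega
      have h2 : Disjoint (Finset.Icc 1 T) (Finset.Ioc T (T + 2 * P.al)) := by
        rw [Finset.disjoint_left]
        intro t ht ht'
        rw [Finset.mem_Icc] at ht
        rw [Finset.mem_Ioc] at ht'
        omega
      rw [h1, Finset.sum_union h2]
      apply add_le_add
      · refine Finset.sum_le_sum fun t _ => ?_
        have h3 : ((i * k : ℕ) : ℝ) + ((j * k : ℕ) : ℝ) + 1 - t * p =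
            k * ((i : ℝ) + j - t * (p / k)) + 1 := by
          push_cast
          field_simp
          ring
        rw [h3]
        apply max_le
        · have : 0 ≤ max 0 ((i : ℝ) + j - t * (p / k)) := le_max_left _ _
          positivity
        · have := mul_le_mul_of_nonneg_left (le_max_right 0 ((i : ℝ) + j - t * (p / k))) hk0.le
          linarith
      · have h3 : ∀ t ∈ Finset.Ioc T (T + 2 * P.al),
            max 0 (((i * k : ℕ) : ℝ) + ((j * k : ℕ) : ℝ) + 1 - t * p) ≤ 1 := by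
          intro t ht
          rw [Finset.mem_Ioc] at ht
          apply max_le zero_le_one
          have h4 : (i + j) * k ≤ t * p := by
            calc (i + j) * k ≤ (2 * P.al) * k := Nat.mul_le_mul_right _ (by omega)
              _ ≤ ((T + 1) * th) * k := Nat.mul_le_mul_right _ hT
              _ = (T + 1) * (th * k) := by ring
              _ ≤ t * p := Nat.mul_le_mul (by omega) hthk
          have h5 : (((i + j) * k : ℕ) : ℝ) ≤ ((t * p : ℕ) : ℝ) := by exact_mod_cast h4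
          push_cast at h5 ⊢
          linarith
        refine (Finset.sum_le_sum h3).trans (le_of_eq ?_)
        rw [Finset.sum_const, Nat.card_Ioc]
        simp
    have h6 : (∑ t ∈ Finset.Icc 1 T, (k * max 0 ((i : ℝ) + j - t * (p / k)) + 1)) =
        k * (∑ t ∈ Finset.Icc 1 T, max 0 ((i : ℝ) + j - t * (p / k))) + T := by
      rw [Finset.sum_add_distrib, ← Finset.mul_sum]
      simp
    rw [h6] at hsplit
    linarith
  -- the class of zero
  have hzero : (SS P k p 0 : ℝ) ≤ 2 * P.h * (2 * P.al + 2) := by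
    unfold SS
    push_cast
    have h1 : ∑ i ∈ P.Lv, (cnt p (pc (i * k + 1)) 0 : ℝ) ≤ ∑ _i ∈ P.Lv, (2 * (P.al : ℝ) + 2) := by
      refine Finset.sum_le_sum fun i hi => ?_
      have h2 := (abs_le.1 (disc_abs hp.pos (show 1 ≤ i * k + 1 by omega) 0)).2
      rw [← pc_eq_fc] at h2
      have h3 : (2 * (((i * k + 1 : ℕ) : ℝ)) - 1) / p ≤ 2 * P.al + 1 := by
        rw [div_le_iff₀ hp0]
        push_cast
        have h4 : (i : ℝ) ≤ P.al := by exact_mod_cast hP.le i hi
        have h5 : (i : ℝ) * k ≤ P.al * p := mul_le_mul h4 hkpr hk0.le hal0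
        nlinarith
      linarith
    rw [Finset.sum_const, nsmul_eq_mul] at h1
    have h7 : (P.Lv.card : ℝ) = P.h := rfl
    rw [h7] at h1
    nlinarith
  have hzero2 : (SS P k p 0 : ℝ) ^ 2 ≤ (2 * P.h * (2 * P.al + 2)) ^ 2 :=
    pow_le_pow_left₀ (Nat.cast_nonneg _) hzero 2
  have hsum : ∑ i ∈ P.Lv, ∑ j ∈ P.Lv,
        (((((pc (i * k + 1)) ×ˢ (pc (j * k + 1))).filter
          fun w => (p : ℤ) ∣ w.1 - w.2).card : ℕ) : ℝ) ≤
      2 * (k * f3 P T (p / k) + (P.h : ℝ) ^ 2 * (1 / 2 + T + 2 * P.al)) := by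
    refine (Finset.sum_le_sum fun i hi => Finset.sum_le_sum fun j hj => hov i hi j hj).trans
      (le_of_eq ?_)
    unfold f3
    simp_rw [← Finset.mul_sum, Finset.sum_add_distrib, ← Finset.mul_sum]
    simp only [Finset.sum_const, nsmul_eq_mul]
    have h7 : (P.Lv.card : ℝ) = P.h := rfl
    rw [h7]
    simp_rw [Finset.sum_add_distrib]
    ring
  rw [hmain]
  linarith

end ZP
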