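import Pool.Agent.Lib.ZP.Defs
import Pool.Agent.Lib.Z579.M6

/-!
# Counting: classes with two sites
-/

open Polynomial Finset Z579

namespace ZP

private lemma card_Icc_le (lo hi : ℤ) : ((Finset.Icc lo hi).card : ℝ) ≤ max 0 ((hi : ℝ) - lo + 1) := by
  rw [Int.card_Icc]
  rcases le_total 0 (hi + 1 - lo) with h | h
  · have h4 : (((hi + 1 - lo).toNat : ℤ) : ℝ) = ((hi + 1 - lo : ℤ) : ℝ) := by
      rw [Int.toNat_of_nonneg h]
    rw [Int.cast_natCast] at h4
    rw [h4]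
    refine le_trans (le_of_eq ?_) (le_max_right _ _)
    push_cast
    ring
  · rw [Int.toNat_of_nonpos h]
    simp

private lemma sum_ind_mul (W : Finset ℤ) (L : Finset ℕ) (F G : ℕ → ℤ → Prop)
    [∀ i c, Decidable (F i c)] [∀ i c, Decidable (G i c)] (bd : ℕ → ℕ → ℝ)
    (h : ∀ i ∈ L, ∀ j ∈ L, ((W.filter fun c => F i c ∧ G j c).card : ℝ) ≤ bd i j) :
    ∑ c ∈ W, (∑ i ∈ L, if F i c then (1 : ℝ) else 0) * (∑ j ∈ L, if G j c then (1 : ℝ) else 0) ≤
      ∑ i ∈ L, ∑ j ∈ L, bd i j := by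
  have h1 : ∀ c, (∑ i ∈ L, if F i c then (1 : ℝ) else 0) * (∑ j ∈ L, if G j c then (1 : ℝ) else 0) =
      ∑ i ∈ L, ∑ j ∈ L, if F i c ∧ G j c then (1 : ℝ) else 0 := by
    intro c
    rw [Finset.sum_mul_sum]
    refine Finset.sum_congr rfl fun i _ => Finset.sum_congr rfl fun j _ => ?_
    by_cases h1 : F i c <;> by_cases h2 : G j c <;> simp [h1, h2]
  simp_rw [h1]
  rw [Finset.sum_comm]
  refine Finset.sum_le_sum fun i hi => ?_
  rw [Finset.sum_comm]
  refine Finset.sum_le_sum fun j hj => ?_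
  rw [Finset.sum_boole]
  exact h i hi j hj

private lemma sum_ind (W : Finset ℤ) (L : Finset ℕ) (F : ℕ → ℤ → Prop)
    [∀ i c, Decidable (F i c)] (bd : ℕ → ℝ)
    (h : ∀ i ∈ L, ((W.filter fun c => F i c).card : ℝ) ≤ bd i) :
    ∑ c ∈ W, (∑ i ∈ L, if F i c then (1 : ℝ) else 0) ≤ ∑ i ∈ L, bd i := by
  rw [Finset.sum_comm]
  refine Finset.sum_le_sum fun i hi => ?_
  rw [Finset.sum_boole]
  exact h i hi

/-- number of levels at least `c` -/
noncomputable def ea (L : Finset ℕ) (k : ℕ) (c : ℤ) : ℝ :=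
  ∑ i ∈ L, if c ≤ ((i * k : ℕ) : ℤ) then (1 : ℝ) else 0

private lemma ea_nonneg (L : Finset ℕ) (k : ℕ) (c : ℤ) : 0 ≤ ea L k c := by
  unfold ea
  refine Finset.sum_nonneg fun i _ => ?_
  split_ifs <;> norm_num

/-- the folded sum -/
private lemma fold_le (L : Finset ℕ) (k A p : ℕ) (hp : p % 2 = 1) (ap : A + 1 ≤ p) (lam : ℝ) :
    2 * ∑ c ∈ Finset.Icc ((p : ℤ) - A) (((p - 1) / 2 : ℕ) : ℤ),
      (2 * (ea L k c + ea L k (p - c)) + lam) ^ 2 ≤
    ∑ c ∈ Finset.Icc ((p : ℤ) - A) A, (2 * (ea L k c + ea L k (p - c)) + lam) ^ 2 := by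
  set g : ℤ → ℝ := fun c => (2 * (ea L k c + ea L k (p - c)) + lam) ^ 2 with hg
  have hsym : ∀ c, g (p - c) = g c := by
    intro c
    simp only [hg]
    rw [sub_sub_cancel, add_comm (ea L k (p - c))]
  have h1 : ∑ c ∈ Finset.Icc ((p : ℤ) - A) (((p - 1) / 2 : ℕ) : ℤ), g c =
      ∑ c ∈ Finset.Icc ((((p - 1) / 2 : ℕ) : ℤ) + 1) A, g c := by
    refine Finset.sum_bij (fun c _ => (p : ℤ) - c) ?_ ?_ ?_ ?_
    · intro c hc
      simp only [Finset.mem_Icc] at hc ⊢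
      omega
    · intro c _ c' _ h
      linarith
    · intro c hc
      refine ⟨p - c, ?_, by ring⟩
      simp only [Finset.mem_Icc] at hc ⊢
      omega
    · intro c _
      exact (hsym c).symm
  have h2 : Disjoint (Finset.Icc ((p : ℤ) - A) (((p - 1) / 2 : ℕ) : ℤ))
      (Finset.Icc ((((p - 1) / 2 : ℕ) : ℤ) + 1) A) := by
    rw [Finset.disjoint_left]
    intro c hc hc'
    simp only [Finset.mem_Icc] at hc hc'
    omega
  have h3 : (Finset.Icc ((p : ℤ) - A) (((p - 1) / 2 : ℕ) : ℤ)) ∪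
      (Finset.Icc ((((p - 1) / 2 : ℕ) : ℤ) + 1) A) ⊆ Finset.Icc ((p : ℤ) - A) A := by
    intro c hc
    simp only [Finset.mem_union, Finset.mem_Icc] at hc ⊢
    omega
  have h4 := Finset.sum_le_sum_of_subset_of_nonneg h3 (f := g) (fun c _ _ => sq_nonneg _)
  rw [Finset.sum_union h2, ← h1] at h4
  linarith

private lemma two_sites {p : ℕ} (hp : p % 2 = 1) {A : ℕ} (hA : A + 1 ≤ p) {c : ℤ} (hc : c ∈ Ip p)
    (h2 : 2 ≤ cnt p (pc (A + 1)) c) : (p : ℤ) - A ≤ c := by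
  by_contra hcon
  push Not at hcon
  have hp0 : (0 : ℤ) < p := by omega
  have h1 : cnt p (pc (A + 1)) c ≤ 1 := by
    unfold cnt
    rw [Finset.card_le_one]
    have key : ∀ w ∈ (pc (A + 1)).filter (fun w => (p : ℤ) ∣ w - c), w = c := by
      intro w hw
      simp only [pc, Finset.mem_filter, Finset.mem_Icc] at hw
      simp only [Ip, Finset.mem_Icc] at hc
      obtain ⟨t, ht⟩ := hw.2
      have h3 : w = c + p * t := by linarith
      have h4 : t < 1 := by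
        by_contra h
        push Not at h
        have : (p : ℤ) * 1 ≤ p * t := mul_le_mul_of_nonneg_left h hp0.le
        push_cast at hw
        omega
      have h5 : -1 < t := by
        by_contra h
        push Not at h
        have : (p : ℤ) * t ≤ p * (-1) := mul_le_mul_of_nonneg_left h hp0.le
        push_cast at hw
        omega
      have h6 : t = 0 := by omega
      rw [h3, h6]; ring
    intro a ha b hb
    rw [key a ha, key b hb]
  omega

private lemma cnt_le_ea {p : ℕ} {A B : ℕ} (hB : B ≤ A) (hA : A + 1 ≤ p) {c : ℤ} (hc : c ∈ Ip p) :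
    (cnt p (pc (B + 1)) c : ℝ) ≤ (if c ≤ (B : ℤ) then (1 : ℝ) else 0) +
      (if (p : ℤ) - c ≤ (B : ℤ) then (1 : ℝ) else 0) := by
  have hp0 : (0 : ℤ) < p := by omega
  have h1 : (pc (B + 1)).filter (fun w => (p : ℤ) ∣ w - c) ⊆
      (if c ≤ (B : ℤ) then {c} else ∅) ∪ (if (p : ℤ) - c ≤ (B : ℤ) then {c - p} else ∅) := by
    intro w hw
    simp only [pc, Finset.mem_filter, Finset.mem_Icc] at hw
    simp only [Ip, Finset.mem_Icc] at hc
    obtain ⟨t, ht⟩ := hw.2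
    have h3 : w = c + p * t := by linarith
    have h4 : t < 1 := by
      by_contra h
      push Not at h
      have : (p : ℤ) * 1 ≤ p * t := mul_le_mul_of_nonneg_left h hp0.le
      push_cast at hw
      omega
    have h5 : -2 < t := by
      by_contra h
      push Not at h
      have : (p : ℤ) * t ≤ p * (-2) := mul_le_mul_of_nonneg_left h hp0.le
      push_cast at hw
      omega
    have h6 : t = 0 ∨ t = -1 := by omega
    rw [Finset.mem_union]
    rcases h6 with h6 | h6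
    · left
      rw [h6, mul_zero, add_zero] at h3
      rw [if_pos (by push_cast at hw; omega), h3]
      exact Finset.mem_singleton_self _
    · right
      rw [h6] at h3
      rw [if_pos (by push_cast at hw; omega), Finset.mem_singleton, h3]
      ring
  have h2 := (Finset.card_le_card h1).trans (Finset.card_union_le _ _)
  have h3 : (cnt p (pc (B + 1)) c : ℝ) ≤
      (((if c ≤ (B : ℤ) then ({c} : Finset ℤ) else ∅).card +
        (if (p : ℤ) - c ≤ (B : ℤ) then ({c - p} : Finset ℤ) else ∅).card : ℕ) : ℝ) := by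
    exact_mod_cast h2
  refine h3.trans (le_of_eq ?_)
  split_ifs <;> norm_num

/-- the analytic bound for the unfolded sum -/
private lemma unfold_le (P : Pf) (hle : ∀ i ∈ P.Lv, i ≤ P.al) (p k : ℕ) (hk : 1 ≤ k)
    (lam : ℝ) (hlam : 0 ≤ lam) (hp : (p : ℝ) ≤ 2 * (P.al * k) + 1) :
    1 / 8 * ∑ c ∈ Finset.Icc ((p : ℤ) - (P.al * k : ℕ)) ((P.al * k : ℕ) : ℤ),
      (2 * (ea P.Lv k c + ea P.Lv k (p - c)) + lam) ^ 2 ≤
    k * (∑ i ∈ P.Lv, ∑ j ∈ P.Lv, (max 0 (((min i j : ℕ) : ℝ) + P.al - p / k) +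
      max 0 ((i : ℝ) + j - p / k)) + lam * ∑ i ∈ P.Lv, max 0 ((i : ℝ) + P.al - p / k) +
      lam ^ 2 / 8 * (2 * P.al - p / k)) + (2 * P.h * P.h + lam * P.h + lam ^ 2 / 8) := by
  have hk' : (0 : ℝ) < k := by exact_mod_cast hk
  set W := Finset.Icc ((p : ℤ) - (P.al * k : ℕ)) ((P.al * k : ℕ) : ℤ) with hW
  have scal : ∀ y : ℝ, max 0 (k * y + 1) ≤ k * max 0 y + 1 := by
    intro y
    refine max_le (by positivity) ?_
    have := mul_le_mul_of_nonneg_left (le_max_right 0 y) hk'.le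
    linarith
  -- squares of e
  have b1 : ∑ c ∈ W, ea P.Lv k c * ea P.Lv k c ≤ ∑ i ∈ P.Lv, ∑ j ∈ P.Lv,
      (k * max 0 (((min i j : ℕ) : ℝ) + P.al - p / k) + 1) := by
    unfold ea
    refine sum_ind_mul W P.Lv (fun i c => c ≤ ((i * k : ℕ) : ℤ)) (fun i c => c ≤ ((i * k : ℕ) : ℤ))
      _ fun i _ j _ => ?_
    have h1 : W.filter (fun c => c ≤ ((i * k : ℕ) : ℤ) ∧ c ≤ ((j * k : ℕ) : ℤ)) ⊆
        Finset.Icc ((p : ℤ) - (P.al * k : ℕ)) ((min i j * k : ℕ) : ℤ) := by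
      intro c hc
      simp only [hW, Finset.mem_filter, Finset.mem_Icc] at hc ⊢
      refine ⟨hc.1.1, ?_⟩
      rcases min_choice i j with h | h <;> rw [h]
      · exact hc.2.1
      · exact hc.2.2
    have h2 : ((W.filter (fun c => c ≤ ((i * k : ℕ) : ℤ) ∧ c ≤ ((j * k : ℕ) : ℤ))).card : ℝ) ≤
        ((Finset.Icc ((p : ℤ) - (P.al * k : ℕ)) ((min i j * k : ℕ) : ℤ)).card : ℝ) := by
      exact_mod_cast Finset.card_le_card h1
    refine (h2.trans (card_Icc_le _ _)).trans (le_trans (le_of_eq ?_) (scal _))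
    congr 1
    push_cast
    field_simp
    ring
  have b2 : ∑ c ∈ W, ea P.Lv k (p - c) * ea P.Lv k (p - c) ≤ ∑ i ∈ P.Lv, ∑ j ∈ P.Lv,
      (k * max 0 (((min i j : ℕ) : ℝ) + P.al - p / k) + 1) := by
    unfold ea
    refine sum_ind_mul W P.Lv (fun i c => (p : ℤ) - c ≤ ((i * k : ℕ) : ℤ))
      (fun i c => (p : ℤ) - c ≤ ((i * k : ℕ) : ℤ)) _ fun i _ j _ => ?_
    have h1 : W.filter (fun c => (p : ℤ) - c ≤ ((i * k : ℕ) : ℤ) ∧
        (p : ℤ) - c ≤ ((j * k : ℕ) : ℤ)) ⊆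
        Finset.Icc ((p : ℤ) - (min i j * k : ℕ)) ((P.al * k : ℕ) : ℤ) := by
      intro c hc
      simp only [hW, Finset.mem_filter, Finset.mem_Icc] at hc ⊢
      refine ⟨?_, hc.1.2⟩
      rcases min_choice i j with h | h <;> rw [h]
      · linarith [hc.2.1]
      · linarith [hc.2.2]
    have h2 : ((W.filter (fun c => (p : ℤ) - c ≤ ((i * k : ℕ) : ℤ) ∧
        (p : ℤ) - c ≤ ((j * k : ℕ) : ℤ))).card : ℝ) ≤
        ((Finset.Icc ((p : ℤ) - (min i j * k : ℕ)) ((P.al * k : ℕ) : ℤ)).card : ℝ) := by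
      exact_mod_cast Finset.card_le_card h1
    refine (h2.trans (card_Icc_le _ _)).trans (le_trans (le_of_eq ?_) (scal _))
    congr 1
    push_cast
    field_simp
    ring
  have b3 : ∑ c ∈ W, ea P.Lv k c * ea P.Lv k (p - c) ≤ ∑ i ∈ P.Lv, ∑ j ∈ P.Lv,
      (k * max 0 ((i : ℝ) + j - p / k) + 1) := by
    unfold ea
    refine sum_ind_mul W P.Lv (fun i c => c ≤ ((i * k : ℕ) : ℤ))
      (fun i c => (p : ℤ) - c ≤ ((i * k : ℕ) : ℤ)) _ fun i _ j _ => ?_
    have h1 : W.filter (fun c => c ≤ ((i * k : ℕ) : ℤ) ∧ (p : ℤ) - c ≤ ((j * k : ℕ) : ℤ)) ⊆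
        Finset.Icc ((p : ℤ) - (j * k : ℕ)) ((i * k : ℕ) : ℤ) := by
      intro c hc
      simp only [Finset.mem_filter, Finset.mem_Icc] at hc ⊢
      exact ⟨by linarith [hc.2.2], hc.2.1⟩
    have h2 : ((W.filter (fun c => c ≤ ((i * k : ℕ) : ℤ) ∧
        (p : ℤ) - c ≤ ((j * k : ℕ) : ℤ))).card : ℝ) ≤
        ((Finset.Icc ((p : ℤ) - (j * k : ℕ)) ((i * k : ℕ) : ℤ)).card : ℝ) := by
      exact_mod_cast Finset.card_le_card h1
    refine (h2.trans (card_Icc_le _ _)).trans (le_trans (le_of_eq ?_) (scal _))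
    congr 1
    push_cast
    field_simp
    ring
  have b4 : ∑ c ∈ W, ea P.Lv k c ≤ ∑ i ∈ P.Lv, (k * max 0 ((i : ℝ) + P.al - p / k) + 1) := by
    unfold ea
    refine sum_ind W P.Lv (fun i c => c ≤ ((i * k : ℕ) : ℤ)) _ fun i _ => ?_
    have h1 : W.filter (fun c => c ≤ ((i * k : ℕ) : ℤ)) ⊆
        Finset.Icc ((p : ℤ) - (P.al * k : ℕ)) ((i * k : ℕ) : ℤ) := by
      intro c hc
      simp only [hW, Finset.mem_filter, Finset.mem_Icc] at hc ⊢
      exact ⟨hc.1.1, hc.2⟩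
    have h2 : ((W.filter (fun c => c ≤ ((i * k : ℕ) : ℤ))).card : ℝ) ≤
        ((Finset.Icc ((p : ℤ) - (P.al * k : ℕ)) ((i * k : ℕ) : ℤ)).card : ℝ) := by
      exact_mod_cast Finset.card_le_card h1
    refine (h2.trans (card_Icc_le _ _)).trans (le_trans (le_of_eq ?_) (scal _))
    congr 1
    push_cast
    field_simp
    ring
  have b5 : ∑ c ∈ W, ea P.Lv k (p - c) ≤
      ∑ i ∈ P.Lv, (k * max 0 ((i : ℝ) + P.al - p / k) + 1) := by
    unfold ea
    refine sum_ind W P.Lv (fun i c => (p : ℤ) - c ≤ ((i * k : ℕ) : ℤ)) _ fun i _ => ?_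
    have h1 : W.filter (fun c => (p : ℤ) - c ≤ ((i * k : ℕ) : ℤ)) ⊆
        Finset.Icc ((p : ℤ) - (i * k : ℕ)) ((P.al * k : ℕ) : ℤ) := by
      intro c hc
      simp only [hW, Finset.mem_filter, Finset.mem_Icc] at hc ⊢
      exact ⟨by linarith [hc.2], hc.1.2⟩
    have h2 : ((W.filter (fun c => (p : ℤ) - c ≤ ((i * k : ℕ) : ℤ))).card : ℝ) ≤
        ((Finset.Icc ((p : ℤ) - (i * k : ℕ)) ((P.al * k : ℕ) : ℤ)).card : ℝ) := by
      exact_mod_cast Finset.card_le_card h1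
    refine (h2.trans (card_Icc_le _ _)).trans (le_trans (le_of_eq ?_) (scal _))
    congr 1
    push_cast
    field_simp
    ring
  have b6 : (W.card : ℝ) ≤ k * (2 * P.al - p / k) + 1 := by
    refine (card_Icc_le _ _).trans (max_le ?_ (le_of_eq ?_))
    · have : (k : ℝ) * (2 * P.al - p / k) + 1 = 2 * (P.al * k) + 1 - p := by
        field_simp
        ring
      rw [this]
      linarith
    · push_cast
      field_simp
      ring
  have hexp : ∑ c ∈ W, (2 * (ea P.Lv k c + ea P.Lv k (p - c)) + lam) ^ 2 =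
      4 * ∑ c ∈ W, ea P.Lv k c * ea P.Lv k c + 4 * ∑ c ∈ W, ea P.Lv k (p - c) * ea P.Lv k (p - c) +
      8 * ∑ c ∈ W, ea P.Lv k c * ea P.Lv k (p - c) + 4 * lam * ∑ c ∈ W, ea P.Lv k c +
      4 * lam * ∑ c ∈ W, ea P.Lv k (p - c) + lam ^ 2 * W.card := by
    rw [Finset.mul_sum, Finset.mul_sum, Finset.mul_sum, Finset.mul_sum, Finset.mul_sum]
    rw [mul_comm (lam ^ 2), ← nsmul_eq_mul, ← Finset.sum_const, ← Finset.sum_add_distrib,
      ← Finset.sum_add_distrib, ← Finset.sum_add_distrib, ← Finset.sum_add_distrib,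
      ← Finset.sum_add_distrib]
    refine Finset.sum_congr rfl fun c _ => ?_
    ring
  rw [hexp]
  have e4 := mul_le_mul_of_nonneg_left b4 (by positivity : 0 ≤ 4 * lam)
  have e5 := mul_le_mul_of_nonneg_left b5 (by positivity : 0 ≤ 4 * lam)
  have e6 := mul_le_mul_of_nonneg_left b6 (sq_nonneg lam)
  have d1 : ∀ F : ℕ → ℕ → ℝ, ∑ i ∈ P.Lv, ∑ j ∈ P.Lv, (k * F i j + 1) =
      k * (∑ i ∈ P.Lv, ∑ j ∈ P.Lv, F i j) + P.h * P.h := by
    intro F
    simp_rw [Finset.sum_add_distrib, ← Finset.mul_sum, Finset.sum_const, nsmul_eq_mul]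
    simp only [Pf.h]
    ring
  have d2 : ∀ F : ℕ → ℝ, ∑ i ∈ P.Lv, (k * F i + 1) = k * (∑ i ∈ P.Lv, F i) + P.h := by
    intro F
    simp_rw [Finset.sum_add_distrib, ← Finset.mul_sum, Finset.sum_const, nsmul_eq_mul]
    simp only [Pf.h]
    ring
  rw [d1] at b1 b2 b3
  rw [d2] at e4 e5
  have d3 : ∑ i ∈ P.Lv, ∑ j ∈ P.Lv, (max 0 (((min i j : ℕ) : ℝ) + P.al - p / k) +
      max 0 ((i : ℝ) + j - p / k)) = ∑ i ∈ P.Lv, ∑ j ∈ P.Lv,
        max 0 (((min i j : ℕ) : ℝ) + P.al - p / k) +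
      ∑ i ∈ P.Lv, ∑ j ∈ P.Lv, max 0 ((i : ℝ) + j - p / k) := by
    simp_rw [Finset.sum_add_distrib]
  rw [d3]
  linarith

theorem cntIV {P : Pf} (hP : P.Ok) : CntIV P := by
  have hle := hP.le
  intro l hl0 hl1
  set lam : ℝ := P.r + 1 - l with hlam
  have hlam0 : 0 ≤ lam := by linarith
  refine ⟨2 * P.h * P.h + lam * P.h + lam ^ 2 / 8, by positivity, fun p k hp hp2 hk hap hpa => ?_⟩
  have hodd : p % 2 = 1 := by
    rcases hp.eq_two_or_odd with h | h
    · exact absurd h hp2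
    · exact h
  have hA : P.al * k + 1 ≤ p := hap
  have hpr : (p : ℝ) ≤ 2 * (P.al * k) + 1 := by
    have h1 : p + 1 ≤ 2 * (P.al * k + 1) := hpa
    have h2 : ((p + 1 : ℕ) : ℝ) ≤ ((2 * (P.al * k + 1) : ℕ) : ℝ) := by exact_mod_cast h1
    push_cast at h2
    linarith
  have h1 : ∑ c ∈ (Ip p).filter (fun c => 2 ≤ cnt p (pc (aa P k)) c),
      ((SS P k p c : ℝ) + P.r + 1 - l) ^ 2 ≤
      ∑ c ∈ Finset.Icc ((p : ℤ) - (P.al * k : ℕ)) (((p - 1) / 2 : ℕ) : ℤ),
      (2 * (ea P.Lv k c + ea P.Lv k (p - c)) + lam) ^ 2 := by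
    refine (Finset.sum_le_sum (g := fun c => (2 * (ea P.Lv k c + ea P.Lv k (p - c)) + lam) ^ 2)
      fun c hc => ?_).trans (Finset.sum_le_sum_of_subset_of_nonneg ?_ fun c _ _ => sq_nonneg _)
    · rw [Finset.mem_filter] at hc
      have h2 : (SS P k p c : ℝ) ≤ 2 * (ea P.Lv k c + ea P.Lv k (p - c)) := by
        unfold SS ea
        push_cast
        rw [← Finset.sum_add_distrib]
        refine mul_le_mul_of_nonneg_left (Finset.sum_le_sum fun i hi => ?_) (by norm_num)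
        have := cnt_le_ea (p := p) (Nat.mul_le_mul_right k (hle i hi)) hA hc.1
        push_cast at this
        exact this
      have h3 : (SS P k p c : ℝ) + P.r + 1 - l = SS P k p c + lam := by rw [hlam]; ring
      rw [h3]
      exact pow_le_pow_left₀ (by positivity) (by linarith) 2
    · intro c hc
      rw [Finset.mem_filter] at hc
      rw [Finset.mem_Icc]
      refine ⟨two_sites hodd hA hc.1 hc.2, ?_⟩
      have := hc.1
      rw [Ip, Finset.mem_Icc] at this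
      exact this.2
  have h2 := fold_le P.Lv k (P.al * k) p hodd hA lam
  have h3 := unfold_le P hle p k hk lam hlam0 hpr
  unfold f4
  rw [← hlam]
  linarith

end ZP
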