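import Pool.Agent.Lib.Z579.E6Defs
import Pool.Agent.Lib.Z579.M4

/-!
# Hankel determinants of well-poised forms with a pole profile: definitions and module statements

The rational function is `R(v) = 2 v / ∏_{i ∈ Lv} (∏_{|u| ≤ i k} (v+u))^2`, i.e. the order of the
pole at `u` is `2 #{i ∈ Lv : |u| ≤ i k}`; `al` is the largest level, `a = al k + 1`,
`m = mu k` with `mu = ∑_{i ∈ Lv} i`.  Since `R(v) = R_uniform(v) YY(v^2)^2` with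
`R_uniform = 2 v / (∏_{|u| ≤ al k} (v+u))^q`, `q = 2 #Lv`, the functional is
`G ↦ Lw r q 0 a a ω (YY^2 G)`.
-/

open Polynomial Finset Z579

namespace ZP

/-- parameters: `r`, the largest level `al`, the set of levels -/
structure Pf where
  r : ℕ
  al : ℕ
  Lv : Finset ℕ

namespace Pf

/-- number of levels -/
def h (P : Pf) : ℕ := P.Lv.card

/-- maximal pole order -/
def q (P : Pf) : ℕ := 2 * P.Lv.card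

/-- sum of the levels -/
def mu (P : Pf) : ℕ := ∑ i ∈ P.Lv, i

structure Ok (P : Pf) : Prop where
  er : Even P.r
  r2 : 2 ≤ P.r
  eal : Even P.al
  ne : P.Lv.Nonempty
  le : ∀ i ∈ P.Lv, i ≤ P.al
  gt : ∀ i ∈ P.Lv, P.al < 2 * i

end Pf

/-- half extent -/
def aa (P : Pf) (k : ℕ) : ℕ := P.al * k + 1

/-- the polynomial `∏_{i ∈ Lv} ∏_{i k < w ≤ al k} (X - w^2)` -/
noncomputable def YY (P : Pf) (k : ℕ) : ℚ[X] :=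
  ∏ i ∈ P.Lv, ∏ w ∈ Finset.Ioc (i * k) (P.al * k), (X - Polynomial.C (((w : ℤ) : ℚ) ^ 2))

/-- the functional `G ↦ L (YY^2 G)` -/
noncomputable def LP (P : Pf) (k : ℕ) (ω : ℤ → ℕ → ℚ) : ℚ[X] →ₗ[ℚ] ℚ :=
  (Lw P.r P.q 0 (aa P k) (aa P k) ω) ∘ₗ (LinearMap.mulLeft ℚ (YY P k ^ 2))

lemma LP_apply (P : Pf) (k : ℕ) (ω : ℤ → ℕ → ℚ) (G : ℚ[X]) :
    LP P k ω G = Lw P.r P.q 0 (aa P k) (aa P k) ω (YY P k ^ 2 * G) := rfl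

/-- the determinant -/
noncomputable def DD (P : Pf) (k Q : ℕ) (z : ℕ → ℚ) : ℚ :=
  hank (LP P k (wt P.r (aa P k) Q z)) (P.mu * k)

/-- sum of the pole orders in the class of `c` -/
noncomputable def SS (P : Pf) (k p : ℕ) (c : ℤ) : ℕ := 2 * ∑ i ∈ P.Lv, cnt p (pc (i * k + 1)) c

/-! ## statements -/

/-- archimedean bound -/
def ArchP (P : Pf) (A0 : ℝ) : Prop := ∀ δ : ℝ, 0 < δ → ∃ k0 : ℕ, ∀ k : ℕ, k0 ≤ k →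
  ∀ z : ℕ → ℚ, IsZ P.r P.q z →
  |((DD P k 1 z : ℚ) : ℝ)| ≤
    Real.exp ((k : ℝ) ^ 2 * (-(2 * (P.mu : ℝ) ^ 2) * Real.log k + A0 + δ))

/-- nonvanishing, special prime `p = al k + 1` -/
def NonVan (P : Pf) : Prop := ∃ p0 : ℕ, ∀ (k : ℕ) (z : ℕ → ℚ), p0 ≤ aa P k → (aa P k).Prime →
  (∀ s, VG (aa P k) 0 (z s)) → DD P k 1 z ≠ 0

/-- small primes (port of `m6e`) -/
def SmallP (P : Pf) : Prop := ∃ C : ℝ, 0 ≤ C ∧ ∀ (p k : ℕ) (ω : ℤ → ℕ → ℚ), p.Prime → 1 ≤ k →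
  (∀ u ∈ pc (aa P k), ∀ i : ℕ, 1 ≤ i → i ≤ P.q →
    VG p (-(((i : ℝ) + P.r) * (Nat.log p (2 * (aa P k + aa P k + P.mu * k))))) (ω u i)) →
  VG p (-((2 * (P.mu : ℝ) ^ 2 * (k : ℝ) ^ 2 + 4 * P.h * P.mu * k) / ((p : ℝ) - 1)
    + C * (1 + Nat.log p (2 * (aa P k + aa P k + P.mu * k))) * (P.mu * k)))
    (hank (LP P k ω) (P.mu * k))

/-- all classes -/
def ClassA (P : Pf) : Prop := ∀ (p k m : ℕ) (ω : ℤ → ℕ → ℚ) (l : ℝ),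
  p.Prime → p ≠ 2 → 2 * aa P k ≤ p ^ 2 →
  (∀ u ∈ pc (aa P k), ∀ i : ℕ, 1 ≤ i → i ≤ P.q → VG p (-((i : ℝ) + P.r)) (ω u i)) →
  VG p (-(l * m + 1 / 4 * ∑ c ∈ Ip p, ((SS P k p c : ℝ) + P.r + 1 - l) ^ 2))
    (hank (LP P k ω) m)

/-- `p ≥ a`: only the classes with two sites -/
def ClassB (P : Pf) : Prop := ∀ (p k m : ℕ) (ω : ℤ → ℕ → ℚ) (l : ℝ),
  p.Prime → p ≠ 2 → 2 * aa P k ≤ p ^ 2 → aa P k ≤ p → 0 ≤ l →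
  (∀ u ∈ pc (aa P k), ∀ i : ℕ, 1 ≤ i → i ≤ P.q → VG p (-((i : ℝ) + P.r)) (ω u i)) →
  (∀ u ∈ pc (aa P k), u + aa P k - 1 < p → ∀ i : ℕ, 1 ≤ i → i ≤ P.q → VG p 0 (ω u i)) →
  VG p (-(l * m + 1 / 4 * ∑ c ∈ (Ip p).filter (fun c => 2 ≤ cnt p (pc (aa P k)) c),
    ((SS P k p c : ℝ) + P.r + 1 - l) ^ 2)) (hank (LP P k ω) m)

/-- `p ≥ 2 a - 1` -/
def ClassC (P : Pf) : Prop := ∀ (p k m : ℕ) (ω : ℤ → ℕ → ℚ),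
  p.Prime → 2 * aa P k ≤ p + 1 →
  (∀ u ∈ pc (aa P k), ∀ i : ℕ, 1 ≤ i → i ≤ P.q → VG p 0 (ω u i)) →
  VG p 0 (hank (LP P k ω) m)

/-- counting, crude -/
def CntII (P : Pf) : Prop := ∀ (p k : ℕ), p.Prime → p ≠ 2 →
  ∑ c ∈ Ip p, (SS P k p c : ℝ) ^ 2 ≤ 1 / 2 * ((4 * (P.mu : ℝ) * k + 2 * P.h) ^ 2 / p
    + (P.h : ℝ) ^ 2 * p + ((4 * (P.mu : ℝ) * k + 2 * P.h) / p + 2 * P.h) ^ 2)

/-- limit of `1/4 ∑ SS^2 / k` at `p = x k` -/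
noncomputable def f3 (P : Pf) (T : ℕ) (x : ℝ) : ℝ :=
  ∑ i ∈ P.Lv, ∑ j ∈ P.Lv, (((min i j : ℕ) : ℝ) +
    ∑ t ∈ Finset.Icc 1 T, max 0 ((i : ℝ) + j - t * x))

/-- counting, exact overlaps, `p ≥ th k` -/
def CntIII (P : Pf) (th T : ℕ) : Prop := ∃ C : ℝ, 0 ≤ C ∧ ∀ (p k : ℕ), p.Prime → p ≠ 2 →
  1 ≤ k → th * k ≤ p →
  1 / 4 * ∑ c ∈ Ip p, (SS P k p c : ℝ) ^ 2 ≤ k * f3 P T (p / k) + C

/-- limit of `1/4 ∑ (SS + r + 1 - l)^2 / k` over the classes with two sites at `p = x k` -/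
noncomputable def f4 (P : Pf) (l x : ℝ) : ℝ :=
  ∑ i ∈ P.Lv, ∑ j ∈ P.Lv, (max 0 (((min i j : ℕ) : ℝ) + P.al - x) + max 0 ((i : ℝ) + j - x)) +
    (P.r + 1 - l) * ∑ i ∈ P.Lv, max 0 ((i : ℝ) + P.al - x) +
    (P.r + 1 - l) ^ 2 / 8 * (2 * P.al - x)

/-- counting, classes with two sites -/
def CntIV (P : Pf) : Prop := ∀ l : ℝ, 0 ≤ l → l ≤ P.r + 1 → ∃ C : ℝ, 0 ≤ C ∧ ∀ (p k : ℕ),
  p.Prime → p ≠ 2 → 1 ≤ k → aa P k ≤ p → p + 1 ≤ 2 * aa P k →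
  1 / 4 * ∑ c ∈ (Ip p).filter (fun c => 2 ≤ cnt p (pc (aa P k)) c),
    ((SS P k p c : ℝ) + P.r + 1 - l) ^ 2 ≤ k * f4 P l (p / k) + C

/-- square of the positive part -/
noncomputable def pp (x : ℝ) : ℝ := (max 0 x) ^ 2

/-- `∫_A^B f4 P l` for `al ≤ A ≤ B ≤ 2 al` -/
noncomputable def F4 (P : Pf) (l A B : ℝ) : ℝ :=
  ∑ i ∈ P.Lv, ∑ j ∈ P.Lv, ((pp (((min i j : ℕ) : ℝ) + P.al - A) -
      pp (((min i j : ℕ) : ℝ) + P.al - B)) / 2 + (pp ((i : ℝ) + j - A) - pp ((i : ℝ) + j - B)) / 2) +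
    (P.r + 1 - l) * ∑ i ∈ P.Lv, (pp ((i : ℝ) + P.al - A) - pp ((i : ℝ) + P.al - B)) / 2 +
    (P.r + 1 - l) ^ 2 / 8 * (((2 * P.al - A) ^ 2 - (2 * P.al - B) ^ 2) / 2)

/-- `∫_A^B f3 P T` -/
noncomputable def F3 (P : Pf) (T : ℕ) (A B : ℝ) : ℝ :=
  ∑ i ∈ P.Lv, ∑ j ∈ P.Lv, (((min i j : ℕ) : ℝ) * (B - A) +
    ∑ t ∈ Finset.Icc 1 T, (pp ((i : ℝ) + j - t * A) - pp ((i : ℝ) + j - t * B)) / (2 * t))

/-- the constant of the `p`-adic total -/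
noncomputable def PP0 (P : Pf) (th T : ℕ) (l1 x1 c : ℝ) : ℝ :=
  2 * (P.mu : ℝ) ^ 2 * (Real.log th - c) + (P.r + 1) * P.mu * P.al + (P.h : ℝ) ^ 2 * th ^ 2 / 16 +
    F3 P T th P.al + l1 * P.mu * (x1 - P.al) + F4 P l1 P.al x1 + F4 P 0 x1 (2 * P.al)

/-- the `p`-adic total -/
def PSum (P : Pf) (th T : ℕ) (l1 x1 : ℝ) : Prop := ∀ c : ℝ, EM.MertensUB c →
  ∀ C δ : ℝ, 0 ≤ C → 0 < δ → ∃ k0 : ℕ, ∀ k : ℕ, k0 ≤ k → ∀ β : ℕ → ℝ,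
  (∀ p : ℕ, p.Prime → p ^ 2 < 2 * aa P k →
    β p ≤ (2 * (P.mu : ℝ) ^ 2 * (k : ℝ) ^ 2 + 4 * P.h * P.mu * k) / ((p : ℝ) - 1) +
      C * (1 + Nat.log p (2 * (aa P k + aa P k + P.mu * k))) * (P.mu * k)) →
  (∀ p : ℕ, p.Prime → 2 * aa P k ≤ p ^ 2 → p ≤ th * k →
    β p ≤ (P.r + 1) * (P.mu * k) + (4 * (P.mu : ℝ) * k + 2 * P.h) ^ 2 / (8 * p) +
      (P.h : ℝ) ^ 2 / 8 * p + 1 / 8 * ((4 * (P.mu : ℝ) * k + 2 * P.h) / p + 2 * P.h) ^ 2) →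
  (∀ p : ℕ, p.Prime → th * k < p → p ≤ aa P k →
    β p ≤ (P.r + 1) * (P.mu * k) + k * f3 P T (p / k) + C) →
  (∀ p : ℕ, p.Prime → aa P k < p → (p : ℝ) ≤ x1 * k →
    β p ≤ l1 * (P.mu * k) + k * f4 P l1 (p / k) + C) →
  (∀ p : ℕ, p.Prime → aa P k < p → x1 * k < (p : ℝ) → p ≤ 2 * aa P k →
    β p ≤ k * f4 P 0 (p / k) + C) →
  ∑ p ∈ (Finset.Icc 1 (2 * aa P k)).filter Nat.Prime, β p * Real.log p ≤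
    (k : ℝ) ^ 2 * (2 * (P.mu : ℝ) ^ 2 * Real.log k + PP0 P th T l1 x1 c + δ)

/-- the profile for `{7, 9, 11, 13}` -/
def P7 : Pf := ⟨4, 24, {16, 18, 20, 22, 24}⟩

end ZP
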