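import Pool.Agent.Lib.ZP.NV2
import Pool.Agent.Lib.Z579.LHz

/-!
# Nonvanishing of the local determinants of pole profiles
-/

open Polynomial Finset Z579

namespace ZP

set_option maxRecDepth 100000

/-- coefficient of `x^k` in `x^n (x-1)^y (x-1)^(-q)` -/
def a2c (q n y k : ℕ) : ℤ :=
  if k < n then 0 else
    ∑ j ∈ Finset.range (k - n + 1), ((Nat.choose y j : ℤ) * (-1) ^ (y - j)) *
      Nat.choose (q - 1 + (k - n - j)) (q - 1)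

/-- coefficient of `x^k` in `(x+1)^n x^y (x+1)^(-q)` -/
def b2c (q n y k : ℕ) : ℤ :=
  if k < y then 0 else
    ∑ j ∈ Finset.range (k - y + 1), (Nat.choose n j : ℤ) *
      ((-1) ^ (k - y - j) * Nat.choose (q - 1 + (k - y - j)) (q - 1))

/-- local moments, computable -/
def lm2c (r q n y : ℕ) : ℤ :=
  ∑ i ∈ Finset.range q, (Nat.choose (i + r) r : ℤ) *
    (a2c q n y (q - (i + 1)) + (-1) ^ (i + 2) * b2c q n y (q - (i + 1)))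

lemma al2_eq {q n y k : ℕ} (hq : Even q) (hq0 : q ≠ 0) : al2 q n y k = (a2c q n y k : ℚ) := by
  rw [al2, a2c]
  have h1 : PowerSeries.X ^ n * lin (-1) ^ y * (lin (-1))⁻¹ ^ q =
      (lin (-1) ^ y * (lin (-1))⁻¹ ^ q) * PowerSeries.X ^ n := by ring
  rw [h1, PowerSeries.coeff_mul_X_pow']
  split_ifs with h2 h3 h3
  · omega
  · rw [PowerSeries.coeff_mul, Finset.Nat.sum_antidiagonal_eq_sum_range_succ_mk]
    push_cast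
    refine Finset.sum_congr rfl fun j _ => ?_
    rw [coeff_lin_pow, inv_pow_coeff hq hq0]
    push_cast
    ring
  · simp
  · omega

lemma be2_eq {q n y k : ℕ} (hq : Even q) (hq0 : q ≠ 0) : be2 q n y k = (b2c q n y k : ℚ) := by
  rw [be2, b2c]
  have h1 : lin 1 ^ n * PowerSeries.X ^ y * (lin 1)⁻¹ ^ q =
      (lin 1 ^ n * (lin 1)⁻¹ ^ q) * PowerSeries.X ^ y := by ring
  rw [h1, PowerSeries.coeff_mul_X_pow']
  split_ifs with h2 h3 h3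
  · omega
  · rw [PowerSeries.coeff_mul, Finset.Nat.sum_antidiagonal_eq_sum_range_succ_mk]
    push_cast
    refine Finset.sum_congr rfl fun j _ => ?_
    rw [coeff_lin_pow, inv_pow_coeff' hq hq0]
    push_cast
    rw [one_pow, mul_one]
  · simp
  · omega

lemma lmom2_eq {r q n y : ℕ} (hq : Even q) (hq0 : q ≠ 0) :
    lmom2 r q n y = (lm2c r q n y : ℚ) := by
  rw [lmom2, lm2c]
  push_cast
  have h1 : Finset.Icc 1 q = Finset.Ico (0 + 1) (q + 1) := by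
    ext x; simp only [Finset.mem_Icc, Finset.mem_Ico]; omega
  rw [h1, ← Finset.sum_Ico_add', Finset.range_eq_Ico]
  refine Finset.sum_congr rfl fun i _ => ?_
  rw [al2_eq hq hq0, be2_eq hq hq0]
  have h2 : i + 1 + r - 1 = i + r := by omega
  rw [h2]

/-- certificate: an inverse modulo `l` -/
lemma LocalDet_of_list {r q y N l : ℕ} (hN : N = q - y) (hl : 1 < l) (hq : Even q) (hq0 : q ≠ 0)
    (L : List ℤ) (W : Matrix (Fin N) (Fin N) ℤ)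
    (h1 : ∀ n : Fin (2 * N), (lm2c r q n (2 * y) - L.getD n 0) % (l : ℤ) = 0)
    (h2 : ∀ i j : Fin N, (∑ k : Fin N, L.getD ((i : ℕ) + k) 0 * W k j -
      (if i = j then 1 else 0)) % (l : ℤ) = 0) :
    lhank2 r q y ≠ 0 := by
  subst hN
  have e1 : (Matrix.of fun i j : Fin (q - y) => lmom2 r q ((i : ℕ) + (j : ℕ)) (2 * y)) =
      (Int.castRingHom ℚ).mapMatrix
        (Matrix.of fun i j : Fin (q - y) => lm2c r q ((i : ℕ) + (j : ℕ)) (2 * y)) := by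
    ext i j
    simp only [Matrix.of_apply, RingHom.mapMatrix_apply, Matrix.map_apply]
    rw [lmom2_eq hq hq0]
    simp
  rw [lhank2, e1, ← RingHom.map_det]
  intro h0
  have h0' : (Matrix.of fun i j : Fin (q - y) => lm2c r q ((i : ℕ) + (j : ℕ)) (2 * y)).det = 0 := by
    simpa using h0
  haveI : Fact (1 < l) := ⟨hl⟩
  let φ := Int.castRingHom (ZMod l)
  have h4 : φ.mapMatrix
      (Matrix.of fun i j : Fin (q - y) => lm2c r q ((i : ℕ) + (j : ℕ)) (2 * y)) *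
      φ.mapMatrix W = 1 := by
    ext i j
    rw [Matrix.mul_apply, Matrix.one_apply]
    have h3 : ∀ k : Fin (q - y), φ (lm2c r q ((i : ℕ) + (k : ℕ)) (2 * y)) =
        φ (L.getD ((i : ℕ) + k) 0) := by
      intro k
      have h5 := Int.dvd_of_emod_eq_zero (h1 ⟨(i : ℕ) + k, by omega⟩)
      rw [← ZMod.intCast_zmod_eq_zero_iff_dvd] at h5
      push_cast at h5
      rw [sub_eq_zero] at h5
      simpa [φ] using h5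
    have h6 := Int.dvd_of_emod_eq_zero (h2 i j)
    rw [← ZMod.intCast_zmod_eq_zero_iff_dvd] at h6
    push_cast at h6
    rw [sub_eq_zero] at h6
    simp only [RingHom.mapMatrix_apply, Matrix.map_apply, Matrix.of_apply]
    simp_rw [h3]
    simpa [φ] using h6
  have h7 := congrArg Matrix.det h4
  rw [Matrix.det_mul, Matrix.det_one, ← RingHom.map_det, h0', map_zero, zero_mul] at h7
  exact zero_ne_one h7

private lemma lh_4_10_0 : lhank2 4 10 0 ≠ 0 := by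
  refine LocalDet_of_list (N := 10) rfl (l := 2) (by norm_num) (by decide) (by decide)
    [0, 0, 0, 0, 0, 0, 0, 0, 0, 1, 1, 0, 1, 0, 1, 0, 0, 0, 0, 0]
    (Matrix.of ![![0, 1, 0, 0, 1, 1, 0, 1, 1, 1],
      ![1, 0, 0, 1, 1, 0, 1, 1, 1, 0],
      ![0, 0, 1, 1, 0, 1, 1, 1, 0, 0],
      ![0, 1, 1, 0, 1, 1, 1, 0, 0, 0],
      ![1, 1, 0, 1, 1, 1, 0, 0, 0, 0],
      ![1, 0, 1, 1, 1, 0, 0, 0, 0, 0],
      ![0, 1, 1, 1, 0, 0, 0, 0, 0, 0],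
      ![1, 1, 1, 0, 0, 0, 0, 0, 0, 0],
      ![1, 1, 0, 0, 0, 0, 0, 0, 0, 0],
      ![1, 0, 0, 0, 0, 0, 0, 0, 0, 0]]) ?_ ?_
  · decide +kernel
  · decide +kernel

private lemma lh_4_10_1 : lhank2 4 10 1 ≠ 0 := by
  refine LocalDet_of_list (N := 9) rfl (l := 7) (by norm_num) (by decide) (by decide)
    [4, 3, 0, 5, 5, 5, 5, 5, 5, 0, 6, 6, 6, 6, 6, 0, 0, 0]
    (Matrix.of ![![1, 2, 4, 1, 2, 4, 1, 0, 0],
      ![2, 0, 3, 0, 0, 0, 0, 3, 1],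
      ![4, 3, 6, 0, 0, 0, 0, 0, 2],
      ![1, 0, 0, 4, 1, 2, 5, 0, 4],
      ![2, 0, 0, 1, 2, 5, 2, 0, 1],
      ![4, 0, 0, 2, 5, 2, 4, 0, 2],
      ![1, 0, 0, 5, 2, 4, 1, 0, 4],
      ![0, 3, 0, 0, 0, 0, 0, 0, 1],
      ![0, 1, 2, 4, 1, 2, 4, 1, 0]]) ?_ ?_
  · decide +kernel
  · decide +kernel

private lemma lh_4_10_2 : lhank2 4 10 2 ≠ 0 := by
  refine LocalDet_of_list (N := 8) rfl (l := 2) (by norm_num) (by decide) (by decide)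
    [0, 0, 0, 0, 0, 1, 1, 0, 1, 1, 0, 0, 1, 0, 1, 0]
    (Matrix.of ![![0, 1, 0, 1, 1, 0, 1, 1],
      ![1, 0, 1, 1, 0, 1, 1, 0],
      ![0, 1, 1, 1, 0, 0, 0, 0],
      ![1, 1, 1, 0, 0, 0, 0, 0],
      ![1, 0, 0, 0, 0, 1, 1, 1],
      ![0, 1, 0, 0, 1, 0, 0, 1],
      ![1, 1, 0, 0, 1, 0, 0, 1],
      ![1, 0, 0, 0, 1, 1, 1, 0]]) ?_ ?_
  · decide +kernel
  · decide +kernel

private lemma lh_4_10_3 : lhank2 4 10 3 ≠ 0 := by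
  refine LocalDet_of_list (N := 7) rfl (l := 2) (by norm_num) (by decide) (by decide)
    [0, 0, 0, 1, 1, 1, 0, 1, 1, 1, 1, 0, 0, 0]
    (Matrix.of ![![1, 1, 0, 0, 1, 0, 1],
      ![1, 0, 1, 1, 0, 1, 1],
      ![0, 1, 0, 0, 1, 1, 1],
      ![0, 1, 0, 1, 0, 1, 1],
      ![1, 0, 1, 0, 1, 1, 0],
      ![0, 1, 1, 1, 1, 0, 1],
      ![1, 1, 1, 1, 0, 1, 0]]) ?_ ?_
  · decide +kernel
  · decide +kernel

private lemma lh_4_10_4 : lhank2 4 10 4 ≠ 0 := by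
  refine LocalDet_of_list (N := 6) rfl (l := 2) (by norm_num) (by decide) (by decide)
    [0, 1, 1, 0, 1, 0, 1, 0, 0, 1, 1, 0]
    (Matrix.of ![![1, 0, 0, 0, 1, 1],
      ![0, 0, 1, 0, 1, 1],
      ![0, 1, 0, 1, 1, 0],
      ![0, 0, 1, 1, 1, 1],
      ![1, 1, 1, 1, 0, 1],
      ![1, 1, 0, 1, 1, 1]]) ?_ ?_
  · decide +kernel
  · decide +kernel

theorem lhank2_P7 : ∀ y < 5, lhank2 4 10 y ≠ 0 := by
  intro y hy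
  interval_cases y
  · exact lh_4_10_0
  · exact lh_4_10_1
  · exact lh_4_10_2
  · exact lh_4_10_3
  · exact lh_4_10_4

private lemma lh_6_14_0 : lhank2 6 14 0 ≠ 0 := by
  refine LocalDet_of_list (N := 14) rfl (l := 2) (by norm_num) (by decide) (by decide)
    [0, 0, 0, 1, 0, 1, 0, 0, 0, 0, 1, 1, 1, 1, 0, 0, 0, 0, 1, 0, 1, 0, 0, 0, 0, 0, 0, 0]
    (Matrix.of ![![0, 1, 1, 1, 0, 0, 1, 0, 0, 0, 1, 1, 1, 1],
      ![1, 1, 1, 0, 0, 1, 0, 0, 0, 1, 1, 1, 1, 0],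
      ![1, 1, 1, 0, 1, 1, 0, 0, 0, 1, 1, 0, 0, 0],
      ![1, 0, 0, 0, 1, 1, 1, 0, 0, 1, 1, 0, 1, 1],
      ![0, 0, 1, 1, 1, 0, 0, 0, 0, 1, 0, 0, 1, 0],
      ![0, 1, 1, 1, 0, 0, 0, 0, 1, 0, 0, 1, 0, 0],
      ![1, 0, 0, 1, 0, 0, 1, 1, 0, 0, 0, 1, 1, 1],
      ![0, 0, 0, 0, 0, 0, 1, 0, 1, 0, 1, 0, 1, 0],
      ![0, 0, 0, 0, 0, 1, 0, 1, 0, 1, 0, 1, 0, 0],
      ![0, 1, 1, 1, 1, 0, 0, 0, 1, 0, 0, 1, 1, 1],
      ![1, 1, 1, 1, 0, 0, 0, 1, 0, 0, 1, 1, 1, 0],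
      ![1, 1, 0, 0, 0, 1, 1, 0, 1, 1, 1, 0, 0, 0],
      ![1, 1, 0, 1, 1, 0, 1, 1, 0, 1, 1, 0, 1, 1],
      ![1, 0, 0, 1, 0, 0, 1, 0, 0, 1, 0, 0, 1, 0]]) ?_ ?_
  · decide +kernel
  · decide +kernel

private lemma lh_6_14_1 : lhank2 6 14 1 ≠ 0 := by
  refine LocalDet_of_list (N := 13) rfl (l := 3) (by norm_num) (by decide) (by decide)
    [0, 0, 0, 0, 0, 2, 1, 1, 2, 1, 1, 2, 1, 1, 2, 0, 0, 2, 0, 0, 2, 0, 0, 0, 0, 0]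
    (Matrix.of ![![1, 2, 0, 0, 0, 1, 2, 1, 2, 2, 1, 0, 1],
      ![2, 2, 1, 2, 1, 1, 2, 1, 2, 0, 1, 0, 2],
      ![0, 1, 1, 2, 1, 1, 2, 1, 2, 1, 0, 0, 2],
      ![0, 2, 2, 1, 1, 1, 2, 1, 2, 1, 2, 2, 2],
      ![0, 1, 1, 1, 1, 0, 0, 0, 0, 1, 0, 2, 1],
      ![1, 1, 1, 1, 0, 0, 0, 0, 1, 0, 2, 1, 0],
      ![2, 2, 2, 2, 0, 0, 0, 1, 2, 0, 0, 2, 0],
      ![1, 1, 1, 1, 0, 0, 1, 2, 1, 2, 0, 1, 0],
      ![2, 2, 2, 2, 0, 1, 2, 1, 1, 1, 0, 2, 0],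
      ![2, 0, 1, 1, 1, 0, 0, 2, 1, 1, 1, 1, 1],
      ![1, 1, 0, 2, 0, 2, 0, 0, 0, 1, 1, 2, 2],
      ![0, 0, 0, 2, 2, 1, 2, 1, 2, 1, 2, 1, 1],
      ![1, 2, 2, 2, 1, 0, 0, 0, 0, 1, 2, 1, 1]]) ?_ ?_
  · decide +kernel
  · decide +kernel

private lemma lh_6_14_2 : lhank2 6 14 2 ≠ 0 := by
  refine LocalDet_of_list (N := 12) rfl (l := 2) (by norm_num) (by decide) (by decide)
    [0, 1, 0, 1, 0, 1, 1, 1, 1, 1, 1, 1, 1, 1, 1, 0, 1, 0, 1, 0, 1, 0, 0, 0]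
    (Matrix.of ![![0, 1, 1, 0, 1, 0, 0, 0, 0, 0, 1, 1],
      ![1, 1, 0, 1, 0, 0, 0, 0, 0, 1, 1, 0],
      ![1, 0, 0, 0, 1, 0, 0, 0, 0, 1, 0, 1],
      ![0, 1, 0, 1, 0, 0, 0, 0, 0, 0, 0, 0],
      ![1, 0, 1, 0, 0, 0, 0, 0, 0, 0, 0, 0],
      ![0, 0, 0, 0, 0, 0, 0, 0, 1, 0, 1, 0],
      ![0, 0, 0, 0, 0, 0, 0, 1, 0, 1, 0, 0],
      ![0, 0, 0, 0, 0, 0, 1, 0, 1, 0, 0, 0],
      ![0, 0, 0, 0, 0, 1, 0, 1, 0, 0, 0, 0],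
      ![0, 1, 1, 0, 0, 0, 1, 0, 0, 0, 1, 1],
      ![1, 1, 0, 0, 0, 1, 0, 0, 0, 1, 1, 0],
      ![1, 0, 1, 0, 0, 0, 0, 0, 0, 1, 0, 1]]) ?_ ?_
  · decide +kernel
  · decide +kernel

private lemma lh_6_14_3 : lhank2 6 14 3 ≠ 0 := by
  refine LocalDet_of_list (N := 11) rfl (l := 3) (by norm_num) (by decide) (by decide)
    [0, 2, 2, 0, 2, 0, 0, 0, 0, 0, 0, 2, 0, 1, 0, 0, 0, 0, 0, 1, 2, 0]
    (Matrix.of ![![0, 1, 0, 0, 1, 0, 1, 0, 1, 0, 2],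
      ![1, 0, 0, 1, 0, 1, 0, 1, 0, 2, 0],
      ![0, 0, 1, 1, 2, 1, 2, 1, 2, 1, 2],
      ![0, 1, 1, 2, 1, 2, 1, 2, 1, 2, 0],
      ![1, 0, 2, 1, 1, 1, 1, 1, 1, 0, 1],
      ![0, 1, 1, 2, 1, 2, 1, 2, 2, 2, 0],
      ![1, 0, 2, 1, 1, 1, 1, 2, 1, 0, 1],
      ![0, 1, 1, 2, 1, 2, 2, 2, 2, 2, 0],
      ![1, 0, 2, 1, 1, 2, 1, 2, 1, 0, 1],
      ![0, 2, 1, 2, 0, 2, 0, 2, 0, 2, 2],
      ![2, 0, 2, 0, 1, 0, 1, 0, 1, 2, 1]]) ?_ ?_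
  · decide +kernel
  · decide +kernel

private lemma lh_6_14_4 : lhank2 6 14 4 ≠ 0 := by
  refine LocalDet_of_list (N := 10) rfl (l := 5) (by norm_num) (by decide) (by decide)
    [0, 2, 4, 2, 1, 1, 0, 1, 0, 2, 2, 4, 1, 4, 3, 3, 4, 4, 4, 4]
    (Matrix.of ![![0, 3, 2, 1, 0, 4, 0, 3, 0, 4],
      ![3, 1, 2, 3, 4, 2, 3, 4, 4, 2],
      ![2, 2, 1, 0, 0, 2, 1, 1, 3, 2],
      ![1, 3, 0, 3, 4, 3, 4, 3, 1, 4],
      ![0, 4, 0, 4, 4, 4, 2, 4, 1, 1],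
      ![4, 2, 2, 3, 4, 3, 4, 3, 1, 1],
      ![0, 3, 1, 4, 2, 4, 4, 3, 4, 4],
      ![3, 4, 1, 3, 4, 3, 3, 2, 4, 4],
      ![0, 4, 3, 1, 1, 1, 4, 4, 0, 1],
      ![4, 2, 2, 4, 1, 1, 4, 4, 1, 2]]) ?_ ?_
  · decide +kernel
  · decide +kernel

private lemma lh_6_14_5 : lhank2 6 14 5 ≠ 0 := by
  refine LocalDet_of_list (N := 9) rfl (l := 2) (by norm_num) (by decide) (by decide)
    [1, 0, 0, 0, 1, 0, 0, 0, 0, 1, 0, 0, 0, 1, 0, 0, 1, 0]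
    (Matrix.of ![![0, 1, 1, 1, 1, 0, 1, 1, 1],
      ![1, 0, 0, 0, 1, 1, 0, 0, 1],
      ![1, 0, 0, 1, 1, 1, 0, 1, 1],
      ![1, 0, 1, 1, 1, 1, 1, 1, 1],
      ![1, 1, 1, 1, 1, 0, 1, 1, 1],
      ![0, 1, 1, 1, 0, 0, 1, 1, 1],
      ![1, 0, 0, 1, 1, 1, 0, 0, 1],
      ![1, 0, 1, 1, 1, 1, 0, 1, 1],
      ![1, 1, 1, 1, 1, 1, 1, 1, 1]]) ?_ ?_
  · decide +kernel
  · decide +kernel

private lemma lh_6_14_6 : lhank2 6 14 6 ≠ 0 := by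
  refine LocalDet_of_list (N := 8) rfl (l := 3) (by norm_num) (by decide) (by decide)
    [0, 1, 2, 0, 2, 2, 0, 1, 2, 0, 1, 2, 0, 2, 2, 0]
    (Matrix.of ![![1, 2, 0, 1, 0, 0, 1, 2],
      ![2, 1, 0, 0, 1, 1, 2, 1],
      ![0, 0, 1, 0, 0, 2, 0, 0],
      ![1, 0, 0, 1, 2, 0, 1, 2],
      ![0, 1, 0, 2, 1, 1, 2, 1],
      ![0, 1, 2, 0, 1, 2, 0, 1],
      ![1, 2, 0, 1, 2, 0, 1, 0],
      ![2, 1, 0, 2, 1, 1, 0, 1]]) ?_ ?_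
  · decide +kernel
  · decide +kernel

theorem lhank2_P9 : ∀ y < 7, lhank2 6 14 y ≠ 0 := by
  intro y hy
  interval_cases y
  · exact lh_6_14_0
  · exact lh_6_14_1
  · exact lh_6_14_2
  · exact lh_6_14_3
  · exact lh_6_14_4
  · exact lh_6_14_5
  · exact lh_6_14_6

end ZP
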