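import Pool.Agent.Lib.ZP.NV3
import Pool.Agent.Lib.ZP.Defs

/-!
# Nonvanishing of the determinant with a pole profile at `p = al k + 1`
-/

open Polynomial Finset Z579

namespace ZP

/-- multiplicity of the double zeros of `YY` -/
noncomputable def Ym (P : Pf) (k : ℕ) (w : ℤ) : ℕ :=
  (P.Lv.filter (fun i => ((i * k : ℕ) : ℤ) < w)).card

lemma YY_eq (P : Pf) (k p : ℕ) (hp : p = aa P k) : YY P k = PolyN (Dq p) (Ym P k) := by
  have h1 : PolyN (Dq p) (Ym P k) = ∏ d ∈ Dq p, ∏ i ∈ P.Lv,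
      (if ((i * k : ℕ) : ℤ) < d then (X - Polynomial.C ((d : ℚ) ^ 2)) else 1) := by
    rw [PolyN]
    refine Finset.prod_congr rfl fun d _ => ?_
    rw [Finset.prod_ite, Finset.prod_const, Finset.prod_const_one, mul_one, Ym]
  rw [h1, Finset.prod_comm, YY]
  refine Finset.prod_congr rfl fun i _ => ?_
  rw [← Finset.prod_filter]
  refine Finset.prod_nbij' (fun w : ℕ => (w : ℤ)) (fun w : ℤ => w.toNat) ?_ ?_ ?_ ?_ ?_
  · intro w hw
    rw [Finset.mem_Ioc] at hw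
    rw [Finset.mem_filter, Dq, Finset.mem_Icc, hp, aa]
    push_cast
    have h2 : ((w : ℤ)) ≤ P.al * k := by exact_mod_cast hw.2
    have h3 : ((i : ℤ) * k) < w := by exact_mod_cast hw.1
    have h4 : (0 : ℤ) ≤ (i : ℤ) * k := by positivity
    refine ⟨⟨by linarith [Int.lt_iff_add_one_le.1 (lt_of_le_of_lt h4 h3)], by linarith⟩, h3⟩
  · intro w hw
    rw [Finset.mem_filter, Dq, Finset.mem_Icc, hp, aa] at hw
    rw [Finset.mem_Ioc]
    obtain ⟨⟨h2, h3⟩, h4⟩ := hw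
    push_cast at h3
    have h5 : ((w.toNat : ℕ) : ℤ) = w := Int.toNat_of_nonneg (by omega)
    constructor
    · have : ((i * k : ℕ) : ℤ) < (w.toNat : ℤ) := by rw [h5]; exact h4
      exact_mod_cast this
    · have : (w.toNat : ℤ) ≤ ((P.al * k : ℕ) : ℤ) := by rw [h5]; push_cast; linarith
      exact_mod_cast this
  · intro w _; simp
  · intro w hw
    rw [Finset.mem_filter, Dq, Finset.mem_Icc] at hw
    exact Int.toNat_of_nonneg (by omega)
  · intro w _; rfl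

lemma Ym_zero {P : Pf} (hP : P.Ok) {k p : ℕ} (hp : p = aa P k) {c : ℤ} (hc : c ∈ Dset p p) :
    Ym P k c = 0 := by
  rw [Ym, Finset.card_eq_zero, Finset.filter_eq_empty_iff]
  intro i hi
  rw [Dset, Finset.mem_Icc, hp, aa] at hc
  have h1 := hP.gt i hi
  have h2 : P.al * k ≤ 2 * i * k := Nat.mul_le_mul_right k h1.le
  have h3 : ((P.al * k : ℕ) : ℤ) ≤ 2 * ((i * k : ℕ) : ℤ) := by
    have : ((P.al * k : ℕ) : ℤ) ≤ ((2 * i * k : ℕ) : ℤ) := by exact_mod_cast h2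
    push_cast at this ⊢
    linarith
  have h4 := hc.2
  push_cast at h3 h4 ⊢
  omega

lemma Ym_lt {P : Pf} (htop : P.al ∈ P.Lv) {k p : ℕ} (hp : p = aa P k) {c : ℤ} (hc : c ∈ Dset p p) :
    Ym P k (p - c) < P.h := by
  rw [Ym, Pf.h]
  refine Finset.card_lt_card ?_
  rw [Finset.filter_ssubset]
  refine ⟨P.al, htop, ?_⟩
  rw [Dset, Finset.mem_Icc] at hc
  have h1 := hc.1
  have h2 : (p : ℤ) = ((P.al * k : ℕ) : ℤ) + 1 := by rw [hp, aa]; push_cast; ring
  rw [h2]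
  omega

lemma card_cls {P : Pf} (hP : P.Ok) {k p : ℕ} (hp : p = aa P k) {i : ℕ} (hi : i ∈ P.Lv) :
    ∑ c ∈ Dset p p, (2 - (if ((i * k : ℕ) : ℤ) < p - c then 1 else 0)) = i * k := by
  have h1 := hP.gt i hi
  have h0 := hP.le i hi
  have h2 : P.al * k ≤ 2 * (i * k) := by
    have := Nat.mul_le_mul_right k h1.le
    rw [mul_assoc] at this; exact this
  have h3 : i * k ≤ P.al * k := Nat.mul_le_mul_right k h0
  obtain ⟨al', hal⟩ := hP.eal
  have h4 : P.al * k = 2 * (al' * k) := by rw [hal]; ring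
  have hpz : (p : ℤ) = 2 * ((al' * k : ℕ) : ℤ) + 1 := by
    rw [hp, aa, h4]; push_cast; ring
  have hD : Dset p p = Finset.Icc (1 : ℤ) ((al' * k : ℕ) : ℤ) := by
    rw [Dset]
    congr 1
    · ring
    · omega
  have hsum : ∑ c ∈ Dset p p, (2 - (if ((i * k : ℕ) : ℤ) < p - c then 1 else 0)) +
      ∑ c ∈ Dset p p, (if ((i * k : ℕ) : ℤ) < p - c then 1 else 0) = P.al * k := by
    rw [← Finset.sum_add_distrib]
    have h5 : ∀ c ∈ Dset p p, (2 - (if ((i * k : ℕ) : ℤ) < p - c then 1 else 0)) +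
        (if ((i * k : ℕ) : ℤ) < p - c then 1 else 0) = 2 := by
      intro c _; split_ifs <;> rfl
    rw [Finset.sum_congr rfl h5, Finset.sum_const, hD, Int.card_Icc, h4, smul_eq_mul]
    omega
  have hcard : ∑ c ∈ Dset p p, (if ((i * k : ℕ) : ℤ) < p - c then 1 else 0) =
      P.al * k - i * k := by
    rw [← Finset.card_filter]
    have h6 : (Dset p p).filter (fun c => ((i * k : ℕ) : ℤ) < p - c) =
        Finset.Icc (1 : ℤ) ((P.al * k : ℕ) - (i * k : ℕ) : ℤ) := by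
      ext c
      rw [Finset.mem_filter, hD, Finset.mem_Icc, Finset.mem_Icc, hpz]
      rw [h4] at h2 h3 ⊢
      omega
    rw [h6, Int.card_Icc]
    omega
  rw [hcard] at hsum
  omega

lemma sum_cls {P : Pf} (hP : P.Ok) {k p : ℕ} (hp : p = aa P k) :
    P.mu * k = ∑ c ∈ Dset p p, (P.q - Ym P k (p - c)) := by
  have h1 : ∀ c ∈ Dset p p, P.q - Ym P k (p - c) =
      ∑ i ∈ P.Lv, (2 - (if ((i * k : ℕ) : ℤ) < p - c then 1 else 0)) := by
    intro c _
    have h2 : ∑ i ∈ P.Lv, (2 - (if ((i * k : ℕ) : ℤ) < p - c then 1 else 0)) +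
        ∑ i ∈ P.Lv, (if ((i * k : ℕ) : ℤ) < p - c then 1 else 0) = P.q := by
      rw [← Finset.sum_add_distrib]
      have h5 : ∀ i ∈ P.Lv, (2 - (if ((i * k : ℕ) : ℤ) < p - c then 1 else 0)) +
          (if ((i * k : ℕ) : ℤ) < p - c then 1 else 0) = 2 := by
        intro i _; split_ifs <;> rfl
      rw [Finset.sum_congr rfl h5, Finset.sum_const, smul_eq_mul, Pf.q]
      ring
    rw [← Finset.card_filter] at h2
    rw [Ym]
    omega
  rw [Finset.sum_congr rfl h1, Finset.sum_comm]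
  rw [Finset.sum_congr rfl fun i hi => card_cls hP hp hi, ← Finset.sum_mul, Pf.mu]

theorem nonVan {P : Pf} (hP : P.Ok) (htop : P.al ∈ P.Lv) (hl : ∀ y < P.h, lhank2 P.r P.q y ≠ 0) : NonVan P := by
  refine ⟨∑ y ∈ Finset.range P.h, (lhank2 P.r P.q y).num.natAbs + 1, ?_⟩
  intro k z hp0 hpp hz
  obtain ⟨p, hp⟩ : ∃ p, p = aa P k := ⟨_, rfl⟩
  have hfact : Fact p.Prime := ⟨by rw [hp]; exact hpp⟩
  rw [← hp] at hp0 hz
  have hodd : p % 2 = 1 := by
    rw [hp, aa]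
    obtain ⟨al', hal⟩ := hP.eal
    rw [hal]
    have : (al' + al') * k + 1 = 2 * (al' * k) + 1 := by ring
    omega
  have key := nv_aux (p := p) (r := P.r) (q := P.q) (a := p) (m := P.mu * k) (z := z) (Ym P k)
    (by have := hP.r2; omega) ⟨P.Lv.card, by rw [Pf.q]; ring⟩ hodd le_rfl
    (fun c hc => Ym_zero hP hp hc)
    (fun c hc => by have := Ym_lt htop hp hc; rw [Pf.h] at this; rw [Pf.q]; omega)
    (fun c hc => ⟨hl _ (Ym_lt htop hp hc), by
      have h1 := Finset.single_le_sum (f := fun y => (lhank2 P.r P.q y).num.natAbs)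
        (fun y _ => Nat.zero_le _) (Finset.mem_range.2 (Ym_lt htop hp hc))
      omega⟩) (sum_cls hP hp) hz
  rw [DD, LP, YY_eq P k p hp, ← hp]
  exact key

end ZP
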