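import Pool.Agent.Lib.ZP.Defs

/-!
# Numerical value of the `p`-adic constant of the profile `P7`
-/

open Polynomial Finset Z579

namespace ZP

private def ppq (x : ℚ) : ℚ := (max 0 x) ^ 2

private def F3q (L : Finset ℕ) (T : ℕ) (A B : ℚ) : ℚ :=
  ∑ i ∈ L, ∑ j ∈ L, (((min i j : ℕ) : ℚ) * (B - A) +
    ∑ t ∈ Finset.Icc 1 T, (ppq ((i : ℚ) + j - t * A) - ppq ((i : ℚ) + j - t * B)) / (2 * t))

private def F4q (L : Finset ℕ) (al : ℕ) (s A B : ℚ) : ℚ :=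
  ∑ i ∈ L, ∑ j ∈ L, ((ppq (((min i j : ℕ) : ℚ) + al - A) -
      ppq (((min i j : ℕ) : ℚ) + al - B)) / 2 + (ppq ((i : ℚ) + j - A) - ppq ((i : ℚ) + j - B)) / 2) +
    s * ∑ i ∈ L, (ppq ((i : ℚ) + al - A) - ppq ((i : ℚ) + al - B)) / 2 +
    s ^ 2 / 8 * (((2 * al - A) ^ 2 - (2 * al - B) ^ 2) / 2)

private lemma pp_cast (x : ℚ) : pp (x : ℝ) = ((ppq x : ℚ) : ℝ) := by
  unfold pp ppq
  push_cast
  rfl

private lemma F3_cast (P : Pf) (T : ℕ) (A B : ℚ) :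
    F3 P T (A : ℝ) (B : ℝ) = ((F3q P.Lv T A B : ℚ) : ℝ) := by
  unfold F3 F3q
  push_cast
  simp only [← pp_cast]
  push_cast
  rfl

private lemma F4_cast (P : Pf) (l A B : ℚ) :
    F4 P (l : ℝ) (A : ℝ) (B : ℝ) = ((F4q P.Lv P.al (P.r + 1 - l) A B : ℚ) : ℝ) := by
  unfold F4 F4q
  push_cast
  simp only [← pp_cast]
  push_cast
  rfl

private lemma F3_val : F3q {16, 18, 20, 22, 24} 5 8 24 = 66190 / 3 := by
  decide +kernel

private lemma F4_val1 : F4q {16, 18, 20, 22, 24} 24 1 24 27 = 42255 / 16 := by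
  decide +kernel

private lemma F4_val2 : F4q {16, 18, 20, 22, 24} 24 5 27 48 = 155945 / 16 := by
  decide +kernel

theorem pp0_P7 : PP0 P7 8 5 4 27 (57719 / 100000) ≤ 77800 := by
  have hmu : P7.mu = 100 := by decide
  have hh : P7.h = 5 := by decide
  have hLv : P7.Lv = {16, 18, 20, 22, 24} := rfl
  have hal : P7.al = 24 := rfl
  have hr : P7.r = 4 := rfl
  have h3 := F3_cast P7 5 8 24
  have h4 := F4_cast P7 4 24 27
  have h5 := F4_cast P7 0 27 48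
  rw [hLv, F3_val] at h3
  have e4 : ((P7.r : ℚ) + 1 - 4) = 1 := by rw [hr]; norm_num
  have e5 : ((P7.r : ℚ) + 1 - 0) = 5 := by rw [hr]; norm_num
  rw [hLv, hal, e4, F4_val1] at h4
  rw [hLv, hal, e5, F4_val2] at h5
  push_cast at h3 h4 h5
  have hlog : Real.log 8 = 3 * Real.log 2 := by
    have : (8 : ℝ) = 2 ^ 3 := by norm_num
    rw [this, Real.log_pow]
    norm_num
  have hl2 := Real.log_two_lt_d9
  have h48 : (2 * (24 : ℝ)) = 48 := by norm_num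
  unfold PP0
  rw [hmu, hh, hal, hr]
  push_cast
  rw [h48, h3, h4, h5, hlog]
  linarith

end ZP
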