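import Pool.Agent.Lib.ZP.PSa
import Pool.Agent.Lib.Z579.M7b
import Pool.Agent.Lib.Z579.M9g

/-!
# Prime sums of continuous functions
-/

open Polynomial Finset Z579 Filter Topology

namespace ZP

theorem ps_cont {f : ℝ → ℝ} (hf : Continuous f) {α α' : ℝ} (hα : 0 ≤ α) (hαα : α ≤ α')
    (lam C δ : ℝ) (hδ : 0 < δ) :
    ∃ k0 : ℕ, ∀ k : ℕ, k0 ≤ k → ∀ β : ℕ → ℝ,
    (∀ p : ℕ, p.Prime → α * k < (p : ℝ) → (p : ℝ) ≤ α' * k → β p ≤ lam * k + k * f (p / k) + C) →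
    ∑ p ∈ (Finset.Ioc ⌊α * k⌋₊ ⌊α' * k⌋₊).filter Nat.Prime, β p * Real.log p ≤
      (k : ℝ) ^ 2 * (lam * (α' - α) + (∫ x in α..α', f x) + δ) := by
  have hα' : 0 ≤ α' := hα.trans hαα
  have h1 := EM.m7bk α α' (fun x => lam + f x) hα hαα (continuous_const.add hf).continuousOn
  have h2 : (∫ x in α..α', (lam + f x)) = lam * (α' - α) + ∫ x in α..α', f x := by
    rw [intervalIntegral.integral_add intervalIntegrable_const (hf.intervalIntegrable _ _),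
      intervalIntegral.integral_const, smul_eq_mul]
    ring
  have h3 := EM.m7bk α α' (fun _ => 1) hα hαα continuousOn_const
  have h4 := h1.add ((h3.mul EM.tendsto_invk).const_mul C)
  rw [h2, mul_zero, mul_zero, add_zero] at h4
  have h5 := (h4.eventually_lt_const
    (show lam * (α' - α) + (∫ x in α..α', f x) < lam * (α' - α) + (∫ x in α..α', f x) + δ by
      linarith)).and (eventually_gt_atTop 0)
  rw [eventually_atTop] at h5
  obtain ⟨k0, hk0⟩ := h5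
  refine ⟨k0, fun k hk β hβ => ?_⟩
  obtain ⟨h6, h7⟩ := hk0 k hk
  have hk' : (0 : ℝ) < k := by exact_mod_cast h7
  have e1 : ∑ p ∈ (Finset.Ioc ⌊α * k⌋₊ ⌊α' * k⌋₊).filter Nat.Prime, β p * Real.log p ≤
      ∑ p ∈ (Finset.Ioc ⌊α * k⌋₊ ⌊α' * k⌋₊).filter Nat.Prime,
        (k * ((lam + f (p / k)) * Real.log p) + C * (1 * Real.log p)) := by
    refine Finset.sum_le_sum fun p hp => ?_
    rw [Finset.mem_filter, Finset.mem_Ioc] at hp
    have h8 := hβ p hp.2 (Nat.lt_of_floor_lt hp.1.1)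
      ((Nat.le_floor_iff (by positivity)).1 hp.1.2)
    have h9 := mul_le_mul_of_nonneg_right h8 (Real.log_natCast_nonneg p)
    refine h9.trans (le_of_eq ?_)
    ring
  rw [Finset.sum_add_distrib, ← Finset.mul_sum, ← Finset.mul_sum] at e1
  unfold PS at h6
  have e2 : (∑ p ∈ (Finset.Ioc ⌊α * (k : ℝ)⌋₊ ⌊α' * (k : ℝ)⌋₊).filter Nat.Prime,
      (lam + f (p / k)) * Real.log p) / k +
      C * ((∑ p ∈ (Finset.Ioc ⌊α * (k : ℝ)⌋₊ ⌊α' * (k : ℝ)⌋₊).filter Nat.Prime,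
        1 * Real.log p) / k * ((k : ℝ))⁻¹) =
      (k * (∑ p ∈ (Finset.Ioc ⌊α * (k : ℝ)⌋₊ ⌊α' * (k : ℝ)⌋₊).filter Nat.Prime,
      (lam + f (p / k)) * Real.log p) +
      C * ∑ p ∈ (Finset.Ioc ⌊α * (k : ℝ)⌋₊ ⌊α' * (k : ℝ)⌋₊).filter Nat.Prime,
        1 * Real.log p) / (k : ℝ) ^ 2 := by
    field_simp
  rw [e2, div_lt_iff₀ (by positivity)] at h6
  refine e1.trans (h6.le.trans (le_of_eq ?_))
  ring

theorem ps_end (N : ℕ) (D δ : ℝ) (hD : 0 ≤ D) (hδ : 0 < δ) :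
    ∃ k0 : ℕ, ∀ k : ℕ, k0 ≤ k → ∀ β : ℕ → ℝ,
    (∀ p : ℕ, p.Prime → N * k < p → p ≤ N * k + 2 → β p ≤ D * (k + 1)) →
    ∑ p ∈ (Finset.Ioc (N * k) (N * k + 2)).filter Nat.Prime, β p * Real.log p ≤
      δ * (k : ℝ) ^ 2 := by
  have h1 := ((EM.tendsto_logK ((N : ℝ) + 2) (by positivity)).mul
    EM.tendsto_inv_sqrtk).const_mul (4 * D)
  rw [mul_zero, mul_zero] at h1
  have h2 := (h1.eventually_lt_const hδ).and (eventually_gt_atTop 0)
  rw [eventually_atTop] at h2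
  obtain ⟨k0, hk0⟩ := h2
  refine ⟨k0, fun k hk β hβ => ?_⟩
  obtain ⟨h3, h4⟩ := hk0 k hk
  have hk' : (0 : ℝ) < k := by exact_mod_cast h4
  have hk1 : (1 : ℝ) ≤ k := by exact_mod_cast h4
  have hs : 0 < √(k : ℝ) := Real.sqrt_pos.mpr hk'
  have hsq : √(k : ℝ) * √(k : ℝ) = k := Real.mul_self_sqrt hk'.le
  have hlog0 : 0 ≤ Real.log (((N : ℝ) + 2) * k) := by
    refine Real.log_nonneg ?_
    have : (0 : ℝ) ≤ N := Nat.cast_nonneg N
    nlinarith
  have h5 : ∀ p ∈ (Finset.Ioc (N * k) (N * k + 2)).filter Nat.Prime,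
      β p * Real.log p ≤ (D * (2 * k)) * Real.log (((N : ℝ) + 2) * k) := by
    intro p hp
    rw [Finset.mem_filter, Finset.mem_Ioc] at hp
    have h6 := hβ p hp.2 hp.1.1 hp.1.2
    have hlp : 0 ≤ Real.log p := Real.log_natCast_nonneg p
    have h7 : Real.log p ≤ Real.log (((N : ℝ) + 2) * k) := by
      refine Real.log_le_log (by exact_mod_cast hp.2.pos) ?_
      have h8 : (p : ℝ) ≤ ((N * k + 2 : ℕ) : ℝ) := by exact_mod_cast hp.1.2
      push_cast at h8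
      nlinarith
    calc β p * Real.log p ≤ (D * (k + 1)) * Real.log p := mul_le_mul_of_nonneg_right h6 hlp
      _ ≤ (D * (2 * k)) * Real.log p := by
          refine mul_le_mul_of_nonneg_right (mul_le_mul_of_nonneg_left ?_ hD) hlp
          linarith
      _ ≤ _ := mul_le_mul_of_nonneg_left h7 (by positivity)
  have h6 := Finset.sum_le_card_nsmul _ _ _ h5
  have h7 : ((Finset.Ioc (N * k) (N * k + 2)).filter Nat.Prime).card ≤ 2 := by
    refine (Finset.card_filter_le _ _).trans ?_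
    rw [Nat.card_Ioc]
    omega
  have h8 : ((((Finset.Ioc (N * k) (N * k + 2)).filter Nat.Prime).card : ℕ) : ℝ) ≤ 2 := by
    exact_mod_cast h7
  rw [nsmul_eq_mul] at h6
  have h9 := h6.trans (mul_le_mul_of_nonneg_right h8
    (show 0 ≤ (D * (2 * k)) * Real.log (((N : ℝ) + 2) * k) by positivity))
  refine h9.trans ?_
  have h10 : 4 * D * (Real.log (((N : ℝ) + 2) * k) / √(k : ℝ) * (√(k : ℝ))⁻¹) =
      4 * D * Real.log (((N : ℝ) + 2) * k) / k := by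
    rw [← div_eq_mul_inv, div_div, hsq]
    ring
  rw [h10, div_lt_iff₀ hk'] at h3
  nlinarith

end ZP
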