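import Pool.Agent.Lib.ZP.PS1
import Pool.Agent.Lib.ZP.PS2

/-!
# Prime sums: total

PROOF.  Split `Icc 1 (2 a)`, `2 a = 2 al k + 2`, into `p ≤ th k` (`ps1`), `(th k, al k]` (`ps_cont` with
`f3 P T`, `lam = (r+1) mu`), `p = al k + 1` (`ps_end` with `N = al`; the bound for `p ≤ a` with
`f3 P T (p/k) ≤ f3 P T al`-type constant, `f3` is bounded on `[al, al + 1]`), `(al k + 1, x1 k]`
(`ps_cont` with `f4 P l1`, `lam = l1 mu`), `(x1 k, 2 al k]` (`ps_cont` with `f4 P 0`), and
`2 al k < p ≤ 2 al k + 2` (`ps_end`, `f4 P 0` is bounded).  Redefine `β` outside of the respective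
ranges if necessary (the hypotheses are only used for primes in the range; `β` may be replaced by
`0` elsewhere).  The integrals are `int_f3`, `int_f4`, and
`2 mu^2 (log k + log th - c) + (r+1) mu th + (r+1) mu (al - th) + ...` is `PP0`.
-/

open Polynomial Finset Z579

namespace ZP

private noncomputable def QQ (β : ℕ → ℝ) (m n : ℕ) : ℝ :=
  ∑ p ∈ (Finset.Ioc m n).filter Nat.Prime, β p * Real.log p

private lemma QQ_add (β : ℕ → ℝ) {l m n : ℕ} (hlm : l ≤ m) (hmn : m ≤ n) :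
    QQ β l n = QQ β l m + QQ β m n := by
  unfold QQ
  rw [Finset.sum_filter, Finset.sum_filter, Finset.sum_filter, Finset.sum_Ioc_consecutive _ hlm hmn]

private lemma QQ_single (a : ℕ) (v : ℝ) (m n : ℕ) :
    QQ (fun p => if p = a then v else 0) m n =
      if a ∈ (Finset.Ioc m n).filter Nat.Prime then v * Real.log a else 0 := by
  unfold QQ
  simp only [ite_mul, zero_mul]
  rw [Finset.sum_ite_eq']

private lemma QQ_congr {β γ : ℕ → ℝ} {m n : ℕ} (h : ∀ p, m < p → p ≤ n → β p = γ p) :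
    QQ β m n = QQ γ m n := by
  unfold QQ
  refine Finset.sum_congr rfl fun p hp => ?_
  rw [Finset.mem_filter, Finset.mem_Ioc] at hp
  rw [h p hp.1.1 hp.1.2]

/-- changing the value at one point -/
private lemma QQ_mod (β : ℕ → ℝ) (a N : ℕ) (ha : N < a) (ha2 : a ≤ N + 2) (v : ℝ) (m n : ℕ) :
    QQ (fun p => if p = a then 0 else β p) m n ≤
      QQ (fun p => if p = a then v else β p) m n + QQ (fun p => if p = a then |v| else 0) N (N + 2) := by
  have h1 : QQ (fun p => if p = a then 0 else β p) m n ≤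
      QQ (fun p => if p = a then v else β p) m n + QQ (fun p => if p = a then |v| else 0) m n := by
    unfold QQ
    rw [← Finset.sum_add_distrib]
    refine Finset.sum_le_sum fun p hp => ?_
    rw [Finset.mem_filter] at hp
    have hlog : 0 ≤ Real.log p := Real.log_nonneg (by exact_mod_cast hp.2.one_lt.le)
    rw [← add_mul]
    refine mul_le_mul_of_nonneg_right ?_ hlog
    by_cases h : p = a
    · simp only [h, if_true]
      linarith [neg_abs_le v]
    · simp only [h, if_false]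
      linarith
  refine h1.trans (add_le_add le_rfl ?_)
  rw [QQ_single, QQ_single]
  by_cases hp : a.Prime
  · have h2 : a ∈ (Finset.Ioc N (N + 2)).filter Nat.Prime := by
      rw [Finset.mem_filter, Finset.mem_Ioc]
      exact ⟨⟨ha, ha2⟩, hp⟩
    rw [if_pos h2]
    split_ifs
    · exact le_rfl
    · exact mul_nonneg (abs_nonneg v) (Real.log_nonneg (by exact_mod_cast hp.one_lt.le))
  · have h2 : ∀ m n : ℕ, a ∉ (Finset.Ioc m n).filter Nat.Prime := by
      intro m n h
      rw [Finset.mem_filter] at h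
      exact hp h.2
    rw [if_neg (h2 _ _), if_neg (h2 _ _)]

private lemma bdd_of_cont {f : ℝ → ℝ} (hf : Continuous f) (A B : ℝ) :
    ∃ M : ℝ, 0 ≤ M ∧ ∀ x, A ≤ x → x ≤ B → |f x| ≤ M := by
  obtain ⟨M, hM⟩ := (isCompact_Icc (a := A) (b := B)).exists_bound_of_continuousOn hf.continuousOn
  refine ⟨|M|, abs_nonneg M, fun x h1 h2 => ?_⟩
  have := hM x ⟨h1, h2⟩
  rw [Real.norm_eq_abs] at this
  exact this.trans (le_abs_self M)

theorem psum {P : Pf} (hP : P.Ok) {th T : ℕ} (hth : 1 ≤ th) (hth2 : th ≤ P.al) {l1 x1 : ℝ}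
    (hl1 : 0 ≤ l1) (hx1 : (P.al : ℝ) ≤ x1) (hx2 : x1 ≤ 2 * P.al) : PSum P th T l1 x1 := by
  intro c hc C δ hC hδ
  have hδ' : 0 < δ / 8 := by positivity
  have hal : 1 ≤ P.al := hth.trans hth2
  have hr0 : (0 : ℝ) ≤ P.r := Nat.cast_nonneg _
  have hmu0 : (0 : ℝ) ≤ P.mu := Nat.cast_nonneg _
  have hal0 : (1 : ℝ) ≤ P.al := by exact_mod_cast hal
  obtain ⟨M3, hM3, hM3'⟩ := bdd_of_cont (f3_cont P T) P.al (P.al + 1)
  obtain ⟨M4, hM4, hM4'⟩ := bdd_of_cont (f4_cont P l1) P.al (P.al + 1)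
  obtain ⟨M5, hM5, hM5'⟩ := bdd_of_cont (f4_cont P 0) P.al (2 * P.al + 2)
  obtain ⟨k1, hk1⟩ := ps1 hP hth hth2 c hc C (δ / 8) hC hδ'
  obtain ⟨k2, hk2⟩ := ps_cont (f3_cont P T) (α := th) (α' := P.al) (Nat.cast_nonneg _)
    (by exact_mod_cast hth2) ((P.r + 1) * P.mu) C (δ / 8) hδ'
  obtain ⟨k3, hk3⟩ := ps_cont (f4_cont P l1) (α := P.al) (α' := x1) (Nat.cast_nonneg _)
    hx1 (l1 * P.mu) C (δ / 8) hδ'
  obtain ⟨k4, hk4⟩ := ps_cont (f4_cont P 0) (α := x1) (α' := 2 * P.al)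
    ((Nat.cast_nonneg _).trans hx1) hx2 0 C (δ / 8) hδ'
  obtain ⟨k5, hk5⟩ := ps_end P.al ((P.r + 1) * P.mu + M3 + C) (δ / 8) (by positivity) hδ'
  obtain ⟨k6, hk6⟩ := ps_end P.al (l1 * P.mu + M4 + C) (δ / 8) (by positivity) hδ'
  obtain ⟨k7, hk7⟩ := ps_end P.al (M5 + C) (δ / 8) (by positivity) hδ'
  obtain ⟨k8, hk8⟩ := ps_end (2 * P.al) (M5 + C) (δ / 8) (by positivity) hδ'
  refine ⟨max 1 (max (max (max k1 k2) (max k3 k4)) (max (max k5 k6) (max k7 k8))),
    fun k hk β H1 H2 H3 H4 H5 => ?_⟩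
  simp only [max_le_iff] at hk
  obtain ⟨hk0, ⟨⟨hk1', hk2'⟩, hk3', hk4'⟩, ⟨hk5', hk6'⟩, hk7', hk8'⟩ := hk
  have hkR : (1 : ℝ) ≤ k := by exact_mod_cast hk0
  have hkpos : (0 : ℝ) < k := by linarith
  have ha : aa P k = P.al * k + 1 := rfl
  have haR : ((aa P k : ℕ) : ℝ) = P.al * k + 1 := by rw [ha]; push_cast; ring
  -- location of `a / k`
  have hak1 : (P.al : ℝ) ≤ (aa P k : ℝ) / k := by
    rw [le_div_iff₀ hkpos, haR]
    linarith
  have hak2 : (aa P k : ℝ) / k ≤ P.al + 1 := by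
    rw [div_le_iff₀ hkpos, haR]
    nlinarith
  have hak3 : (aa P k : ℝ) / k ≤ 2 * P.al + 2 := by linarith
  set a := aa P k with ha_def
  set N1 : ℕ := ⌊x1 * k⌋₊ with hN1
  have hx10 : (0 : ℝ) ≤ x1 * k := by
    have : (0 : ℝ) ≤ x1 := (Nat.cast_nonneg _).trans hx1
    positivity
  have hfl1 : ⌊(th : ℝ) * k⌋₊ = th * k := by rw [← Nat.cast_mul, Nat.floor_natCast]
  have hfl2 : ⌊(P.al : ℝ) * k⌋₊ = P.al * k := by rw [← Nat.cast_mul, Nat.floor_natCast]
  have hfl3 : ⌊(2 * (P.al : ℝ)) * k⌋₊ = 2 * P.al * k := by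
    have : (2 * (P.al : ℝ)) * k = ((2 * P.al * k : ℕ) : ℝ) := by push_cast; ring
    rw [this, Nat.floor_natCast]
  have hN1a : P.al * k ≤ N1 := by
    rw [← hfl2]
    exact Nat.floor_le_floor (by gcongr)
  have hN1b : N1 ≤ 2 * P.al * k := by
    rw [← hfl3]
    exact Nat.floor_le_floor (by gcongr)
  have hthk : th * k ≤ P.al * k := Nat.mul_le_mul_right k hth2
  have hk1al : 1 ≤ P.al * k := Nat.mul_pos hal hk0
  -- the function without the point `a`
  set β0 : ℕ → ℝ := fun p => if p = a then 0 else β p with hβ0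
  have htot : ∑ p ∈ (Finset.Icc 1 (2 * a)).filter Nat.Prime, β p * Real.log p =
      QQ β0 0 (2 * a) + QQ (fun p => if p = a then β a else 0) (P.al * k) (P.al * k + 2) := by
    have h1 : QQ (fun p => if p = a then β a else 0) (P.al * k) (P.al * k + 2) =
        QQ (fun p => if p = a then β a else 0) 0 (2 * a) := by
      rw [QQ_single, QQ_single]
      have h2 : a ∈ (Finset.Ioc (P.al * k) (P.al * k + 2)).filter Nat.Prime ↔
          a ∈ (Finset.Ioc 0 (2 * a)).filter Nat.Prime := by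
        simp only [Finset.mem_filter, Finset.mem_Ioc]
        constructor
        · rintro ⟨_, h⟩
          exact ⟨⟨h.pos, by omega⟩, h⟩
        · rintro ⟨_, h⟩
          exact ⟨⟨by omega, by omega⟩, h⟩
      simp only [h2]
    rw [h1]
    have h3 : Finset.Icc 1 (2 * a) = Finset.Ioc 0 (2 * a) := by
      ext p
      simp only [Finset.mem_Icc, Finset.mem_Ioc]
      omega
    rw [h3]
    unfold QQ
    rw [← Finset.sum_add_distrib]
    refine Finset.sum_congr rfl fun p _ => ?_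
    by_cases h : p = a
    · simp [hβ0, h]
    · simp [hβ0, h]
  have hsplit : QQ β0 0 (2 * a) = QQ β0 0 (th * k) + (QQ β0 (th * k) (P.al * k) +
      (QQ β0 (P.al * k) N1 + (QQ β0 N1 (2 * P.al * k) +
        QQ β0 (2 * P.al * k) (2 * P.al * k + 2)))) := by
    have e : 2 * a = 2 * P.al * k + 2 := by rw [ha]; ring
    rw [e, ← QQ_add β0 hN1b (by omega), ← QQ_add β0 hN1a (by omega), ← QQ_add β0 hthk (by omega),
      ← QQ_add β0 (Nat.zero_le _) (by omega)]
  -- part 1
  have p1 : QQ β0 0 (th * k) ≤ (k : ℝ) ^ 2 * (2 * (P.mu : ℝ) ^ 2 * (Real.log k + Real.log th - c) +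
      (P.r + 1) * P.mu * th + (P.h : ℝ) ^ 2 * th ^ 2 / 16 + δ / 8) := by
    have h1 : QQ β0 0 (th * k) = QQ β 0 (th * k) := QQ_congr fun p _ hp => by
      have : p ≠ a := by omega
      simp [hβ0, this]
    rw [h1]
    have h2 := hk1 k hk1' β H1 H2
    have h3 : Finset.Icc 1 (th * k) = Finset.Ioc 0 (th * k) := by
      ext p
      simp only [Finset.mem_Icc, Finset.mem_Ioc]
      omega
    rw [h3] at h2
    exact h2
  -- part 2
  have p2 : QQ β0 (th * k) (P.al * k) ≤ (k : ℝ) ^ 2 * ((P.r + 1) * P.mu * (P.al - th) +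
      F3 P T th P.al + δ / 8) := by
    have h1 : QQ β0 (th * k) (P.al * k) = QQ β (th * k) (P.al * k) := QQ_congr fun p _ hp => by
      have : p ≠ a := by omega
      simp [hβ0, this]
    rw [h1]
    have h2 := hk2 k hk2' β (fun p hp hp1 hp2 => by
      have h3 : th * k < p := by exact_mod_cast hp1
      have h4 : p ≤ P.al * k := by exact_mod_cast hp2
      have h5 := H3 p hp h3 (by omega)
      linarith [h5, mul_assoc ((P.r : ℝ) + 1) P.mu k])
    rw [hfl1, hfl2, int_f3] at h2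
    exact h2
  -- part 3
  have p3 : QQ β0 (P.al * k) N1 ≤ (k : ℝ) ^ 2 * (l1 * P.mu * (x1 - P.al) +
      F4 P l1 P.al x1 + δ / 8) + δ / 8 * (k : ℝ) ^ 2 := by
    have h0 := QQ_mod β a (P.al * k) (by omega) (by omega)
      (l1 * (P.mu * k) + k * f4 P l1 ((a : ℝ) / k) + C) (P.al * k) N1
    refine h0.trans (add_le_add ?_ ?_)
    · have h2 := hk3 k hk3' (fun p => if p = a then
          (l1 * (P.mu * k) + k * f4 P l1 ((a : ℝ) / k) + C) else β p) (fun p hp hp1 hp2 => by
        have h3 : P.al * k < p := by exact_mod_cast hp1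
        by_cases h : p = a
        · simp only [h, if_true]
          linarith [mul_assoc l1 (P.mu : ℝ) k]
        · simp only [h, if_false]
          have h5 := H4 p hp (by omega) hp2
          linarith [h5, mul_assoc l1 (P.mu : ℝ) k])
      rw [hfl2, ← hN1, int_f4] at h2
      exact h2
    · refine hk6 k hk6' _ fun p hp hp1 hp2 => ?_
      split_ifs with h
      · have h3 := hM4' _ hak1 hak2
        have h4 : |l1 * (P.mu * k) + k * f4 P l1 ((a : ℝ) / k) + C| ≤
            l1 * (P.mu * k) + k * M4 + C := by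
          have e1 : (0 : ℝ) ≤ l1 * (P.mu * k) := by positivity
          rw [abs_le] at h3 ⊢
          constructor
          · nlinarith [h3.1, mul_le_mul_of_nonneg_left h3.1 hkpos.le]
          · nlinarith [h3.2, mul_le_mul_of_nonneg_left h3.2 hkpos.le]
        refine h4.trans ?_
        have e1 : (0 : ℝ) ≤ l1 * P.mu := by positivity
        nlinarith
      · positivity
  -- part 4
  have p4 : QQ β0 N1 (2 * P.al * k) ≤ (k : ℝ) ^ 2 * (0 * (2 * P.al - x1) +
      F4 P 0 x1 (2 * P.al) + δ / 8) + δ / 8 * (k : ℝ) ^ 2 := by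
    have h0 := QQ_mod β a (P.al * k) (by omega) (by omega)
      (k * f4 P 0 ((a : ℝ) / k) + C) N1 (2 * P.al * k)
    refine h0.trans (add_le_add ?_ ?_)
    · have h2 := hk4 k hk4' (fun p => if p = a then
          (k * f4 P 0 ((a : ℝ) / k) + C) else β p) (fun p hp hp1 hp2 => by
        have h3 : (P.al * k : ℝ) < p := lt_of_le_of_lt (by gcongr) hp1
        have h3' : P.al * k < p := by exact_mod_cast h3
        have h4 : p ≤ 2 * P.al * k := by exact_mod_cast hp2
        by_cases h : p = a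
        · simp only [h, if_true]
          linarith
        · simp only [h, if_false]
          have h5 := H5 p hp (by omega) hp1 (by rw [ha]; linarith)
          linarith [h5])
      rw [hfl3, ← hN1, int_f4] at h2
      exact h2
    · refine hk7 k hk7' _ fun p hp hp1 hp2 => ?_
      split_ifs with h
      · have h3 := hM5' _ hak1 hak3
        have h4 : |k * f4 P 0 ((a : ℝ) / k) + C| ≤ k * M5 + C := by
          rw [abs_le] at h3 ⊢
          constructor
          · nlinarith [h3.1, mul_le_mul_of_nonneg_left h3.1 hkpos.le]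
          · nlinarith [h3.2, mul_le_mul_of_nonneg_left h3.2 hkpos.le]
        refine h4.trans ?_
        nlinarith
      · positivity
  -- part 5
  have p5 : QQ β0 (2 * P.al * k) (2 * P.al * k + 2) ≤ δ / 8 * (k : ℝ) ^ 2 := by
    refine hk8 k hk8' β0 fun p hp hp1 hp2 => ?_
    have hpa : p ≠ a := by
      have : P.al * k + 1 ≤ 2 * P.al * k := by
        rw [mul_assoc]
        omega
      omega
    simp only [hβ0, hpa, if_false]
    have e1 : P.al * k + 1 ≤ 2 * P.al * k := by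
      rw [mul_assoc]
      omega
    have e2 : (2 * (P.al : ℝ)) * k < p := by exact_mod_cast hp1
    have e3 : x1 * k < (p : ℝ) := lt_of_le_of_lt (by gcongr) e2
    have e4 : (p : ℝ) ≤ 2 * P.al * k + 2 := by exact_mod_cast hp2
    have h5 := H5 p hp (by omega) e3 (by rw [ha]; linarith)
    have e5 : (P.al : ℝ) ≤ (p : ℝ) / k := by
      rw [le_div_iff₀ hkpos]
      nlinarith
    have e6 : (p : ℝ) / k ≤ 2 * P.al + 2 := by
      rw [div_le_iff₀ hkpos]
      nlinarith
    have h6 := (abs_le.mp (hM5' _ e5 e6)).2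
    nlinarith [mul_le_mul_of_nonneg_left h6 hkpos.le]
  -- part 6
  have p6 : QQ (fun p => if p = a then β a else 0) (P.al * k) (P.al * k + 2) ≤
      δ / 8 * (k : ℝ) ^ 2 := by
    refine hk5 k hk5' _ fun p hp hp1 hp2 => ?_
    split_ifs with h
    · subst h
      have h5 := H3 _ hp (lt_of_le_of_lt hthk hp1) le_rfl
      have h6 := (abs_le.mp (hM3' _ hak1 hak2)).2
      have e1 : (0 : ℝ) ≤ (P.r + 1) * P.mu := by positivity
      nlinarith [mul_le_mul_of_nonneg_left h6 hkpos.le]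
    · positivity
  rw [htot, hsplit]
  unfold PP0
  have e : (k : ℝ) ^ 2 * (2 * (P.mu : ℝ) ^ 2 * Real.log k + (2 * (P.mu : ℝ) ^ 2 * (Real.log th - c) +
      (P.r + 1) * P.mu * P.al + (P.h : ℝ) ^ 2 * th ^ 2 / 16 + F3 P T th P.al +
      l1 * P.mu * (x1 - P.al) + F4 P l1 P.al x1 + F4 P 0 x1 (2 * P.al)) + δ) =
    (k : ℝ) ^ 2 * (2 * (P.mu : ℝ) ^ 2 * (Real.log k + Real.log th - c) +
      (P.r + 1) * P.mu * th + (P.h : ℝ) ^ 2 * th ^ 2 / 16 + δ / 8) +
    (k : ℝ) ^ 2 * ((P.r + 1) * P.mu * (P.al - th) + F3 P T th P.al + δ / 8) +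
    ((k : ℝ) ^ 2 * (l1 * P.mu * (x1 - P.al) + F4 P l1 P.al x1 + δ / 8) + δ / 8 * (k : ℝ) ^ 2) +
    ((k : ℝ) ^ 2 * (0 * (2 * P.al - x1) + F4 P 0 x1 (2 * P.al) + δ / 8) + δ / 8 * (k : ℝ) ^ 2) +
    δ / 8 * (k : ℝ) ^ 2 + δ / 8 * (k : ℝ) ^ 2 := by ring
  rw [e]
  linarith [p1, p2, p3, p4, p5, p6]

end ZP
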