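import Pool.Agent.Lib.ZP.YW

/-!
# Small primes

PROOF.  Port of `m6e` (Z579/M6de) with `B = 0`, `a = b = al k + 1`, `m = mu k`: the entries
`LP P k ω (PB i * PB j) = Lw r q 0 a a ω (YY^2 * (PB i * PB j))` have in addition the weight of
`YY^2`, i.e. twice `YY_WA_K` (`K = log_p (2 (a + a + m))`, so `al k < p^(K+1)`):
`4 (h al k - mu k)/(p-1) - 4 h (K+1)`.  With `q = 2 h`:
`2 q a - 4 (h al k - mu k) = 4 mu k + 4 h`, so the exponent of the determinant is
`-(((4 mu k + 4 h) m - 2 m^2)/(p-1)) - m * O(K+1)` with `m = mu k`, and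
`(4 mu k + 4 h) mu k - 2 mu^2 k^2 = 2 mu^2 k^2 + 4 h mu k`.  `C = 6 + q + r + 4 h + ..` (any constant).
-/

open Polynomial Finset Z579

namespace ZP

theorem smallP {P : Pf} (hP : P.Ok) : SmallP P := by
  refine ⟨4 * P.h + 6 + P.q + P.r, by positivity, ?_⟩
  intro p k ω hp hk1 hω
  have := Fact.mk hp
  have hp1 : (1 : ℝ) < p := by exact_mod_cast hp.one_lt
  have hp2 : (2 : ℝ) ≤ p := by exact_mod_cast hp.two_le
  set a := aa P k with ha
  set m := P.mu * k with hm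
  set K := Nat.log p (2 * (a + a + m)) with hKdef
  have hlt : 2 * (a + a + m) < p ^ (K + 1) := Nat.lt_pow_succ_log_self hp.one_lt _
  have haeq : a = P.al * k + 1 := rfl
  have haR : (a : ℝ) = P.al * k + 1 := by rw [haeq]; push_cast; ring
  have hmR : (m : ℝ) = P.mu * k := by rw [hm]; push_cast; ring
  have hqR : (P.q : ℝ) = 2 * P.h := by simp [Pf.q, Pf.h]
  rw [m0 (LP P k ω) m PB PB_monic PB_natDegree]
  set c0 : ℝ := (4 * ((P.h : ℝ) * P.al * k - P.mu * k) - 2 * P.q * a) / ((p : ℝ) - 1) -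
    (4 * P.h * (K + 1) + 4 * (K + 1) + (P.q + P.r) * K) with hc0
  have key : VG p (∑ i : Fin m, (2 * ((i : ℕ) : ℝ) / ((p : ℝ) - 1) + c0 / 2) +
      ∑ j : Fin m, (2 * ((j : ℕ) : ℝ) / ((p : ℝ) - 1) + c0 / 2))
      (Matrix.det (Matrix.of fun i j : Fin m => LP P k ω (PB i * PB j))) := by
    refine VG.det fun i j => ?_
    rw [Matrix.of_apply, LP_apply, Lw_apply]
    refine VG.sum fun u hu => VG.sum fun k' hk => ?_
    rw [Finset.mem_Icc] at hk
    have h1 := base_WA_K (p := p) (q := P.q) (B := 0) (K := K) (le_refl a) (by omega) hu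
    have h2 := PB_WA (p := p) (K := K) (i := (i : ℕ)) (by have := i.2; omega) u
    have h3 := PB_WA (p := p) (K := K) (i := (j : ℕ)) (by have := j.2; omega) u
    have hy := (YY_WA_K (p := p) hP (k := k) (K := K) (by omega) u).pow 2
    have h4 := (h1.mul (hy.mul (h2.mul h3))) (P.q - k')
    rw [← map_mul, ← map_pow, ← map_mul] at h4
    have h5 := ((VG.nat (p := p) (Nat.choose (k' + P.r - 1) P.r)).mul
      (hω u hu k' hk.1 hk.2)).mul h4
    refine VG.mono h5 ?_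
    rw [Nat.cast_sub hk.2, hc0]
    apply le_of_eq
    push_cast
    field_simp
    ring
  refine key.mono ?_
  have hsum : ∑ i : Fin m, (2 * ((i : ℕ) : ℝ) / ((p : ℝ) - 1) + c0 / 2) =
      (m : ℝ) * (m - 1) / ((p : ℝ) - 1) + m * (c0 / 2) := by
    rw [Fin.sum_univ_eq_sum_range (fun i => 2 * (i : ℝ) / ((p : ℝ) - 1) + c0 / 2) m,
      Finset.sum_add_distrib, Finset.sum_const, Finset.card_range, nsmul_eq_mul,
      ← Finset.sum_div, ← Finset.mul_sum]
    have : 2 * ∑ i ∈ Finset.range m, (i : ℝ) = (m : ℝ) * (m - 1) := by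
      have h := Finset.sum_range_id_mul_two m
      rcases Nat.eq_zero_or_pos m with h0 | h0
      · rw [h0]; simp
      have h' : ((∑ i ∈ Finset.range m, i : ℕ) : ℝ) * 2 = m * ((m - 1 : ℕ) : ℝ) := by
        exact_mod_cast h
      rw [Nat.cast_sub h0] at h'
      push_cast at h'
      linarith
    rw [this]
  rw [hsum]
  have hK0 : (0 : ℝ) ≤ K := Nat.cast_nonneg K
  have hm0 : (0 : ℝ) ≤ m := Nat.cast_nonneg m
  have hh0 : (0 : ℝ) ≤ P.h := Nat.cast_nonneg _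
  have hr0 : (0 : ℝ) ≤ P.r := Nat.cast_nonneg _
  have hdiv : (m : ℝ) / ((p : ℝ) - 1) ≤ m := by
    rw [div_le_iff₀ (by linarith)]
    nlinarith
  have e1 : (m : ℝ) * (m - 1) / ((p : ℝ) - 1) + m * (c0 / 2) +
      ((m : ℝ) * (m - 1) / ((p : ℝ) - 1) + m * (c0 / 2)) =
      -((2 * (P.mu : ℝ) ^ 2 * (k : ℝ) ^ 2 + 4 * P.h * P.mu * k) / ((p : ℝ) - 1)) -
        2 * ((m : ℝ) / ((p : ℝ) - 1)) -
        m * (4 * P.h * (K + 1) + 4 * (K + 1) + (P.q + P.r) * K) := by
    rw [hc0, haR, hqR, hmR]; field_simp; ring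
  rw [e1]
  have e2 : (4 * (P.h : ℝ) + 6 + P.q + P.r) * (1 + K) * (P.mu * k) =
      m * (4 * P.h * (K + 1) + 4 * (K + 1) + (P.q + P.r) * K) +
        (2 * m + 2 * K * m + P.q * m + P.r * m) := by
    rw [hmR]
    ring
  rw [neg_add]
  have e3 : 0 ≤ 2 * (K : ℝ) * m + P.q * m + P.r * m := by positivity
  rw [e2]
  linarith

end ZP
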