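import Pool.Agent.Lib.ZP.Main
import Pool.Agent.Lib.ZP.NonVan
import Pool.Agent.Lib.ZP.ClsA
import Pool.Agent.Lib.ZP.Small
import Pool.Agent.Lib.ZP.Cnt2
import Pool.Agent.Lib.ZP.Cnt3
import Pool.Agent.Lib.ZP.Cnt4
import Pool.Agent.Lib.ZP.PSum
import Pool.Agent.Lib.ZP.ArchFin
import Pool.Agent.Lib.ZP.LocalDet
import Pool.Agent.Lib.ZP.Num
import Pool.Agent.Lib.Z579.T3T2
import Pool.Agent.Lib.DIM3.MertEM

/-!
# At least one of `ζ(7), ζ(9), ζ(11), ζ(13)` is irrational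
-/

open Polynomial Finset Z579

namespace ZP

theorem no_z7 (z : ℕ → ℚ) (hz : IsZ 4 10 z) : False := by
  have hnv : NonVan P7 := nonVan ok7 (by show (24 : ℕ) ∈ ({16, 18, 20, 22, 24} : Finset ℕ); decide) (by
    intro y hy
    exact lhank2_P7 y hy)
  refine no_z ok7 archP7 hnv (smallP ok7) (classA ok7) (classB ok7) (classC ok7) (cntII ok7)
    (th := 8) (T := 5) (l1 := 4) (x1 := 27) (c := 57719 / 100000)
    (cntIII ok7 (by norm_num) (by show 2 * 24 ≤ (5 + 1) * 8; norm_num)) (cntIV ok7)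
    (psum ok7 (by norm_num) (by show 8 ≤ 24; norm_num) (by norm_num)
      (by show ((24 : ℕ) : ℝ) ≤ 27; norm_num) (by show (27 : ℝ) ≤ 2 * ((24 : ℕ) : ℝ); norm_num))
    EM.mertens57719 (by norm_num) (by show (4 : ℝ) ≤ ((4 : ℕ) : ℝ) + 1; norm_num)
    (by show (27 : ℝ) ≤ 2 * ((24 : ℕ) : ℝ); norm_num) (by norm_num) ?_ z hz
  have := pp0_P7
  linarith

theorem one_of_7_13 :
    Irrational (∑' n : ℕ, 1 / ((n : ℝ) + 1) ^ 7) ∨ Irrational (∑' n : ℕ, 1 / ((n : ℝ) + 1) ^ 9) ∨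
    Irrational (∑' n : ℕ, 1 / ((n : ℝ) + 1) ^ 11) ∨
    Irrational (∑' n : ℕ, 1 / ((n : ℝ) + 1) ^ 13) := by
  by_contra hcon
  simp only [not_or] at hcon
  obtain ⟨h7, h9, h11, h13⟩ := hcon
  obtain ⟨z, hz⟩ := EM.isZ_of_not_irrational (r := 4) (q := 10) (by
    intro s hs h1 h2
    obtain ⟨k, rfl⟩ := hs
    have h3 : k = 3 ∨ k = 4 ∨ k = 5 ∨ k = 6 := by omega
    rcases h3 with rfl | rfl | rfl | rfl
    · exact h7
    · exact h9
    · exact h11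
    · exact h13)
  exact no_z7 z hz

end ZP
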