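import Pool.Agent.Lib.ZP.TDefs

/-!
# Exact counting of the truncated costs
-/

open Polynomial Finset Z579

namespace ZP

private lemma sum_blocksT (f : ℕ → ℕ) (k a b : ℕ) (hab : a ≤ b) :
    ∑ x ∈ Finset.Ico (a * k) (b * k), f x = ∑ t ∈ Finset.Ico a b, ∑ u ∈ Finset.range k, f (t * k + u) := by
  induction b, hab using Nat.le_induction with
  | base => simp
  | succ b hab ih =>
    rw [Finset.sum_Ico_succ_top hab, ← ih,
      ← Finset.sum_Ico_consecutive f (Nat.mul_le_mul_right k hab)
        (Nat.mul_le_mul_right k (Nat.le_succ b)),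
      Finset.sum_Ico_eq_sum_range f (b * k) ((b + 1) * k)]
    have : (b + 1) * k - b * k = k := by
      rw [Nat.add_mul, one_mul, Nat.add_sub_cancel_left]
    rw [this]

private lemma eo_eqT (P : Pf) (k t u : ℕ) (hu : u < k) : eo P k (t * k + u + 1) = Ee P (t + 1) := by
  unfold eo Ee
  congr 2
  ext i
  simp only [Finset.mem_filter]
  refine and_congr_right fun _ => ⟨fun h => ?_, fun h => ?_⟩
  · by_contra hlt
    have h1 : i ≤ t := by omega
    have h2 : i * k ≤ t * k := Nat.mul_le_mul_right k h1
    omega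
  · have h2 : (t + 1) * k ≤ i * k := Nat.mul_le_mul_right k h
    rw [Nat.add_mul, one_mul] at h2
    omega

private lemma cst_commT (r l x y : ℕ) : cst r l x y = cst r l y x := by
  unfold cst
  rw [min_comm, add_comm x y]

theorem cntT : ∀ P : Pf, P.Ok → CntT P := by
  intro P _ l p k j hp hp2 hj1 hj2 hjp hpj hap
  have hodd : p % 2 = 1 := by
    rcases hp.eq_two_or_odd with h | h
    · exact absurd h hp2
    · exact h
  set a := P.al with ha
  obtain ⟨φ, hφ⟩ : ∃ φ, p = j * k + (φ + 1) := ⟨p - j * k - 1, by omega⟩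
  have hφk : φ + 1 ≤ k := by
    rw [Nat.add_mul, one_mul] at hpj
    omega
  have hpa : a * k + 1 ≤ p := hap
  set c : ℕ → ℕ := fun d => cst P.r l (eo P k d) (eo P k (p - d)) with hc
  have hak : a * k ≤ j * k := Nat.mul_le_mul_right k hj1
  have h2ak : p ≤ 2 * (a * k) := by
    have h1 : (j + 1) * k ≤ (2 * a) * k := Nat.mul_le_mul_right k (by omega)
    rw [Nat.mul_assoc] at h1
    omega
  -- symmetry
  have hsym : 2 * ∑ d ∈ Finset.Icc ((p + 1) / 2) (a * k), c d =
      ∑ d ∈ Finset.Icc (p - a * k) (a * k), c d := by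
    have hsplit : Finset.Icc (p - a * k) (a * k) =
        Finset.Icc (p - a * k) ((p - 1) / 2) ∪ Finset.Icc ((p + 1) / 2) (a * k) := by
      ext d
      simp only [Finset.mem_union, Finset.mem_Icc]
      omega
    have hdis : Disjoint (Finset.Icc (p - a * k) ((p - 1) / 2)) (Finset.Icc ((p + 1) / 2) (a * k)) := by
      rw [Finset.disjoint_left]
      intro d h1 h2
      simp only [Finset.mem_Icc] at h1 h2
      omega
    rw [hsplit, Finset.sum_union hdis, two_mul]
    congr 1
    refine Finset.sum_nbij' (fun d => p - d) (fun d => p - d) ?_ ?_ ?_ ?_ ?_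
    · intro d hd
      simp only [Finset.mem_Icc] at hd ⊢
      omega
    · intro d hd
      simp only [Finset.mem_Icc] at hd ⊢
      omega
    · intro d hd
      simp only [Finset.mem_Icc] at hd
      show p - (p - d) = d
      omega
    · intro d hd
      simp only [Finset.mem_Icc] at hd
      show p - (p - d) = d
      omega
    · intro d hd
      simp only [Finset.mem_Icc] at hd
      show cst P.r l (eo P k d) (eo P k (p - d)) = cst P.r l (eo P k (p - d)) (eo P k (p - (p - d)))
      have : p - (p - d) = d := by omega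
      rw [this, cst_commT]
  -- shift
  have hshift : ∑ d ∈ Finset.Icc (p - a * k) (a * k), c d =
      ∑ x ∈ Finset.Ico ((j - a) * k + φ) (a * k), c (x + 1) := by
    have hja : (j - a) * k = j * k - a * k := Nat.sub_mul j a k
    refine Finset.sum_nbij' (fun d => d - 1) (fun x => x + 1) ?_ ?_ ?_ ?_ ?_
    · intro d hd
      simp only [Finset.mem_Icc, Finset.mem_Ico] at hd ⊢
      omega
    · intro x hx
      simp only [Finset.mem_Icc, Finset.mem_Ico] at hx ⊢
      omega
    · intro d hd
      simp only [Finset.mem_Icc] at hd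
      show d - 1 + 1 = d
      omega
    · intro x hx
      show x + 1 - 1 = x
      omega
    · intro d hd
      simp only [Finset.mem_Icc] at hd
      show c d = c (d - 1 + 1)
      have : d - 1 + 1 = d := by omega
      rw [this]
  -- values
  set B : ℕ → ℕ := fun t => cst P.r l (Ee P (t + 1)) (Ee P (j - t + 1)) with hB
  set A : ℕ → ℕ := fun t => cst P.r l (Ee P (t + 1)) (Ee P (j - t)) with hA
  have hval1 : ∀ t u, t < a → u < φ → c (t * k + u + 1) = B t := by
    intro t u ht hu
    have e1 : eo P k (t * k + u + 1) = Ee P (t + 1) := eo_eqT P k t u (by omega)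
    have e2 : p - (t * k + u + 1) = (j - t) * k + (φ - u - 1) + 1 := by
      rw [Nat.sub_mul]
      have : t * k ≤ j * k := Nat.mul_le_mul_right k (by omega)
      omega
    show cst P.r l (eo P k (t * k + u + 1)) (eo P k (p - (t * k + u + 1))) = B t
    rw [e1, e2, eo_eqT P k (j - t) (φ - u - 1) (by omega)]
  have hval2 : ∀ t u, t < a → φ ≤ u → u < k → c (t * k + u + 1) = A t := by
    intro t u ht hu huk
    have e1 : eo P k (t * k + u + 1) = Ee P (t + 1) := eo_eqT P k t u huk
    have e2 : p - (t * k + u + 1) = (j - t - 1) * k + (k + φ - u - 1) + 1 := by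
      have h1 : (j - t - 1) * k = j * k - (t + 1) * k := by
        rw [Nat.sub_sub, Nat.sub_mul]
      rw [h1]
      have h2 : (t + 1) * k ≤ j * k := Nat.mul_le_mul_right k (by omega)
      rw [Nat.add_mul, one_mul] at h2 ⊢
      omega
    show cst P.r l (eo P k (t * k + u + 1)) (eo P k (p - (t * k + u + 1))) = A t
    rw [e1, e2, eo_eqT P k (j - t - 1) (k + φ - u - 1) (by omega)]
    have : j - t - 1 + 1 = j - t := by omega
    rw [this]
  have hblock : ∀ t, t < a → ∑ u ∈ Finset.range k, c (t * k + u + 1) = φ * B t + (k - φ) * A t := by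
    intro t ht
    rw [← Finset.sum_range_add_sum_Ico (fun u => c (t * k + u + 1)) (show φ ≤ k by omega)]
    congr 1
    · rw [Finset.sum_congr rfl (fun u hu => hval1 t u ht (Finset.mem_range.1 hu))]
      simp
    · rw [Finset.sum_congr rfl (fun u hu => hval2 t u ht (Finset.mem_Ico.1 hu).1 (Finset.mem_Ico.1 hu).2)]
      simp
  have htot : ∑ x ∈ Finset.Ico ((j - a) * k) (a * k), c (x + 1) =
      ∑ t ∈ Finset.Ico (j - a) a, (φ * B t + (k - φ) * A t) := by
    rw [sum_blocksT (fun x => c (x + 1)) k (j - a) a (by omega)]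
    exact Finset.sum_congr rfl fun t ht => hblock t (Finset.mem_Ico.1 ht).2
  have hle1 : (j - a) * k + φ ≤ a * k := by
    have h1 : (j - a + 1) * k ≤ a * k := Nat.mul_le_mul_right k (by omega)
    rw [Nat.add_mul, one_mul] at h1
    omega
  have hextra : ∑ x ∈ Finset.Ico ((j - a) * k) ((j - a) * k + φ), c (x + 1) = φ * B (j - a) := by
    rw [Finset.sum_Ico_eq_sum_range]
    have : (j - a) * k + φ - (j - a) * k = φ := by omega
    rw [this, Finset.sum_congr rfl (fun u hu => hval1 (j - a) u (by omega) (Finset.mem_range.1 hu))]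
    simp
  have hS := Finset.sum_Ico_consecutive (fun x => c (x + 1)) (Nat.le_add_right ((j - a) * k) φ) hle1
  rw [hextra, htot, Finset.sum_add_distrib, ← Finset.mul_sum, ← Finset.mul_sum,
    Finset.sum_eq_sum_Ico_succ_bot (show j - a < a by omega) B] at hS
  -- compare with WW
  have hW1 : WW P l (j + 1) = ∑ t ∈ Finset.Ico (j - a) a, A t := by
    unfold WW
    refine Finset.sum_nbij' (fun s => s - 1) (fun t => t + 1) ?_ ?_ ?_ ?_ ?_
    · intro s hs
      simp only [Finset.mem_Icc, Finset.mem_Ico] at hs ⊢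
      omega
    · intro t ht
      simp only [Finset.mem_Icc, Finset.mem_Ico] at ht ⊢
      omega
    · intro s hs
      simp only [Finset.mem_Icc] at hs
      show s - 1 + 1 = s
      omega
    · intro t ht
      show t + 1 - 1 = t
      omega
    · intro s hs
      simp only [Finset.mem_Icc] at hs
      show cst P.r l (Ee P s) (Ee P (j + 1 - s)) = cst P.r l (Ee P (s - 1 + 1)) (Ee P (j - (s - 1)))
      have h1 : s - 1 + 1 = s := by omega
      have h2 : j - (s - 1) = j + 1 - s := by omega
      rw [h1, h2]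
  have hW2 : WW P l (j + 2) = ∑ t ∈ Finset.Ico (j - a + 1) a, B t := by
    unfold WW
    refine Finset.sum_nbij' (fun s => s - 1) (fun t => t + 1) ?_ ?_ ?_ ?_ ?_
    · intro s hs
      simp only [Finset.mem_Icc, Finset.mem_Ico] at hs ⊢
      omega
    · intro t ht
      simp only [Finset.mem_Icc, Finset.mem_Ico] at ht ⊢
      omega
    · intro s hs
      simp only [Finset.mem_Icc] at hs
      show s - 1 + 1 = s
      omega
    · intro t ht
      show t + 1 - 1 = t
      omega
    · intro s hs
      simp only [Finset.mem_Icc] at hs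
      show cst P.r l (Ee P s) (Ee P (j + 2 - s)) = cst P.r l (Ee P (s - 1 + 1)) (Ee P (j - (s - 1) + 1))
      have h1 : s - 1 + 1 = s := by omega
      have h2 : j - (s - 1) + 1 = j + 2 - s := by omega
      rw [h1, h2]
  rw [← hW1, ← hW2, Nat.mul_add] at hS
  have hfin : 2 * ∑ d ∈ Finset.Icc ((p + 1) / 2) (a * k), c d =
      φ * WW P l (j + 2) + (k - φ) * WW P l (j + 1) := by
    rw [hsym, hshift]
    omega
  have hreal := congrArg (Nat.cast : ℕ → ℝ) hfin
  push_cast [Nat.cast_sub (show φ ≤ k by omega)] at hreal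
  have hφr : (φ : ℝ) = (p : ℝ) - j * k - 1 := by
    rw [hφ]
    push_cast
    ring
  rw [hφr] at hreal
  have hgoal : 2 * (∑ d ∈ Finset.Icc ((p + 1) / 2) (a * k),
      (cst P.r l (eo P k d) (eo P k (p - d)) : ℝ)) =
      ((p : ℝ) - j * k - 1) * WW P l (j + 2) + ((k : ℝ) - ((p : ℝ) - j * k - 1)) * WW P l (j + 1) := by
    simpa [hc] using hreal
  rw [hgoal]
  ring

end ZP
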