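import Pool.Agent.Lib.ZP.LocalDet

/-!
# The local determinant with an empty outer member: `lhank2 6 14 7 ≠ 0`
-/

open Polynomial Finset Z579

namespace ZP

set_option maxRecDepth 100000

private lemma lh_6_14_7 : lhank2 6 14 7 ≠ 0 := by
  refine LocalDet_of_list (N := 7) rfl (l := 2) (by norm_num) (by decide) (by decide)
    [0, 0, 0, 0, 1, 1, 0, 0, 0, 0, 0, 0, 1, 1]
    (Matrix.of ![![0, 0, 0, 0, 0, 1, 0],
      ![0, 0, 0, 0, 1, 1, 0],
      ![0, 0, 0, 1, 1, 1, 0],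
      ![0, 0, 1, 1, 1, 1, 0],
      ![0, 1, 1, 1, 1, 1, 0],
      ![1, 1, 1, 1, 1, 1, 0],
      ![0, 0, 0, 0, 0, 0, 1]]) ?_ ?_
  · decide +kernel
  · decide +kernel

theorem lhank2_P9' : ∀ y ≤ 7, lhank2 6 14 y ≠ 0 := by
  intro y hy
  rcases Nat.lt_or_ge y 7 with h | h
  · exact lhank2_P9 y h
  · have : y = 7 := by omega
    rw [this]
    exact lh_6_14_7

end ZP
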