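import Pool.Agent.Lib.ZP.NonVan
import Pool.Agent.Lib.ZP.LocalDet7
import Pool.Agent.Lib.ZP.TDefs

/-!
# Nonvanishing at `p = al k + 1` for profiles whose top level may be below `al`

The proof of `nonVan` without the hypothesis that `al` is a level: then the multiplicity at the
inner member can also be `h`, so the local determinants are needed for all `y ≤ h`.
-/

open Polynomial Finset Z579

namespace ZP

private lemma tYm_zero {P : Pf} (hgt : ∀ i ∈ P.Lv, P.al < 2 * i) {k p : ℕ} (hp : p = aa P k)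
    {c : ℤ} (hc : c ∈ Dset p p) : Ym P k c = 0 := by
  rw [Ym, Finset.card_eq_zero, Finset.filter_eq_empty_iff]
  intro i hi
  rw [Dset, Finset.mem_Icc, hp, aa] at hc
  have h1 := hgt i hi
  have h2 : P.al * k ≤ 2 * i * k := Nat.mul_le_mul_right k h1.le
  have h3 : ((P.al * k : ℕ) : ℤ) ≤ 2 * ((i * k : ℕ) : ℤ) := by
    have : ((P.al * k : ℕ) : ℤ) ≤ ((2 * i * k : ℕ) : ℤ) := by exact_mod_cast h2
    push_cast at this ⊢
    linarith
  have h4 := hc.2
  push_cast at h3 h4 ⊢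
  omega

private lemma tYm_le {P : Pf} (k : ℕ) (w : ℤ) : Ym P k w ≤ P.h := by
  rw [Ym, Pf.h]
  exact Finset.card_filter_le _ _

private lemma tcard_cls {P : Pf} (hal : Even P.al) (hle : ∀ i ∈ P.Lv, i ≤ P.al)
    (hgt : ∀ i ∈ P.Lv, P.al < 2 * i) {k p : ℕ} (hp : p = aa P k) {i : ℕ} (hi : i ∈ P.Lv) :
    ∑ c ∈ Dset p p, (2 - (if ((i * k : ℕ) : ℤ) < p - c then 1 else 0)) = i * k := by
  have h1 := hgt i hi
  have h0 := hle i hi
  have h2 : P.al * k ≤ 2 * (i * k) := by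
    have := Nat.mul_le_mul_right k h1.le
    rw [mul_assoc] at this; exact this
  have h3 : i * k ≤ P.al * k := Nat.mul_le_mul_right k h0
  obtain ⟨al', hal⟩ := hal
  have h4 : P.al * k = 2 * (al' * k) := by rw [hal]; ring
  have hpz : (p : ℤ) = 2 * ((al' * k : ℕ) : ℤ) + 1 := by
    rw [hp, aa, h4]; push_cast; ring
  have hD : Dset p p = Finset.Icc (1 : ℤ) ((al' * k : ℕ) : ℤ) := by
    rw [Dset]
    congr 1
    · ring
    · omega
  have hsum : ∑ c ∈ Dset p p, (2 - (if ((i * k : ℕ) : ℤ) < p - c then 1 else 0)) +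
      ∑ c ∈ Dset p p, (if ((i * k : ℕ) : ℤ) < p - c then 1 else 0) = P.al * k := by
    rw [← Finset.sum_add_distrib]
    have h5 : ∀ c ∈ Dset p p, (2 - (if ((i * k : ℕ) : ℤ) < p - c then 1 else 0)) +
        (if ((i * k : ℕ) : ℤ) < p - c then 1 else 0) = 2 := by
      intro c _; split_ifs <;> rfl
    rw [Finset.sum_congr rfl h5, Finset.sum_const, hD, Int.card_Icc, h4, smul_eq_mul]
    omega
  have hcard : ∑ c ∈ Dset p p, (if ((i * k : ℕ) : ℤ) < p - c then 1 else 0) =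
      P.al * k - i * k := by
    rw [← Finset.card_filter]
    have h6 : (Dset p p).filter (fun c => ((i * k : ℕ) : ℤ) < p - c) =
        Finset.Icc (1 : ℤ) ((P.al * k : ℕ) - (i * k : ℕ) : ℤ) := by
      ext c
      rw [Finset.mem_filter, hD, Finset.mem_Icc, Finset.mem_Icc, hpz]
      rw [h4] at h2 h3 ⊢
      omega
    rw [h6, Int.card_Icc]
    omega
  rw [hcard] at hsum
  omega

private lemma tsum_cls {P : Pf} (hal : Even P.al) (hle : ∀ i ∈ P.Lv, i ≤ P.al)
    (hgt : ∀ i ∈ P.Lv, P.al < 2 * i) {k p : ℕ} (hp : p = aa P k) :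
    P.mu * k = ∑ c ∈ Dset p p, (P.q - Ym P k (p - c)) := by
  have h1 : ∀ c ∈ Dset p p, P.q - Ym P k (p - c) =
      ∑ i ∈ P.Lv, (2 - (if ((i * k : ℕ) : ℤ) < p - c then 1 else 0)) := by
    intro c _
    have h2 : ∑ i ∈ P.Lv, (2 - (if ((i * k : ℕ) : ℤ) < p - c then 1 else 0)) +
        ∑ i ∈ P.Lv, (if ((i * k : ℕ) : ℤ) < p - c then 1 else 0) = P.q := by
      rw [← Finset.sum_add_distrib]
      have h5 : ∀ i ∈ P.Lv, (2 - (if ((i * k : ℕ) : ℤ) < p - c then 1 else 0)) +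
          (if ((i * k : ℕ) : ℤ) < p - c then 1 else 0) = 2 := by
        intro i _; split_ifs <;> rfl
      rw [Finset.sum_congr rfl h5, Finset.sum_const, smul_eq_mul, Pf.q]
      ring
    rw [← Finset.card_filter] at h2
    rw [Ym]
    omega
  rw [Finset.sum_congr rfl h1, Finset.sum_comm]
  rw [Finset.sum_congr rfl fun i hi => tcard_cls hal hle hgt hp hi, ← Finset.sum_mul, Pf.mu]

/-- Nonvanishing for profiles whose top level may be below `al`. -/
theorem nonVanT {P : Pf} (hr : 1 ≤ P.r) (hal : Even P.al) (hle : ∀ i ∈ P.Lv, i ≤ P.al)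
    (hgt : ∀ i ∈ P.Lv, P.al < 2 * i) (hl : ∀ y ≤ P.h, lhank2 P.r P.q y ≠ 0) : NonVan P := by
  refine ⟨∑ y ∈ Finset.range (P.h + 1), (lhank2 P.r P.q y).num.natAbs + 1, ?_⟩
  intro k z hp0 hpp hz
  obtain ⟨p, hp⟩ : ∃ p, p = aa P k := ⟨_, rfl⟩
  have hfact : Fact p.Prime := ⟨by rw [hp]; exact hpp⟩
  rw [← hp] at hp0 hz
  have hodd : p % 2 = 1 := by
    rw [hp, aa]
    obtain ⟨al', hal⟩ := hal
    rw [hal]
    have : (al' + al') * k + 1 = 2 * (al' * k) + 1 := by ring
    omega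
  have key := nv_aux (p := p) (r := P.r) (q := P.q) (a := p) (m := P.mu * k) (z := z) (Ym P k)
    hr ⟨P.Lv.card, by rw [Pf.q]; ring⟩ hodd le_rfl
    (fun c hc => tYm_zero hgt hp hc)
    (fun c _ => by have := tYm_le (P := P) k (p - c); rw [Pf.h] at this; rw [Pf.q]; omega)
    (fun c _ => ⟨hl _ (tYm_le k _), by
      have h1 := Finset.single_le_sum (f := fun y => (lhank2 P.r P.q y).num.natAbs)
        (fun y _ => Nat.zero_le _) (Finset.mem_range.2 (Nat.lt_succ_of_le (tYm_le (P := P) k (p - c))))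
      rw [Nat.succ_eq_add_one] at h1
      omega⟩) (tsum_cls hal hle hgt hp) hz
  rw [DD, LP, YY_eq P k p hp, ← hp]
  exact key

theorem nonVan_P9 : NonVan P9 := by
  refine nonVanT (P := P9) (by decide) (by decide) (by decide) (by decide) ?_
  intro y hy
  have h1 : P9.r = 6 := rfl
  have h2 : P9.q = 14 := by decide
  have h3 : P9.h = 7 := by decide
  rw [h1, h2]
  rw [h3] at hy
  exact lhank2_P9' y hy

end ZP
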