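import Pool.Agent.Lib.ZP.TDefs

/-!
# Numerical value of the `p`-adic constant of the profile `P9`
-/

open Polynomial Finset Z579

namespace ZP

private def ppqT (x : ℚ) : ℚ := (max 0 x) ^ 2

private def F3qT (L : Finset ℕ) (T : ℕ) (A B : ℚ) : ℚ :=
  ∑ i ∈ L, ∑ j ∈ L, (((min i j : ℕ) : ℚ) * (B - A) +
    ∑ t ∈ Finset.Icc 1 T, (ppqT ((i : ℚ) + j - t * A) - ppqT ((i : ℚ) + j - t * B)) / (2 * t))

private lemma pp_castT (x : ℚ) : pp (x : ℝ) = ((ppqT x : ℚ) : ℝ) := by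
  unfold pp ppqT
  push_cast
  rfl

private lemma F3_castT (P : Pf) (T : ℕ) (A B : ℚ) :
    F3 P T (A : ℝ) (B : ℝ) = ((F3qT P.Lv T A B : ℚ) : ℝ) := by
  unfold F3 F3qT
  push_cast
  simp only [← pp_castT]
  push_cast
  rfl

private lemma F3_valT : F3qT {16, 17, 18, 19, 20, 21, 22} 16 3 24 = 2220410411 / 30030 := by
  decide +kernel

private lemma sum_valT : ∑ j ∈ Finset.Ico P9.al (2 * P9.al), (4 * (Ls9 j * P9.mu) +
    (WW P9 (Ls9 j) (j + 1) + WW P9 (Ls9 j) (j + 2))) = 4 * 22921 := by decide +kernel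

private lemma log3_le : Real.log 3 ≤ 10986201 / 10000000 := by
  have h1 : (12 : ℝ) * Real.log 3 = 19 * Real.log 2 + Real.log (531441 / 524288) := by
    have e : (3 : ℝ) ^ 12 = 2 ^ 19 * (531441 / 524288) := by norm_num
    have h := congrArg Real.log e
    rw [Real.log_mul (by positivity) (by norm_num), Real.log_pow, Real.log_pow] at h
    exact_mod_cast h
  have h2 : Real.log (531441 / 524288) ≤ 531441 / 524288 - 1 :=
    Real.log_le_sub_one_of_pos (by norm_num)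
  have hl2 := Real.log_two_lt_d9
  norm_num at h2
  linarith

theorem ppT_P9 : PPT P9 3 16 Ls9 (57719 / 100000) ≤ 137680 := by
  have hmu : P9.mu = 133 := by decide
  have hh : P9.h = 7 := by decide
  have hLv : P9.Lv = {16, 17, 18, 19, 20, 21, 22} := rfl
  have hal : P9.al = 24 := rfl
  have hr : P9.r = 6 := rfl
  have h3 := F3_castT P9 16 3 24
  rw [hLv, F3_valT] at h3
  push_cast at h3
  have hs : ∑ j ∈ Finset.Ico P9.al (2 * P9.al),
      ((Ls9 j : ℝ) * P9.mu + ((WW P9 (Ls9 j) (j + 1) : ℝ) + WW P9 (Ls9 j) (j + 2)) / 4) = 22921 := by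
    have h := congrArg (Nat.cast : ℕ → ℝ) sum_valT
    push_cast at h
    have h' : ∑ j ∈ Finset.Ico P9.al (2 * P9.al), (4 * ((Ls9 j : ℝ) * P9.mu) +
      ((WW P9 (Ls9 j) (j + 1) : ℝ) + WW P9 (Ls9 j) (j + 2))) = 4 * ∑ j ∈ Finset.Ico P9.al (2 * P9.al),
      ((Ls9 j : ℝ) * P9.mu + ((WW P9 (Ls9 j) (j + 1) : ℝ) + WW P9 (Ls9 j) (j + 2)) / 4) := by
      rw [Finset.mul_sum]
      refine Finset.sum_congr rfl fun j _ => ?_
      ring
    rw [h'] at h
    linarith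
  have hlog := log3_le
  unfold PPT
  rw [hs, hmu, hh, hal, hr]
  push_cast
  rw [h3]
  linarith

end ZP
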