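import Pool.Agent.Lib.ZP.PS1
import Pool.Agent.Lib.ZP.PS2
import Pool.Agent.Lib.ZP.TDefs

/-!
# Prime sums with truncated costs: total

PROOF.  As in `PSum`: split `Icc 1 (2 a)`, `2 a = 2 al k + 2`, into `p ≤ th k` (`ps1'`), `(th k, al k]`
(`ps_cont` with `f3 P T`), `p = al k + 1` (`ps_end` with `N = al`), the intervals
`(j k, (j + 1) k]`, `al ≤ j < 2 al` (`ps_cont` with the linear function
`((x - j) W2 + (j + 1 - x) W1) / 2`, whose integral over `[j, j + 1]` is `(W1 + W2) / 4`), and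
`2 al k < p ≤ 2 al k + 2` (`ps_end`).
-/

open Polynomial Finset Z579

namespace ZP

private noncomputable def QQ (β : ℕ → ℝ) (m n : ℕ) : ℝ :=
  ∑ p ∈ (Finset.Ioc m n).filter Nat.Prime, β p * Real.log p

private lemma QQ_add (β : ℕ → ℝ) {l m n : ℕ} (hlm : l ≤ m) (hmn : m ≤ n) :
    QQ β l n = QQ β l m + QQ β m n := by
  unfold QQ
  rw [Finset.sum_filter, Finset.sum_filter, Finset.sum_filter, Finset.sum_Ioc_consecutive _ hlm hmn]

private lemma QQ_single (a : ℕ) (v : ℝ) (m n : ℕ) :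
    QQ (fun p => if p = a then v else 0) m n =
      if a ∈ (Finset.Ioc m n).filter Nat.Prime then v * Real.log a else 0 := by
  unfold QQ
  simp only [ite_mul, zero_mul]
  rw [Finset.sum_ite_eq']

private lemma QQ_congr {β γ : ℕ → ℝ} {m n : ℕ} (h : ∀ p, m < p → p ≤ n → β p = γ p) :
    QQ β m n = QQ γ m n := by
  unfold QQ
  refine Finset.sum_congr rfl fun p hp => ?_
  rw [Finset.mem_filter, Finset.mem_Ioc] at hp
  rw [h p hp.1.1 hp.1.2]

private lemma QQ_segs (β : ℕ → ℝ) (k a n : ℕ) :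
    QQ β (a * k) ((a + n) * k) = ∑ j ∈ Finset.Ico a (a + n), QQ β (j * k) ((j + 1) * k) := by
  induction n with
  | zero =>
    rw [Nat.add_zero, Finset.Ico_self, Finset.sum_empty]
    unfold QQ
    rw [Finset.Ioc_self, Finset.filter_empty, Finset.sum_empty]
  | succ n ih =>
    rw [← Nat.add_assoc, Finset.sum_Ico_succ_top (by omega), ← ih]
    exact QQ_add β (Nat.mul_le_mul_right k (by omega)) (Nat.mul_le_mul_right k (by omega))

private lemma bdd_of_cont {f : ℝ → ℝ} (hf : Continuous f) (A B : ℝ) :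
    ∃ M : ℝ, 0 ≤ M ∧ ∀ x, A ≤ x → x ≤ B → |f x| ≤ M := by
  obtain ⟨M, hM⟩ := (isCompact_Icc (a := A) (b := B)).exists_bound_of_continuousOn hf.continuousOn
  refine ⟨|M|, abs_nonneg M, fun x h1 h2 => ?_⟩
  have := hM x ⟨h1, h2⟩
  rw [Real.norm_eq_abs] at this
  exact this.trans (le_abs_self M)

private lemma int_lin (j w1 w2 : ℝ) :
    ∫ x in j..(j + 1), (((x - j) * w2 + (j + 1 - x) * w1) / 2) = (w1 + w2) / 4 := by
  have h1 : ∀ x ∈ Set.uIcc j (j + 1), HasDerivAt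
      (fun x => ((w2 - w1) / 4) * x ^ 2 + (((j + 1) * w1 - j * w2) / 2) * x)
      (((x - j) * w2 + (j + 1 - x) * w1) / 2) x := by
    intro x _
    have h2 : HasDerivAt (fun x : ℝ => ((w2 - w1) / 4) * x ^ 2) (((w2 - w1) / 4) * (2 * x)) x := by
      have h3 : HasDerivAt (fun z : ℝ => z ^ 2) (2 * x) x := by
        simpa using hasDerivAt_pow 2 x
      exact h3.const_mul _
    have h4 : HasDerivAt (fun x : ℝ => (((j + 1) * w1 - j * w2) / 2) * x)
        ((((j + 1) * w1 - j * w2) / 2) * 1) x := (hasDerivAt_id x).const_mul _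
    have h5 := h2.add h4
    have h6 : ((w2 - w1) / 4) * (2 * x) + (((j + 1) * w1 - j * w2) / 2) * 1 =
        ((x - j) * w2 + (j + 1 - x) * w1) / 2 := by ring
    rw [h6] at h5
    exact h5
  rw [intervalIntegral.integral_eq_sub_of_hasDerivAt h1
    (Continuous.intervalIntegrable (by fun_prop) _ _)]
  ring

private lemma seg (j : ℕ) (L w1 w2 C η : ℝ) (hη : 0 < η) : ∃ k0 : ℕ, ∀ k : ℕ, k0 ≤ k →
    ∀ β : ℕ → ℝ, (∀ p : ℕ, p.Prime → j * k < p → p ≤ (j + 1) * k →
      β p ≤ L * k + (((p : ℝ) - j * k) * w2 + ((j + 1) * k - (p : ℝ)) * w1) / 2 + C) →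
    QQ β (j * k) ((j + 1) * k) ≤ (k : ℝ) ^ 2 * (L + (w1 + w2) / 4 + η) := by
  have hf : Continuous (fun x : ℝ => ((x - j) * w2 + (j + 1 - x) * w1) / 2) := by fun_prop
  obtain ⟨k0, hk0⟩ := ps_cont hf (α := (j : ℝ)) (α' := (j : ℝ) + 1) (Nat.cast_nonneg _)
    (by linarith) L C η hη
  refine ⟨max 1 k0, fun k hk β hβ => ?_⟩
  have hk1 : 1 ≤ k := (le_max_left _ _).trans hk
  have hkR : (1 : ℝ) ≤ k := by exact_mod_cast hk1
  have hkpos : (0 : ℝ) < k := by linarith
  have h1 := hk0 k ((le_max_right _ _).trans hk) β (fun p hp hp1 hp2 => by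
    have h3 : j * k < p := by exact_mod_cast hp1
    have h4 : p ≤ (j + 1) * k := by exact_mod_cast hp2
    refine (hβ p hp h3 h4).trans (le_of_eq ?_)
    have e : (k : ℝ) * ((((p : ℝ) / k - j) * w2 + ((j : ℝ) + 1 - (p : ℝ) / k) * w1) / 2) =
        (((p : ℝ) - j * k) * w2 + ((j + 1) * k - (p : ℝ)) * w1) / 2 := by
      field_simp
    rw [e])
  have hfl1 : ⌊(j : ℝ) * k⌋₊ = j * k := by rw [← Nat.cast_mul, Nat.floor_natCast]
  have hfl2 : ⌊((j : ℝ) + 1) * k⌋₊ = (j + 1) * k := by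
    have : ((j : ℝ) + 1) * k = (((j + 1) * k : ℕ) : ℝ) := by push_cast; ring
    rw [this, Nat.floor_natCast]
  rw [hfl1, hfl2, int_lin] at h1
  have e : L * ((j : ℝ) + 1 - j) = L := by ring
  rw [e] at h1
  exact h1

theorem pSumT {P : Pf} {th T : ℕ} {Ls : ℕ → ℕ} (hth : 1 ≤ th) (hth2 : th ≤ P.al) :
    PSumT P th T Ls := by
  intro c hc C δ hC hδ
  have hδ' : 0 < δ / 8 := by positivity
  have hal : 1 ≤ P.al := hth.trans hth2
  have hr0 : (0 : ℝ) ≤ P.r := Nat.cast_nonneg _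
  have hmu0 : (0 : ℝ) ≤ P.mu := Nat.cast_nonneg _
  have hal0 : (1 : ℝ) ≤ P.al := by exact_mod_cast hal
  have hη : 0 < δ / (8 * P.al) := by positivity
  obtain ⟨M3, hM3, hM3'⟩ := bdd_of_cont (f3_cont P T) P.al (P.al + 1)
  obtain ⟨k1, hk1⟩ := ps1' hth hth2 c hc C (δ / 8) hC hδ'
  obtain ⟨k2, hk2⟩ := ps_cont (f3_cont P T) (α := th) (α' := P.al) (Nat.cast_nonneg _)
    (by exact_mod_cast hth2) ((P.r + 1) * P.mu) C (δ / 8) hδ'
  have hseg : ∀ j : ℕ, ∃ k0 : ℕ, ∀ k : ℕ, k0 ≤ k →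
      ∀ β : ℕ → ℝ, (∀ p : ℕ, p.Prime → j * k < p → p ≤ (j + 1) * k →
        β p ≤ ((Ls j : ℝ) * P.mu) * k + (((p : ℝ) - j * k) * (WW P (Ls j) (j + 2) : ℝ) +
          ((j + 1) * k - (p : ℝ)) * (WW P (Ls j) (j + 1) : ℝ)) / 2 + C) →
      QQ β (j * k) ((j + 1) * k) ≤ (k : ℝ) ^ 2 * ((Ls j : ℝ) * P.mu +
        ((WW P (Ls j) (j + 1) : ℝ) + (WW P (Ls j) (j + 2) : ℝ)) / 4 + δ / (8 * P.al)) :=
    fun j => seg j _ _ _ C _ hη
  choose K hK using hseg
  obtain ⟨k5, hk5⟩ := ps_end P.al ((P.r + 1) * P.mu + M3 + C) (δ / 8) (by positivity) hδ'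
  obtain ⟨k8, hk8⟩ := ps_end (2 * P.al) C (δ / 8) hC hδ'
  refine ⟨max 1 (max (max k1 k2) (max (max k5 k8) ((Finset.Ico P.al (2 * P.al)).sup K))),
    fun k hk β H1 H2 H3 H4 H5 => ?_⟩
  simp only [max_le_iff] at hk
  obtain ⟨hk0, ⟨hk1', hk2'⟩, ⟨hk5', hk8'⟩, hkK⟩ := hk
  have hkR : (1 : ℝ) ≤ k := by exact_mod_cast hk0
  have hkpos : (0 : ℝ) < k := by linarith
  have ha : aa P k = P.al * k + 1 := rfl
  have haR : ((aa P k : ℕ) : ℝ) = P.al * k + 1 := by rw [ha]; push_cast; ring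
  have hak1 : (P.al : ℝ) ≤ (aa P k : ℝ) / k := by
    rw [le_div_iff₀ hkpos, haR]
    linarith
  have hak2 : (aa P k : ℝ) / k ≤ P.al + 1 := by
    rw [div_le_iff₀ hkpos, haR]
    nlinarith
  set a := aa P k with ha_def
  have hfl1 : ⌊(th : ℝ) * k⌋₊ = th * k := by rw [← Nat.cast_mul, Nat.floor_natCast]
  have hfl2 : ⌊(P.al : ℝ) * k⌋₊ = P.al * k := by rw [← Nat.cast_mul, Nat.floor_natCast]
  have hthk : th * k ≤ P.al * k := Nat.mul_le_mul_right k hth2
  have hk1al : 1 ≤ P.al * k := Nat.mul_pos hal hk0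
  have hal2 : P.al * k ≤ 2 * P.al * k := Nat.mul_le_mul_right k (by omega)
  set β0 : ℕ → ℝ := fun p => if p = a then 0 else β p with hβ0
  have htot : ∑ p ∈ (Finset.Icc 1 (2 * a)).filter Nat.Prime, β p * Real.log p =
      QQ β0 0 (2 * a) + QQ (fun p => if p = a then β a else 0) (P.al * k) (P.al * k + 2) := by
    have h1 : QQ (fun p => if p = a then β a else 0) (P.al * k) (P.al * k + 2) =
        QQ (fun p => if p = a then β a else 0) 0 (2 * a) := by
      rw [QQ_single, QQ_single]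
      have h2 : a ∈ (Finset.Ioc (P.al * k) (P.al * k + 2)).filter Nat.Prime ↔
          a ∈ (Finset.Ioc 0 (2 * a)).filter Nat.Prime := by
        simp only [Finset.mem_filter, Finset.mem_Ioc]
        constructor
        · rintro ⟨_, h⟩
          exact ⟨⟨h.pos, by omega⟩, h⟩
        · rintro ⟨_, h⟩
          exact ⟨⟨by omega, by omega⟩, h⟩
      simp only [h2]
    rw [h1]
    have h3 : Finset.Icc 1 (2 * a) = Finset.Ioc 0 (2 * a) := by
      ext p
      simp only [Finset.mem_Icc, Finset.mem_Ioc]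
      omega
    rw [h3]
    unfold QQ
    rw [← Finset.sum_add_distrib]
    refine Finset.sum_congr rfl fun p _ => ?_
    by_cases h : p = a
    · simp [hβ0, h]
    · simp [hβ0, h]
  have hsplit : QQ β0 0 (2 * a) = QQ β0 0 (th * k) + (QQ β0 (th * k) (P.al * k) +
      (QQ β0 (P.al * k) (2 * P.al * k) + QQ β0 (2 * P.al * k) (2 * P.al * k + 2))) := by
    have e : 2 * a = 2 * P.al * k + 2 := by rw [ha]; ring
    rw [e, ← QQ_add β0 hal2 (by omega), ← QQ_add β0 hthk (by omega),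
      ← QQ_add β0 (Nat.zero_le _) (by omega)]
  -- part 1
  have p1 : QQ β0 0 (th * k) ≤ (k : ℝ) ^ 2 * (2 * (P.mu : ℝ) ^ 2 * (Real.log k + Real.log th - c) +
      (P.r + 1) * P.mu * th + (P.h : ℝ) ^ 2 * th ^ 2 / 16 + δ / 8) := by
    have h1 : QQ β0 0 (th * k) = QQ β 0 (th * k) := QQ_congr fun p _ hp => by
      have : p ≠ a := by omega
      simp [hβ0, this]
    rw [h1]
    have h2 := hk1 k hk1' β H1 H2
    have h3 : Finset.Icc 1 (th * k) = Finset.Ioc 0 (th * k) := by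
      ext p
      simp only [Finset.mem_Icc, Finset.mem_Ioc]
      omega
    rw [h3] at h2
    exact h2
  -- part 2
  have p2 : QQ β0 (th * k) (P.al * k) ≤ (k : ℝ) ^ 2 * ((P.r + 1) * P.mu * (P.al - th) +
      F3 P T th P.al + δ / 8) := by
    have h1 : QQ β0 (th * k) (P.al * k) = QQ β (th * k) (P.al * k) := QQ_congr fun p _ hp => by
      have : p ≠ a := by omega
      simp [hβ0, this]
    rw [h1]
    have h2 := hk2 k hk2' β (fun p hp hp1 hp2 => by
      have h3 : th * k < p := by exact_mod_cast hp1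
      have h4 : p ≤ P.al * k := by exact_mod_cast hp2
      have h5 := H3 p hp h3 (by omega)
      linarith [h5, mul_assoc ((P.r : ℝ) + 1) P.mu k])
    rw [hfl1, hfl2, int_f3] at h2
    exact h2
  -- part 3
  have p3 : QQ β0 (P.al * k) (2 * P.al * k) ≤ (k : ℝ) ^ 2 * ((∑ j ∈ Finset.Ico P.al (2 * P.al),
      ((Ls j : ℝ) * P.mu + ((WW P (Ls j) (j + 1) : ℝ) + WW P (Ls j) (j + 2)) / 4)) + δ / 8) := by
    have e : 2 * P.al * k = (P.al + P.al) * k := by ring
    rw [e, QQ_segs]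
    have h1 : ∀ j ∈ Finset.Ico P.al (P.al + P.al), QQ β0 (j * k) ((j + 1) * k) ≤
        (k : ℝ) ^ 2 * ((Ls j : ℝ) * P.mu +
        ((WW P (Ls j) (j + 1) : ℝ) + (WW P (Ls j) (j + 2) : ℝ)) / 4 + δ / (8 * P.al)) := by
      intro j hj
      have hj' : j ∈ Finset.Ico P.al (2 * P.al) := by
        rw [Finset.mem_Ico] at hj ⊢
        omega
      have hjal : P.al ≤ j := (Finset.mem_Ico.mp hj).1
      refine hK j k ((Finset.le_sup hj').trans hkK) β0 fun p hp hp1 hp2 => ?_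
      by_cases h : p = a
      · simp only [hβ0, h, if_true]
        rw [h] at hp1 hp2
        have e1 : (0 : ℝ) ≤ (a : ℝ) - j * k := by
          have : ((j * k : ℕ) : ℝ) < (a : ℝ) := by exact_mod_cast hp1
          push_cast at this
          linarith
        have e2 : (0 : ℝ) ≤ ((j : ℝ) + 1) * k - a := by
          have : (a : ℝ) ≤ (((j + 1) * k : ℕ) : ℝ) := by exact_mod_cast hp2
          push_cast at this
          linarith
        have e3 : (0 : ℝ) ≤ ((a : ℝ) - j * k) * (WW P (Ls j) (j + 2) : ℝ) :=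
          mul_nonneg e1 (Nat.cast_nonneg _)
        have e4 : (0 : ℝ) ≤ (((j : ℝ) + 1) * k - a) * (WW P (Ls j) (j + 1) : ℝ) :=
          mul_nonneg e2 (Nat.cast_nonneg _)
        have e5 : (0 : ℝ) ≤ ((Ls j : ℝ) * P.mu) * k := by positivity
        linarith
      · simp only [hβ0, h, if_false]
        have hpa : aa P k < p := by
          have : P.al * k ≤ j * k := Nat.mul_le_mul_right k hjal
          have h2 : aa P k ≠ p := fun h3 => h h3.symm
          omega
        have h5 := H4 j hj' p hp hpa hp1 hp2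
        linarith [h5, mul_assoc (Ls j : ℝ) (P.mu : ℝ) k]
    refine (Finset.sum_le_sum h1).trans (le_of_eq ?_)
    have e2 : P.al + P.al = 2 * P.al := by ring
    rw [e2, ← Finset.mul_sum, Finset.sum_add_distrib, Finset.sum_const, Nat.card_Ico]
    have e3 : 2 * P.al - P.al = P.al := by omega
    rw [e3, nsmul_eq_mul]
    have e4 : (P.al : ℝ) * (δ / (8 * P.al)) = δ / 8 := by
      have : (P.al : ℝ) ≠ 0 := by positivity
      field_simp
    rw [e4]
  -- part 5
  have p5 : QQ β0 (2 * P.al * k) (2 * P.al * k + 2) ≤ δ / 8 * (k : ℝ) ^ 2 := by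
    refine hk8 k hk8' β0 fun p hp hp1 hp2 => ?_
    have e1 : P.al * k + 1 ≤ 2 * P.al * k := by
      rw [mul_assoc]
      omega
    have hpa : p ≠ a := by omega
    simp only [hβ0, hpa, if_false]
    have h5 := H5 p hp hp1 (by
      have e : 2 * a = 2 * P.al * k + 2 := by rw [ha]; ring
      rw [e]
      exact hp2)
    nlinarith
  -- part 6
  have p6 : QQ (fun p => if p = a then β a else 0) (P.al * k) (P.al * k + 2) ≤
      δ / 8 * (k : ℝ) ^ 2 := by
    refine hk5 k hk5' _ fun p hp hp1 hp2 => ?_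
    split_ifs with h
    · subst h
      have h5 := H3 _ hp (lt_of_le_of_lt hthk hp1) le_rfl
      have h6 := (abs_le.mp (hM3' _ hak1 hak2)).2
      have e1 : (0 : ℝ) ≤ (P.r + 1) * P.mu := by positivity
      nlinarith [mul_le_mul_of_nonneg_left h6 hkpos.le]
    · positivity
  rw [htot, hsplit]
  unfold PPT
  have hk2δ : (0 : ℝ) ≤ (k : ℝ) ^ 2 * δ := by positivity
  linarith [p1, p2, p3, p5, p6]

end ZP
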