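import Pool.Agent.Lib.ZP.Tr2
import Pool.Agent.Lib.Z579.M5

/-!
# Determinant lemma with saturation, truncated class bound
-/

open Polynomial Finset Z579

namespace ZP

section Greedy

variable (J : Finset ℤ) (x : ℤ → ℚ) (e : ℤ → ℝ) (nc : ℤ → ℕ)

/-- the active classes -/
noncomputable def act (N : ℤ → ℕ) : Finset ℤ := by
  classical
  exact J.filter (fun c => N c < nc c ∧ 0 < e c - 2 * (N c : ℝ))

lemma mem_act {N : ℤ → ℕ} {c : ℤ} :
    c ∈ act J e nc N ↔ c ∈ J ∧ N c < nc c ∧ 0 < e c - 2 * (N c : ℝ) := by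
  classical
  rw [act, Finset.mem_filter]

/-- greedy sequence: exponents of the classes and of `X` -/
noncomputable def gsT : ℕ → (ℤ → ℕ) × ℕ
  | 0 => (fun _ => 0, 0)
  | i + 1 => by
      classical
      exact if h : (act J e nc (gsT i).1).Nonempty then
        (Function.update (gsT i).1 (gch (act J e nc (gsT i).1) h e (gsT i).1)
          ((gsT i).1 (gch (act J e nc (gsT i).1) h e (gsT i).1) + 1), (gsT i).2)
      else ((gsT i).1, (gsT i).2 + 1)

/-- the slot values -/
noncomputable def gtT (N : ℤ → ℕ) : ℝ := by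
  classical
  exact if h : (act J e nc N).Nonempty then
    e (gch (act J e nc N) h e N) - 2 * (N (gch (act J e nc N) h e N) : ℝ) else 0

lemma gtT_nonneg (N : ℤ → ℕ) : 0 ≤ gtT J e nc N := by
  unfold gtT
  split_ifs with h
  · have h1 := gch_mem (act J e nc N) h e N
    rw [mem_act] at h1
    exact h1.2.2.le
  · exact le_refl _

lemma gtT_max (N : ℤ → ℕ) {c : ℤ} (hc : c ∈ J) :
    nc c ≤ N c ∨ e c - 2 * (N c : ℝ) ≤ gtT J e nc N := by
  rcases le_or_gt (nc c) (N c) with h0 | h0
  · exact Or.inl h0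
  right
  by_cases h1 : 0 < e c - 2 * (N c : ℝ)
  · have h2 : c ∈ act J e nc N := (mem_act J e nc).2 ⟨hc, h0, h1⟩
    have h3 : (act J e nc N).Nonempty := ⟨c, h2⟩
    unfold gtT
    rw [dif_pos h3]
    exact gch_max (act J e nc N) h3 e N h2
  · exact le_trans (not_lt.1 h1) (gtT_nonneg J e nc N)

/-- the potential -/
noncomputable def gpT (l : ℝ) (N : ℤ → ℕ) : ℝ :=
  ∑ c ∈ J, ∑ j ∈ Finset.Ico (N c) (nc c), max 0 (e c - 2 * (j : ℝ) - l)

lemma gpT_nonneg (l : ℝ) (N : ℤ → ℕ) : 0 ≤ gpT J e nc l N :=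
  Finset.sum_nonneg fun _ _ => Finset.sum_nonneg fun _ _ => le_max_left _ _

lemma gpT_update (l : ℝ) (N : ℤ → ℕ) {c : ℤ} (hc : c ∈ J) (hn : N c < nc c) :
    gpT J e nc l (Function.update N c (N c + 1)) =
      gpT J e nc l N - max 0 (e c - 2 * (N c : ℝ) - l) := by
  unfold gpT
  rw [← Finset.add_sum_erase J _ hc, ← Finset.add_sum_erase J
    (fun c => ∑ j ∈ Finset.Ico (N c) (nc c), max 0 (e c - 2 * (j : ℝ) - l)) hc]
  have h : ∑ d ∈ J.erase c, ∑ j ∈ Finset.Ico (Function.update N c (N c + 1) d) (nc d),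
      max 0 (e d - 2 * (j : ℝ) - l) =
      ∑ d ∈ J.erase c, ∑ j ∈ Finset.Ico (N d) (nc d), max 0 (e d - 2 * (j : ℝ) - l) := by
    refine Finset.sum_congr rfl fun d hd => ?_
    rw [Function.update_of_ne (Finset.ne_of_mem_erase hd)]
  rw [h, Function.update_self, Finset.sum_eq_sum_Ico_succ_bot hn]
  ring

end Greedy

theorem m5T (p : ℕ) (L : ℚ[X] →ₗ[ℚ] ℚ) (J : Finset ℤ) (x : ℤ → ℚ) (e : ℤ → ℝ) (nc : ℤ → ℕ)
    (m : ℕ) (l : ℝ) (hp : p.Prime) (hl : 0 ≤ l)
    (h : ∀ (N : ℤ → ℕ) (k : ℕ) (t : ℝ), t ≤ 0 → (∀ c ∈ J, t ≤ N c - e c ∨ nc c ≤ N c) →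
      VG p t (L ((∏ c ∈ J, (X - Polynomial.C (x c)) ^ (N c)) * X ^ k))) :
    VG p (-(l * m + ∑ c ∈ J, ∑ j ∈ Finset.range (nc c), max 0 (e c - 2 * (j : ℝ) - l)))
      (hank L m) := by
  have : Fact p.Prime := ⟨hp⟩
  set s := gsT J e nc with hs
  set θ : ℕ → ℝ := fun i => gtT J e nc (s i).1 with hθ
  have hdeg : ∀ i, ∑ c ∈ J, (s i).1 c + (s i).2 = i := by
    intro i
    induction i with
    | zero => simp [hs, gsT]
    | succ i ih =>
      have h0 : s (i + 1) = gsT J e nc (i + 1) := rfl
      rw [h0, gsT]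
      split_ifs with hg
      · have hm := ((mem_act J e nc).1 (gch_mem _ hg e (gsT J e nc i).1)).1
        simp only
        rw [Finset.sum_update_of_mem hm]
        have ih' : ∑ c ∈ J, (gsT J e nc i).1 c + (gsT J e nc i).2 = i := ih
        rw [← Finset.add_sum_erase J _ hm, ← Finset.sdiff_singleton_eq_erase] at ih'
        omega
      · have ih' : ∑ c ∈ J, (gsT J e nc i).1 c + (gsT J e nc i).2 = i := ih
        simp only
        omega
  have h1 := VG_hank (p := p) L m (fun i => gpol J x (s i).1 * X ^ (s i).2) θ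
    (fun i => (gpol_monic J x _).mul (monic_X_pow _))
    (fun i => by
      rw [(gpol_monic J x _).natDegree_mul (monic_X_pow _), gpol_natDegree, natDegree_X_pow]
      exact hdeg i) (by
      intro i j
      have h2 : gpol J x (s i).1 * X ^ (s i).2 * (gpol J x (s j).1 * X ^ (s j).2) =
          gpol J x (fun c => (s i).1 c + (s j).1 c) * X ^ ((s i).2 + (s j).2) := by
        rw [← gpol_mul, pow_add]; ring
      rw [h2]
      have h2 := gtT_nonneg J e nc (s i).1
      have h3 := gtT_nonneg J e nc (s j).1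
      refine h _ _ _ (by simp only [hθ]; linarith) fun c hc => ?_
      rcases gtT_max J e nc (s i).1 hc with h4 | h4
      · right
        omega
      rcases gtT_max J e nc (s j).1 hc with h5 | h5
      · right
        omega
      left
      push_cast
      simp only [hθ]
      linarith)
  refine VG_mono h1 (neg_le_neg ?_)
  have key : ∀ k : ℕ, ∑ i ∈ Finset.range k, θ i ≤
      l * k + gpT J e nc l (s 0).1 - gpT J e nc l (s k).1 := by
    intro k
    induction k with
    | zero => simp
    | succ k ih =>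
      rw [Finset.sum_range_succ]
      have h4 : θ k ≤ l + gpT J e nc l (s k).1 - gpT J e nc l (s (k + 1)).1 := by
        have h0 : s (k + 1) = gsT J e nc (k + 1) := rfl
        rw [h0, gsT]
        simp only [hθ]
        unfold gtT
        split_ifs with hg
        · have hm := (mem_act J e nc).1 (gch_mem _ hg e (gsT J e nc k).1)
          simp only
          rw [gpT_update J e nc l _ hm.1 hm.2.1]
          simp only [hs]
          have := le_max_right (0 : ℝ) (e (gch (act J e nc (gsT J e nc k).1) hg e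
            (gsT J e nc k).1) - 2 * ((gsT J e nc k).1 (gch (act J e nc (gsT J e nc k).1) hg e
            (gsT J e nc k).1) : ℝ) - l)
          linarith
        · simp only [hs]
          linarith
      push_cast
      linarith
  refine (key m).trans ?_
  have h5 : gpT J e nc l (s 0).1 =
      ∑ c ∈ J, ∑ j ∈ Finset.range (nc c), max 0 (e c - 2 * (j : ℝ) - l) := by
    unfold gpT
    refine Finset.sum_congr rfl fun c _ => ?_
    have : (s 0).1 c = 0 := rfl
    rw [this, Finset.range_eq_Ico]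
  have h6 := gpT_nonneg J e nc l (s m).1
  rw [h5]
  linarith

/-! ## the class bound -/

lemma cnt_two {p n : ℕ} {d : ℤ} (hd0 : 0 < d) (hdp : d < p) (hn : n < p) :
    cnt p (pc (n + 1)) d = (if d ≤ n then 1 else 0) + (if (p : ℤ) - d ≤ n then 1 else 0) := by
  have hmem : ∀ w : ℤ, w ∈ (pc (n + 1)).filter (fun w => (p : ℤ) ∣ w - d) ↔
      (w = d ∧ d ≤ n) ∨ (w = d - p ∧ (p : ℤ) - d ≤ n) := by
    intro w
    rw [Finset.mem_filter, pc, Finset.mem_Icc]
    push_cast
    constructor
    · rintro ⟨⟨h1, h2⟩, ⟨s, hs⟩⟩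
      have h3 : s < 1 := by
        by_contra hcon
        have : (p : ℤ) * 1 ≤ p * s := mul_le_mul_of_nonneg_left (by omega) (by omega)
        omega
      have h4 : -2 < s := by
        by_contra hcon
        have : (p : ℤ) * s ≤ p * (-2) := mul_le_mul_of_nonneg_left (by omega) (by omega)
        omega
      have h5 : s = 0 ∨ s = -1 := by omega
      rcases h5 with rfl | rfl
      · left; constructor <;> linarith
      · right; constructor <;> linarith
    · rintro (⟨rfl, h⟩ | ⟨rfl, h⟩)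
      · refine ⟨by omega, by simp⟩
      · refine ⟨by omega, ⟨-1, by ring⟩⟩
  have hne : d ≠ d - p := by omega
  rw [cnt]
  by_cases h1 : d ≤ n <;> by_cases h2 : (p : ℤ) - d ≤ n
  · have : (pc (n + 1)).filter (fun w => (p : ℤ) ∣ w - d) = {d, d - (p : ℤ)} := by
      ext w; rw [hmem, Finset.mem_insert, Finset.mem_singleton]; simp [h1, h2]
    rw [this, Finset.card_pair hne, if_pos h1, if_pos h2]
  · have : (pc (n + 1)).filter (fun w => (p : ℤ) ∣ w - d) = {d} := by
      ext w; rw [hmem, Finset.mem_singleton]; simp [h1, h2]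
    rw [this, Finset.card_singleton, if_pos h1, if_neg h2]
  · have : (pc (n + 1)).filter (fun w => (p : ℤ) ∣ w - d) = {d - (p : ℤ)} := by
      ext w; rw [hmem, Finset.mem_singleton]; simp [h1, h2]
    rw [this, Finset.card_singleton, if_neg h1, if_pos h2]
  · have : (pc (n + 1)).filter (fun w => (p : ℤ) ∣ w - d) = ∅ := by
      ext w; rw [hmem]; simp [h1, h2]
    rw [this, Finset.card_empty, if_neg h1, if_neg h2]

lemma SS_two {P : Pf} (hP : P.Ok) {k p d : ℕ} (hap : aa P k ≤ p) (hd0 : 0 < d)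
    (hd : d ≤ P.al * k) : SS P k p d = eo P k d + eo P k (p - d) := by
  have hdp : d < p := by rw [aa] at hap; omega
  have h1 : ∀ i ∈ P.Lv, cnt p (pc (i * k + 1)) d =
      (if d ≤ i * k then 1 else 0) + (if p - d ≤ i * k then 1 else 0) := by
    intro i hi
    have h2 : i * k ≤ P.al * k := Nat.mul_le_mul_right k (hP.le i hi)
    rw [cnt_two (by exact_mod_cast hd0) (by exact_mod_cast hdp) (by rw [aa] at hap; omega)]
    congr 1
    · exact if_congr (by norm_cast) rfl rfl
    · refine if_congr ?_ rfl rfl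
      have : ((p : ℤ) - d) = ((p - d : ℕ) : ℤ) := by push_cast [Nat.cast_sub hdp.le]; ring
      rw [this]
      norm_cast
  rw [SS, Finset.sum_congr rfl h1, Finset.sum_add_distrib, ← Finset.card_filter,
    ← Finset.card_filter, eo, eo]
  ring

lemma eo_ym {P : Pf} {k d : ℕ} : eo P k d + 2 * ym P k d = P.q := by
  have h1 : (P.Lv.filter (fun i => ((i * k : ℕ) : ℤ) < (d : ℤ))) =
      P.Lv.filter (fun i => ¬ d ≤ i * k) := by
    refine Finset.filter_congr fun i _ => ?_
    rw [not_le]
    norm_cast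
  rw [eo, ym, h1, ← Nat.mul_add, Finset.card_filter_add_card_filter_not, Pf.q]

lemma eo_anti {P : Pf} {k d d' : ℕ} (h : d' ≤ d) : eo P k d ≤ eo P k d' := by
  rw [eo, eo]
  refine Nat.mul_le_mul_left _ (Finset.card_le_card ?_)
  intro i hi
  rw [Finset.mem_filter] at hi ⊢
  exact ⟨hi.1, h.trans hi.2⟩

theorem classT {P : Pf} (hP : P.Ok) : ClassT P := by
  intro p k m l Q z hp hp2 hsq hap hz
  have hodd : p % 2 = 1 := by
    rcases hp.eq_two_or_odd with h | h
    · exact absurd h hp2
    · exact h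
  have h1 := m5T p (LP P k (wt P.r (aa P k) Q z)) (JT P k p) (fun c => (c : ℚ) ^ 2)
    (fun d => (SS P k p d : ℝ) + P.r) (fun d => P.q + P.r + 1 - 2 * ym P k d) m l hp
    (Nat.cast_nonneg l) (by
      intro N n t ht h
      refine m4T hP N n t hp hp2 hsq hap hz ht fun d hd => ?_
      rcases h d hd with h2 | h2
      · left; linarith
      · right
        have : 2 * ym P k d ≤ P.q := by
          rw [ym, Pf.q]
          exact Nat.mul_le_mul_left _ (Finset.card_le_card (Finset.filter_subset _ _))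
        omega)
  refine VG_mono h1 (neg_le_neg (add_le_add le_rfl (le_of_eq ?_)))
  have h2 : ∀ d ∈ Finset.Icc ((p + 1) / 2) (P.al * k),
      ((cst P.r l (eo P k d) (eo P k (p - d)) : ℕ) : ℝ) =
      ∑ j ∈ Finset.range (P.q + P.r + 1 - 2 * ym P k (d : ℤ)),
        max 0 ((SS P k p (d : ℤ) : ℝ) + P.r - 2 * (j : ℝ) - l) := by
    intro d hd
    rw [Finset.mem_Icc] at hd
    have h3 := SS_two hP hap (by omega : 0 < d) hd.2
    have h4 : eo P k d ≤ eo P k (p - d) := eo_anti (by omega)
    have h5 : P.q + P.r + 1 - 2 * ym P k (d : ℤ) = min (eo P k d) (eo P k (p - d)) + P.r + 1 := by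
      rw [min_eq_left h4, ← eo_ym (P := P) (k := k) (d := d)]
      omega
    rw [h5, cst, h3]
    push_cast
    refine Finset.sum_congr rfl fun j _ => ?_
    rcases le_or_gt (2 * j + l) (eo P k d + eo P k (p - d) + P.r) with h6 | h6
    · rw [Nat.cast_sub h6, max_eq_right]
      · push_cast; ring
      · have : (((2 * j + l : ℕ)) : ℝ) ≤ ((eo P k d + eo P k (p - d) + P.r : ℕ) : ℝ) := by
          exact_mod_cast h6
        push_cast at this
        linarith
    · rw [Nat.sub_eq_zero_of_le h6.le, max_eq_left]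
      · simp
      · have : ((eo P k d + eo P k (p - d) + P.r : ℕ) : ℝ) < (((2 * j + l : ℕ)) : ℝ) := by
          exact_mod_cast h6
        push_cast at this
        linarith
  rw [Finset.sum_congr rfl h2]
  refine Finset.sum_nbij' (fun w : ℤ => w.toNat) (fun w : ℕ => (w : ℤ)) ?_ ?_ ?_ ?_ ?_
  · intro w hw
    rw [JT, Finset.mem_Icc] at hw
    rw [Finset.mem_Icc]
    omega
  · intro w hw
    rw [Finset.mem_Icc] at hw
    rw [JT, Finset.mem_Icc]
    omega
  · intro w hw
    rw [JT, Finset.mem_Icc] at hw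
    exact Int.toNat_of_nonneg (by omega)
  · intro w _; rfl
  · intro w hw
    rw [JT, Finset.mem_Icc] at hw
    have : ((w.toNat : ℕ) : ℤ) = w := Int.toNat_of_nonneg (by omega)
    rw [this]

end ZP
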