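import Pool.Agent.Lib.ZP.TMain
import Pool.Agent.Lib.ZP.TNV
import Pool.Agent.Lib.ZP.ClsA
import Pool.Agent.Lib.ZP.Small
import Pool.Agent.Lib.ZP.Cnt2
import Pool.Agent.Lib.ZP.Cnt3
import Pool.Agent.Lib.ZP.TCnt
import Pool.Agent.Lib.ZP.TPSum
import Pool.Agent.Lib.ZP.Tr3
import Pool.Agent.Lib.ZP.ArchFin9
import Pool.Agent.Lib.ZP.TNum
import Pool.Agent.Lib.Z579.T3T2
import Pool.Agent.Lib.DIM3.MertEM

/-!
# At least one of `ζ(9), ζ(11), ζ(13), ζ(15), ζ(17), ζ(19)` is irrational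
-/

open Polynomial Finset Z579

namespace ZP

theorem no_z9 (z : ℕ → ℚ) (hz : IsZ 6 14 z) : False := by
  refine no_zT (P := P9) (by show 1 ≤ 24; norm_num) archP9 nonVan_P9 (smallP ok9) (classA ok9)
    (classT ok9) (classC ok9) (cntII ok9) (th := 3) (T := 16) (Ls := Ls9) (c := 57719 / 100000)
    (cntIII ok9 (by norm_num) (by show 2 * 24 ≤ (16 + 1) * 3; norm_num)) (cntT P9 ok9)
    (pSumT (by norm_num) (by show 3 ≤ 24; norm_num)) EM.mertens57719 (by norm_num) ?_ z hz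
  have := ppT_P9
  linarith

theorem one_of_9_19 :
    Irrational (∑' n : ℕ, 1 / ((n : ℝ) + 1) ^ 9) ∨ Irrational (∑' n : ℕ, 1 / ((n : ℝ) + 1) ^ 11) ∨
    Irrational (∑' n : ℕ, 1 / ((n : ℝ) + 1) ^ 13) ∨ Irrational (∑' n : ℕ, 1 / ((n : ℝ) + 1) ^ 15) ∨
    Irrational (∑' n : ℕ, 1 / ((n : ℝ) + 1) ^ 17) ∨
    Irrational (∑' n : ℕ, 1 / ((n : ℝ) + 1) ^ 19) := by
  by_contra hcon
  simp only [not_or] at hcon
  obtain ⟨h9, h11, h13, h15, h17, h19⟩ := hcon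
  obtain ⟨z, hz⟩ := EM.isZ_of_not_irrational (r := 6) (q := 14) (by
    intro s hs h1 h2
    obtain ⟨k, rfl⟩ := hs
    have h3 : k = 4 ∨ k = 5 ∨ k = 6 ∨ k = 7 ∨ k = 8 ∨ k = 9 := by omega
    rcases h3 with rfl | rfl | rfl | rfl | rfl | rfl
    · exact h9
    · exact h11
    · exact h13
    · exact h15
    · exact h17
    · exact h19)
  exact no_z9 z hz

end ZP
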