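import Pool.Agent.Lib.Z579.M8z

/-!
# Nonvanishing with a pole profile: local analysis at the classes with two poles

`PolyN D n` where `D` contains `c` and `p - c`; `p ≥ a`.
-/

open Polynomial Finset Z579

namespace ZP

section
variable {p : ℕ} [hp : Fact p.Prime]

lemma aeval_two' {D : Finset ℤ} {n : ℤ → ℕ} {c c' u l0 l1 : ℤ} (hc : c ∈ D) (hc' : c' ∈ D.erase c)
    (h0 : -u + c = p * l0) (h1 : -u - c' = p * l1) :
    ∃ F : PowerSeries ℚ,
      PowerSeries.rescale (p : ℚ) (Polynomial.aeval (lin (-u) ^ 2) (PolyN D n)) =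
        PowerSeries.C ((p : ℚ) ^ (n c + n c')) * F ∧
      Red p F (PowerSeries.C (((-u - c : ℤ) : ZMod p) ^ (n c) *
          (((-u + c' : ℤ) : ZMod p) ^ (n c') *
          ∏ d ∈ (D.erase c).erase c', (((-u - d) * (-u + d) : ℤ) : ZMod p) ^ (n d))) *
        (linp p l0 ^ (n c) * linp p l1 ^ (n c'))) := by
  have h2 : PowerSeries.rescale (p : ℚ) (Polynomial.aeval (lin (-u) ^ 2) (PolyN D n)) =
      ∏ d ∈ D, (PowerSeries.rescale (p : ℚ) (lin (-u - d)) *
        PowerSeries.rescale (p : ℚ) (lin (-u + d))) ^ (n d) := by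
    rw [PolyN, map_prod, map_prod]
    refine Finset.prod_congr rfl fun d _ => ?_
    rw [map_pow, map_pow, aeval_lin_sq, map_mul]
  refine ⟨(PowerSeries.rescale (p : ℚ) (lin (-u - c)) * lin l0) ^ (n c) *
    ((PowerSeries.rescale (p : ℚ) (lin (-u + c')) * lin l1) ^ (n c') *
    ∏ d ∈ (D.erase c).erase c', (PowerSeries.rescale (p : ℚ) (lin (-u - d)) *
        PowerSeries.rescale (p : ℚ) (lin (-u + d))) ^ (n d)), ?_, ?_⟩
  · rw [h2, ← Finset.mul_prod_erase _ _ hc, ← Finset.mul_prod_erase _ _ hc', resc_lin_p l0 h0,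
      resc_lin_p l1 h1]
    rw [map_pow]
    ring
  · have h3 : Red p (∏ d ∈ (D.erase c).erase c', (PowerSeries.rescale (p : ℚ) (lin (-u - d)) *
        PowerSeries.rescale (p : ℚ) (lin (-u + d))) ^ (n d))
        (PowerSeries.C (∏ d ∈ (D.erase c).erase c',
          (((-u - d) * (-u + d) : ℤ) : ZMod p) ^ (n d))) := by
      rw [map_prod]
      refine Red_prod _ _ _ fun d _ => ?_
      rw [map_pow]
      refine Red_pow ?_ _
      push_cast
      rw [map_mul]
      have := Red_mul (Red_resc_lin (p := p) (-u - d)) (Red_resc_lin (p := p) (-u + d))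
      push_cast at this
      exact this
    have key := Red_mul (Red_pow (Red_mul (Red_resc_lin (p := p) (-u - c)) (Red_lin (p := p) l0))
      (n c)) (Red_mul (Red_pow (Red_mul (Red_resc_lin (p := p) (-u + c')) (Red_lin (p := p) l1))
      (n c')) h3)
    convert key using 1
    simp only [map_mul, map_pow, mul_pow]
    ring

/-- partial fraction coefficients at a two-pole class -/
lemma Acoef_two1 {q a : ℕ} {D : Finset ℤ} {n : ℤ → ℕ} {c c' u w1 l0 l0' l1 : ℤ} (hc : c ∈ D)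
    (hc' : c' ∈ D.erase c) (h0 : -u + c = p * l0) (h0' : -u - c' = p * l0')
    (hw1 : w1 ∈ (pc a).erase u) (h1 : w1 - u = p * l1) (hl1 : (l1 : ZMod p) ≠ 0)
    (hi : ∀ w ∈ ((pc a).erase u).erase w1, ((w - u : ℤ) : ZMod p) ≠ 0) {i : ℕ} (hiq : i ≤ q) :
    ∃ x : ℚ, Acoef q 0 a a u i (PolyN D n) =
        (p : ℚ) ^ (((n c + n c' : ℕ) : ℤ) + (0 : ℕ) + i - 2 * q) * x ∧
      red p x (PowerSeries.coeff (q - i) (PowerSeries.C ((2 * ((-u : ℤ) : ZMod p) *
          ((∏ w ∈ ((pc a).erase u).erase w1, ((w - u : ℤ) : ZMod p))⁻¹) ^ q) *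
          (((-u - c : ℤ) : ZMod p) ^ (n c) * (((-u + c' : ℤ) : ZMod p) ^ (n c') *
          ∏ d ∈ (D.erase c).erase c', (((-u - d) * (-u + d) : ℤ) : ZMod p) ^ (n d)))) *
        (linp p l0 ^ (n c) * linp p l0' ^ (n c') * ((linp p l1)⁻¹) ^ q))) := by
  have hp0 : (p : ℚ) ≠ 0 := by exact_mod_cast hp.out.ne_zero
  obtain ⟨F1, hF1, hR1⟩ := base_two0 (q := q) (B := 0) (b := a) hw1 h1 hl1 hi
  obtain ⟨F2, hF2, hR2⟩ := aeval_two' (p := p) (n := n) hc hc' h0 h0'
  have hR := Red_mul hR1 hR2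
  refine ⟨PowerSeries.coeff (q - i) (F1 * F2), ?_, ?_⟩
  · rw [Acoef_apply]
    have h3 : PowerSeries.coeff (q - i) (PowerSeries.rescale (p : ℚ)
        (base q 0 a a u * Polynomial.aeval (lin (-u) ^ 2) (PolyN D n))) =
        (p : ℚ) ^ (-(q : ℤ) + (n c + n c' : ℕ)) * PowerSeries.coeff (q - i) (F1 * F2) := by
      rw [map_mul, hF1, hF2]
      have : PowerSeries.C ((p : ℚ) ^ (-(q : ℤ))) * F1 *
          (PowerSeries.C ((p : ℚ) ^ (n c + n c')) * F2) =
          PowerSeries.C ((p : ℚ) ^ (-(q : ℤ) + (n c + n c' : ℕ))) * (F1 * F2) := by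
        rw [zpow_add₀ hp0, zpow_natCast, map_mul]; ring
      rw [this, PowerSeries.coeff_C_mul]
    rw [PowerSeries.coeff_rescale] at h3
    have h4 : (p : ℚ) ^ (q - i) ≠ 0 := pow_ne_zero _ hp0
    have h5 : (p : ℚ) ^ (((n c + n c' : ℕ) : ℤ) + (0 : ℕ) + i - 2 * q) * (p : ℚ) ^ (q - i) =
        (p : ℚ) ^ (-(q : ℤ) + (n c + n c' : ℕ)) := by
      rw [← zpow_natCast (p : ℚ) (q - i), ← zpow_add₀ hp0]
      congr 1
      push_cast [hiq]
      ring
    have h6 : (p : ℚ) ^ (q - i) * PowerSeries.coeff (q - i)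
        (base q 0 a a u * Polynomial.aeval (lin (-u) ^ 2) (PolyN D n)) =
        (p : ℚ) ^ (q - i) * ((p : ℚ) ^ (((n c + n c' : ℕ) : ℤ) + (0 : ℕ) + i - 2 * q) *
          PowerSeries.coeff (q - i) (F1 * F2)) := by
      rw [h3, ← h5]; ring
    exact mul_left_cancel₀ h4 h6
  · have := hR (q - i)
    convert this using 2
    rw [map_mul, pow_zero, mul_one]
    ring

/-- residue constant attached to a class -/
noncomputable def Kp (p : ℕ) [Fact p.Prime] (q a : ℕ) (D : Finset ℤ) (n : ℤ → ℕ) (c : ℤ) :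
    ZMod p :=
  (2 * (-(c : ZMod p)) *
    ((∏ w ∈ ((pc a).erase c).erase (c - p), ((w : ZMod p) - c))⁻¹) ^ q) *
    ((-2 * (c : ZMod p)) ^ (n c + n (p - c)) *
      ∏ d ∈ (D.erase c).erase (p - c), ((c : ZMod p) ^ 2 - d ^ 2) ^ (n d))

/-- local coefficients modulo `p` -/
noncomputable def alq (p : ℕ) (q n y k : ℕ) [Fact p.Prime] : ZMod p :=
  PowerSeries.coeff k (linp p 0 ^ n * linp p (-1) ^ y * ((linp p (-1))⁻¹) ^ q)

/-- local coefficients modulo `p` -/
noncomputable def beq (p : ℕ) (q n y k : ℕ) [Fact p.Prime] : ZMod p :=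
  PowerSeries.coeff k (linp p 1 ^ n * linp p 0 ^ y * ((linp p 1)⁻¹) ^ q)

/-- coefficients at the pole `c` -/
lemma Acoefq_c {q a : ℕ} {D : Finset ℤ} {n : ℤ → ℕ} {c : ℤ} (h : Geo0 p a a c) (hc : c ∈ D)
    (hc' : (p : ℤ) - c ∈ D.erase c) {i : ℕ} (hiq : i ≤ q) :
    ∃ x : ℚ, Acoef q 0 a a c i (PolyN D n) =
        (p : ℚ) ^ (((n c + n (p - c) : ℕ) : ℤ) + (0 : ℕ) + i - 2 * q) * x ∧
      red p x (Kp p q a D n c * alq p q (n c) (n (p - c)) (q - i)) := by
  have hpp := hp.out.pos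
  obtain ⟨x, hx1, hx2⟩ := Acoef_two1 (p := p) (q := q) (a := a) (n := n)
    (c := c) (c' := p - c) (u := c) (w1 := c - p) (l0 := 0) (l0' := -1) (l1 := -1) hc hc'
    (by ring) (by ring) (Finset.mem_erase.2 ⟨by omega, h.mem_cp⟩) (by ring)
    neg_one_ne h.hi hiq
  refine ⟨x, hx1, ?_⟩
  rw [PowerSeries.coeff_C_mul] at hx2
  have hK : Kp p q a D n c = 2 * ((-c : ℤ) : ZMod p) *
      ((∏ w ∈ ((pc a).erase c).erase (c - p), ((w - c : ℤ) : ZMod p))⁻¹) ^ q *
      (((-c - c : ℤ) : ZMod p) ^ n c * (((-c + (p - c) : ℤ) : ZMod p) ^ n (p - c) *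
        ∏ d ∈ (D.erase c).erase (p - c), (((-c - d) * (-c + d) : ℤ) : ZMod p) ^ n d)) := by
    rw [Kp, pow_add]
    push_cast
    simp only [CharP.cast_eq_zero, zero_sub]
    have h1 : ∏ d ∈ (D.erase c).erase (p - c), ((c : ZMod p) ^ 2 - d ^ 2) ^ n d =
        ∏ d ∈ (D.erase c).erase (p - c), ((-(c : ZMod p) - d) * (-c + d)) ^ n d := by
      refine Finset.prod_congr rfl fun d _ => ?_
      ring
    rw [h1]
    ring
  rw [hK, alq]
  exact hx2

/-- coefficients at the pole `c - p` -/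
lemma Acoefq_cp {q a : ℕ} {D : Finset ℤ} {n : ℤ → ℕ} {c : ℤ} (h : Geo0 p a a c) (hc : c ∈ D)
    (hc' : (p : ℤ) - c ∈ D.erase c) {i : ℕ} (hiq : i ≤ q) :
    ∃ x : ℚ, Acoef q 0 a a (c - p) i (PolyN D n) =
        (p : ℚ) ^ (((n c + n (p - c) : ℕ) : ℤ) + (0 : ℕ) + i - 2 * q) * x ∧
      red p x (Kp p q a D n c * beq p q (n c) (n (p - c)) (q - i)) := by
  have hpp := hp.out.pos
  have hi' : ∀ w ∈ ((pc a).erase (c - p)).erase c, ((w - (c - p) : ℤ) : ZMod p) ≠ 0 := by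
    intro w hw
    rw [cast_sub_p]
    rw [Finset.erase_right_comm] at hw
    have := h.hi w hw
    push_cast at this
    exact this
  obtain ⟨x, hx1, hx2⟩ := Acoef_two1 (p := p) (q := q) (a := a) (n := n)
    (c := c) (c' := p - c) (u := c - p) (w1 := c) (l0 := 1) (l0' := 0) (l1 := 1) hc hc'
    (by ring) (by ring) (Finset.mem_erase.2 ⟨by omega, h.mem_c⟩) (by ring)
    one_ne hi' hiq
  refine ⟨x, hx1, ?_⟩
  rw [PowerSeries.coeff_C_mul] at hx2
  have hK : Kp p q a D n c = 2 * ((-(c - p) : ℤ) : ZMod p) *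
      ((∏ w ∈ ((pc a).erase (c - p)).erase c, ((w - (c - p) : ℤ) : ZMod p))⁻¹) ^ q *
      (((-(c - p) - c : ℤ) : ZMod p) ^ n c * (((-(c - p) + (p - c) : ℤ) : ZMod p) ^ n (p - c) *
        ∏ d ∈ (D.erase c).erase (p - c),
          (((-(c - p) - d) * (-(c - p) + d) : ℤ) : ZMod p) ^ n d)) := by
    rw [Kp, pow_add, Finset.erase_right_comm (a := c) (b := c - p)]
    simp only [cast_sub_p]
    push_cast
    simp only [CharP.cast_eq_zero, sub_zero, zero_sub]
    have h1 : ∏ d ∈ (D.erase c).erase (p - c), ((c : ZMod p) ^ 2 - d ^ 2) ^ n d =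
        ∏ d ∈ (D.erase c).erase (p - c), ((-(c : ZMod p) - d) * (-c + d)) ^ n d := by
      refine Finset.prod_congr rfl fun d _ => ?_
      ring
    rw [h1]
    ring
  rw [hK, beq]
  exact hx2

/-- general form of the contribution of a pole in a two-pole class -/
lemma Su_two1 {r q a τ e k nc : ℕ} {ω : ℤ → ℕ → ℚ} {u : ℤ} {D : Finset ℤ} {n : ℤ → ℕ}
    (he : e + 0 = r + 2 * q) (hk : nc + τ = e + k)
    (s : ℕ → ℤ) (y v : ℕ → ZMod p)
    (hA : ∀ i ∈ Finset.Icc 1 q, ∃ x : ℚ, Acoef q 0 a a u i (PolyN D n) =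
      (s i : ℚ) * ((p : ℚ) ^ ((nc : ℤ) + (0 : ℕ) + i - 2 * q) * x) ∧ red p x (y i))
    (hw : ∀ i ∈ Finset.Icc 1 q, red p ((p : ℚ) ^ (i + r) * ω u i) (v i)) :
    red p ((p : ℚ) ^ τ * Su r q 0 a a ω u (PolyN D n))
      ((0 : ZMod p) ^ k * ∑ i ∈ Finset.Icc 1 q, ((Nat.choose (i + r - 1) r : ZMod p) * v i) *
        ((s i : ZMod p) * y i)) := by
  rw [Su, Finset.mul_sum, Finset.mul_sum]
  refine red_sum _ _ _ fun i hi => ?_
  obtain ⟨x, hx1, hx2⟩ := hA i hi
  rw [term_eq he hk hx1]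
  refine red_mul (red_pow red_p k) (red_mul (red_mul (red_nat _) (hw i hi))
    (red_mul (red_int _) hx2))

lemma Kp_ne_zero {q a : ℕ} {D : Finset ℤ} {n : ℤ → ℕ} {c : ℤ}
    (hD : ∀ d ∈ D, 0 < d ∧ d < p) (h : Geo0 p a a c) : Kp p q a D n c ≠ 0 := by
  have h2 : (2 : ZMod p) ≠ 0 := by
    have : ((2 : ℤ) : ZMod p) ≠ 0 := by
      rw [Ne, ZMod.intCast_zmod_eq_zero_iff_dvd]
      intro hd
      have := Int.le_of_dvd (by norm_num) hd
      have := h.c2; have := h.pos; omega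
    simpa using this
  have hcne : (c : ZMod p) ≠ 0 := by
    rw [Ne, ZMod.intCast_zmod_eq_zero_iff_dvd]
    intro hd
    have := Int.le_of_dvd h.pos hd
    have := h.c_lt; omega
  unfold Kp
  refine mul_ne_zero (mul_ne_zero (mul_ne_zero h2 (neg_ne_zero.2 hcne)) ?_)
    (mul_ne_zero ?_ ?_)
  · refine pow_ne_zero _ (inv_ne_zero (Finset.prod_ne_zero_iff.2 fun w hw => ?_))
    have := h.hi w hw
    push_cast at this
    exact this
  · refine pow_ne_zero _ (mul_ne_zero (neg_ne_zero.2 h2) hcne)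
  · refine Finset.prod_ne_zero_iff.2 fun d hd => pow_ne_zero _ ?_
    rw [Finset.mem_erase, Finset.mem_erase] at hd
    obtain ⟨hd1, hd2⟩ := hD d hd.2.2
    have hpp : (0 : ℤ) < p := by exact_mod_cast hp.out.pos
    have h3 : ((c - d : ℤ) : ZMod p) ≠ 0 := by
      rw [Ne, ZMod.intCast_zmod_eq_zero_iff_dvd]
      intro hdv
      obtain ⟨k, hk⟩ := hdv
      have := h.pos; have := h.c_lt
      have hk1 : -1 < k := by
        by_contra hcc
        push Not at hcc
        have : (p : ℤ) * k ≤ p * (-1) := mul_le_mul_of_nonneg_left hcc hpp.le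
        omega
      have hk2 : k < 1 := by
        by_contra hcc
        push Not at hcc
        have : (p : ℤ) * 1 ≤ p * k := mul_le_mul_of_nonneg_left hcc hpp.le
        omega
      have h0 : k = 0 := by omega
      rw [h0] at hk
      apply hd.2.1
      omega
    have h4 : ((c + d : ℤ) : ZMod p) ≠ 0 := by
      rw [Ne, ZMod.intCast_zmod_eq_zero_iff_dvd]
      intro hdv
      obtain ⟨k, hk⟩ := hdv
      have := h.pos; have := h.c_lt
      have hk1 : 0 < k := by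
        by_contra hcc
        push Not at hcc
        have : (p : ℤ) * k ≤ p * 0 := mul_le_mul_of_nonneg_left hcc hpp.le
        omega
      have hk2 : k < 2 := by
        by_contra hcc
        push Not at hcc
        have : (p : ℤ) * 2 ≤ p * k := mul_le_mul_of_nonneg_left hcc hpp.le
        omega
      have h0 : k = 1 := by omega
      rw [h0] at hk
      apply hd.1
      omega
    have h5 : (c : ZMod p) ^ 2 - d ^ 2 = ((c - d : ℤ) : ZMod p) * ((c + d : ℤ) : ZMod p) := by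
      push_cast; ring
    rw [h5]
    exact mul_ne_zero h3 h4

end

end ZP
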