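import Pool.Agent.Lib.ZP.NV1

/-!
# Nonvanishing with a pole profile: the entries of the Gram matrix
-/

open Polynomial Finset Z579

namespace ZP

section
variable {p : ℕ} [hp : Fact p.Prime]

/-- all nonzero residues -/
noncomputable def Dq (p : ℕ) : Finset ℤ := Finset.Icc (1 : ℤ) ((p : ℤ) - 1)

lemma mem_Dq {w : ℤ} : w ∈ Dq p ↔ 1 ≤ w ∧ w ≤ (p : ℤ) - 1 := by
  simp [Dq, Finset.mem_Icc]

lemma Dq_c {a b : ℕ} {c : ℤ} (h : Geo0 p a b c) : c ∈ Dq p := by
  rw [mem_Dq]; have := h.pos; have := h.c_lt; omega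

lemma Dq_cp {a b : ℕ} {c : ℤ} (h : Geo0 p a b c) : (p : ℤ) - c ∈ (Dq p).erase c := by
  rw [Finset.mem_erase, mem_Dq]; have := h.pos; have := h.c_lt; have := h.c2; omega

/-- total exponent of a class -/
def nc (p : ℕ) (n : ℤ → ℕ) (c : ℤ) : ℕ := n c + n (p - c)

variable {r q a τ e : ℕ} {z : ℕ → ℚ} {n : ℤ → ℕ}

/-- coefficients for all four poles of a class -/
lemma Acoefq_four (hq : Even q) {c u : ℤ} (h : Geo0 p a a c)
    (hu : u = c ∨ u = c - p ∨ u = -c ∨ u = p - c) :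
    ∃ (s : ℕ → ℤ) (y : ℕ → ZMod p), ∀ i ∈ Finset.Icc 1 q, ∃ x : ℚ,
      Acoef q 0 a a u i (PolyN (Dq p) n) =
      (s i : ℚ) * ((p : ℚ) ^ ((nc p n c : ℤ) + (0 : ℕ) + i - 2 * q) * x) ∧ red p x (y i) := by
  have ha1 := h.a_pos
  rcases hu with rfl | rfl | rfl | rfl
  · refine ⟨fun _ => 1, fun i => Kp p q a (Dq p) n u * alq p q (n u) (n (p - u)) (q - i),
      fun i hi => ?_⟩
    rw [Finset.mem_Icc] at hi
    obtain ⟨x, hx1, hx2⟩ := Acoefq_c (q := q) (n := n) h (Dq_c h) (Dq_cp h) hi.2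
    exact ⟨x, by rw [hx1, nc]; push_cast; ring, hx2⟩
  · refine ⟨fun _ => 1, fun i => Kp p q a (Dq p) n c * beq p q (n c) (n (p - c)) (q - i),
      fun i hi => ?_⟩
    rw [Finset.mem_Icc] at hi
    obtain ⟨x, hx1, hx2⟩ := Acoefq_cp (q := q) (n := n) h (Dq_c h) (Dq_cp h) hi.2
    exact ⟨x, by rw [hx1, nc]; push_cast; ring, hx2⟩
  · refine ⟨fun i => (-1) ^ (i + 1),
      fun i => Kp p q a (Dq p) n c * alq p q (n c) (n (p - c)) (q - i), fun i hi => ?_⟩
    rw [Finset.mem_Icc] at hi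
    obtain ⟨x, hx1, hx2⟩ := Acoefq_c (q := q) (n := n) h (Dq_c h) (Dq_cp h) hi.2
    exact ⟨x, by rw [Acoef_neg ha1 h.mem_c hq hi.2, hx1, nc]; push_cast; ring, hx2⟩
  · refine ⟨fun i => (-1) ^ (i + 1),
      fun i => Kp p q a (Dq p) n c * beq p q (n c) (n (p - c)) (q - i), fun i hi => ?_⟩
    rw [Finset.mem_Icc] at hi
    obtain ⟨x, hx1, hx2⟩ := Acoefq_cp (q := q) (n := n) h (Dq_c h) (Dq_cp h) hi.2
    refine ⟨x, ?_, hx2⟩
    rw [show (p : ℤ) - c = -(c - p) by ring, Acoef_neg ha1 h.mem_cp hq hi.2, hx1, nc]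
    push_cast; ring

/-- a pole whose class has too many factors contributes zero -/
lemma Suq_zero_of (hr : 1 ≤ r) (hz : ∀ s, VG p 0 (z s)) (he : e + 0 = r + 2 * q)
    (hq : Even q) (ha : a ≤ p) {c u : ℤ} (h : Geo0 p a a c)
    (hu : u = c ∨ u = c - p ∨ u = -c ∨ u = p - c) (hk : e < nc p n c + τ) :
    red p ((p : ℚ) ^ τ * Su r q 0 a a (wt r a 1 z) u (PolyN (Dq p) n)) 0 := by
  have hupc : u ∈ pc a := by
    rcases hu with rfl | rfl | rfl | rfl
    · exact h.mem_c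
    · exact h.mem_cp
    · exact neg_mem_pc.2 h.mem_c
    · rw [show (p : ℤ) - c = -(c - p) by ring]; exact neg_mem_pc.2 h.mem_cp
  obtain ⟨s, y, hA⟩ := Acoefq_four (q := q) (n := n) hq h hu
  have hw : ∀ i ∈ Finset.Icc 1 q, ∃ v, red p ((p : ℚ) ^ (i + r) * wt r a 1 z u i) v :=
    fun i _ => wt_any hr hz ha hupc i
  choose! v hv using hw
  obtain ⟨k, hk'⟩ := Nat.exists_eq_add_of_lt hk
  have key := Su_two1 (ω := wt r a 1 z) (u := u) (n := n) (nc := nc p n c) (k := k + 1) he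
    (by omega) s y v hA hv
  simpa using key

/-- low poles of a class contribute zero -/
lemma Suq_low (hr : 1 ≤ r) (hz : ∀ s, VG p 0 (z s)) (he : e + 0 = r + 2 * q)
    (hq : Even q) {c u : ℤ} (h : Geo0 p a a c)
    (hu : u = c - p ∨ u = -c) (hk : e ≤ nc p n c + τ) :
    red p ((p : ℚ) ^ τ * Su r q 0 a a (wt r a 1 z) u (PolyN (Dq p) n)) 0 := by
  have hlow : u + a - 1 < p := by
    have := h.pos; have := h.c_lt; have := h.ha; have := h.c1; have := h.c2
    rcases hu with rfl | rfl <;> omega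
  have hu' : u = c ∨ u = c - p ∨ u = -c ∨ u = p - c := by tauto
  obtain ⟨s, y, hA⟩ := Acoefq_four (q := q) (n := n) hq h hu'
  obtain ⟨k, hk'⟩ := Nat.exists_eq_add_of_le hk
  have key := Su_two1 (ω := wt r a 1 z) (u := u) (n := n) (nc := nc p n c) (k := k) he
    (by omega) s y (fun _ => 0) hA (fun i _ => wt_low hr hz hlow i)
  simpa using key

lemma Suq_top_c (hr : 1 ≤ r) (hz : ∀ s, VG p 0 (z s)) (he : e + 0 = r + 2 * q)
    {c : ℤ} (h : Geo0 p a a c) (hk : nc p n c + τ = e) :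
    red p ((p : ℚ) ^ τ * Su r q 0 a a (wt r a 1 z) c (PolyN (Dq p) n))
      (-(Kp p q a (Dq p) n c * ∑ i ∈ Finset.Icc 1 q, (Nat.choose (i + r - 1) r : ZMod p) *
        alq p q (n c) (n (p - c)) (q - i))) := by
  have htop : (p : ℤ) ≤ c + a - 1 := by have := h.c1; omega
  have htop2 : c + a - 1 < 2 * p := by have := h.c_lt; have := h.ha; omega
  have key := Su_two1 (ω := wt r a 1 z) (u := c) (n := n) (nc := nc p n c) (k := 0) he
    (by omega) (fun _ => 1)
    (fun i => Kp p q a (Dq p) n c * alq p q (n c) (n (p - c)) (q - i))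
    (fun _ => -1) (fun i hi => by
      rw [Finset.mem_Icc] at hi
      obtain ⟨x, hx1, hx2⟩ := Acoefq_c (q := q) (n := n) h (Dq_c h) (Dq_cp h) hi.2
      exact ⟨x, by rw [hx1, nc]; push_cast; ring, hx2⟩)
    (fun i _ => red_wt_top hz htop htop2 (by omega))
  convert key using 1
  rw [pow_zero, one_mul, Finset.mul_sum, ← Finset.sum_neg_distrib]
  refine Finset.sum_congr rfl fun i _ => ?_
  push_cast
  ring

lemma Suq_top_pc (hr : 1 ≤ r) (hz : ∀ s, VG p 0 (z s)) (he : e + 0 = r + 2 * q) (hq : Even q)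
    {c : ℤ} (h : Geo0 p a a c) (hk : nc p n c + τ = e) :
    red p ((p : ℚ) ^ τ * Su r q 0 a a (wt r a 1 z) (p - c) (PolyN (Dq p) n))
      (-(Kp p q a (Dq p) n c * ∑ i ∈ Finset.Icc 1 q, (Nat.choose (i + r - 1) r : ZMod p) *
        ((-1) ^ (i + 1) * beq p q (n c) (n (p - c)) (q - i)))) := by
  have htop : (p : ℤ) ≤ (p - c) + a - 1 := by
    have := h.c2; have := h.c1; have := h.pos; omega
  have htop2 : ((p : ℤ) - c) + a - 1 < 2 * p := by have := h.pos; have := h.ha; omega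
  have key := Su_two1 (ω := wt r a 1 z) (u := p - c) (n := n) (nc := nc p n c) (k := 0) he
    (by omega) (fun i => (-1) ^ (i + 1))
    (fun i => Kp p q a (Dq p) n c * beq p q (n c) (n (p - c)) (q - i))
    (fun _ => -1) (fun i hi => by
      rw [Finset.mem_Icc] at hi
      obtain ⟨x, hx1, hx2⟩ := Acoefq_cp (q := q) (n := n) h (Dq_c h) (Dq_cp h) hi.2
      refine ⟨x, ?_, hx2⟩
      rw [show (p : ℤ) - c = -(c - p) by ring, Acoef_neg h.a_pos h.mem_cp hq hi.2, hx1, nc]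
      push_cast; ring)
    (fun i _ => red_wt_top hz htop htop2 (by omega))
  convert key using 1
  rw [pow_zero, one_mul, Finset.mul_sum, ← Finset.sum_neg_distrib]
  refine Finset.sum_congr rfl fun i _ => ?_
  push_cast
  ring

/-- local moments modulo `p` -/
noncomputable def lmq (p : ℕ) (r q n y : ℕ) [Fact p.Prime] : ZMod p :=
  ∑ i ∈ Finset.Icc 1 q, (Nat.choose (i + r - 1) r : ZMod p) *
    (alq p q n y (q - i) + (-1) ^ (i + 1) * beq p q n y (q - i))

/-- off-diagonal entries -/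
lemma entryq_off (hr : 1 ≤ r) (hz : ∀ s, VG p 0 (z s)) (he : e + 0 = r + 2 * q)
    (hq : Even q) (hodd : p % 2 = 1) (ha : a ≤ p) (hτ : τ ≠ 0)
    (hn : ∀ c ∈ Dset p a, e < nc p n c + τ) :
    red p ((p : ℚ) ^ τ * Lw r q 0 a a (wt r a 1 z) (PolyN (Dq p) n)) 0 := by
  rw [Lw_eq_sum_Su, Finset.mul_sum]
  have : (0 : ZMod p) = ∑ u ∈ pc a, 0 := by simp
  rw [this]
  refine red_sum _ _ _ fun u hu => ?_
  by_cases h2 : (p : ℤ) - a + 1 ≤ |u|
  · obtain ⟨c, hg, hcu⟩ := exists_rep0 hodd (by omega) ha le_rfl hu h2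
    exact Suq_zero_of hr hz he hq ha hg hcu (hn c (mem_Dset0 hg))
  · have h3 : |u| ≤ (p : ℤ) - a := by omega
    refine Su_single (single_of hu h3) (fun i => ?_) hτ
    refine red_wt_low hz ?_ i
    have := (abs_le.1 h3).2
    omega

/-- diagonal block entries -/
lemma entryq_main (hr : 1 ≤ r) (hz : ∀ s, VG p 0 (z s)) (he : e + 0 = r + 2 * q)
    (hq : Even q) (hodd : p % 2 = 1) (ha : a ≤ p) (hτ : τ ≠ 0)
    {c : ℤ} (hc : c ∈ Dset p a) (hk : nc p n c + τ = e)
    (hn : ∀ c' ∈ Dset p a, c' ≠ c → e < nc p n c' + τ) :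
    red p ((p : ℚ) ^ τ * Lw r q 0 a a (wt r a 1 z) (PolyN (Dq p) n))
      (-(Kp p q a (Dq p) n c * lmq p r q (n c) (n (p - c)))) := by
  have hg := geo_of_mem0 hodd (by omega) ha le_rfl hc
  have hne : c ≠ p - c := by have := hg.c2; omega
  rw [Lw_eq_sum_Su, Finset.mul_sum]
  set V1 : ZMod p := -(Kp p q a (Dq p) n c * ∑ i ∈ Finset.Icc 1 q,
    (Nat.choose (i + r - 1) r : ZMod p) * alq p q (n c) (n (p - c)) (q - i)) with hV1
  set V2 : ZMod p := -(Kp p q a (Dq p) n c * ∑ i ∈ Finset.Icc 1 q,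
    (Nat.choose (i + r - 1) r : ZMod p) * ((-1) ^ (i + 1) *
      beq p q (n c) (n (p - c)) (q - i))) with hV2
  have hsum : -(Kp p q a (Dq p) n c * lmq p r q (n c) (n (p - c))) =
      ∑ u ∈ pc a, ((if u = c then V1 else 0) + (if u = p - c then V2 else 0)) := by
    rw [Finset.sum_add_distrib, Finset.sum_ite_eq', Finset.sum_ite_eq', if_pos hg.mem_c,
      if_pos (by rw [show (p : ℤ) - c = -(c - p) by ring]; exact neg_mem_pc.2 hg.mem_cp),
      hV1, hV2, lmq, ← neg_add, ← mul_add, ← Finset.sum_add_distrib]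
    congr 2
    refine Finset.sum_congr rfl fun i _ => ?_
    ring
  rw [hsum]
  refine red_sum _ _ _ fun u hu => ?_
  by_cases h2 : (p : ℤ) - a + 1 ≤ |u|
  · obtain ⟨c', hg', hcu⟩ := exists_rep0 hodd (by omega) ha le_rfl hu h2
    have h1 := hg.pos; have h3 := hg.c2; have h4 := hg'.pos; have h5 := hg'.c2
    by_cases hcc : c' = c
    · subst hcc
      rcases hcu with rfl | rfl | rfl | rfl
      · rw [if_pos rfl, if_neg hne, add_zero]
        exact Suq_top_c hr hz he hg hk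
      · rw [if_neg (by omega), if_neg (by omega), add_zero]
        exact Suq_low hr hz he hq hg (Or.inl rfl) hk.ge
      · rw [if_neg (by omega), if_neg (by omega), add_zero]
        exact Suq_low hr hz he hq hg (Or.inr rfl) hk.ge
      · rw [if_neg (by omega), if_pos rfl, zero_add]
        exact Suq_top_pc hr hz he hq hg hk
    · rw [if_neg (by omega), if_neg (by omega), add_zero]
      exact Suq_zero_of hr hz he hq ha hg' hcu (hn c' (mem_Dset0 hg') hcc)
  · have h3 : |u| ≤ (p : ℤ) - a := by omega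
    have h6 := abs_le.1 h3
    have h7 := hg.c1; have h8 := hg.c2; have h9 := hg.pos
    rw [if_neg (by omega), if_neg (by omega), add_zero]
    refine Su_single (single_of hu h3) (fun i => ?_) hτ
    refine red_wt_low hz ?_ i
    omega

/-! ### the local determinants -/

/-- local coefficients -/
noncomputable def al2 (q n y k : ℕ) : ℚ :=
  PowerSeries.coeff k (PowerSeries.X ^ n * lin (-1) ^ y * ((lin (-1))⁻¹) ^ q)

/-- local coefficients -/
noncomputable def be2 (q n y k : ℕ) : ℚ :=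
  PowerSeries.coeff k (lin 1 ^ n * PowerSeries.X ^ y * ((lin 1)⁻¹) ^ q)

/-- local moments -/
noncomputable def lmom2 (r q n y : ℕ) : ℚ :=
  ∑ i ∈ Finset.Icc 1 q, (Nat.choose (i + r - 1) r : ℚ) *
    (al2 q n y (q - i) + (-1) ^ (i + 1) * be2 q n y (q - i))

/-- local determinant of a class with profile defect `y` -/
noncomputable def lhank2 (r q y : ℕ) : ℚ :=
  Matrix.det (Matrix.of fun i j : Fin (q - y) => lmom2 r q ((i : ℕ) + (j : ℕ)) (2 * y))

lemma lin_zero : lin 0 = PowerSeries.X := by simp [lin]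

lemma red_al2 (q n y k : ℕ) : red p (al2 q n y k) (alq p q n y k) := by
  have h := Red_mul (Red_mul (Red_pow (Red_lin (p := p) 0) n) (Red_pow (Red_lin (p := p) (-1)) y))
    (Red_pow (Red_inv (Red_lin (p := p) (-1)) (by rw [constantCoeff_linp]; exact neg_one_ne)) q)
  have h2 := h k
  rw [al2, alq]
  rw [lin_zero] at h2
  exact h2

lemma red_be2 (q n y k : ℕ) : red p (be2 q n y k) (beq p q n y k) := by
  have h := Red_mul (Red_mul (Red_pow (Red_lin (p := p) 1) n) (Red_pow (Red_lin (p := p) 0) y))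
    (Red_pow (Red_inv (Red_lin (p := p) 1) (by rw [constantCoeff_linp]; exact one_ne)) q)
  have h2 := h k
  rw [be2, beq]
  rw [lin_zero] at h2
  exact h2

lemma red_lmom2 (r q n y : ℕ) : red p (lmom2 r q n y) (lmq p r q n y) := by
  rw [lmom2, lmq]
  refine red_sum _ _ _ fun i _ => ?_
  refine red_mul (red_nat _) (red_add (red_al2 _ _ _ _) (red_mul ?_ (red_be2 _ _ _ _)))
  have := red_pow (red_neg (red_one (p := p))) (i + 1)
  exact this

lemma red_lhank2 (r q y : ℕ) : red p (lhank2 r q y)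
    (Matrix.det (Matrix.of fun i j : Fin (q - y) => lmq p r q ((i : ℕ) + (j : ℕ)) (2 * y))) :=
  red_det _ _ fun _ _ => red_lmom2 _ _ _ _

lemma lmq_det_ne {r q y : ℕ} (hl : lhank2 r q y ≠ 0) (hpl : (lhank2 r q y).num.natAbs < p) :
    Matrix.det (Matrix.of fun i j : Fin (q - y) => lmq p r q ((i : ℕ) + (j : ℕ)) (2 * y)) ≠ 0 := by
  intro h0
  have h1 := red_lhank2 (p := p) r q y
  rw [h0] at h1
  have h2 := dvd_num_of_red_zero h1
  have h3 : (p : ℤ) ∣ ((lhank2 r q y).num.natAbs : ℤ) := Int.dvd_natAbs.2 h2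
  have h4 : p ∣ (lhank2 r q y).num.natAbs := by exact_mod_cast h3
  have h5 : 0 < (lhank2 r q y).num.natAbs := by
    rw [Int.natAbs_pos]
    exact Rat.num_ne_zero.2 hl
  have := Nat.le_of_dvd h5 h4
  omega

/-- determinant of a local block -/
lemma block_det_ne2 {r q y : ℕ} (U x : ZMod p) (hU : U ≠ 0) (hx : x ≠ 0)
    (hl : Matrix.det (Matrix.of fun i j : Fin (q - y) =>
      lmq p r q ((i : ℕ) + (j : ℕ)) (2 * y)) ≠ 0) :
    Matrix.det (Matrix.of fun i j : Fin (q - y) =>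
      -(U * (x ^ (i : ℕ) * x ^ (j : ℕ)) * lmq p r q ((i : ℕ) + (j : ℕ)) (2 * y))) ≠ 0 := by
  have h1 : (Matrix.of fun i j : Fin (q - y) =>
      -(U * (x ^ (i : ℕ) * x ^ (j : ℕ)) * lmq p r q ((i : ℕ) + (j : ℕ)) (2 * y))) =
      Matrix.of fun i j : Fin (q - y) => (-(U * x ^ (i : ℕ))) *
        (Matrix.of fun i j : Fin (q - y) => lmq p r q ((i : ℕ) + (j : ℕ)) (2 * y)) i j *
          (x ^ (j : ℕ)) := by
    ext i j
    simp only [Matrix.of_apply]
    ring
  rw [h1, det_scale]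
  refine mul_ne_zero (mul_ne_zero (Finset.prod_ne_zero_iff.2 fun i _ => ?_) hl)
    (Finset.prod_ne_zero_iff.2 fun i _ => pow_ne_zero _ hx)
  exact neg_ne_zero.2 (mul_ne_zero hU (pow_ne_zero _ hx))

end

end ZP
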