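import Pool.Agent.Lib.ZP.NV2

/-!
# Nonvanishing with a pole profile: the Gram determinant
-/

open Polynomial Finset Z579

namespace ZP

section
variable {p : ℕ} [hp : Fact p.Prime]

/-- exponents of the local basis -/
noncomputable def nl (D : Finset ℤ) (N : ℤ → ℕ) (c : ℤ) (j : ℕ) (d : ℤ) : ℕ :=
  if d ∈ D then (if d = c then j else N d) else 0

lemma Kp_factor {q a : ℕ} {D Dt : Finset ℤ} {N Y : ℤ → ℕ} {c : ℤ} (hc : c ∈ D)
    (hcp : (p : ℤ) - c ∉ D) (hY : Y c = 0) {j j' : ℕ} :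
    Kp p q a Dt (nl D N c j + nl D N c j' + (Y + Y)) c =
      Kp p q a Dt (nl D N c 0 + nl D N c 0 + (Y + Y)) c *
        ((-2 * (c : ZMod p)) ^ j * (-2 * (c : ZMod p)) ^ j') := by
  unfold Kp
  have h1 : (nl D N c j + nl D N c j' + (Y + Y)) c +
      (nl D N c j + nl D N c j' + (Y + Y)) (p - c) = (Y (p - c) + Y (p - c)) + (j + j') := by
    simp [nl, hc, hcp, hY]; ring
  have h2 : (nl D N c 0 + nl D N c 0 + (Y + Y)) c +
      (nl D N c 0 + nl D N c 0 + (Y + Y)) (p - c) = (Y (p - c) + Y (p - c)) := by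
    simp [nl, hc, hcp, hY]
  have h3 : ∏ d ∈ (Dt.erase c).erase (p - c), ((c : ZMod p) ^ 2 - d ^ 2) ^
      ((nl D N c j + nl D N c j' + (Y + Y)) d) =
      ∏ d ∈ (Dt.erase c).erase (p - c), ((c : ZMod p) ^ 2 - d ^ 2) ^
      ((nl D N c 0 + nl D N c 0 + (Y + Y)) d) := by
    refine Finset.prod_congr rfl fun d hd => ?_
    have hne := (Finset.mem_erase.1 (Finset.mem_erase.1 hd).2).1
    simp [nl, hne]
  rw [h1, h2, h3, pow_add _ (Y (p - c) + Y (p - c)) (j + j'), pow_add _ j j']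
  ring

lemma PolyN_sq (D : Finset ℤ) (n : ℤ → ℕ) : PolyN D n ^ 2 = PolyN D (n + n) := by
  rw [sq, PolyN_mul]

/-- a block diagonal matrix with nonsingular blocks is nonsingular -/
lemma det_sigma_ne_zero {κ : Type*} [Fintype κ] [DecidableEq κ] {K : Type*} [Field K]
    (s : κ → ℕ) (g : κ → ℕ → ℕ → K)
    (M : Matrix (Σ c : κ, Fin (s c)) (Σ c : κ, Fin (s c)) K)
    (hM : ∀ α β, M α β = if α.1 = β.1 then g α.1 α.2 β.2 else 0)
    (hg : ∀ c, (Matrix.of fun i j : Fin (s c) => g c i j).det ≠ 0) : M.det ≠ 0 := by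
  intro h
  obtain ⟨v, hv, hv0⟩ := (Matrix.exists_mulVec_eq_zero_iff).2 h
  obtain ⟨α, hα⟩ : ∃ α, v α ≠ 0 := by
    by_contra hcon
    push Not at hcon
    exact hv (funext hcon)
  refine hg α.1 ((Matrix.exists_mulVec_eq_zero_iff).1 ⟨fun j => v ⟨α.1, j⟩, ?_, ?_⟩)
  · intro h0
    exact hα (congrFun h0 α.2)
  · funext i
    have h1 := congrFun hv0 ⟨α.1, i⟩
    simp only [Matrix.mulVec, dotProduct, Pi.zero_apply] at h1 ⊢
    rw [Fintype.sum_sigma, Finset.sum_eq_single α.1] at h1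
    · rw [← h1]
      refine Finset.sum_congr rfl fun j _ => ?_
      rw [hM]
      simp
    · intro c _ hc
      refine Finset.sum_eq_zero fun j _ => ?_
      rw [hM, if_neg (Ne.symm hc), zero_mul]
    · intro h2
      exact absurd (Finset.mem_univ _) h2

theorem nv_aux {r q a m : ℕ} {z : ℕ → ℚ} (Y : ℤ → ℕ) (hr : 1 ≤ r) (hq : Even q)
    (hodd : p % 2 = 1) (ha : a ≤ p) (hY0 : ∀ c ∈ Dset p a, Y c = 0)
    (hYq : ∀ c ∈ Dset p a, Y (p - c) ≤ q)
    (hl : ∀ c ∈ Dset p a, lhank2 r q (Y (p - c)) ≠ 0 ∧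
      (lhank2 r q (Y (p - c))).num.natAbs < p)
    (hm : m = ∑ c ∈ Dset p a, (q - Y (p - c))) (hz : ∀ s, VG p 0 (z s)) :
    hank ((Lw r q 0 a a (wt r a 1 z)) ∘ₗ (LinearMap.mulLeft ℚ (PolyN (Dq p) Y ^ 2))) m ≠ 0 := by
  classical
  intro hH
  obtain ⟨e, he⟩ : ∃ e, e + 0 = r + 2 * q := ⟨r + 2 * q, by omega⟩
  set D := Dset p a with hD
  have hgeo : ∀ d ∈ D, Geo0 p a a d := fun d hd => geo_of_mem0 hodd (by omega) ha le_rfl hd
  have hcpD : ∀ c ∈ D, (p : ℤ) - c ∉ D := by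
    intro c hc h
    have h1 := (hgeo c hc).c2
    have h2 := (hgeo _ h).c2
    omega
  set N : ℤ → ℕ := fun d => q - Y (p - d) with hN
  let ι := Σ c : {c // c ∈ D}, Fin (N c.1)
  let P : ι → ℚ[X] := fun α => PolyN (Dq p) (nl D N α.1.1 α.2)
  have hcard : Fintype.card ι = m := by
    have h1 : Fintype.card ι = ∑ c : {c // c ∈ D}, N c.1 := by
      simp [ι, Fintype.card_sigma, Fintype.card_fin]
    rw [h1, hm, Finset.sum_coe_sort D N]
  have hdeg : ∀ α : ι, (P α).natDegree < m ∨ P α = 0 := by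
    intro α
    left
    have h1 : (P α).natDegree = ∑ d ∈ D, (if d = α.1.1 then (α.2 : ℕ) else N d) := by
      rw [natDegree_PolyN]
      have hsub : D ⊆ Dq p := fun d hd => Dq_c (hgeo d hd)
      rw [← Finset.sum_subset hsub]
      · refine Finset.sum_congr rfl fun d hd => ?_
        simp [nl, hd]
      · intro d _ hd
        simp [nl, hd]
    rw [h1, hm]
    refine Finset.sum_lt_sum (fun d _ => ?_) ⟨α.1.1, α.1.2, ?_⟩
    · split_ifs with h
      · subst h; exact le_of_lt α.2.2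
      · exact le_rfl
    · rw [if_pos rfl]; exact α.2.2
  let L := (Lw r q 0 a a (wt r a 1 z)) ∘ₗ (LinearMap.mulLeft ℚ (PolyN (Dq p) Y ^ 2))
  have hG := gram_eq L m P hdeg
  have hG0 : (Matrix.of fun i j : ι => L (P i * P j)).det = 0 := by
    rw [hG]
    exact det_gram_zero hcard _ _ hH
  have hp0 : (p : ℚ) ≠ 0 := by exact_mod_cast hp.out.ne_zero
  -- exponents
  let f : ι → ℕ := fun α => (α.2 : ℕ) + Y (p - α.1.1)
  have hf : ∀ α : ι, f α + 1 ≤ q := by
    intro α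
    have h1 : (α.2 : ℕ) < q - Y (p - α.1.1) := α.2.2
    have h2 := hYq α.1.1 α.1.2
    simp only [f]
    omega
  have hlt : ∀ α β : ι, f α + f β + 1 ≤ e := by
    intro α β
    have := hf α; have := hf β
    omega
  let Mt : Matrix ι ι ℚ := Matrix.of fun α β =>
    (p : ℚ) ^ (e - (f α + f β)) * L (P α * P β)
  have hMt : Mt.det = 0 := by
    have h1 : Mt = Matrix.of fun α β => ((p : ℚ) ^ e * ((p : ℚ) ^ (f α))⁻¹) *
        (Matrix.of fun i j : ι => L (P i * P j)) α β * ((p : ℚ) ^ (f β))⁻¹ := by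
      ext α β
      simp only [Mt, Matrix.of_apply]
      have h2 : (p : ℚ) ^ (e - (f α + f β)) =
          (p : ℚ) ^ e * ((p : ℚ) ^ (f α))⁻¹ * ((p : ℚ) ^ (f β))⁻¹ := by
        rw [pow_sub₀ _ hp0 (by have := hlt α β; omega), pow_add, mul_inv]
        ring
      rw [h2]; ring
    rw [h1, det_scale, hG0]
    ring
  -- reduction
  let g : {c // c ∈ D} → ℕ → ℕ → ZMod p := fun c i j =>
    -(Kp p q a (Dq p) (nl D N c.1 0 + nl D N c.1 0 + (Y + Y)) c.1 *
      ((-2 * ((c.1 : ℤ) : ZMod p)) ^ i * (-2 * ((c.1 : ℤ) : ZMod p)) ^ j) *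
      lmq p r q (i + j) (2 * Y (p - c.1)))
  let Mb : Matrix ι ι (ZMod p) := Matrix.of fun α β =>
    if α.1 = β.1 then g α.1 α.2 β.2 else 0
  have hred : ∀ α β : ι, red p (Mt α β) (Mb α β) := by
    intro α β
    have hτ : e - (f α + f β) ≠ 0 := by have := hlt α β; omega
    have hPP : L (P α * P β) = Lw r q 0 a a (wt r a 1 z)
        (PolyN (Dq p) (nl D N α.1.1 α.2 + nl D N β.1.1 β.2 + (Y + Y))) := by
      simp only [L, P, LinearMap.comp_apply, LinearMap.mulLeft_apply]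
      rw [PolyN_sq, PolyN_mul, PolyN_mul]
      congr 2
      rw [add_comm]
    have h1 : Mt α β = (p : ℚ) ^ (e - (f α + f β)) *
        Lw r q 0 a a (wt r a 1 z)
        (PolyN (Dq p) (nl D N α.1.1 α.2 + nl D N β.1.1 β.2 + (Y + Y))) := by
      rw [← hPP]; rfl
    rw [h1]
    have hcp1 : ∀ d ∈ D, (nl D N α.1.1 α.2 + nl D N β.1.1 β.2 + (Y + Y)) (p - d) =
        2 * Y (p - d) := by
      intro d hd
      simp [nl, hcpD d hd]; ring
    by_cases hc : α.1 = β.1
    · have h2 : Mb α β = -(Kp p q a (Dq p) (nl D N α.1.1 0 + nl D N α.1.1 0 + (Y + Y)) α.1.1 *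
          ((-2 * ((α.1.1 : ℤ) : ZMod p)) ^ (α.2 : ℕ) * (-2 * ((α.1.1 : ℤ) : ZMod p)) ^ (β.2 : ℕ)) *
          lmq p r q ((α.2 : ℕ) + (β.2 : ℕ)) (2 * Y (p - α.1.1))) := by
        simp only [Mb, Matrix.of_apply, hc, if_true, g]
      have hb2 : (β.1.1 : ℤ) = α.1.1 := by rw [hc]
      rw [h2, ← Kp_factor α.1.2 (hcpD _ α.1.2) (hY0 _ α.1.2)]
      have hcc1 : (nl D N α.1.1 α.2 + nl D N α.1.1 β.2 + (Y + Y)) α.1.1 =
          (α.2 : ℕ) + (β.2 : ℕ) := by
        simp [nl, hY0 _ α.1.2]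
      have hcp2 := hcp1 α.1.1 α.1.2
      have hfe : f α + f β = (α.2 : ℕ) + (β.2 : ℕ) + 2 * Y (p - α.1.1) := by
        simp only [f, hb2]; ring
      have hb3 : nl D N β.1.1 (β.2 : ℕ) = nl D N α.1.1 (β.2 : ℕ) :=
        congrArg (fun x => nl D N x (β.2 : ℕ)) hb2
      rw [hb3] at hcp1 hcp2 ⊢
      have key := entryq_main (p := p) (r := r) (q := q) (a := a) (e := e)
        (τ := e - (f α + f β)) (z := z)
        (n := nl D N α.1.1 α.2 + nl D N α.1.1 β.2 + (Y + Y)) (c := α.1.1) hr hz he hq hodd ha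
        hτ α.1.2 (by rw [nc, hcc1, hcp2]; have := hlt α β; omega) (by
          intro c' hc' hcc
          rw [← hD] at hc'
          have h4 : (nl D N α.1.1 α.2 + nl D N α.1.1 β.2 + (Y + Y)) c' = N c' + N c' := by
            simp [nl, hcc, hc', hY0 _ hc']
          rw [nc, h4, hcp1 c' hc']
          have := hlt α β; have := hf α; have := hf β; have := hYq c' hc'
          simp only [hN]
          omega)
      rw [hcc1, hcp2] at key
      exact key
    · have h2 : Mb α β = 0 := by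
        simp only [Mb, Matrix.of_apply, hc, if_false]
      rw [h2]
      refine entryq_off (p := p) hr hz he hq hodd ha hτ ?_
      intro c' hc'
      rw [← hD] at hc'
      have hne : α.1.1 ≠ β.1.1 := fun h => hc (Subtype.ext h)
      have := hlt α β; have := hf α; have := hf β; have := hYq c' hc'
      rw [nc, hcp1 c' hc']
      have h5 : (nl D N α.1.1 α.2 + nl D N β.1.1 β.2 + (Y + Y)) c' =
          (if c' = α.1.1 then (α.2 : ℕ) else N c') + (if c' = β.1.1 then (β.2 : ℕ) else N c') := by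
        simp [nl, hc', hY0 _ hc']
      rw [h5]
      split_ifs with h6 h7 h7
      · exact absurd (h6.symm.trans h7) hne
      · simp only [hN, f] at *
        rw [h6] at *
        omega
      · simp only [hN, f] at *
        rw [h7] at *
        omega
      · simp only [hN] at *
        omega
  have hdet := red_det Mt Mb hred
  rw [hMt] at hdet
  have h0 : Mb.det = 0 := (red_unique hdet red_zero)
  refine det_sigma_ne_zero (fun c : {c // c ∈ D} => N c.1) g Mb (fun α β => rfl) ?_ h0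
  intro c
  have hcg := hgeo c.1 c.2
  have hcne : ((c.1 : ℤ) : ZMod p) ≠ 0 := by
    rw [Ne, ZMod.intCast_zmod_eq_zero_iff_dvd]
    intro hd
    have := Int.le_of_dvd hcg.pos hd
    have := hcg.c_lt; omega
  have h2 : (-2 : ZMod p) ≠ 0 := by
    have : ((2 : ℤ) : ZMod p) ≠ 0 := by
      rw [Ne, ZMod.intCast_zmod_eq_zero_iff_dvd]
      intro hd
      have := Int.le_of_dvd (by norm_num) hd
      have := hcg.c2; have := hcg.pos; omega
    simpa using this
  refine block_det_ne2 _ _ (Kp_ne_zero (fun d hd => ?_) hcg) (mul_ne_zero h2 hcne)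
    (lmq_det_ne (hl c.1 c.2).1 (hl c.1 c.2).2)
  rw [mem_Dq] at hd
  omega

end

end ZP
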