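import Pool.Agent.Lib.ZP.Defs
import Pool.Agent.Lib.Z579.M9g

/-!
# Prime sums up to `th k`

PROOF.  As the first part of `m9g` (Z579/M9g): `E := 2 mu^2 k^2`.
For `p^2 < 2 a`: `β p ≤ (E + 4 h mu k)/(p-1) + C (1 + log_p M) mu k`, `M = 2 (a + a + mu k)`; the sum of
`(1 + log_p M) log p ≤ 2 log M` over the primes `p ≤ sqrt (2 a)` is `O(sqrt k log k)`, times `mu k` is
`o(k^2)`.
For `2 a ≤ p^2`, `p ≤ th k`: `(4 mu k + 2 h)^2/(8 p) = 2 mu^2 k^2/p + 2 mu h k/p + h^2/(2 p)`,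
`1/p ≤ 1/(p-1)`; `∑ (r+1) mu k log p ≤ (r+1) mu k (th k + o(k))`, `∑ h^2/8 p log p ≤ h^2/16 (th k)^2 + o(k^2)`
(`M7b`, theorem `m7b`, with `f = x`), and `1/8 ((4 mu k + 2 h)/p + 2 h)^2 ≤ const (k^2/p^2 + 1)` with
`p ≥ sqrt (2 a) ≥ sqrt k`, so the sum times `log p` is `O(k^{3/2} log k)`.
The main terms sum to `E ∑_{p ≤ th k} log p/(p-1) ≤ E (log (th k) - c + ε)` (`MertensUB c`).
-/

open Polynomial Finset Z579

namespace ZP

/-- pointwise bound -/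
private lemma ps1_point (r h al mu th : ℕ) (C : ℝ) (hC : 0 ≤ C) (k : ℕ) (b : ℝ) (p : ℕ)
    (hp : p.Prime) (hpk : p ≤ th * k) (hth2 : th ≤ al)
    (h1 : p ^ 2 < 2 * (al * k + 1) →
      b ≤ (2 * (mu : ℝ) ^ 2 * (k : ℝ) ^ 2 + 4 * h * mu * k) / ((p : ℝ) - 1) +
        C * (1 + Nat.log p (2 * ((al * k + 1) + (al * k + 1) + mu * k))) * (mu * k))
    (h2 : 2 * (al * k + 1) ≤ p ^ 2 →
      b ≤ (r + 1) * (mu * k) + (4 * (mu : ℝ) * k + 2 * h) ^ 2 / (8 * p) +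
      (h : ℝ) ^ 2 / 8 * p + 1 / 8 * ((4 * (mu : ℝ) * k + 2 * h) / p + 2 * h) ^ 2) :
    b * Real.log p ≤ (2 * (mu : ℝ) ^ 2 * (k : ℝ) ^ 2 + 4 * h * mu * k + (h : ℝ) ^ 2) *
        (Real.log p / (p - 1)) + (r + 1) * (mu * k) * Real.log p +
      (h : ℝ) ^ 2 / 8 * (p * Real.log p) +
      (if p ≤ Nat.sqrt (2 * (al * k + 1)) then C * (mu * k) *
        (2 * Real.log ((2 * ((al * k + 1) + (al * k + 1) + mu * k) : ℕ) : ℝ)) else 0) +
      (4 * (mu : ℝ) * k + 2 * h) ^ 2 / 4 / √(2 * EM.aG al k) * (Real.log p / (p - 1)) +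
      (h : ℝ) ^ 2 * Real.log p := by
  have hk0 : (0 : ℝ) ≤ k := Nat.cast_nonneg k
  have ha := EM.aG_pos al k
  have hp2 : (2 : ℝ) ≤ p := by exact_mod_cast hp.two_le
  have hp0 : (0 : ℝ) < p := by linarith
  have hp1 : (0 : ℝ) < p - 1 := by linarith
  have hlp : 0 ≤ Real.log p := Real.log_natCast_nonneg p
  have hX0 : 0 ≤ Real.log ((2 * ((al * k + 1) + (al * k + 1) + mu * k) : ℕ) : ℝ) :=
    Real.log_natCast_nonneg _
  have hE0 : 0 ≤ 2 * (mu : ℝ) ^ 2 * (k : ℝ) ^ 2 + 4 * h * mu * k := by positivity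
  have hL0 : 0 ≤ Real.log p / ((p : ℝ) - 1) := by positivity
  have q1 : 0 ≤ ((r : ℝ) + 1) * (mu * (k : ℝ)) * Real.log p := by positivity
  have q2 : 0 ≤ (h : ℝ) ^ 2 / 8 * ((p : ℝ) * Real.log p) := by positivity
  have q3 : 0 ≤ (4 * (mu : ℝ) * k + 2 * h) ^ 2 / 4 / √(2 * EM.aG al k) *
      (Real.log p / (p - 1)) := by positivity
  have q6 : 0 ≤ (h : ℝ) ^ 2 * Real.log p := by positivity
  have q7 : 0 ≤ (h : ℝ) ^ 2 * (Real.log p / (p - 1)) := by positivity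
  set X := (2 * ((al * k + 1) + (al * k + 1) + mu * k)) with hXdef
  by_cases hc : p ^ 2 < 2 * (al * k + 1)
  · have hb := h1 hc
    have hsq : p ≤ Nat.sqrt (2 * (al * k + 1)) := by
      rw [Nat.le_sqrt]; nlinarith
    rw [if_pos hsq]
    have hXne : X ≠ 0 := by omega
    have hlogX : (Nat.log p X : ℝ) * Real.log p ≤ Real.log (X : ℝ) := by
      rw [← Real.log_pow]
      refine Real.log_le_log (pow_pos hp0 _) ?_
      exact_mod_cast Nat.pow_log_le_self p hXne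
    have hlogp : Real.log p ≤ Real.log (X : ℝ) := by
      apply Real.log_le_log hp0
      have h5 : th * k ≤ al * k := Nat.mul_le_mul_right k hth2
      have : p ≤ X := by omega
      exact_mod_cast this
    have hm := mul_le_mul_of_nonneg_right hb hlp
    have e1 : ((2 * (mu : ℝ) ^ 2 * (k : ℝ) ^ 2 + 4 * h * mu * k) / ((p : ℝ) - 1) +
        C * (1 + (Nat.log p X : ℝ)) * (mu * k)) * Real.log p =
        (2 * (mu : ℝ) ^ 2 * (k : ℝ) ^ 2 + 4 * h * mu * k) * (Real.log p / (p - 1)) +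
          C * (mu * k) * (Real.log p + (Nat.log p X : ℝ) * Real.log p) := by ring
    rw [e1] at hm
    have e2 : C * (mu * k) * (Real.log p + (Nat.log p X : ℝ) * Real.log p) ≤
        C * (mu * k) * (2 * Real.log (X : ℝ)) :=
      mul_le_mul_of_nonneg_left (by linarith) (by positivity)
    have e3 : (2 * (mu : ℝ) ^ 2 * (k : ℝ) ^ 2 + 4 * h * mu * k + (h : ℝ) ^ 2) *
        (Real.log p / (p - 1)) = (2 * (mu : ℝ) ^ 2 * (k : ℝ) ^ 2 + 4 * h * mu * k) *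
        (Real.log p / (p - 1)) + (h : ℝ) ^ 2 * (Real.log p / (p - 1)) := by ring
    rw [e3]
    linarith
  · push Not at hc
    have hb := h2 hc
    have q5 : 0 ≤ (if p ≤ Nat.sqrt (2 * (al * k + 1)) then C * (mu * (k : ℝ)) *
        (2 * Real.log (X : ℝ)) else 0) := by
      split_ifs
      · positivity
      · exact le_rfl
    have hm := mul_le_mul_of_nonneg_right hb hlp
    have hs0 : 0 < √(2 * EM.aG al k) := Real.sqrt_pos.mpr (by positivity)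
    have hsp : √(2 * EM.aG al k) ≤ p := by
      rw [Real.sqrt_le_left hp0.le]
      have : ((2 * (al * k + 1) : ℕ) : ℝ) ≤ ((p ^ 2 : ℕ) : ℝ) := by exact_mod_cast hc
      rw [EM.aG_eq]
      push_cast at this
      linarith
    set W : ℝ := (4 * (mu : ℝ) * k + 2 * h) ^ 2 with hW
    have hW0 : 0 ≤ W := by rw [hW]; positivity
    have e1 : 1 / 8 * ((4 * (mu : ℝ) * k + 2 * h) / p + 2 * h) ^ 2 ≤
        W / 4 / (p : ℝ) ^ 2 + (h : ℝ) ^ 2 := by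
      have e2 : W / 4 / (p : ℝ) ^ 2 = 1 / 4 * ((4 * (mu : ℝ) * k + 2 * h) / p) ^ 2 := by
        rw [hW, div_pow]
        ring
      rw [e2]
      nlinarith [sq_nonneg ((4 * (mu : ℝ) * k + 2 * h) / p - 2 * h)]
    have e3 : W / 4 / (p : ℝ) ^ 2 * Real.log p ≤
        W / 4 / √(2 * EM.aG al k) * (Real.log p / (p - 1)) := by
      rw [div_mul_div_comm, div_mul_eq_mul_div]
      apply div_le_div_of_nonneg_left (by positivity) (by positivity)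
      calc √(2 * EM.aG al k) * ((p : ℝ) - 1) ≤ (p : ℝ) * p :=
            mul_le_mul hsp (by linarith) hp1.le hp0.le
        _ = (p : ℝ) ^ 2 := by ring
    have e4 : W / (8 * p) * Real.log p ≤ (2 * (mu : ℝ) ^ 2 * (k : ℝ) ^ 2 + 4 * h * mu * k +
        (h : ℝ) ^ 2) * (Real.log p / (p - 1)) := by
      have e5 : W / (8 * p) ≤ (2 * (mu : ℝ) ^ 2 * (k : ℝ) ^ 2 + 4 * h * mu * k +
        (h : ℝ) ^ 2) / (p - 1) := by
        have e7 : W / (8 * p) = W / 8 / p := by rw [div_div]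
        rw [e7]
        apply div_le_div₀ (by positivity) _ hp1 (by linarith)
        have e8 : (0 : ℝ) ≤ (mu : ℝ) * k * h := by positivity
        have e9 : (0 : ℝ) ≤ (h : ℝ) ^ 2 := by positivity
        have e12 : W / 8 = 2 * (mu : ℝ) ^ 2 * (k : ℝ) ^ 2 + 2 * ((mu : ℝ) * k * h) +
            (h : ℝ) ^ 2 / 2 := by rw [hW]; ring
        have e13 : 4 * (h : ℝ) * mu * k = 4 * ((mu : ℝ) * k * h) := by ring
        rw [e12, e13]
        linarith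
      calc W / (8 * p) * Real.log p ≤ (2 * (mu : ℝ) ^ 2 * (k : ℝ) ^ 2 + 4 * h * mu * k +
          (h : ℝ) ^ 2) / (p - 1) * Real.log p := mul_le_mul_of_nonneg_right e5 hlp
        _ = _ := by ring
    have e6 := mul_le_mul_of_nonneg_right e1 hlp
    have e10 : ((r + 1) * (mu * k) + W / (8 * p) +
      (h : ℝ) ^ 2 / 8 * p + 1 / 8 * ((4 * (mu : ℝ) * k + 2 * h) / p + 2 * h) ^ 2) * Real.log p =
      (r + 1) * (mu * k) * Real.log p + W / (8 * p) * Real.log p +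
      (h : ℝ) ^ 2 / 8 * (p * Real.log p) +
      1 / 8 * ((4 * (mu : ℝ) * k + 2 * h) / p + 2 * h) ^ 2 * Real.log p := by ring
    rw [e10] at hm
    have e11 : (W / 4 / (p : ℝ) ^ 2 + (h : ℝ) ^ 2) * Real.log p =
      W / 4 / (p : ℝ) ^ 2 * Real.log p + (h : ℝ) ^ 2 * Real.log p := by ring
    rw [e11] at e6
    linarith

/-- the sum of the pointwise bounds -/
private noncomputable def ps1T (r h al mu th : ℕ) (C c : ℝ) (k : ℕ) : ℝ :=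
  (4 * (h : ℝ) * mu * k + (h : ℝ) ^ 2 + (4 * (mu : ℝ) * k + 2 * h) ^ 2 / 4 / √(2 * EM.aG al k)) *
    (Real.log ((th * k : ℕ) : ℝ) + (|c| + 1)) +
  ((r + 1) * (mu * k) + (h : ℝ) ^ 2) * Chebyshev.theta (th * k : ℕ) +
  (h : ℝ) ^ 2 / 8 * (k * PS (fun t => t) k ⌊(0 : ℝ) * k⌋₊ ⌊(th : ℝ) * k⌋₊) +
  C * (mu * k) * (Nat.sqrt (2 * (al * k + 1)) *
    (2 * Real.log ((2 * ((al * k + 1) + (al * k + 1) + mu * k) : ℕ) : ℝ)))

private lemma ps1_sum (r h al mu th : ℕ) (C c ε : ℝ) (hC : 0 ≤ C) (hε1 : ε ≤ 1) (hth2 : th ≤ al)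
    (k : ℕ) (hk : 1 ≤ k) (β : ℕ → ℝ)
    (hM : ∑ p ∈ (Finset.Icc 1 (th * k)).filter Nat.Prime, Real.log p / ((p : ℝ) - 1) ≤
      Real.log ((th * k : ℕ) : ℝ) - c + ε)
    (h1 : ∀ p : ℕ, p.Prime → p ^ 2 < 2 * (al * k + 1) →
      β p ≤ (2 * (mu : ℝ) ^ 2 * (k : ℝ) ^ 2 + 4 * h * mu * k) / ((p : ℝ) - 1) +
        C * (1 + Nat.log p (2 * ((al * k + 1) + (al * k + 1) + mu * k))) * (mu * k))
    (h2 : ∀ p : ℕ, p.Prime → 2 * (al * k + 1) ≤ p ^ 2 → p ≤ th * k →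
      β p ≤ (r + 1) * (mu * k) + (4 * (mu : ℝ) * k + 2 * h) ^ 2 / (8 * p) +
      (h : ℝ) ^ 2 / 8 * p + 1 / 8 * ((4 * (mu : ℝ) * k + 2 * h) / p + 2 * h) ^ 2) :
    ∑ p ∈ (Finset.Icc 1 (th * k)).filter Nat.Prime, β p * Real.log p ≤
      2 * (mu : ℝ) ^ 2 * (k : ℝ) ^ 2 * (Real.log ((th * k : ℕ) : ℝ) - c + ε) +
        ps1T r h al mu th C c k := by
  have hk0 : (0 : ℝ) ≤ k := Nat.cast_nonneg k
  have hk1 : (0 : ℝ) < k := by exact_mod_cast hk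
  have ha := EM.aG_pos al k
  have hIcc : Finset.Icc 1 (th * k) = Finset.Ioc 0 (th * k) := by
    ext x; simp [Nat.succ_le_iff]
  rw [hIcc] at hM ⊢
  have hth : ∑ p ∈ (Finset.Ioc 0 (th * k)).filter Nat.Prime, Real.log p =
      Chebyshev.theta (th * k : ℕ) := by
    unfold Chebyshev.theta; rw [Nat.floor_natCast]
  have hX0 : 0 ≤ Real.log ((2 * ((al * k + 1) + (al * k + 1) + mu * k) : ℕ) : ℝ) :=
    Real.log_natCast_nonneg _
  have hle := Finset.sum_le_sum (s := (Finset.Ioc 0 (th * k)).filter Nat.Prime)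
    (f := fun p : ℕ => β p * Real.log p)
    (g := fun p : ℕ => (2 * (mu : ℝ) ^ 2 * (k : ℝ) ^ 2 + 4 * h * mu * k + (h : ℝ) ^ 2) *
        (Real.log p / (p - 1)) + (r + 1) * (mu * k) * Real.log p +
      (h : ℝ) ^ 2 / 8 * (p * Real.log p) +
      (if p ≤ Nat.sqrt (2 * (al * k + 1)) then C * (mu * k) *
        (2 * Real.log ((2 * ((al * k + 1) + (al * k + 1) + mu * k) : ℕ) : ℝ)) else 0) +
      (4 * (mu : ℝ) * k + 2 * h) ^ 2 / 4 / √(2 * EM.aG al k) * (Real.log p / (p - 1)) +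
      (h : ℝ) ^ 2 * Real.log p)
    (fun p hp => by
      rw [Finset.mem_filter, Finset.mem_Ioc] at hp
      exact ps1_point r h al mu th C hC k (β p) p hp.2 hp.1.2 hth2 (h1 p hp.2)
        (fun h => h2 p hp.2 h hp.1.2))
  refine hle.trans ?_
  rw [Finset.sum_add_distrib, Finset.sum_add_distrib, Finset.sum_add_distrib,
    Finset.sum_add_distrib, Finset.sum_add_distrib, ← Finset.mul_sum, ← Finset.mul_sum,
    ← Finset.mul_sum, ← Finset.mul_sum, ← Finset.mul_sum, hth]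
  have hPS : ∑ p ∈ (Finset.Ioc 0 (th * k)).filter Nat.Prime, (p : ℝ) * Real.log p =
      k * PS (fun t => t) k ⌊(0 : ℝ) * k⌋₊ ⌊(th : ℝ) * k⌋₊ := by
    rw [zero_mul, Nat.floor_zero, EM.floor_al]
    unfold PS
    rw [Finset.mul_sum]
    refine Finset.sum_congr rfl fun p _ => ?_
    field_simp
  rw [hPS]
  have hsum1 : ∑ p ∈ (Finset.Ioc 0 (th * k)).filter Nat.Prime,
      (if p ≤ Nat.sqrt (2 * (al * k + 1)) then C * (mu * (k : ℝ)) *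
        (2 * Real.log ((2 * ((al * k + 1) + (al * k + 1) + mu * k) : ℕ) : ℝ)) else 0) ≤
      C * (mu * k) * (Nat.sqrt (2 * (al * k + 1)) *
    (2 * Real.log ((2 * ((al * k + 1) + (al * k + 1) + mu * k) : ℕ) : ℝ))) := by
    rw [← Finset.sum_filter, Finset.sum_const, nsmul_eq_mul]
    have h6 : ((Finset.Ioc 0 (th * k)).filter Nat.Prime).filter
        (fun p => p ≤ Nat.sqrt (2 * (al * k + 1))) ⊆
        Finset.Ioc 0 (Nat.sqrt (2 * (al * k + 1))) := by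
      intro p hp
      rw [Finset.mem_filter, Finset.mem_filter, Finset.mem_Ioc] at hp
      rw [Finset.mem_Ioc]
      exact ⟨hp.1.1.1, hp.2⟩
    have h7 := Finset.card_le_card h6
    rw [Nat.card_Ioc, Nat.sub_zero] at h7
    have h8 : ((((Finset.Ioc 0 (th * k)).filter Nat.Prime).filter
        (fun p => p ≤ Nat.sqrt (2 * (al * k + 1)))).card : ℝ) ≤
        Nat.sqrt (2 * (al * k + 1)) := by
      exact_mod_cast h7
    calc _ ≤ (Nat.sqrt (2 * (al * k + 1)) : ℝ) * (C * (mu * (k : ℝ)) *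
        (2 * Real.log ((2 * ((al * k + 1) + (al * k + 1) + mu * k) : ℕ) : ℝ))) :=
          mul_le_mul_of_nonneg_right h8 (by positivity)
      _ = _ := by ring
  have hM2 : ∑ p ∈ (Finset.Ioc 0 (th * k)).filter Nat.Prime,
      Real.log p / ((p : ℝ) - 1) ≤ Real.log ((th * k : ℕ) : ℝ) + (|c| + 1) := by
    have := neg_abs_le c
    linarith
  have hE := mul_le_mul_of_nonneg_left hM
    (show 0 ≤ 2 * (mu : ℝ) ^ 2 * (k : ℝ) ^ 2 by positivity)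
  have hE2 := mul_le_mul_of_nonneg_left hM2
    (show 0 ≤ 4 * (h : ℝ) * mu * k + (h : ℝ) ^ 2 +
      (4 * (mu : ℝ) * k + 2 * h) ^ 2 / 4 / √(2 * EM.aG al k) by positivity)
  set S := ∑ p ∈ (Finset.Ioc 0 (th * k)).filter Nat.Prime, Real.log p / ((p : ℝ) - 1) with hS
  unfold ps1T
  have e1 : (2 * (mu : ℝ) ^ 2 * (k : ℝ) ^ 2 + 4 * h * mu * k + (h : ℝ) ^ 2) * S +
      (4 * (mu : ℝ) * k + 2 * h) ^ 2 / 4 / √(2 * EM.aG al k) * S =
      2 * (mu : ℝ) ^ 2 * (k : ℝ) ^ 2 * S + (4 * (h : ℝ) * mu * k + (h : ℝ) ^ 2 +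
      (4 * (mu : ℝ) * k + 2 * h) ^ 2 / 4 / √(2 * EM.aG al k)) * S := by ring
  linarith

private lemma ps1_theta (th : ℕ) (hth : 1 ≤ th) :
    Filter.Tendsto (fun k : ℕ => Chebyshev.theta (th * k : ℕ) / k) Filter.atTop
      (nhds (th : ℝ)) := by
  have hth0 : (0 : ℝ) < th := by exact_mod_cast hth
  have h0 : Filter.Tendsto (fun k : ℕ => ((th * k : ℕ) : ℝ)) Filter.atTop Filter.atTop := by
    refine Filter.tendsto_atTop_mono (fun k => ?_) (tendsto_natCast_atTop_atTop (R := ℝ))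
    exact_mod_cast Nat.le_mul_of_pos_left k hth
  have h1 := (PNT.theta_tendsto.comp h0).mul_const (th : ℝ)
  rw [one_mul] at h1
  refine h1.congr' ?_
  filter_upwards [Filter.eventually_gt_atTop 0] with k hk
  have hk' : (k : ℝ) ≠ 0 := by exact_mod_cast hk.ne'
  simp only [Function.comp]
  push_cast
  field_simp

/-- an upper bound of `ps1T / k ^ 2` with the right limit -/
private noncomputable def ps1U (r h al mu th : ℕ) (C c : ℝ) (k : ℕ) : ℝ :=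
  (4 * (h : ℝ) * mu + (h : ℝ) ^ 2 * ((k : ℝ))⁻¹) *
    (Real.log ((th : ℝ) * k) / √(k : ℝ) * (√(k : ℝ))⁻¹ + (|c| + 1) * ((k : ℝ))⁻¹) +
  (4 * (mu : ℝ) + 2 * h * ((k : ℝ))⁻¹) ^ 2 / 4 *
    (Real.log ((th : ℝ) * k) / √(k : ℝ) + (|c| + 1) * (√(k : ℝ))⁻¹) +
  ((r + 1) * mu + (h : ℝ) ^ 2 * ((k : ℝ))⁻¹) * (Chebyshev.theta (th * k : ℕ) / k) +
  (h : ℝ) ^ 2 / 8 * (PS (fun t => t) k ⌊(0 : ℝ) * k⌋₊ ⌊(th : ℝ) * k⌋₊ / k) +
  (C * mu * (√(2 * (al + 1)) * 2)) * (Real.log (EM.KX al mu * k) / √(k : ℝ))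

private lemma ps1U_tendsto (r h al mu th : ℕ) (hth : 1 ≤ th) (C c : ℝ) :
    Filter.Tendsto (ps1U r h al mu th C c) Filter.atTop
      (nhds ((r + 1) * mu * th + (h : ℝ) ^ 2 * th ^ 2 / 16)) := by
  have hth0 : (0 : ℝ) < th := by exact_mod_cast hth
  have l1 := EM.tendsto_logK (th : ℝ) hth0
  have l2 := EM.tendsto_inv_sqrtk
  have l3 := EM.tendsto_invk
  have l4 := ps1_theta th hth
  have l5 := EM.m7bk 0 th (fun t => t) le_rfl hth0.le continuousOn_id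
  have l6 := EM.tendsto_logK (EM.KX al mu) (EM.KX_pos al mu)
  have i3 : ∫ t in (0 : ℝ)..th, t = (th : ℝ) ^ 2 / 2 := by
    rw [integral_id]
    ring
  rw [i3] at l5
  have t1 := ((tendsto_const_nhds (x := 4 * (h : ℝ) * mu)).add (l3.const_mul ((h : ℝ) ^ 2))).mul
    ((l1.mul l2).add (l3.const_mul (|c| + 1)))
  have t2 := ((((tendsto_const_nhds (x := 4 * (mu : ℝ))).add
    (l3.const_mul (2 * (h : ℝ)))).pow 2).div_const 4).mul (l1.add (l2.const_mul (|c| + 1)))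
  have t3 := ((tendsto_const_nhds (x := ((r : ℝ) + 1) * mu)).add
    (l3.const_mul ((h : ℝ) ^ 2))).mul l4
  have t4 := l5.const_mul ((h : ℝ) ^ 2 / 8)
  have t5 := l6.const_mul (C * mu * (√(2 * (al + 1)) * 2))
  have t := (((t1.add t2).add t3).add t4).add t5
  have e : (4 * (h : ℝ) * mu + (h : ℝ) ^ 2 * 0) * (0 * 0 + (|c| + 1) * 0) +
      (4 * (mu : ℝ) + 2 * (h : ℝ) * 0) ^ 2 / 4 * (0 + (|c| + 1) * 0) +
      (((r : ℝ) + 1) * mu + (h : ℝ) ^ 2 * 0) * th + (h : ℝ) ^ 2 / 8 * ((th : ℝ) ^ 2 / 2) +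
      (C * mu * (√(2 * (al + 1)) * 2)) * 0 =
      (r + 1) * mu * th + (h : ℝ) ^ 2 * th ^ 2 / 16 := by ring
  rw [e] at t
  exact t

private lemma ps1T_le (r h al mu th : ℕ) (hal : 1 ≤ al) (hth : 1 ≤ th) (C c : ℝ) (hC : 0 ≤ C)
    (k : ℕ) (hk : 1 ≤ k) :
    ps1T r h al mu th C c k ≤ (k : ℝ) ^ 2 * ps1U r h al mu th C c k := by
  have hth0 : (0 : ℝ) < th := by exact_mod_cast hth
  have hk' : (1 : ℝ) ≤ k := by exact_mod_cast hk
  have hk0 : (0 : ℝ) < k := by linarith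
  have hs : 0 < √(k : ℝ) := Real.sqrt_pos.mpr hk0
  have hsq : √(k : ℝ) * √(k : ℝ) = k := Real.mul_self_sqrt hk0.le
  have ha := EM.aG_pos al k
  have hlogth : 0 ≤ Real.log ((th : ℝ) * k) := by
    apply Real.log_nonneg
    have : (1 : ℝ) ≤ th := by exact_mod_cast hth
    nlinarith
  have hcast : ((th * k : ℕ) : ℝ) = (th : ℝ) * k := by push_cast; ring
  -- the five terms
  have a1 : (4 * (h : ℝ) * mu * k + (h : ℝ) ^ 2) * (Real.log ((th : ℝ) * k) + (|c| + 1)) =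
      (k : ℝ) ^ 2 * ((4 * (h : ℝ) * mu + (h : ℝ) ^ 2 * ((k : ℝ))⁻¹) *
    (Real.log ((th : ℝ) * k) / √(k : ℝ) * (√(k : ℝ))⁻¹ + (|c| + 1) * ((k : ℝ))⁻¹)) := by
    have e1 : Real.log ((th : ℝ) * k) / √(k : ℝ) * (√(k : ℝ))⁻¹ =
        Real.log ((th : ℝ) * k) * ((k : ℝ))⁻¹ := by
      rw [div_eq_mul_inv, mul_assoc, ← mul_inv, hsq]
    rw [e1]
    field_simp
  have a2 : (4 * (mu : ℝ) * k + 2 * h) ^ 2 / 4 / √(2 * EM.aG al k) *
      (Real.log ((th : ℝ) * k) + (|c| + 1)) ≤ (k : ℝ) ^ 2 *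
      ((4 * (mu : ℝ) + 2 * h * ((k : ℝ))⁻¹) ^ 2 / 4 *
    (Real.log ((th : ℝ) * k) / √(k : ℝ) + (|c| + 1) * (√(k : ℝ))⁻¹)) := by
    have hsqa : √(k : ℝ) ≤ √(2 * EM.aG al k) := by
      apply Real.sqrt_le_sqrt
      have := EM.le_aG al k hal
      linarith
    have e1 : (4 * (mu : ℝ) * k + 2 * h) ^ 2 / 4 / √(2 * EM.aG al k) ≤
        (4 * (mu : ℝ) * k + 2 * h) ^ 2 / 4 / √(k : ℝ) :=
      div_le_div_of_nonneg_left (by positivity) hs hsqa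
    refine (mul_le_mul_of_nonneg_right e1 (by positivity)).trans (le_of_eq ?_)
    field_simp
  have a3 : ((r + 1) * (mu * (k : ℝ)) + (h : ℝ) ^ 2) * Chebyshev.theta (th * k : ℕ) =
      (k : ℝ) ^ 2 * (((r + 1) * mu + (h : ℝ) ^ 2 * ((k : ℝ))⁻¹) *
        (Chebyshev.theta (th * k : ℕ) / k)) := by
    field_simp
  have a4 : (h : ℝ) ^ 2 / 8 * (k * PS (fun t => t) k ⌊(0 : ℝ) * k⌋₊ ⌊(th : ℝ) * k⌋₊) =
      (k : ℝ) ^ 2 * ((h : ℝ) ^ 2 / 8 *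
        (PS (fun t => t) k ⌊(0 : ℝ) * k⌋₊ ⌊(th : ℝ) * k⌋₊ / k)) := by
    field_simp
  have a5 : C * (mu * k) * (Nat.sqrt (2 * (al * k + 1)) *
      (2 * Real.log ((2 * ((al * k + 1) + (al * k + 1) + mu * k) : ℕ) : ℝ))) ≤
      (k : ℝ) ^ 2 * ((C * mu * (√(2 * (al + 1)) * 2)) *
        (Real.log (EM.KX al mu * k) / √(k : ℝ))) := by
    have hlog := EM.log_X_le al mu k hk
    have hlog0 : 0 ≤ Real.log ((2 * ((al * k + 1) + (al * k + 1) + mu * k) : ℕ) : ℝ) :=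
      Real.log_natCast_nonneg _
    have hsqrt : (Nat.sqrt (2 * (al * k + 1)) : ℝ) ≤ √(2 * (al + 1)) * √(k : ℝ) := by
      rw [← Real.sqrt_mul (by positivity)]
      refine Real.nat_sqrt_le_real_sqrt.trans (Real.sqrt_le_sqrt ?_)
      push_cast
      nlinarith
    have t1 : C * (mu * k) * (Nat.sqrt (2 * (al * k + 1)) *
        (2 * Real.log ((2 * ((al * k + 1) + (al * k + 1) + mu * k) : ℕ) : ℝ))) ≤
        C * (mu * k) * ((√(2 * (al + 1)) * √(k : ℝ)) * (2 * Real.log (EM.KX al mu * k))) := by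
      apply mul_le_mul_of_nonneg_left _ (by positivity)
      exact mul_le_mul hsqrt (by linarith) (by positivity) (by positivity)
    refine t1.trans (le_of_eq ?_)
    have : (k : ℝ) ^ 2 = k * (√(k : ℝ) * √(k : ℝ)) := by rw [hsq]; ring
    rw [this]
    field_simp
  unfold ps1T ps1U
  rw [hcast]
  have e : (4 * (h : ℝ) * mu * k + (h : ℝ) ^ 2 +
      (4 * (mu : ℝ) * k + 2 * h) ^ 2 / 4 / √(2 * EM.aG al k)) *
      (Real.log ((th : ℝ) * k) + (|c| + 1)) =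
      (4 * (h : ℝ) * mu * k + (h : ℝ) ^ 2) * (Real.log ((th : ℝ) * k) + (|c| + 1)) +
      (4 * (mu : ℝ) * k + 2 * h) ^ 2 / 4 / √(2 * EM.aG al k) *
      (Real.log ((th : ℝ) * k) + (|c| + 1)) := by ring
  rw [e, a1, a4]
  rw [hcast] at a3
  rw [a3]
  rw [mul_add, mul_add, mul_add, mul_add]
  linarith

/-- primes up to `th k` -/
theorem ps1' {P : Pf} {th : ℕ} (hth : 1 ≤ th) (hth2 : th ≤ P.al) (c : ℝ)
    (hc : EM.MertensUB c) (C δ : ℝ) (hC : 0 ≤ C) (hδ : 0 < δ) :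
    ∃ k0 : ℕ, ∀ k : ℕ, k0 ≤ k → ∀ β : ℕ → ℝ,
  (∀ p : ℕ, p.Prime → p ^ 2 < 2 * aa P k →
    β p ≤ (2 * (P.mu : ℝ) ^ 2 * (k : ℝ) ^ 2 + 4 * P.h * P.mu * k) / ((p : ℝ) - 1) +
      C * (1 + Nat.log p (2 * (aa P k + aa P k + P.mu * k))) * (P.mu * k)) →
  (∀ p : ℕ, p.Prime → 2 * aa P k ≤ p ^ 2 → p ≤ th * k →
    β p ≤ (P.r + 1) * (P.mu * k) + (4 * (P.mu : ℝ) * k + 2 * P.h) ^ 2 / (8 * p) +
      (P.h : ℝ) ^ 2 / 8 * p + 1 / 8 * ((4 * (P.mu : ℝ) * k + 2 * P.h) / p + 2 * P.h) ^ 2) →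
  ∑ p ∈ (Finset.Icc 1 (th * k)).filter Nat.Prime, β p * Real.log p ≤
    (k : ℝ) ^ 2 * (2 * (P.mu : ℝ) ^ 2 * (Real.log k + Real.log th - c) + (P.r + 1) * P.mu * th +
      (P.h : ℝ) ^ 2 * th ^ 2 / 16 + δ) := by
  have hal : 1 ≤ P.al := hth.trans hth2
  have hth0 : (0 : ℝ) < th := by exact_mod_cast hth
  obtain ⟨ε, hε, hε1, hεE⟩ : ∃ ε : ℝ, 0 < ε ∧ ε ≤ 1 ∧ ε * (2 * (P.mu : ℝ) ^ 2) ≤ δ / 2 := by
    have hE : (0 : ℝ) ≤ 2 * (P.mu : ℝ) ^ 2 := by positivity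
    refine ⟨min 1 (δ / 2 / (2 * (P.mu : ℝ) ^ 2 + 1)), lt_min one_pos (by positivity),
      min_le_left _ _, ?_⟩
    calc min 1 (δ / 2 / (2 * (P.mu : ℝ) ^ 2 + 1)) * (2 * (P.mu : ℝ) ^ 2) ≤
          δ / 2 / (2 * (P.mu : ℝ) ^ 2 + 1) * (2 * (P.mu : ℝ) ^ 2) :=
          mul_le_mul_of_nonneg_right (min_le_right _ _) hE
      _ ≤ δ / 2 / (2 * (P.mu : ℝ) ^ 2 + 1) * (2 * (P.mu : ℝ) ^ 2 + 1) :=
          mul_le_mul_of_nonneg_left (by linarith) (by positivity)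
      _ = δ / 2 := by field_simp
  have hlim := ps1U_tendsto P.r P.h P.al P.mu th hth C c
  have hev := hlim.eventually_le_const
    (show (P.r + 1 : ℝ) * P.mu * th + (P.h : ℝ) ^ 2 * th ^ 2 / 16 <
      (P.r + 1 : ℝ) * P.mu * th + (P.h : ℝ) ^ 2 * th ^ 2 / 16 + δ / 2 by linarith)
  rw [Filter.eventually_atTop] at hev
  obtain ⟨n₁, hn₁⟩ := hev
  obtain ⟨n₂, hn₂⟩ := hc ε hε
  refine ⟨max n₁ (max n₂ 1), fun k hk β h1 h2 => ?_⟩
  have hk1 : n₁ ≤ k := (le_max_left _ _).trans hk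
  have hk2 : n₂ ≤ k := ((le_max_left _ _).trans (le_max_right _ _)).trans hk
  have hk3 : 1 ≤ k := ((le_max_right _ _).trans (le_max_right _ _)).trans hk
  have hk0 : (0 : ℝ) < k := by exact_mod_cast hk3
  have hM := hn₂ (th * k) (hk2.trans (Nat.le_mul_of_pos_left k hth))
  have s1 := ps1_sum P.r P.h P.al P.mu th C c ε hC hε1 hth2 k hk3 β hM h1 h2
  have s2 := ps1T_le P.r P.h P.al P.mu th hal hth C c hC k hk3
  have s3 := mul_le_mul_of_nonneg_left (hn₁ k hk1) (show (0 : ℝ) ≤ (k : ℝ) ^ 2 by positivity)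
  have s4 := mul_le_mul_of_nonneg_left hεE (show (0 : ℝ) ≤ (k : ℝ) ^ 2 by positivity)
  have e1 : Real.log ((th * k : ℕ) : ℝ) = Real.log k + Real.log th := by
    push_cast
    rw [Real.log_mul hth0.ne' hk0.ne']
    ring
  rw [e1] at s1
  have e2 : 2 * (P.mu : ℝ) ^ 2 * (k : ℝ) ^ 2 * (Real.log k + Real.log th - c + ε) =
      (k : ℝ) ^ 2 * (2 * (P.mu : ℝ) ^ 2 * (Real.log k + Real.log th - c)) +
      (k : ℝ) ^ 2 * (ε * (2 * (P.mu : ℝ) ^ 2)) := by ring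
  rw [e2] at s1
  have e3 : (k : ℝ) ^ 2 * (2 * (P.mu : ℝ) ^ 2 * (Real.log k + Real.log th - c) +
      (P.r + 1) * P.mu * th + (P.h : ℝ) ^ 2 * th ^ 2 / 16 + δ) =
      (k : ℝ) ^ 2 * (2 * (P.mu : ℝ) ^ 2 * (Real.log k + Real.log th - c)) +
      (k : ℝ) ^ 2 * ((P.r + 1 : ℝ) * P.mu * th + (P.h : ℝ) ^ 2 * th ^ 2 / 16 + δ / 2) +
      (k : ℝ) ^ 2 * (δ / 2) := by ring
  rw [e3]
  linarith

/-- primes up to `th k` -/
theorem ps1 {P : Pf} (hP : P.Ok) {th : ℕ} (hth : 1 ≤ th) (hth2 : th ≤ P.al) (c : ℝ)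
    (hc : EM.MertensUB c) (C δ : ℝ) (hC : 0 ≤ C) (hδ : 0 < δ) :
    ∃ k0 : ℕ, ∀ k : ℕ, k0 ≤ k → ∀ β : ℕ → ℝ,
  (∀ p : ℕ, p.Prime → p ^ 2 < 2 * aa P k →
    β p ≤ (2 * (P.mu : ℝ) ^ 2 * (k : ℝ) ^ 2 + 4 * P.h * P.mu * k) / ((p : ℝ) - 1) +
      C * (1 + Nat.log p (2 * (aa P k + aa P k + P.mu * k))) * (P.mu * k)) →
  (∀ p : ℕ, p.Prime → 2 * aa P k ≤ p ^ 2 → p ≤ th * k →
    β p ≤ (P.r + 1) * (P.mu * k) + (4 * (P.mu : ℝ) * k + 2 * P.h) ^ 2 / (8 * p) +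
      (P.h : ℝ) ^ 2 / 8 * p + 1 / 8 * ((4 * (P.mu : ℝ) * k + 2 * P.h) / p + 2 * P.h) ^ 2) →
  ∑ p ∈ (Finset.Icc 1 (th * k)).filter Nat.Prime, β p * Real.log p ≤
    (k : ℝ) ^ 2 * (2 * (P.mu : ℝ) ^ 2 * (Real.log k + Real.log th - c) + (P.r + 1) * P.mu * th +
      (P.h : ℝ) ^ 2 * th ^ 2 / 16 + δ) :=
  ps1' hth hth2 c hc C δ hC hδ

end ZP
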