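import Pool.Agent.Lib.ZP.Defs

/-!
# Continuity and integrals of `f3`, `f4`

PROOF.  `max 0 (s - t x)` has the primitive `- pp (s - t x) / (2 t)` (`pp y = (max 0 y)^2` is
differentiable with derivative `2 max 0 y`: for `y ≠ 0` locally `y^2` or `0`, at `0` by the bound
`0 ≤ pp y ≤ y^2`; or use `pp y = (y * |y| + y^2)/2`).  Everything else is linearity
(`intervalIntegral.integral_finset_sum`, continuity by `fun_prop`/`continuity`).
-/

open Polynomial Finset Z579

namespace ZP

private lemma hasDerivAt_pp (y : ℝ) : HasDerivAt pp (2 * max 0 y) y := by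
  rcases lt_trichotomy y 0 with h | h | h
  · rw [max_eq_left h.le, mul_zero]
    refine (hasDerivAt_const y (0 : ℝ)).congr_of_eventuallyEq ?_
    filter_upwards [Iio_mem_nhds h] with z hz
    rw [Set.mem_Iio] at hz
    unfold pp
    rw [max_eq_left hz.le]
    norm_num
  · subst h
    rw [max_self, mul_zero, hasDerivAt_iff_isLittleO]
    have h0 : pp 0 = 0 := by unfold pp; simp
    simp only [h0, sub_zero, smul_zero]
    refine Asymptotics.IsBigO.trans_isLittleO (g := fun x : ℝ => x ^ 2) ?_ ?_
    · refine Asymptotics.IsBigO.of_bound 1 (Filter.Eventually.of_forall fun x => ?_)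
      rw [one_mul, Real.norm_eq_abs, Real.norm_eq_abs, abs_of_nonneg (sq_nonneg x)]
      unfold pp
      rw [abs_of_nonneg (sq_nonneg _)]
      rcases le_total 0 x with hx | hx
      · rw [max_eq_right hx]
      · rw [max_eq_left hx]
        nlinarith [sq_nonneg x]
    · exact Asymptotics.isLittleO_pow_id one_lt_two
  · rw [max_eq_right h.le]
    have h1 : HasDerivAt (fun z : ℝ => z ^ 2) (2 * y) y := by
      simpa using hasDerivAt_pow 2 y
    refine h1.congr_of_eventuallyEq ?_
    filter_upwards [Ioi_mem_nhds h] with z hz
    rw [Set.mem_Ioi] at hz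
    unfold pp
    rw [max_eq_right hz.le]

lemma int_pos {t : ℝ} (ht : 0 < t) (s A B : ℝ) :
    ∫ x in A..B, max 0 (s - t * x) = (pp (s - t * A) - pp (s - t * B)) / (2 * t) := by
  have h1 : ∀ x ∈ Set.uIcc A B, HasDerivAt (fun x => - pp (s - t * x) / (2 * t))
      (max 0 (s - t * x)) x := by
    intro x _
    have h2 : HasDerivAt (fun x => s - t * x) (- t) x := by
      have h3 := ((hasDerivAt_id x).const_mul t).const_sub s
      simpa using h3
    have h3 := (hasDerivAt_pp (s - t * x)).comp x h2
    have h4 := (h3.neg).div_const (2 * t)
    have h5 : -(2 * max 0 (s - t * x) * -t) / (2 * t) = max 0 (s - t * x) := by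
      field_simp
    rw [h5] at h4
    exact h4
  rw [intervalIntegral.integral_eq_sub_of_hasDerivAt h1
    (Continuous.intervalIntegrable (by fun_prop) _ _)]
  ring

private lemma int_pos1 (s A B : ℝ) :
    ∫ x in A..B, max 0 (s - x) = (pp (s - A) - pp (s - B)) / 2 := by
  have h := int_pos one_pos s A B
  simpa only [one_mul, mul_one] using h

lemma f3_cont (P : Pf) (T : ℕ) : Continuous (f3 P T) := by
  unfold f3
  fun_prop

lemma f4_cont (P : Pf) (l : ℝ) : Continuous (f4 P l) := by
  unfold f4
  fun_prop

lemma int_f3 (P : Pf) (T : ℕ) (A B : ℝ) : ∫ x in A..B, f3 P T x = F3 P T A B := by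
  unfold f3 F3
  rw [intervalIntegral.integral_finsetSum]
  swap
  · intro i _
    exact Continuous.intervalIntegrable (by fun_prop) _ _
  refine Finset.sum_congr rfl fun i _ => ?_
  rw [intervalIntegral.integral_finsetSum]
  swap
  · intro i _
    exact Continuous.intervalIntegrable (by fun_prop) _ _
  refine Finset.sum_congr rfl fun j _ => ?_
  rw [intervalIntegral.integral_add, intervalIntegral.integral_const, smul_eq_mul,
    mul_comm (B - A), intervalIntegral.integral_finsetSum]
  · congr 1
    refine Finset.sum_congr rfl fun t ht => ?_
    rw [Finset.mem_Icc] at ht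
    have ht0 : (0 : ℝ) < t := by exact_mod_cast ht.1
    exact int_pos ht0 _ _ _
  · intro i _
    exact Continuous.intervalIntegrable (by fun_prop) _ _
  · exact Continuous.intervalIntegrable (by fun_prop) _ _
  · exact Continuous.intervalIntegrable (by fun_prop) _ _

lemma int_f4 (P : Pf) (l A B : ℝ) : ∫ x in A..B, f4 P l x = F4 P l A B := by
  unfold f4 F4
  rw [intervalIntegral.integral_add, intervalIntegral.integral_add]
  · congr 1
    · congr 1
      · rw [intervalIntegral.integral_finsetSum]
        swap
        · intro i _
          exact Continuous.intervalIntegrable (by fun_prop) _ _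
        refine Finset.sum_congr rfl fun i _ => ?_
        rw [intervalIntegral.integral_finsetSum]
        swap
        · intro i _
          exact Continuous.intervalIntegrable (by fun_prop) _ _
        refine Finset.sum_congr rfl fun j _ => ?_
        rw [intervalIntegral.integral_add, int_pos1, int_pos1]
        · exact Continuous.intervalIntegrable (by fun_prop) _ _
        · exact Continuous.intervalIntegrable (by fun_prop) _ _
      · rw [intervalIntegral.integral_const_mul, intervalIntegral.integral_finsetSum]
        · congr 1
          exact Finset.sum_congr rfl fun i _ => int_pos1 _ _ _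
        · intro i _
          exact Continuous.intervalIntegrable (by fun_prop) _ _
    · rw [intervalIntegral.integral_const_mul, intervalIntegral.integral_sub,
        intervalIntegral.integral_const, integral_id, smul_eq_mul]
      · ring
      · exact Continuous.intervalIntegrable (by fun_prop) _ _
      · exact Continuous.intervalIntegrable (by fun_prop) _ _
  all_goals exact Continuous.intervalIntegrable (by fun_prop) _ _

end ZP
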