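import Pool.Agent.Lib.ZP.TDefs
import Pool.Agent.Lib.ZP.Main

/-!
# Assembly for the functionals with a pole profile, truncated class costs
-/

open Polynomial Finset Z579

namespace ZP

theorem no_zT {P : Pf} (hal1 : 1 ≤ P.al) {A0 : ℝ} (hA : ArchP P A0) (hNV : NonVan P)
    (hS : SmallP P) (hcA : ClassA P) (hcT : ClassT P) (hcC : ClassC P) (hc2 : CntII P)
    {th T : ℕ} (hc3 : CntIII P th T) (hct : CntT P) {Ls : ℕ → ℕ} {c : ℝ}
    (hps : PSumT P th T Ls) (hc : EM.MertensUB c) (hth : 1 ≤ th)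
    (htot : A0 + PPT P th T Ls c < 0) (z : ℕ → ℚ) (hz : IsZ P.r P.q z) : False := by
  obtain ⟨Q, hQ1, hQz, hQden⟩ := exists_den hz
  have hVQ : ∀ p : ℕ, p.Prime → ∀ s, VG p 0 ((Q : ℚ) * z s) := by
    intro p hp s
    have : Fact p.Prime := ⟨hp⟩
    obtain ⟨k, hk⟩ := hQz s
    rw [hk]
    exact VG.int k
  set δ : ℝ := -(A0 + PPT P th T Ls c) / 4 with hδ
  have hδ0 : 0 < δ := by rw [hδ]; linarith
  obtain ⟨C1, hC1, hS1⟩ := hS
  obtain ⟨C3, hC3, hc3'⟩ := hc3
  set C4 : ℝ := ∑ j ∈ Finset.Ico P.al (2 * P.al), (WW P (Ls j) (j + 1) : ℝ) with hC4def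
  have hC4 : 0 ≤ C4 := Finset.sum_nonneg fun j _ => Nat.cast_nonneg _
  set C : ℝ := C1 + C3 + C4 with hCdef
  have hC0 : 0 ≤ C := by positivity
  obtain ⟨n9, h9'⟩ := hps c hc C δ hC0 hδ0
  obtain ⟨n10, h10⟩ := hA δ hδ0
  obtain ⟨p8, h8⟩ := hNV
  obtain ⟨n11, hn11⟩ := exists_nat_gt (P.mu * Real.log Q / δ)
  have hal0 : P.al ≠ 0 := by omega
  obtain ⟨Pp, hPp, hPlt, hPmod⟩ := Nat.exists_prime_gt_modEq_one (k := P.al)
    (p8 + Q + P.al * (n9 + n10 + n11 + 4 + 2 * P.al) + 4) hal0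
  obtain ⟨k, hk⟩ : ∃ k, Pp = P.al * k + 1 := by
    have h : 1 ≤ Pp := hPp.one_le
    have h2 : P.al ∣ Pp - 1 := (Nat.modEq_iff_dvd' h).1 hPmod.symm
    obtain ⟨k, hk⟩ := h2
    exact ⟨k, by omega⟩
  have hkbig : n9 + n10 + n11 + 4 + 2 * P.al ≤ k := by
    by_contra hcon
    push Not at hcon
    have : P.al * k ≤ P.al * (n9 + n10 + n11 + 4 + 2 * P.al) := Nat.mul_le_mul_left _ hcon.le
    omega
  have hn9 : n9 ≤ k := by omega
  have hn10 : n10 ≤ k := by omega
  have hn11' : n11 ≤ k := by omega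
  have hk1 : 4 ≤ k := by omega
  have hPa : Pp = aa P k := hk
  have hak : k + 1 ≤ aa P k := by
    have := Nat.mul_le_mul_right k hal1
    rw [aa]
    omega
  -- nonvanishing
  have hne1 : DD P k 1 z ≠ 0 := by
    rw [hPa] at hPp hPlt
    refine h8 k z (by omega) hPp ?_
    intro s
    have : Fact (aa P k).Prime := ⟨hPp⟩
    by_cases h0 : z s = 0
    · exact Or.inl h0
    · right
      have hnd : ¬ aa P k ∣ (z s).den := by
        intro hd
        have := Nat.le_of_dvd hQ1 (hd.trans (hQden s))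
        omega
      have : 0 ≤ padicValRat (aa P k) (z s) := by
        rw [padicValRat_def, padicValNat.eq_zero_of_not_dvd hnd]
        simp
      exact_mod_cast this
  set D : ℚ := DD P k Q z with hD
  have hDeq : D = (Q : ℚ) ^ (P.mu * k) * DD P k 1 z := DD_Q P k Q z
  have hQ0 : (Q : ℚ) ≠ 0 := by
    have : Q ≠ 0 := by omega
    exact_mod_cast this
  have hD0 : D ≠ 0 := by
    rw [hDeq]
    exact mul_ne_zero (pow_ne_zero _ hQ0) hne1
  have hkr : (4 : ℝ) ≤ k := by exact_mod_cast hk1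
  have hk0 : (0 : ℝ) < k := by linarith
  -- archimedean bound
  have hlogD : Real.log |((D : ℚ) : ℝ)| ≤ δ * k ^ 2 +
      k ^ 2 * (-(2 * (P.mu : ℝ) ^ 2) * Real.log k + A0 + δ) := by
    have harch := h10 k hn10 z hz
    have hDabs : |((D : ℚ) : ℝ)| ≤ (Q : ℝ) ^ (P.mu * k) *
        Real.exp (k ^ 2 * (-(2 * (P.mu : ℝ) ^ 2) * Real.log k + A0 + δ)) := by
      rw [hDeq]
      push_cast
      rw [abs_mul, abs_of_nonneg (by positivity : (0 : ℝ) ≤ (Q : ℝ) ^ (P.mu * k))]
      exact mul_le_mul_of_nonneg_left harch (by positivity)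
    have hDpos : 0 < |((D : ℚ) : ℝ)| := by
      rw [abs_pos]; exact_mod_cast hD0
    have hlog := Real.log_le_log hDpos hDabs
    have hQr : (Q : ℝ) ≠ 0 := by exact_mod_cast hQ0
    rw [Real.log_mul (pow_ne_zero _ hQr) (Real.exp_pos _).ne', Real.log_exp, Real.log_pow] at hlog
    push_cast at hlog
    have h12 : P.mu * Real.log Q ≤ δ * k := by
      have h13 : (n11 : ℝ) ≤ k := by exact_mod_cast hn11'
      have h14 := hn11.le.trans h13
      rw [div_le_iff₀ hδ0] at h14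
      linarith
    have h15 := mul_le_mul_of_nonneg_left h12 hk0.le
    nlinarith [hlog, h15]
  -- p-adic bound
  have hden := log_abs_ge D hD0 (2 * aa P k) (by
    intro p hp hpa
    have : Fact p.Prime := ⟨hp⟩
    refine hcC p k (P.mu * k) _ hp (by omega) ?_
    intro u hu i _ _
    refine VG_wt_zero (hVQ p hp) ?_
    rw [mem_pc] at hu
    omega)
  have hpadic := h9' k hn9 (fun p => (D.den.factorization p : ℝ)) ?_ ?_ ?_ ?_ ?_
  · have h12 : (∑ p ∈ (Finset.Icc 1 (2 * aa P k)).filter Nat.Prime,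
        (D.den.factorization p : ℝ) * Real.log p) ≤
        (k : ℝ) ^ 2 * (2 * (P.mu : ℝ) ^ 2 * Real.log k + PPT P th T Ls c + δ) := hpadic
    have h13 : (0 : ℝ) < k ^ 2 := by positivity
    have h14 : (k : ℝ) ^ 2 * (A0 + PPT P th T Ls c + 3 * δ) < 0 := by
      refine mul_neg_of_pos_of_neg h13 ?_
      rw [hδ]; linarith
    nlinarith [h12, h14, hden, hlogD]
  · -- small primes
    intro p hp hp2
    have : Fact p.Prime := ⟨hp⟩
    have hp1 : (0 : ℝ) < (p : ℝ) - 1 := by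
      have : (1 : ℝ) < p := by exact_mod_cast hp.one_lt
      linarith
    refine fact_le_of_VG hp hD0 (by positivity) ?_
    have key := hS1 p k (wt P.r (aa P k) Q z) hp (by omega) (by
      intro u hu i _ _
      refine VG_wt_gen (hVQ p hp) ?_
      apply Nat.log_mono_right
      rw [mem_pc] at hu
      omega)
    refine key.mono ?_
    have h1 : C1 * (1 + (Nat.log p (2 * (aa P k + aa P k + P.mu * k)) : ℝ)) * (P.mu * k) ≤
        C * (1 + (Nat.log p (2 * (aa P k + aa P k + P.mu * k)) : ℝ)) * (P.mu * k) := by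
      have h2 : C1 ≤ C := by rw [hCdef]; linarith
      gcongr
    linarith
  · -- primes up to th k
    intro p hp hpa hp2
    have : Fact p.Prime := ⟨hp⟩
    have hp0 : (0 : ℝ) < (p : ℝ) := by exact_mod_cast hp.pos
    refine fact_le_of_VG hp hD0 (by positivity) ?_
    have hpne : p ≠ 2 := by
      rintro rfl
      omega
    have key := hcA p k (P.mu * k) (wt P.r (aa P k) Q z) (P.r + 1) hp hpne hpa (by
      intro u hu i _ _
      exact VG_wt_one (hVQ p hp) hu (by omega))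
    refine key.mono ?_
    have h1 := hc2 p k hp hpne
    have h2 : ∑ c ∈ Ip p, ((SS P k p c : ℝ) + P.r + 1 - (P.r + 1)) ^ 2 =
        ∑ c ∈ Ip p, (SS P k p c : ℝ) ^ 2 := by
      refine Finset.sum_congr rfl fun c _ => ?_
      congr 1; ring
    rw [h2]
    have h3 : (4 * (P.mu : ℝ) * k + 2 * P.h) ^ 2 / (8 * p) =
        1 / 8 * ((4 * (P.mu : ℝ) * k + 2 * P.h) ^ 2 / p) := by
      field_simp
    rw [h3]
    push_cast
    linarith
  · -- primes up to a
    intro p hp hp1 hp2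
    have : Fact p.Prime := ⟨hp⟩
    have hkp : k < p := by
      have := Nat.mul_le_mul_right k hth
      omega
    have hpne : p ≠ 2 := by
      rintro rfl
      omega
    have hsq : 2 * aa P k ≤ p ^ 2 := by
      have h1 : (k + 1) * (k + 1) ≤ p * p := Nat.mul_le_mul hkp hkp
      have h2 : (k + 1) * (2 * P.al + 2) ≤ (k + 1) * (k + 1) := Nat.mul_le_mul_left _ (by omega)
      have h3 : (k + 1) * (2 * P.al + 2) = 2 * (P.al * k) + 2 * k + 2 * P.al + 2 := by ring
      rw [aa, sq]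
      omega
    have key := hcA p k (P.mu * k) (wt P.r (aa P k) Q z) (P.r + 1) hp hpne hsq (by
      intro u hu i _ _
      exact VG_wt_one (hVQ p hp) hu (by omega))
    have h2 : ∑ c ∈ Ip p, ((SS P k p c : ℝ) + P.r + 1 - (P.r + 1)) ^ 2 =
        ∑ c ∈ Ip p, (SS P k p c : ℝ) ^ 2 := by
      refine Finset.sum_congr rfl fun c _ => ?_
      congr 1; ring
    rw [h2] at key
    have h1 := hc3' p k hp hpne (by omega) (by omega)
    have h5 : (0 : ℝ) ≤ 1 / 4 * ∑ c ∈ Ip p, (SS P k p c : ℝ) ^ 2 := by positivity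
    have h6 : C3 ≤ C := by rw [hCdef]; linarith
    refine fact_le_of_VG hp hD0 ?_ (key.mono ?_)
    · have : (0 : ℝ) ≤ ((P.r : ℝ) + 1) * (P.mu * k) := by positivity
      linarith
    · push_cast
      linarith
  · -- a < p ≤ 2 al k
    intro j hj p hp hpa hp1 hp2
    have : Fact p.Prime := ⟨hp⟩
    have hpne : p ≠ 2 := by
      rintro rfl
      omega
    have hj' := Finset.mem_Ico.1 hj
    have hsq : 2 * aa P k ≤ p ^ 2 := by nlinarith
    have key := hcT p k (P.mu * k) (Ls j) Q z hp hpne hsq (by omega) (hVQ p hp)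
    have h1 := hct (Ls j) p k j hp hpne hj'.1 hj'.2 hp1 hp2 (by omega)
    have h2 : (WW P (Ls j) (j + 1) : ℝ) ≤ C4 := by
      rw [hC4def]
      exact Finset.single_le_sum (f := fun j => (WW P (Ls j) (j + 1) : ℝ))
        (fun j _ => Nat.cast_nonneg _) hj
    have h3 : C4 ≤ C := by rw [hCdef]; linarith
    have h4 : (0 : ℝ) ≤ (WW P (Ls j) (j + 2) : ℝ) := Nat.cast_nonneg _
    have h4' : (0 : ℝ) ≤ (WW P (Ls j) (j + 1) : ℝ) := Nat.cast_nonneg _
    have hp1' : (0 : ℝ) ≤ (p : ℝ) - j * k := by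
      have : ((j * k : ℕ) : ℝ) ≤ (p : ℝ) := by exact_mod_cast hp1.le
      push_cast at this
      linarith
    have hp2' : (0 : ℝ) ≤ ((j : ℝ) + 1) * k - p := by
      have : (p : ℝ) ≤ (((j + 1) * k : ℕ) : ℝ) := by exact_mod_cast hp2
      push_cast at this
      linarith
    have h5 : (0 : ℝ) ≤ ((p : ℝ) - j * k) * WW P (Ls j) (j + 2) := mul_nonneg hp1' h4
    have h6 : (0 : ℝ) ≤ (((j : ℝ) + 1) * k - p) * WW P (Ls j) (j + 1) := mul_nonneg hp2' h4'
    have h7 : (0 : ℝ) ≤ (Ls j : ℝ) * (P.mu * k) := by positivity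
    refine fact_le_of_VG hp hD0 (by linarith) (key.mono ?_)
    push_cast
    nlinarith [h1, h2, h3, h4, h4']
  · -- 2 al k < p ≤ 2 a
    intro p hp hpa hp2
    have : Fact p.Prime := ⟨hp⟩
    have hpc : 2 * aa P k ≤ p + 1 := by
      rw [aa]
      have : 2 * P.al * k = 2 * (P.al * k) := by ring
      omega
    have key := hcC p k (P.mu * k) (wt P.r (aa P k) Q z) hp hpc (by
      intro u hu i _ _
      refine VG_wt_zero (hVQ p hp) ?_
      rw [mem_pc] at hu
      rw [aa] at hu ⊢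
      have : 2 * P.al * k = 2 * (P.al * k) := by ring
      omega)
    refine fact_le_of_VG hp hD0 hC0 (key.mono ?_)
    linarith

end ZP
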