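import Pool.Agent.Lib.ZP.TDefs
import Pool.Agent.Lib.Z579.Main

/-!
# The singular part of the weights at the inner member of a saturated class
-/

open Polynomial Finset Z579

namespace ZP

lemma lin_ne {c : ℤ} (hc : c ≠ 0) : PowerSeries.constantCoeff (lin c) ≠ 0 := by
  rw [constantCoeff_lin]
  exact_mod_cast hc

lemma lin_mul_inv {c : ℤ} (hc : c ≠ 0) : lin c * (lin c)⁻¹ = 1 :=
  PowerSeries.mul_inv_cancel _ (lin_ne hc)

/-- coefficients of negative powers -/
lemma coeff_lin_inv_pow {c : ℤ} (hc : c ≠ 0) (n i : ℕ) :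
    PowerSeries.coeff i ((lin c)⁻¹ ^ (n + 1)) =
      (-1) ^ i * (Nat.choose (n + i) n : ℚ) * ((c : ℚ)⁻¹) ^ (n + 1 + i) := by
  have hc' : (c : ℚ) ≠ 0 := by exact_mod_cast hc
  have key : ∀ n : ℕ, (lin c)⁻¹ ^ (n + 1) = PowerSeries.mk fun i =>
      (-1) ^ i * (Nat.choose (n + i) n : ℚ) * ((c : ℚ)⁻¹) ^ (n + 1 + i) := by
    intro n
    induction n with
    | zero =>
      ext i
      rw [zero_add, pow_one, coeff_lin_inv hc, PowerSeries.coeff_mk]
      simp only [zero_add, Nat.choose_zero_right, Nat.cast_one, mul_one]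
      rw [add_comm 1 i]
    | succ n ih =>
      have h1 : lin c * (lin c)⁻¹ ^ (n + 1 + 1) = (lin c)⁻¹ ^ (n + 1) := by
        rw [pow_succ (lin c)⁻¹ (n + 1), mul_comm ((lin c)⁻¹ ^ (n + 1)), ← mul_assoc,
          lin_mul_inv hc, one_mul]
      have h2 : lin c * (PowerSeries.mk fun i =>
          (-1) ^ i * (Nat.choose (n + 1 + i) (n + 1) : ℚ) * ((c : ℚ)⁻¹) ^ (n + 1 + 1 + i)) =
          (lin c)⁻¹ ^ (n + 1) := by
        rw [ih]
        ext i
        rw [lin, add_mul, map_add, PowerSeries.coeff_mk, PowerSeries.coeff_C_mul,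
          PowerSeries.coeff_mk]
        rcases i with _ | i
        · simp only [PowerSeries.coeff_zero_X_mul, pow_zero, add_zero, Nat.choose_self,
            Nat.cast_one, mul_one, zero_add, one_mul]
          rw [pow_succ, mul_comm (((c : ℚ)⁻¹) ^ (n + 1)), ← mul_assoc, mul_inv_cancel₀ hc', one_mul]
        · rw [PowerSeries.coeff_succ_X_mul, PowerSeries.coeff_mk]
          have h3 : ((c : ℚ)⁻¹) ^ (n + 1 + 1 + (i + 1)) = (c : ℚ)⁻¹ * ((c : ℚ)⁻¹) ^ (n + 1 + (i + 1)) := by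
            rw [← pow_succ']
            congr 1
            ring
          have h4 : ((c : ℚ)⁻¹) ^ (n + 1 + 1 + i) = ((c : ℚ)⁻¹) ^ (n + 1 + (i + 1)) := by
            congr 1
            ring
          have h5 : (c : ℚ) * ((-1) ^ (i + 1) * (Nat.choose (n + 1 + (i + 1)) (n + 1) : ℚ) *
              ((c : ℚ)⁻¹ * ((c : ℚ)⁻¹) ^ (n + 1 + (i + 1)))) =
              (-1) ^ (i + 1) * (Nat.choose (n + 1 + (i + 1)) (n + 1) : ℚ) *
                ((c : ℚ)⁻¹) ^ (n + 1 + (i + 1)) * (c * (c : ℚ)⁻¹) := by ring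
          rw [h3, h4, h5, mul_inv_cancel₀ hc', mul_one]
          have h6 : Nat.choose (n + 1 + (i + 1)) (n + 1) =
              Nat.choose (n + (i + 1)) n + Nat.choose (n + 1 + i) (n + 1) := by
            have e1 : n + 1 + (i + 1) = (n + (i + 1)) + 1 := by ring
            have e2 : n + 1 + i = n + (i + 1) := by ring
            rw [e1, e2, Nat.choose_succ_succ]
          rw [h6]
          push_cast
          ring
      have h3 : lin c * (lin c)⁻¹ ^ (n + 1 + 1) = lin c * (PowerSeries.mk fun i =>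
          (-1) ^ i * (Nat.choose (n + 1 + i) (n + 1) : ℚ) * ((c : ℚ)⁻¹) ^ (n + 1 + 1 + i)) := by
        rw [h1, h2]
      have h4 : lin c ≠ 0 := by
        intro h
        have := lin_ne hc
        rw [h] at this
        simp at this
      exact mul_left_cancel₀ h4 h3
  rw [key, PowerSeries.coeff_mk]

section
variable {p : ℕ} [hp : Fact p.Prime]

/-- the singular part of the weights is integral as soon as the local factor vanishes to order
`r + 1` at the outer member -/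
lemma sing_int {r q M : ℕ} (hM : r + 1 ≤ M) {V : PowerSeries ℚ} (hV : WA p 0 0 V) :
    VG p 0 (∑ i ∈ Finset.Icc 1 q, (Nat.choose (i + r - 1) r : ℚ) * ((p : ℚ)⁻¹) ^ (i + r) *
      PowerSeries.coeff (q - i) (lin (-(p : ℤ)) ^ M * V)) := by
  have hp0 : -(p : ℤ) ≠ 0 := by
    have := hp.out.ne_zero
    omega
  rcases Nat.eq_zero_or_pos q with hq | hq
  · subst hq
    simp only [Finset.Icc_eq_empty (by norm_num : ¬ 1 ≤ 0), Finset.sum_empty]
    exact VG.zero' _ _
  obtain ⟨q', rfl⟩ : ∃ q', q = q' + 1 := ⟨q - 1, by omega⟩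
  obtain ⟨M', rfl⟩ : ∃ M', M = M' + (r + 1) := ⟨M - (r + 1), by omega⟩
  have h1 : lin (-(p : ℤ)) ^ M' * V = (lin (-(p : ℤ)) ^ (M' + (r + 1)) * V) *
      (lin (-(p : ℤ)))⁻¹ ^ (r + 1) := by
    have e : (lin (-(p : ℤ)) ^ (M' + (r + 1)) * V) * (lin (-(p : ℤ)))⁻¹ ^ (r + 1) =
        lin (-(p : ℤ)) ^ M' * V * (lin (-(p : ℤ)) * (lin (-(p : ℤ)))⁻¹) ^ (r + 1) := by
      rw [mul_pow, pow_add]; ring
    rw [e, lin_mul_inv hp0, one_pow, mul_one]
  have h2 : ∑ i ∈ Finset.Icc 1 (q' + 1), (Nat.choose (i + r - 1) r : ℚ) * ((p : ℚ)⁻¹) ^ (i + r) *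
      PowerSeries.coeff (q' + 1 - i) (lin (-(p : ℤ)) ^ (M' + (r + 1)) * V) =
      (-1) ^ (r + 1) * PowerSeries.coeff q' (lin (-(p : ℤ)) ^ M' * V) := by
    have e0 : Finset.Icc 1 (q' + 1) = Finset.Ico (0 + 1) (q' + 1 + 1) := by
      ext x; simp only [Finset.mem_Icc, Finset.mem_Ico]; omega
    rw [h1, PowerSeries.coeff_mul, Finset.Nat.sum_antidiagonal_eq_sum_range_succ_mk,
      Finset.mul_sum, e0, ← Finset.sum_Ico_add' _ 0 (q' + 1) 1, ← Finset.range_eq_Ico,
      ← Finset.sum_range_reflect]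
    refine Finset.sum_congr rfl fun j hj => ?_
    rw [Finset.mem_range] at hj
    have e1 : q' + 1 - 1 - j + 1 = q' + 1 - j := by omega
    have e2 : q' - j = q' - j := rfl
    rw [e1, coeff_lin_inv_pow hp0]
    have e3 : q' + 1 - j + r - 1 = r + (q' - j) := by omega
    have e4 : q' + 1 - (q' + 1 - j) = j := by omega
    have e5 : q' + 1 - j + r = r + 1 + (q' - j) := by omega
    rw [e3, e4, e5]
    have e6 : (((-(p : ℤ) : ℤ) : ℚ)⁻¹) ^ (r + 1 + (q' - j)) =
        (-1) ^ (r + 1 + (q' - j)) * ((p : ℚ)⁻¹) ^ (r + 1 + (q' - j)) := by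
      rw [← mul_pow]
      congr 1
      push_cast
      rw [inv_neg, neg_one_mul]
    rw [e6]
    have e7 : (-1 : ℚ) ^ (r + 1) * ((-1) ^ (q' - j) * (-1) ^ (r + 1 + (q' - j))) = 1 := by
      rw [← pow_add, ← pow_add]
      apply Even.neg_one_pow
      exact ⟨r + 1 + (q' - j), by ring⟩
    linear_combination (-(((Nat.choose (r + (q' - j)) r : ℕ) : ℚ) * ((p : ℚ)⁻¹) ^ (r + 1 + (q' - j)) *
      PowerSeries.coeff j (lin (-(p : ℤ)) ^ (M' + (r + 1)) * V))) * e7
  rw [h2]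
  have h3 : WA p 0 0 (lin (-(p : ℤ)) ^ M' * V) := by
    have := ((WA.lin0 (p := p) le_rfl (-(p : ℤ))).pow M').mul hV
    simpa using this
  have h4 := (VG.int (p := p) ((-1) ^ (r + 1))).mul (h3 q')
  refine VG.mono ?_ (le_refl _)
  have e : (((-1) ^ (r + 1) : ℤ) : ℚ) = (-1) ^ (r + 1) := by push_cast; ring
  rw [e] at h4
  simpa using h4

end

end ZP
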