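import Pool.Agent.Lib.ZP.Defs
import Pool.Agent.Lib.Z579.M6de

/-!
# The polynomial `YY`: degree and `p`-adic weights

PROOF.  `aeval_factor` (Z579/M4) gives `aeval (lin (-u)^2) (X - w^2) = lin (-u-w) * lin (-u+w)`.
`YY_WA_one`: for every `i` and `w ∈ Ioc (i k) (al k)` the factor `lin (-u-w)` has weight 1 (slope 1)
if `p ∣ u + w` and weight 0 otherwise, `lin (-u+w)` has weight 1 if `p ∣ w - u` (see `poly_WA_one`,
`base_WA` in M4: `WA.lin (VG.of_dvd h) le_rfl`, `WA.lin0`); the number of `w` in the interval with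
`p ∣ w - u` plus the number with `p ∣ -w - u` is `cnt p (pc (al k + 1)) u - cnt p (pc (i k + 1)) u`
(the elements of `pc (al k + 1)` outside `pc (i k + 1)` are `±w`), and `cnt` at `u` equals `cnt` at
`c` if `p ∣ u - c` or `p ∣ u + c` (`cnt_congr`, `cnt_neg`, `pc_neg`).
`YY_WA_zero`: all weights 0.  `YY_WA_K`: as `PB_WA` in M6de, with `cons_sum` for the interval
`Ioc (i k) (al k) = Ico (i k + 1) (i k + 1 + (al - i) k)` and the points `u`, `-u`.
-/

open Polynomial Finset Z579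

namespace ZP

variable (P : Pf)

lemma YY_monic (k : ℕ) : (YY P k).Monic :=
  monic_prod_of_monic _ _ fun _ _ => monic_prod_of_monic _ _ fun _ _ => monic_X_sub_C _

lemma YY_natDegree {P : Pf} (hP : P.Ok) (k : ℕ) :
    (YY P k).natDegree + P.mu * k = P.h * (P.al * k) := by
  have h1 : (YY P k).natDegree = ∑ i ∈ P.Lv, (P.al * k - i * k) := by
    rw [YY, natDegree_prod_of_monic _ _ fun _ _ => monic_prod_of_monic _ _ fun _ _ =>
      monic_X_sub_C _]
    refine Finset.sum_congr rfl fun i _ => ?_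
    rw [natDegree_prod_of_monic _ _ fun _ _ => monic_X_sub_C _]
    simp only [natDegree_X_sub_C, Finset.sum_const, Nat.card_Ioc, smul_eq_mul, mul_one]
  rw [h1, Pf.mu, Finset.sum_mul, ← Finset.sum_add_distrib, Pf.h]
  have h2 : ∀ i ∈ P.Lv, P.al * k - i * k + i * k = P.al * k := fun i hi =>
    Nat.sub_add_cancel (Nat.mul_le_mul_right k (hP.le i hi))
  rw [Finset.sum_congr rfl h2, Finset.sum_const, smul_eq_mul]

/-- adding the two extreme points -/
private lemma cnt_succ (p n : ℕ) (u : ℤ) :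
    (cnt p (pc (n + 1 + 1)) u : ℝ) = cnt p (pc (n + 1)) u +
      ((if (p : ℤ) ∣ ((n + 1 : ℕ) : ℤ) - (-u) then (1 : ℝ) else 0) +
        (if (p : ℤ) ∣ ((n + 1 : ℕ) : ℤ) - u then (1 : ℝ) else 0)) := by
  have h1 : pc (n + 1 + 1) = insert (((n + 1 : ℕ) : ℤ)) (insert (-((n + 1 : ℕ) : ℤ)) (pc (n + 1))) := by
    ext x
    simp only [pc, Finset.mem_insert, Finset.mem_Icc]
    push_cast
    omega
  have h2 : (((n + 1 : ℕ) : ℤ)) ∉ insert (-((n + 1 : ℕ) : ℤ)) (pc (n + 1)) := by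
    simp only [pc, Finset.mem_insert, Finset.mem_Icc]
    push_cast
    omega
  have h3 : (-((n + 1 : ℕ) : ℤ)) ∉ pc (n + 1) := by
    simp only [pc, Finset.mem_Icc]
    push_cast
    omega
  have h4 : ∀ s : Finset ℤ, (cnt p s u : ℝ) = ∑ w ∈ s, if (p : ℤ) ∣ w - u then (1 : ℝ) else 0 := by
    intro s
    rw [Finset.sum_boole]
    rfl
  have h5 : ((p : ℤ) ∣ -((n + 1 : ℕ) : ℤ) - u) ↔ ((p : ℤ) ∣ ((n + 1 : ℕ) : ℤ) - (-u)) := by
    rw [← dvd_neg]
    have : -(-((n + 1 : ℕ) : ℤ) - u) = ((n + 1 : ℕ) : ℤ) - (-u) := by ring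
    rw [this]
  rw [h4, h4, h1, Finset.sum_insert h2, Finset.sum_insert h3]
  simp only [h5]
  ring

private lemma cnt_diff (p : ℕ) (u : ℤ) {a b : ℕ} (hab : a ≤ b) :
    ∑ w ∈ Finset.Ioc a b, ((if (p : ℤ) ∣ (w : ℤ) - (-u) then (1 : ℝ) else 0) +
        (if (p : ℤ) ∣ (w : ℤ) - u then (1 : ℝ) else 0)) =
      cnt p (pc (b + 1)) u - cnt p (pc (a + 1)) u := by
  induction b, hab using Nat.le_induction with
  | base => simp
  | succ n hn ih =>
    rw [Finset.sum_Ioc_succ_top hn, ih, cnt_succ]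
    ring

section
variable {p : ℕ} [hp : Fact p.Prime]

lemma YY_WA_one {P : Pf} (hP : P.Ok) {k : ℕ} {u c : ℤ} (h : (p : ℤ) ∣ u - c ∨ (p : ℤ) ∣ u + c) :
    WA p 1 ((P.h : ℝ) * cnt p (pc (aa P k)) c - (SS P k p c : ℝ) / 2)
      (Polynomial.aeval (lin (-u) ^ 2) (YY P k)) := by
  have hcu : ∀ a : ℕ, cnt p (pc a) c = cnt p (pc a) u := by
    intro a
    rcases h with h | h
    · exact (cnt_congr h).symm
    · have h' : (p : ℤ) ∣ u - (-c) := by simpa using h
      rw [cnt_congr h', cnt_neg (fun w hw => pc_neg hw)]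
  have h1 : WA p 1 (∑ i ∈ P.Lv, ∑ w ∈ Finset.Ioc (i * k) (P.al * k),
      ((if (p : ℤ) ∣ (w : ℤ) - (-u) then (1 : ℝ) else 0) +
        (if (p : ℤ) ∣ (w : ℤ) - u then (1 : ℝ) else 0)))
      (Polynomial.aeval (lin (-u) ^ 2) (YY P k)) := by
    rw [YY, map_prod]
    refine WA.prod fun i _ => ?_
    rw [map_prod]
    refine WA.prod fun w _ => ?_
    rw [aeval_factor]
    refine WA.mul ?_ ?_
    · split_ifs with h2
      · have h3 : (p : ℤ) ∣ -u - w := by
          have := (dvd_neg (α := ℤ)).2 h2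
          have h4 : -((w : ℤ) - -u) = -u - w := by ring
          rwa [h4] at this
        exact WA.lin (VG.of_dvd h3) le_rfl
      · exact WA.lin0 zero_le_one _
    · split_ifs with h2
      · have h3 : (p : ℤ) ∣ -u + w := by
          have h4 : (w : ℤ) - u = -u + w := by ring
          rwa [h4] at h2
        exact WA.lin (VG.of_dvd h3) le_rfl
      · exact WA.lin0 zero_le_one _
  refine h1.mono (le_of_eq ?_)
  have h2 : ∀ i ∈ P.Lv, ∑ w ∈ Finset.Ioc (i * k) (P.al * k),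
      ((if (p : ℤ) ∣ (w : ℤ) - (-u) then (1 : ℝ) else 0) +
        (if (p : ℤ) ∣ (w : ℤ) - u then (1 : ℝ) else 0)) =
      (cnt p (pc (aa P k)) c : ℝ) - cnt p (pc (i * k + 1)) c := by
    intro i hi
    rw [cnt_diff p u (Nat.mul_le_mul_right k (hP.le i hi)), hcu, hcu]
    rfl
  rw [Finset.sum_congr rfl h2, Finset.sum_sub_distrib, Finset.sum_const, nsmul_eq_mul, SS, Pf.h]
  push_cast
  ring

lemma YY_WA_zero {K : ℝ} (hK : 0 ≤ K) (k : ℕ) (u : ℤ) :
    WA p K 0 (Polynomial.aeval (lin (-u) ^ 2) (YY P k)) := by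
  have h1 : WA p K (∑ i ∈ P.Lv, ∑ w ∈ Finset.Ioc (i * k) (P.al * k), (0 : ℝ))
      (Polynomial.aeval (lin (-u) ^ 2) (YY P k)) := by
    rw [YY, map_prod]
    refine WA.prod fun i _ => ?_
    rw [map_prod]
    refine WA.prod fun w _ => ?_
    rw [aeval_factor]
    simpa using (WA.lin0 (p := p) hK (-u - w)).mul (WA.lin0 (p := p) hK (-u + w))
  simpa using h1

lemma YY_WA_K {P : Pf} (hP : P.Ok) {k K : ℕ} (hK : P.al * k < p ^ (K + 1)) (u : ℤ) :
    WA p K (2 * ((P.h : ℝ) * P.al * k - P.mu * k) / ((p : ℝ) - 1) - 2 * P.h * (K + 1))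
      (Polynomial.aeval (lin (-u) ^ 2) (YY P k)) := by
  have h1 : WA p K (∑ i ∈ P.Lv, ∑ w ∈ Finset.Ioc (i * k) (P.al * k),
      ((vK p K ((w : ℤ) - (-u)) : ℝ) + (vK p K ((w : ℤ) - u) : ℝ)))
      (Polynomial.aeval (lin (-u) ^ 2) (YY P k)) := by
    rw [YY, map_prod]
    refine WA.prod fun i _ => ?_
    rw [map_prod]
    refine WA.prod fun w _ => ?_
    rw [aeval_factor]
    refine WA.mul ?_ ?_
    · refine WA.lin ?_ (by exact_mod_cast vK_le K _)
      have h2 := VG_vK (p := p) K (-u - w)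
      have h3 : vK p K (-u - w) = vK p K ((w : ℤ) - (-u)) := by
        rw [← vK_neg]; congr 1; ring
      rw [h3] at h2
      exact h2
    · refine WA.lin ?_ (by exact_mod_cast vK_le K _)
      have h2 := VG_vK (p := p) K (-u + w)
      have h3 : (-u + w : ℤ) = (w : ℤ) - u := by ring
      rw [h3] at h2 ⊢
      exact h2
  refine h1.mono ?_
  -- one interval
  have h2 : ∀ i ∈ P.Lv, ∀ v : ℤ, ((P.al : ℝ) * k - i * k) / ((p : ℝ) - 1) - (K + 1) ≤
      ∑ w ∈ Finset.Ioc (i * k) (P.al * k), (vK p K ((w : ℤ) - v) : ℝ) := by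
    intro i hi v
    have hle : i * k ≤ P.al * k := Nat.mul_le_mul_right k (hP.le i hi)
    have h3 : Finset.Ioc (i * k) (P.al * k) = Finset.Ico (i * k + 1) (P.al * k + 1) := by
      ext x
      simp only [Finset.mem_Ioc, Finset.mem_Ico]
      omega
    rw [h3, Finset.sum_Ico_eq_sum_range]
    have h4 := cons_sum_range (p := p) (v - (i * k + 1 : ℕ)) (P.al * k + 1 - (i * k + 1)) K
      (by omega)
    have h5 : ((P.al * k + 1 - (i * k + 1) : ℕ) : ℝ) = (P.al : ℝ) * k - i * k := by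
      have h6 : P.al * k + 1 - (i * k + 1) = P.al * k - i * k := by omega
      rw [h6, Nat.cast_sub hle]
      push_cast
      ring
    rw [h5] at h4
    refine h4.trans (le_of_eq ?_)
    refine Finset.sum_congr rfl fun l _ => ?_
    have h6 : ((l : ℤ) - (v - ((i * k + 1 : ℕ) : ℤ))) = (((i * k + 1 + l : ℕ)) : ℤ) - v := by
      push_cast
      ring
    rw [h6]
  have h3 : ∀ i ∈ P.Lv, 2 * (((P.al : ℝ) * k - i * k) / ((p : ℝ) - 1) - (K + 1)) ≤
      ∑ w ∈ Finset.Ioc (i * k) (P.al * k),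
        ((vK p K ((w : ℤ) - (-u)) : ℝ) + (vK p K ((w : ℤ) - u) : ℝ)) := by
    intro i hi
    rw [Finset.sum_add_distrib]
    have e1 := h2 i hi (-u)
    have e2 := h2 i hi u
    linarith
  refine le_trans (le_of_eq ?_) (Finset.sum_le_sum h3)
  rw [← Finset.mul_sum, Finset.sum_sub_distrib, ← Finset.sum_div, Finset.sum_sub_distrib,
    Finset.sum_const, Finset.sum_const, nsmul_eq_mul, nsmul_eq_mul, ← Finset.sum_mul]
  have h4 : ((P.mu : ℕ) : ℝ) = ∑ i ∈ P.Lv, (i : ℝ) := by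
    rw [Pf.mu]
    push_cast
    rfl
  rw [h4, Pf.h]
  ring

end

end ZP
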