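import Pool.Agent.Lib.ZP.Tr1
import Pool.Agent.Lib.ZP.YW

/-!
# Class lemma with saturated classes, `a ≤ p < 2 a`
-/

open Polynomial Finset Z579

namespace ZP

/-- multiplicity of `X - w^2` in `YY` -/
noncomputable def ym (P : Pf) (k : ℕ) (w : ℤ) : ℕ :=
  (P.Lv.filter (fun i => ((i * k : ℕ) : ℤ) < w)).card

/-- the points `1 ≤ w ≤ al k` -/
noncomputable def DT (P : Pf) (k : ℕ) : Finset ℤ := Finset.Icc (1 : ℤ) ((P.al * k : ℕ) : ℤ)

/-- product of powers of `X - w^2` -/
noncomputable def PT (D : Finset ℤ) (E : ℤ → ℕ) : ℚ[X] :=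
  ∏ w ∈ D, (X - Polynomial.C ((w : ℚ) ^ 2)) ^ (E w)

lemma YY_eqT (P : Pf) (k : ℕ) : YY P k = PT (DT P k) (ym P k) := by
  have h1 : PT (DT P k) (ym P k) = ∏ d ∈ DT P k, ∏ i ∈ P.Lv,
      (if ((i * k : ℕ) : ℤ) < d then (X - Polynomial.C ((d : ℚ) ^ 2)) else 1) := by
    rw [PT]
    refine Finset.prod_congr rfl fun d _ => ?_
    rw [Finset.prod_ite, Finset.prod_const, Finset.prod_const_one, mul_one, ym]
  rw [h1, Finset.prod_comm, YY]
  refine Finset.prod_congr rfl fun i _ => ?_
  rw [← Finset.prod_filter]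
  refine Finset.prod_nbij' (fun w : ℕ => (w : ℤ)) (fun w : ℤ => w.toNat) ?_ ?_ ?_ ?_ ?_
  · intro w hw
    rw [Finset.mem_Ioc] at hw
    rw [Finset.mem_filter, DT, Finset.mem_Icc]
    have h2 : ((w : ℤ)) ≤ ((P.al * k : ℕ) : ℤ) := by exact_mod_cast hw.2
    have h3 : (((i * k : ℕ)) : ℤ) < w := by exact_mod_cast hw.1
    omega
  · intro w hw
    rw [Finset.mem_filter, DT, Finset.mem_Icc] at hw
    rw [Finset.mem_Ioc]
    omega
  · intro w _; simp
  · intro w hw
    rw [Finset.mem_filter, DT, Finset.mem_Icc] at hw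
    exact Int.toNat_of_nonneg (by omega)
  · intro w _; rfl

lemma PT_mul (D : Finset ℤ) (E F : ℤ → ℕ) : PT D E * PT D F = PT D (fun w => E w + F w) := by
  rw [PT, PT, PT, ← Finset.prod_mul_distrib]
  refine Finset.prod_congr rfl fun w _ => ?_
  rw [pow_add]

section
variable {p : ℕ} [hp : Fact p.Prime]

lemma WA_PT {K : ℝ} (hK : 0 ≤ K) (D : Finset ℤ) (E : ℤ → ℕ) (u : ℤ) :
    WA p K 0 (Polynomial.aeval (lin (-u) ^ 2) (PT D E)) := by
  rw [PT, map_prod]
  have h1 : WA p K (∑ c' ∈ D, (0 : ℝ))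
      (∏ c ∈ D, Polynomial.aeval (lin (-u) ^ 2) ((X - Polynomial.C ((c : ℚ) ^ 2)) ^ (E c))) := by
    refine WA.prod fun c' _ => ?_
    rw [map_pow, aeval_factor]
    have := ((WA.lin0 (p := p) hK (-u - c')).mul
        (WA.lin0 (p := p) hK (-u + c'))).pow (E c')
    simpa using this
  simpa using h1

lemma WA_Xn {K : ℝ} (hK : 0 ≤ K) (u : ℤ) (n : ℕ) :
    WA p K 0 (Polynomial.aeval (lin (-u) ^ 2) (X ^ n : ℚ[X])) := by
  have := WA.aeval_int (p := p) hK (-u) (X ^ n)
  rw [Polynomial.map_pow, Polynomial.map_X] at this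
  exact this

/-- factor out the other member `w0` of the class of `u` -/
lemma fac {q a : ℕ} {D : Finset ℤ} {E : ℤ → ℕ} {n : ℕ} {u w0 d : ℤ}
    (hw0 : w0 ∈ (pc a).erase u) (hd : d ∈ D) (hwd : w0 = d ∨ w0 = -d)
    (honly : ∀ w ∈ ((pc a).erase u).erase w0, ¬ (p : ℤ) ∣ w - u) (hE : q ≤ E d) :
    ∃ V : PowerSeries ℚ, WA p 0 0 V ∧
      base q 0 a a u * Polynomial.aeval (lin (-u) ^ 2) (PT D E * X ^ n) =
        lin (w0 - u) ^ (E d - q) * V := by
  have hne : w0 - u ≠ 0 := sub_ne_zero.2 (Finset.ne_of_mem_erase hw0)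
  have hsq : ((d : ℚ)) ^ 2 = ((w0 : ℚ)) ^ 2 := by
    rcases hwd with h | h
    · rw [h]
    · rw [h]; push_cast; ring
  set R : PowerSeries ℚ := (∏ w ∈ ((pc a).erase u).erase w0, lin (w - u))⁻¹ with hR
  have hRi : WA p 0 0 R := by
    have h2 : WA p 0 (∑ w ∈ ((pc a).erase u).erase w0, (0 : ℝ)) R := by
      rw [hR, PS_prod_inv]
      refine WA.prod fun w hw => ?_
      have hnd := honly w hw
      have hw' := Finset.mem_erase.1 (Finset.mem_erase.1 hw).2
      have hv : padicValRat p ((w - u : ℤ) : ℚ) = 0 := by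
        rw [padicValRat.of_int, padicValInt.eq_zero_of_not_dvd hnd]; rfl
      have := WA.lin_inv (p := p) (K := 0) (sub_ne_zero.2 hw'.1) (by rw [hv]; simp)
      rw [hv] at this
      simpa using this
    simpa using h2
  refine ⟨(2 * lin (-u) * (∏ w ∈ oc a a, lin (w - u)) ^ 0) * R ^ q *
    (lin (-u - w0) ^ (E d) * (Polynomial.aeval (lin (-u) ^ 2) (PT (D.erase d) E) *
      Polynomial.aeval (lin (-u) ^ 2) (X ^ n : ℚ[X]))), ?_, ?_⟩
  · have h3 : WA p 0 0 (lin (-u)) := WA.lin0 le_rfl _
    have h4 := (((WA.two (p := p) 0).mul h3).mul ((WA.one' (p := p) 0))).mul (hRi.pow q)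
    have h5 := ((WA.lin0 (p := p) le_rfl (-u - w0)).pow (E d)).mul
      ((WA_PT (p := p) le_rfl (D.erase d) E u).mul (WA_Xn (p := p) le_rfl u n))
    have h6 := h4.mul h5
    rw [pow_zero]
    refine h6.mono (le_of_eq ?_)
    simp
  · have e1 : Polynomial.aeval (lin (-u) ^ 2) (PT D E) =
        (lin (-u - w0) * lin (-u + w0)) ^ (E d) *
          Polynomial.aeval (lin (-u) ^ 2) (PT (D.erase d) E) := by
      rw [PT, ← Finset.mul_prod_erase _ _ hd, map_mul, map_pow, hsq, aeval_factor]
      rfl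
    have e2 : (∏ w ∈ (pc a).erase u, lin (w - u))⁻¹ = (lin (w0 - u))⁻¹ * R := by
      rw [← Finset.mul_prod_erase _ _ hw0, PowerSeries.mul_inv_rev, mul_comm]
    have e3 : -u + w0 = w0 - u := by ring
    have e4 : lin (w0 - u) ^ (E d) = lin (w0 - u) ^ (E d - q) * lin (w0 - u) ^ q := by
      rw [← pow_add]; congr 1; omega
    have e5 : lin (w0 - u) ^ q * (lin (w0 - u))⁻¹ ^ q = 1 := by
      rw [← mul_pow, lin_mul_inv hne, one_pow]
    rw [base, e2, map_mul, e1, e3]
    calc _ = (lin (w0 - u) ^ (E d) * (lin (w0 - u))⁻¹ ^ q) *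
          ((2 * lin (-u) * (∏ w ∈ oc a a, lin (w - u)) ^ 0) * R ^ q *
          (lin (-u - w0) ^ (E d) * (Polynomial.aeval (lin (-u) ^ 2) (PT (D.erase d) E) *
          Polynomial.aeval (lin (-u) ^ 2) (X ^ n : ℚ[X])))) := by
          rw [mul_pow, mul_pow]; ring
      _ = _ := by
          rw [e4, mul_assoc (lin (w0 - u) ^ (E d - q)), e5, mul_one]

/-- the outer member has no pole -/
lemma Acoef_outer {q a : ℕ} {D : Finset ℤ} {E : ℤ → ℕ} {n : ℕ} {u d : ℤ}
    (hd : d ∈ D) (hud : u = d ∨ u = -d) (hE : q ≤ E d) {i : ℕ} (hi1 : 1 ≤ i) (hiq : i ≤ q) :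
    Acoef q 0 a a u i (PT D E * X ^ n) = 0 := by
  have hsq : ((d : ℚ)) ^ 2 = ((u : ℚ)) ^ 2 := by
    rcases hud with h | h
    · rw [h]
    · rw [h]; push_cast; ring
  have e1 : Polynomial.aeval (lin (-u) ^ 2) (PT D E) =
      (lin (-u - u) * lin (-u + u)) ^ (E d) *
        Polynomial.aeval (lin (-u) ^ 2) (PT (D.erase d) E) := by
    rw [PT, ← Finset.mul_prod_erase _ _ hd, map_mul, map_pow, hsq, aeval_factor]
    rfl
  have e2 : lin (-u + u) = PowerSeries.X := by
    rw [lin]; simp
  rw [Acoef_apply, map_mul (Polynomial.aeval (lin (-u) ^ 2)), e1, e2]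
  have e3 : base q 0 a a u * ((lin (-u - u) * PowerSeries.X) ^ (E d) *
      Polynomial.aeval (lin (-u) ^ 2) (PT (D.erase d) E) *
      Polynomial.aeval (lin (-u) ^ 2) (X ^ n : ℚ[X])) =
      PowerSeries.X ^ (E d) * (base q 0 a a u * (lin (-u - u) ^ (E d) *
      Polynomial.aeval (lin (-u) ^ 2) (PT (D.erase d) E) *
      Polynomial.aeval (lin (-u) ^ 2) (X ^ n : ℚ[X]))) := by
    rw [mul_pow]; ring
  rw [e3, PowerSeries.coeff_X_pow_mul', if_neg (by omega)]

/-- harmonic numbers between `p` and `2 p` -/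
lemma Hs_mid {s m : ℕ} (h1 : p ≤ m) (h2 : m < 2 * p) :
    VG p 0 (Hs s m - ((p : ℚ)⁻¹) ^ s) := by
  have hp1 := hp.out.pos
  have hmem : p - 1 ∈ Finset.range m := by rw [Finset.mem_range]; omega
  have e1 : Hs s m - ((p : ℚ)⁻¹) ^ s =
      ∑ k ∈ (Finset.range m).erase (p - 1), 1 / ((k : ℚ) + 1) ^ s := by
    rw [Hs, ← Finset.add_sum_erase _ _ hmem]
    have : ((p - 1 : ℕ) : ℚ) + 1 = p := by
      have h3 : p - 1 + 1 = p := by omega
      exact_mod_cast h3
    rw [this, one_div, inv_pow]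
    ring
  rw [e1]
  refine VG.sum fun k hk => ?_
  rw [Finset.mem_erase, Finset.mem_range] at hk
  right
  have hnd : ¬ p ∣ k + 1 := by
    rintro ⟨t, ht⟩
    have h4 : t < 2 := by
      by_contra hcon
      have : p * 2 ≤ p * t := Nat.mul_le_mul_left _ (by omega)
      omega
    have h5 : t ≠ 0 := by rintro rfl; omega
    have h6 : t = 1 := by omega
    subst h6
    omega
  have h7 : padicValRat p ((k : ℚ) + 1) = 0 := by
    have h8 : ((k : ℚ) + 1) = ((k + 1 : ℕ) : ℚ) := by push_cast; ring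
    rw [h8, padicValRat.of_nat, padicValNat.eq_zero_of_not_dvd hnd]
    rfl
  rw [one_div, padicValRat.inv, padicValRat.pow, h7]
  simp

end

/-- the outer members -/
noncomputable def JT (P : Pf) (k p : ℕ) : Finset ℤ :=
  Finset.Icc (((p + 1) / 2 : ℕ) : ℤ) ((P.al * k : ℕ) : ℤ)

theorem m4T {P : Pf} (hP : P.Ok) {p k Q : ℕ} {z : ℕ → ℚ} (N : ℤ → ℕ) (n : ℕ) (t : ℝ)
    (hp : p.Prime) (hp2 : p ≠ 2) (hsq : 2 * aa P k ≤ p ^ 2) (hap : aa P k ≤ p)
    (hz : ∀ s, VG p 0 ((Q : ℚ) * z s)) (ht0 : t ≤ 0)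
    (ht : ∀ d ∈ JT P k p, t ≤ (N d : ℝ) - SS P k p d - P.r ∨
      P.q + P.r + 1 ≤ 2 * ym P k d + N d) :
    VG p t (LP P k (wt P.r (aa P k) Q z) ((∏ d ∈ JT P k p,
      (X - Polynomial.C ((d : ℚ) ^ 2)) ^ (N d)) * X ^ n)) := by
  have := Fact.mk hp
  have hp0 : (0 : ℤ) < p := by exact_mod_cast hp.pos
  have hodd : p % 2 = 1 := by
    rcases hp.eq_two_or_odd with h | h
    · exact absurd h hp2
    · exact h
  have haa : aa P k = P.al * k + 1 := rfl
  set E : ℤ → ℕ := fun w => 2 * ym P k w + if w ∈ JT P k p then N w else 0 with hE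
  have hJD : JT P k p ⊆ DT P k := by
    intro w hw
    rw [JT, Finset.mem_Icc] at hw
    rw [DT, Finset.mem_Icc]
    omega
  have hG : YY P k ^ 2 * ((∏ d ∈ JT P k p, (X - Polynomial.C ((d : ℚ) ^ 2)) ^ (N d)) * X ^ n) =
      PT (DT P k) E * X ^ n := by
    have h1 : (∏ d ∈ JT P k p, (X - Polynomial.C ((d : ℚ) ^ 2)) ^ (N d)) =
        PT (DT P k) (fun w => if w ∈ JT P k p then N w else 0) := by
      rw [PT, ← Finset.prod_subset hJD]
      · refine Finset.prod_congr rfl fun w hw => ?_
        rw [if_pos hw]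
      · intro w _ hw
        rw [if_neg hw, pow_zero]
    rw [h1, YY_eqT, sq, PT_mul, ← mul_assoc, PT_mul]
    congr 2
    ext w
    simp only [hE]
    ring
  rw [LP_apply, Lw_apply]
  refine VG.sum fun u hu => ?_
  have hu' : 1 - (aa P k : ℤ) ≤ u ∧ u ≤ (aa P k : ℤ) - 1 := by simpa [pc] using hu
  by_cases hone : ∀ w ∈ pc (aa P k), (p : ℤ) ∣ w - u → w = u
  · -- alone in its class
    have hlt : u + aa P k - 1 < p := by
      by_contra h
      push Not at h
      have h1 : u - p ∈ pc (aa P k) := by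
        rw [pc, Finset.mem_Icc]; omega
      have h2 := hone (u - p) h1 (by simp)
      omega
    refine VG.sum fun i hi => ?_
    have h1 := base_WA_zero (p := p) (q := P.q) (B := 0) (b := aa P k) hone
    have h2 := (WA_PT (p := p) le_rfl (DT P k) E u).mul (WA_Xn (p := p) le_rfl u n)
    have h4 := (h1.mul h2) (P.q - i)
    rw [← map_mul (Polynomial.aeval (lin (-u) ^ 2))] at h4
    have h5 := ((VG.nat (p := p) (Nat.choose (i + P.r - 1) P.r)).mul
      (VG_wt_zero (r := P.r) (i := i) hz hlt)).mul h4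
    rw [Acoef_apply, hG]
    refine VG.mono h5 ?_
    simpa using ht0
  · -- class with two members
    push Not at hone
    obtain ⟨w, hw, hwu, hne⟩ := hone
    have hw' : 1 - (aa P k : ℤ) ≤ w ∧ w ≤ (aa P k : ℤ) - 1 := by simpa [pc] using hw
    obtain ⟨d, hd, hud⟩ : ∃ d ∈ JT P k p, u = d ∨ u = -d ∨ u = p - d ∨ u = -(p - d) := by
      obtain ⟨s, hs⟩ := hwu
      have hs1 : s = 1 ∨ s = -1 := by
        have h1 : s ≠ 0 := by
          rintro rfl
          apply hne
          linarith
        have h2 : s < 2 := by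
          by_contra hcon
          have : (p : ℤ) * 2 ≤ p * s := mul_le_mul_of_nonneg_left (by omega) hp0.le
          omega
        have h3 : -2 < s := by
          by_contra hcon
          have : (p : ℤ) * s ≤ p * (-2) := mul_le_mul_of_nonneg_left (by omega) hp0.le
          omega
        omega
      rcases hs1 with rfl | rfl
      · -- w = u + p, u < 0
        by_cases h : (((p + 1) / 2 : ℕ) : ℤ) ≤ -u
        · refine ⟨-u, ?_, ?_⟩
          · rw [JT, Finset.mem_Icc]; omega
          · omega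
        · refine ⟨p + u, ?_, ?_⟩
          · rw [JT, Finset.mem_Icc]; omega
          · omega
      · by_cases h : (((p + 1) / 2 : ℕ) : ℤ) ≤ u
        · refine ⟨u, ?_, ?_⟩
          · rw [JT, Finset.mem_Icc]; omega
          · omega
        · refine ⟨p - u, ?_, ?_⟩
          · rw [JT, Finset.mem_Icc]; omega
          · omega
    have hd' := hd
    rw [JT, Finset.mem_Icc] at hd'
    have hdD : d ∈ DT P k := hJD hd
    have hcls : (p : ℤ) ∣ u - d ∨ (p : ℤ) ∣ u + d := by
      rcases hud with h | h | h | h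
      · left; rw [h]; simp
      · right; rw [h]; simp
      · right; rw [h]; simp
      · left; rw [h]; exact ⟨-1, by ring⟩
    rcases ht d hd with h | h
    · -- unsaturated
      refine VG.sum fun i hi => ?_
      rw [Finset.mem_Icc] at hi
      have h1 := base_WA (p := p) (q := P.q) (B := 0) (le_refl (aa P k)) (by omega) hu
      rw [Scl_class hcls] at h1
      have h2 := poly_WA_one (p := p) (N := N) (G₀ := X ^ n) hd hcls
      rw [Polynomial.map_pow, Polynomial.map_X] at h2
      have h3 := (YY_WA_one (p := p) hP (k := k) hcls).pow 2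
      have h4 := (h1.mul (h3.mul h2)) (P.q - i)
      rw [← map_pow, ← map_mul (Polynomial.aeval (lin (-u) ^ 2))] at h4
      have h5 := ((VG.nat (p := p) (Nat.choose (i + P.r - 1) P.r)).mul
        (VG_wt_one (r := P.r) (i := i) hz hu (by omega))).mul h4
      rw [Acoef_apply]
      refine VG.mono h5 (h.trans (le_of_eq ?_))
      rw [Nat.cast_sub hi.2, Scl_eq]
      have h6 : (P.q : ℝ) = 2 * P.h := by
        rw [Pf.q, Pf.h]
        push_cast
        ring
      push_cast
      rw [h6]
      ring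
    · -- saturated
      have hEd : P.q + (P.r + 1) ≤ E d := by
        simp only [hE, if_pos hd]
        omega
      rcases hud with hu1 | hu1 | hu1 | hu1
      · have : ∑ i ∈ Finset.Icc 1 P.q, ((Nat.choose (i + P.r - 1) P.r : ℚ) *
            wt P.r (aa P k) Q z u i) * Acoef P.q 0 (aa P k) (aa P k) u i (YY P k ^ 2 *
            ((∏ d ∈ JT P k p, (X - Polynomial.C ((d : ℚ) ^ 2)) ^ (N d)) * X ^ n)) = 0 := by
          refine Finset.sum_eq_zero fun i hi => ?_
          rw [Finset.mem_Icc] at hi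
          rw [hG, Acoef_outer hdD (Or.inl hu1) (by omega) hi.1 hi.2, mul_zero]
        rw [this]
        exact VG.zero' _ _
      · have : ∑ i ∈ Finset.Icc 1 P.q, ((Nat.choose (i + P.r - 1) P.r : ℚ) *
            wt P.r (aa P k) Q z u i) * Acoef P.q 0 (aa P k) (aa P k) u i (YY P k ^ 2 *
            ((∏ d ∈ JT P k p, (X - Polynomial.C ((d : ℚ) ^ 2)) ^ (N d)) * X ^ n)) = 0 := by
          refine Finset.sum_eq_zero fun i hi => ?_
          rw [Finset.mem_Icc] at hi
          rw [hG, Acoef_outer hdD (Or.inr hu1) (by omega) hi.1 hi.2, mul_zero]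
        rw [this]
        exact VG.zero' _ _
      · -- inner member, singular weights
        have hw0 : -d ∈ (pc (aa P k)).erase u := by
          rw [Finset.mem_erase, pc, Finset.mem_Icc]
          omega
        obtain ⟨V, hV, hF⟩ := fac (p := p) (q := P.q) (E := E) (n := n) hw0 hdD (Or.inr rfl) (by
          intro w hw hdv
          rw [Finset.mem_erase, Finset.mem_erase, pc, Finset.mem_Icc] at hw
          obtain ⟨s, hs⟩ := hdv
          have h1 : s < 1 := by
            by_contra hcon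
            have : (p : ℤ) * 1 ≤ p * s := mul_le_mul_of_nonneg_left (by omega) hp0.le
            omega
          have h2 : -2 < s := by
            by_contra hcon
            have : (p : ℤ) * s ≤ p * (-2) := mul_le_mul_of_nonneg_left (by omega) hp0.le
            omega
          have h3 : s = 0 ∨ s = -1 := by omega
          rcases h3 with rfl | rfl
          · apply hw.2.1; linarith
          · apply hw.1; linarith) (by omega)
        have e0 : -d - u = -(p : ℤ) := by rw [hu1]; ring
        rw [e0] at hF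
        have hFi : WA p 0 0 (lin (-(p : ℤ)) ^ (E d - P.q) * V) := by
          have := ((WA.lin0 (p := p) le_rfl (-(p : ℤ))).pow (E d - P.q)).mul hV
          simpa using this
        have e1 : ∑ i ∈ Finset.Icc 1 P.q, ((Nat.choose (i + P.r - 1) P.r : ℚ) *
            wt P.r (aa P k) Q z u i) * Acoef P.q 0 (aa P k) (aa P k) u i (YY P k ^ 2 *
            ((∏ d ∈ JT P k p, (X - Polynomial.C ((d : ℚ) ^ 2)) ^ (N d)) * X ^ n)) =
            ∑ i ∈ Finset.Icc 1 P.q, ((Nat.choose (i + P.r - 1) P.r : ℚ) *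
              ((Q : ℚ) * z (i + P.r) - Q * (Hs (i + P.r) (u + aa P k - 1).toNat -
                ((p : ℚ)⁻¹) ^ (i + P.r)))) *
              PowerSeries.coeff (P.q - i) (lin (-(p : ℤ)) ^ (E d - P.q) * V) -
            (Q : ℚ) * ∑ i ∈ Finset.Icc 1 P.q, (Nat.choose (i + P.r - 1) P.r : ℚ) *
              ((p : ℚ)⁻¹) ^ (i + P.r) *
              PowerSeries.coeff (P.q - i) (lin (-(p : ℤ)) ^ (E d - P.q) * V) := by
          rw [Finset.mul_sum, ← Finset.sum_sub_distrib]
          refine Finset.sum_congr rfl fun i _ => ?_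
          rw [Acoef_apply, hG, hF, wt]
          ring
        rw [e1]
        refine VG.mono (VG.sub (c := 0) ?_ ?_) ht0
        · refine VG.sum fun i _ => ?_
          have h1 : VG p 0 ((Q : ℚ) * (Hs (i + P.r) (u + aa P k - 1).toNat -
                ((p : ℚ)⁻¹) ^ (i + P.r))) := by
            have := (VG.nat (p := p) Q).mul (Hs_mid (p := p) (s := i + P.r)
              (m := (u + aa P k - 1).toNat) (by omega) (by omega))
            simpa using this
          have h2 := (((VG.nat (p := p) (Nat.choose (i + P.r - 1) P.r)).mul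
            ((hz (i + P.r)).sub h1))).mul (hFi (P.q - i))
          simpa using h2
        · have h1 := (VG.nat (p := p) Q).mul (sing_int (p := p) (r := P.r) (q := P.q)
            (M := E d - P.q) (by omega) hV)
          simpa using h1
      · -- inner member, negative
        have hw0 : d ∈ (pc (aa P k)).erase u := by
          rw [Finset.mem_erase, pc, Finset.mem_Icc]
          omega
        obtain ⟨V, hV, hF⟩ := fac (p := p) (q := P.q) (E := E) (n := n) hw0 hdD (Or.inl rfl) (by
          intro w hw hdv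
          rw [Finset.mem_erase, Finset.mem_erase, pc, Finset.mem_Icc] at hw
          obtain ⟨s, hs⟩ := hdv
          have h1 : s < 2 := by
            by_contra hcon
            have : (p : ℤ) * 2 ≤ p * s := mul_le_mul_of_nonneg_left (by omega) hp0.le
            omega
          have h2 : -1 < s := by
            by_contra hcon
            have : (p : ℤ) * s ≤ p * (-1) := mul_le_mul_of_nonneg_left (by omega) hp0.le
            omega
          have h3 : s = 0 ∨ s = 1 := by omega
          rcases h3 with rfl | rfl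
          · apply hw.2.1; linarith
          · apply hw.1; linarith) (by omega)
        have e0 : d - u = (p : ℤ) := by rw [hu1]; ring
        rw [e0] at hF
        have hFi : WA p 0 0 (lin (p : ℤ) ^ (E d - P.q) * V) := by
          have := ((WA.lin0 (p := p) le_rfl (p : ℤ)).pow (E d - P.q)).mul hV
          simpa using this
        refine VG.sum fun i _ => ?_
        rw [Acoef_apply, hG, hF]
        have h2 := ((VG.nat (p := p) (Nat.choose (i + P.r - 1) P.r)).mul
            (VG_wt_zero (r := P.r) (a := aa P k) (u := u) (i := i) hz (by omega))).mul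
            (hFi (P.q - i))
        refine VG.mono h2 ?_
        simpa using ht0

end ZP
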